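import Mathlib

/-!
# P00 : the abstract structure `PAlg` (the T-prime quotient with its scalars)

See the page helper1_A0.md.  `Z` = scalars, `V` = span of the squares, `E` = operators, `G` = the free group.
-/

namespace E4

namespace P

/-- abstract structure -/
structure PAlg (G V Z E : Type) [Group G] [AddCommGroup V] [CommRing Z] [Module Z V] [Ring E]
    [Algebra Z E] where
  two : (2 : Z) = 0
  /-- bracket -/
  b : V →ₗ[Z] V →ₗ[Z] V
  /-- form -/
  k : V →ₗ[Z] V →ₗ[Z] Z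
  /-- vectors as operators -/
  l : V →ₗ[Z] E
  /-- the group -/
  ρ : G →* E
  /-- the squares -/
  t : G → V
  /-- conjugation action -/
  act : G →* (V →ₗ[Z] V)
  inj : ∀ z : Z, z • (1 : E) = 0 → z = 0
  l_inj : ∀ v : V, l v = 0 → v = 0
  l_b : ∀ u v, l (b u v) = l u * l v + l v * l u
  k_symm : ∀ u v, k u v = k v u
  R1 : ∀ u v w, b (b u v) w = k v w • u + k u w • v
  E1 : ∀ a c d, l a * l c * l d + l c * l a * l d + l c * l d * l a + k c d • l a
        = k (b a c) d • (1 : E)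
  l_t : ∀ g, l (t g) = ρ g + ρ g⁻¹
  cube : ∀ g, (ρ g + 1) ^ 3 = 0
  mid : ∀ g h, l (t g) * ρ h * l (t g) = 0
  l_act : ∀ g v, l (act g v) = ρ g * l v * ρ g⁻¹
  k_act : ∀ g u v, k (act g u) (act g v) = k u v
  span : ∀ v : V, v ∈ Submodule.span Z (Set.range t)
  can : ∀ y : E, (∀ u v w, k (b u v) w • y = 0) → y = 0
  canl : ∀ y : E, (∀ v, l v * y = 0) → y = 0
  canr : ∀ y : E, (∀ v, y * l v = 0) → y = 0
  schur : ∀ T : V →ₗ[Z] V, (∀ g, T (t g) ∈ AddSubgroup.closure (Set.range t)) →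
    (∀ u v, l (T u) * l v = l u * l (T v)) → ∃ z : Z, ∀ v, T v = z • v

variable {G V Z E : Type} [Group G] [AddCommGroup V] [CommRing Z] [Module Z V] [Ring E]
    [Algebra Z E]

namespace PAlg

variable (K : PAlg G V Z E)

/-- `tau(u,v,w) = k([u,v],w)` -/
def tau (u v w : V) : Z := K.k (K.b u v) w

/-- the rank one operator `E(c,d) = cd + k(c,d)` -/
def Ee (c d : V) : E := K.l c * K.l d + K.k c d • (1 : E)

/-- a `Z`-module without `tau`-torsion -/
def TF (M : Type) [AddCommGroup M] [Module Z M] : Prop :=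
  ∀ y : M, (∀ u v w, K.tau u v w • y = 0) → y = 0

/-- `X = rho g + 1` -/
def X (g : G) : E := K.ρ g + 1

end PAlg

end P

end E4
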