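import Pool.Agent.Lib.MP_8a95e3_al.P.P00

/-!
# P01 : characteristic two, the form, Cramer, the E-calculus
-/

namespace E4

namespace P

variable {G V Z E : Type} [Group G] [AddCommGroup V] [CommRing Z] [Module Z V] [Ring E]
    [Algebra Z E]

namespace PAlg

variable (K : PAlg G V Z E)

include K in
theorem zz (z : Z) : z + z = 0 := by
  have h := K.two
  have : z + z = 2 * z := by ring
  rw [this, h, zero_mul]

include K in
theorem vv (v : V) : v + v = 0 := by
  have h := K.zz 1
  have : v + v = (1 + 1 : Z) • v := by rw [add_smul, one_smul]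
  rw [this, h, zero_smul]

include K in
theorem ee (x : E) : x + x = 0 := by
  have h := K.zz 1
  have : x + x = (1 + 1 : Z) • x := by rw [add_smul, one_smul]
  rw [this, h, zero_smul]

include K in
theorem neg_e (x : E) : -x = x := by
  rw [neg_eq_iff_add_eq_zero]; exact K.ee x

include K in
theorem neg_v (x : V) : -x = x := by
  rw [neg_eq_iff_add_eq_zero]; exact K.vv x

include K in
theorem neg_z (x : Z) : -x = x := by
  rw [neg_eq_iff_add_eq_zero]; exact K.zz x

include K in
theorem sub_e (x y : E) : x - y = x + y := by rw [sub_eq_add_neg, K.neg_e]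

include K in
theorem sub_v (x y : V) : x - y = x + y := by rw [sub_eq_add_neg, K.neg_v]

include K in
theorem sub_z (x y : Z) : x - y = x + y := by rw [sub_eq_add_neg, K.neg_z]

include K in
theorem eq_e {x y : E} (h : x + y = 0) : x = y := by
  rw [← sub_eq_zero, K.sub_e]; exact h

include K in
theorem eq_v {x y : V} (h : x + y = 0) : x = y := by
  rw [← sub_eq_zero, K.sub_v]; exact h

include K in
theorem eq_z {x y : Z} (h : x + y = 0) : x = y := by
  rw [← sub_eq_zero, K.sub_z]; exact h

/-- cancel in `E` -/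
theorem l_eq {u v : V} (h : K.l u = K.l v) : u = v := by
  apply K.eq_v
  apply K.l_inj
  rw [map_add, h, K.ee]

theorem b_symm (u v : V) : K.b u v = K.b v u := by
  apply K.l_eq
  rw [K.l_b, K.l_b, add_comm]

theorem b_self (u : V) : K.b u u = 0 := by
  apply K.l_inj
  rw [K.l_b, K.ee]

theorem jac (u v w : V) : K.b (K.b u v) w + K.b (K.b v w) u + K.b (K.b w u) v = 0 := by
  rw [K.R1, K.R1, K.R1, K.k_symm w u, K.k_symm w v, K.k_symm v u]
  have h1 := K.vv (K.k u v • w)
  have h2 := K.vv (K.k v w • u)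
  have h3 := K.vv (K.k u w • v)
  calc _ = (K.k u v • w + K.k u v • w) + (K.k v w • u + K.k v w • u) + (K.k u w • v + K.k u w • v) := by abel
    _ = 0 := by rw [h1, h2, h3]; simp

include K in
/-- scalars are determined by their action on vectors -/
theorem faith (z : Z) (h : ∀ s : V, z • s = 0) : z = 0 := by
  apply K.inj
  apply K.canl
  intro v
  rw [mul_smul_comm, mul_one, ← map_smul, h v, map_zero]

include K in
theorem faith_eq (z z' : Z) (h : ∀ s : V, z • s = z' • s) : z = z' := by
  rw [← sub_eq_zero]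
  apply K.faith
  intro s
  rw [sub_smul, h s, sub_self]

/-- Cramer, form 1 -/
theorem cramer (p q i s : V) :
    K.tau p q i • s = K.k s i • K.b p q + K.k q s • K.b p i + K.k p s • K.b q i := by
  have h1 := K.R1 s (K.b p q) i
  have h2 : K.b s (K.b p q) = K.k q s • p + K.k p s • q := by
    rw [K.b_symm, K.R1]
  rw [h2, map_add, map_smul, map_smul, LinearMap.add_apply, LinearMap.smul_apply,
    LinearMap.smul_apply] at h1
  have h3 : K.tau p q i • s = (K.k q s • K.b p i + K.k p s • K.b q i) + K.k s i • K.b p q := by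
    rw [h1]
    unfold tau
    rw [add_assoc, K.vv, add_zero]
  rw [h3]; abel

theorem tau_symm (p q i : V) : K.tau p q i = K.tau p i q := by
  apply K.faith_eq
  intro s
  rw [K.cramer, K.cramer, K.k_symm s i, K.k_symm q s, K.b_symm i q]
  abel

theorem tau_symm' (p q i : V) : K.tau p q i = K.tau q p i := by
  unfold tau
  rw [K.b_symm]

theorem tau_cyc (p q i : V) : K.tau p q i = K.tau q i p := by
  rw [K.tau_symm' p q i, K.tau_symm q p i]

/-- `tau` as a pairing with the first variable -/
theorem tau_left (p q i : V) : K.tau p q i = K.k p (K.b q i) := by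
  rw [K.tau_cyc]
  unfold tau
  rw [K.k_symm]

theorem tau_self (p q : V) : K.tau p p q = 0 := by
  unfold tau
  rw [K.b_self, map_zero, LinearMap.zero_apply]

theorem tau_self' (p q : V) : K.tau p q q = 0 := by
  rw [K.tau_cyc, K.tau_self]

theorem tau_self'' (p q : V) : K.tau p q p = 0 := by
  rw [K.tau_symm, K.tau_self]

/-- `k([p,q],[i,j])` -/
theorem K22 (p q i j : V) :
    K.k (K.b p q) (K.b i j) = K.k p i * K.k q j + K.k p j * K.k q i := by
  have h : K.k (K.b p q) (K.b i j) = K.k (K.b (K.b p q) i) j := by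
    have := K.tau_left (K.b p q) i j
    unfold tau at this
    rw [this]
  rw [h, K.R1, map_add, LinearMap.add_apply, map_smul, map_smul, LinearMap.smul_apply,
    LinearMap.smul_apply, smul_eq_mul, smul_eq_mul]
  ring

/-- Cramer, form 2 (dual) -/
theorem cramer' (p q i s : V) :
    K.tau p q i • s = K.tau p q s • i + K.tau q i s • p + K.tau i p s • q := by
  -- `[[p,q],[i,s]]` in two ways
  have e1 : K.b (K.b p q) (K.b i s) = K.k q (K.b i s) • p + K.k p (K.b i s) • q := K.R1 p q (K.b i s)
  have e2 : K.b (K.b i s) (K.b p q) = K.k s (K.b p q) • i + K.k i (K.b p q) • s := K.R1 i s (K.b p q)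
  rw [K.b_symm] at e1
  rw [e2] at e1
  have a1 : K.k s (K.b p q) = K.tau p q s := by rw [K.k_symm]; rfl
  have a2 : K.k i (K.b p q) = K.tau p q i := by rw [K.k_symm]; rfl
  have a3 : K.k q (K.b i s) = K.tau q i s := by rw [K.tau_left]
  have a4 : K.k p (K.b i s) = K.tau i p s := by rw [← K.tau_left, K.tau_symm']
  rw [a1, a2, a3, a4] at e1
  have : K.tau p q i • s = (K.tau p q s • i + K.tau p q i • s) + K.tau p q s • i := by
    have := K.vv (K.tau p q s • i)
    calc K.tau p q i • s = K.tau p q i • s + (K.tau p q s • i + K.tau p q s • i) := by rw [this, add_zero]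
      _ = _ := by abel
  rw [this, e1]; abel

theorem Ee_add_left (a b c : V) : K.Ee (a + b) c = K.Ee a c + K.Ee b c := by
  unfold Ee
  rw [map_add, map_add, LinearMap.add_apply, add_mul, add_smul]; abel

theorem Ee_add_right (a b c : V) : K.Ee a (b + c) = K.Ee a b + K.Ee a c := by
  unfold Ee
  rw [map_add, map_add, mul_add, add_smul]; abel

theorem Ee_smul_left (z : Z) (a c : V) : K.Ee (z • a) c = z • K.Ee a c := by
  unfold Ee
  rw [map_smul, map_smul, LinearMap.smul_apply, smul_mul_assoc, smul_add, smul_eq_mul, mul_smul]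

theorem Ee_smul_right (z : Z) (a c : V) : K.Ee a (z • c) = z • K.Ee a c := by
  unfold Ee
  rw [map_smul, map_smul, mul_smul_comm, smul_add, smul_eq_mul, mul_smul]

/-- `E` as a bilinear map -/
def EeL : V →ₗ[Z] V →ₗ[Z] E :=
  LinearMap.mk₂ Z K.Ee K.Ee_add_left (fun z a c => K.Ee_smul_left z a c) K.Ee_add_right
    (fun z a c => K.Ee_smul_right z a c)

theorem EeL_apply (c d : V) : K.EeL c d = K.Ee c d := rfl

theorem Ee_zero_left (a : V) : K.Ee 0 a = 0 := by
  rw [← EeL_apply, map_zero, LinearMap.zero_apply]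

theorem Ee_zero_right (a : V) : K.Ee a 0 = 0 := by
  rw [← EeL_apply, map_zero]

theorem Ee_symm (c d : V) : K.Ee c d + K.Ee d c = K.l (K.b c d) := by
  unfold Ee
  rw [K.l_b, K.k_symm d c]
  have := K.ee (K.k c d • (1 : E))
  calc _ = (K.l c * K.l d + K.l d * K.l c) + (K.k c d • (1 : E) + K.k c d • (1 : E)) := by abel
    _ = _ := by rw [this, add_zero]

/-- `(E2)` -/
theorem l_mul_Ee (a c d : V) : K.l a * K.Ee c d = K.Ee c (K.b a d) := by
  have h := K.E1 a c d
  have hk : K.k (K.b a c) d = K.k c (K.b a d) := by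
    have := K.tau_cyc a d c
    have h2 := K.tau_symm a c d
    have h3 := K.tau_left c a d
    have h4 := K.tau_symm' a c d
    unfold tau at *
    rw [h4, h3]
  rw [hk] at h
  apply K.eq_e
  unfold Ee
  rw [K.l_b, mul_add, mul_add, mul_smul_comm, mul_one, ← h]
  have := K.ee (K.l a * K.l c * K.l d + K.l c * K.l a * K.l d + K.l c * K.l d * K.l a + K.k c d • K.l a)
  calc _ = (K.l a * K.l c * K.l d + K.l c * K.l a * K.l d + K.l c * K.l d * K.l a + K.k c d • K.l a)
      + (K.l a * K.l c * K.l d + K.l c * K.l a * K.l d + K.l c * K.l d * K.l a + K.k c d • K.l a) := by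
        rw [← mul_assoc, ← mul_assoc, ← mul_assoc]; abel
    _ = 0 := this

/-- `(E2')` -/
theorem Ee_mul_l (a c d : V) : K.Ee c d * K.l a = K.Ee (K.b c a) d := by
  have h := K.E1 a c d
  have hk : K.k (K.b a c) d = K.k (K.b c a) d := by rw [K.b_symm]
  rw [hk] at h
  apply K.eq_e
  unfold Ee
  rw [K.l_b, add_mul, add_mul, smul_mul_assoc, one_mul, ← h]
  have := K.ee (K.l a * K.l c * K.l d + K.l c * K.l a * K.l d + K.l c * K.l d * K.l a + K.k c d • K.l a)
  calc _ = (K.l a * K.l c * K.l d + K.l c * K.l a * K.l d + K.l c * K.l d * K.l a + K.k c d • K.l a)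
      + (K.l a * K.l c * K.l d + K.l c * K.l a * K.l d + K.l c * K.l d * K.l a + K.k c d • K.l a) := by
        abel
    _ = 0 := this

/-- `(E3)` -/
theorem Ee_mul_Ee (a b c d : V) : K.Ee a b * K.Ee c d = K.k a d • K.Ee c b := by
  have h1 : K.Ee a b * K.Ee c d = K.l a * (K.l b * K.Ee c d) + K.k a b • K.Ee c d := by
    conv_lhs => unfold Ee
    conv_rhs => unfold Ee
    rw [add_mul, smul_mul_assoc, one_mul, mul_assoc]
  rw [h1, K.l_mul_Ee, K.l_mul_Ee]
  have h2 : K.b a (K.b b d) = K.k d a • b + K.k b a • d := by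
    rw [K.b_symm, K.R1]
  rw [h2, K.Ee_add_right, K.Ee_smul_right, K.Ee_smul_right, K.k_symm b a, add_assoc, K.ee, add_zero,
    K.k_symm d a]

end PAlg

end P

end E4
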