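import Pool.Agent.Lib.MP_8a95e3_al.P.P01

/-!
# P02 : torsion free modules, (T1), faithfulness of `E(c,d)`
-/

namespace E4

namespace P

variable {G V Z E : Type} [Group G] [AddCommGroup V] [CommRing Z] [Module Z V] [Ring E]
    [Algebra Z E]

namespace PAlg

variable (K : PAlg G V Z E)

theorem tf_E : K.TF E := fun y h => K.can y h

theorem tf_Z : K.TF Z := by
  intro z h
  apply K.inj
  apply K.can
  intro u v w
  have := h u v w
  unfold tau at this
  rw [← mul_smul, ← smul_eq_mul, this, zero_smul]

theorem tf_V : K.TF V := by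
  intro v h
  apply K.l_inj
  apply K.can
  intro a b c
  have := h a b c
  unfold tau at this
  rw [← map_smul, this, map_zero]

theorem tf_hom {M N : Type} [AddCommGroup M] [Module Z M] [AddCommGroup N] [Module Z N]
    (hN : K.TF N) : K.TF (M →ₗ[Z] N) := by
  intro f h
  ext m
  apply hN
  intro u v w
  have := h u v w
  rw [← LinearMap.smul_apply, this, LinearMap.zero_apply]

theorem tf_fun {ι : Type} {N : Type} [AddCommGroup N] [Module Z N]
    (hN : K.TF N) : K.TF (ι → N) := by
  intro f h
  funext m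
  apply hN
  intro u v w
  have := h u v w
  rw [← Pi.smul_apply, this, Pi.zero_apply]

/-- **(T1)** -/
theorem T1 {M : Type} [AddCommGroup M] [Module Z M] (hM : K.TF M) (r : V →ₗ[Z] M)
    (h : ∀ p q, r (K.b p q) = 0) : r = 0 := by
  ext u
  rw [LinearMap.zero_apply]
  apply hM
  intro v w s
  have h1 := K.R1 (K.b v w) u s
  have h2 := congrArg r h1
  rw [h, map_add, map_smul, map_smul, h, smul_zero, zero_add] at h2
  have h3 : K.tau v w s = K.k (K.b v w) s := rfl
  rw [h3, ← h2]

/-- cancellation of `k` -/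
theorem can_k {M : Type} [AddCommGroup M] [Module Z M] (hM : K.TF M) (y : M)
    (h : ∀ u v, K.k u v • y = 0) : y = 0 := by
  apply hM
  intro u v w
  exact h _ _

/-- two vectors with the same pairings are equal -/
theorem k_eq {u v : V} (h : ∀ p, K.k p u = K.k p v) : u = v := by
  apply K.eq_v
  apply K.tf_V
  intro a b c
  have h1 := K.cramer' a b c (u + v)
  have h2 : ∀ p q : V, K.tau p q (u + v) = 0 := by
    intro p q
    unfold tau
    rw [map_add, h, K.zz]
  rw [h1, h2, h2, h2]
  simp

/-- two vectors with the same brackets are equal -/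
theorem b_eq {u v : V} (h : ∀ p, K.b p u = K.b p v) : u = v := by
  apply K.k_eq
  have : (K.k.flip u - K.k.flip v) = 0 := by
    apply K.T1 K.tf_Z
    intro p q
    rw [LinearMap.sub_apply, LinearMap.flip_apply, LinearMap.flip_apply]
    have h1 : ∀ w, K.k (K.b p q) w = K.k p (K.b q w) := by
      intro w
      exact K.tau_left p q w
    rw [h1, h1, h, sub_self]
  intro p
  have h2 := congrArg (fun f => f p) this
  simp only [LinearMap.sub_apply, LinearMap.flip_apply, LinearMap.zero_apply] at h2
  exact sub_eq_zero.1 h2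

/-- `E(c,v) = 0` for all `c` implies `v = 0` -/
theorem Ee_inj {v : V} (h : ∀ c, K.Ee c v = 0) : v = 0 := by
  apply K.k_eq
  intro p
  rw [map_zero]
  apply K.inj
  apply K.can_k K.tf_E
  intro c r
  -- E(p,r') E(c,v) = k(p,v) E(c,r')
  have h1 : ∀ c r : V, K.k p v • K.Ee c r = 0 := by
    intro c r
    rw [← K.Ee_mul_Ee, h, mul_zero]
  -- E(c,r)+E(r,c) = [c,r]; so k(p,v) l(b c r) = 0, T1, k(p,v) l = 0
  have h2 : (K.k p v • K.l) = 0 := by
    apply K.T1 K.tf_E
    intro c r
    rw [LinearMap.smul_apply, ← K.Ee_symm, smul_add, h1, h1, add_zero]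
  have h3 : K.k p v • (1 : E) = 0 := by
    apply K.canl
    intro s
    rw [mul_smul_comm, mul_one, ← LinearMap.smul_apply, h2, LinearMap.zero_apply]
  rw [h3, smul_zero]

/-- `E(v,d) = 0` for all `d` implies `v = 0` -/
theorem Ee_inj' {v : V} (h : ∀ d, K.Ee v d = 0) : v = 0 := by
  apply K.k_eq
  intro p
  rw [map_zero]
  apply K.inj
  apply K.canl
  intro s
  rw [mul_smul_comm, mul_one]
  have h1 : ∀ c r : V, K.k v p • K.Ee c r = 0 := by
    intro c r
    rw [← K.Ee_mul_Ee v r c p] 
    rw [h, zero_mul]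
  have h2 : (K.k v p • K.l) = 0 := by
    apply K.T1 K.tf_E
    intro c r
    rw [LinearMap.smul_apply, ← K.Ee_symm, smul_add, h1, h1, add_zero]
  rw [K.k_symm p v, ← LinearMap.smul_apply, h2, LinearMap.zero_apply]

/-- an operator which kills all `E(c,d)` from the left is zero -/
theorem mul_Ee_zero {y : E} (h : ∀ c d, y * K.Ee c d = 0) : y = 0 := by
  apply K.canr
  have h2 : (LinearMap.mulLeft Z y) ∘ₗ K.l = 0 := by
    apply K.T1 K.tf_E
    intro c r
    rw [LinearMap.comp_apply, LinearMap.mulLeft_apply, ← K.Ee_symm, mul_add, h, h, add_zero]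
  intro v
  have := congrArg (fun f => f v) h2
  simpa using this

/-- an operator killed by all `E(c,d)` on the left is zero -/
theorem Ee_mul_zero {y : E} (h : ∀ c d, K.Ee c d * y = 0) : y = 0 := by
  apply K.canl
  have h2 : (LinearMap.mulRight Z y) ∘ₗ K.l = 0 := by
    apply K.T1 K.tf_E
    intro c r
    rw [LinearMap.comp_apply, LinearMap.mulRight_apply, ← K.Ee_symm, add_mul, h, h, add_zero]
  intro v
  have := congrArg (fun f => f v) h2
  simpa using this

/-- cancellation of `k([p,q],[r,s])` -/
theorem can_k22 {M : Type} [AddCommGroup M] [Module Z M] (hM : K.TF M) (y : M)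
    (h : ∀ p q r s, K.k (K.b p q) (K.b r s) • y = 0) : y = 0 := by
  apply hM
  intro u v w
  have h2 : ((LinearMap.toSpanSingleton Z M y) ∘ₗ (K.k (K.b u v))) = 0 := by
    apply K.T1 hM
    intro p q
    rw [LinearMap.comp_apply, LinearMap.toSpanSingleton_apply, h]
  have := congrArg (fun f => f w) h2
  simpa [tau] using this

/-- cancellation of `k([p,u],[d,[c1,c2]])` -/
theorem can_k23 {M : Type} [AddCommGroup M] [Module Z M] (hM : K.TF M) (y : M)
    (h : ∀ p u d c e, K.k (K.b p u) (K.b d (K.b c e)) • y = 0) : y = 0 := by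
  apply K.can_k22 hM
  intro p u d s
  have h2 : ((LinearMap.toSpanSingleton Z M y) ∘ₗ (K.k (K.b p u)) ∘ₗ (K.b d)) = 0 := by
    apply K.T1 hM
    intro c e
    rw [LinearMap.comp_apply, LinearMap.comp_apply, LinearMap.toSpanSingleton_apply, h]
  have := congrArg (fun f => f s) h2
  simpa using this

end PAlg

end P

end E4
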