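import Pool.Agent.Lib.MP_8a95e3_al.P.P02

/-!
# P03 : T-vectors, the vectors `w`, the linearised cubic condition
-/

namespace E4

namespace P

variable {G V Z E : Type} [Group G] [AddCommGroup V] [CommRing Z] [Module Z V] [Ring E]
    [Algebra Z E]

namespace PAlg

variable (K : PAlg G V Z E)

theorem rinv (g : G) : K.ρ g * K.ρ g⁻¹ = 1 := by
  rw [← map_mul, mul_inv_cancel, map_one]

theorem rinv' (g : G) : K.ρ g⁻¹ * K.ρ g = 1 := by
  rw [← map_mul, inv_mul_cancel, map_one]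

/-- `g² = 1 + T_g` -/
theorem sq (g : G) : K.ρ g * K.ρ g = 1 + K.l (K.t g) := by
  have h := K.cube g
  have h1 : (K.ρ g + 1) ^ 3 = (K.ρ g * K.ρ g * K.ρ g + K.ρ g * K.ρ g + K.ρ g + 1)
      + (K.ρ g * K.ρ g + K.ρ g * K.ρ g) + (K.ρ g + K.ρ g) := by
    noncomm_ring
  rw [h1, K.ee, K.ee, add_zero, add_zero] at h
  have h2 := congrArg (fun y => y * K.ρ g⁻¹) h
  simp only [add_mul, zero_mul, one_mul, mul_assoc, K.rinv, mul_one] at h2
  rw [K.l_t]
  apply K.eq_e
  calc _ = K.ρ g * K.ρ g + K.ρ g + 1 + K.ρ g⁻¹ := by abel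
    _ = 0 := h2

theorem XX (g : G) : K.X g * K.X g = K.l (K.t g) := by
  unfold X
  have := K.sq g
  rw [add_mul, mul_add, this, mul_one, one_mul]
  have h := K.ee (K.ρ g + 1)
  calc _ = K.l (K.t g) + ((K.ρ g + 1) + (K.ρ g + 1)) := by abel
    _ = _ := by rw [h, add_zero]

theorem X_T (g : G) : K.X g * K.l (K.t g) = 0 := by
  rw [← K.XX, ← mul_assoc]
  have := K.cube g
  rw [pow_three', ← X] at this
  exact this

theorem T_X (g : G) : K.l (K.t g) * K.X g = 0 := by
  rw [← K.XX]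
  have := K.cube g
  rw [pow_three', ← X] at this
  exact this

theorem TT (g : G) : K.l (K.t g) * K.l (K.t g) = 0 := by
  nth_rewrite 1 [← K.XX]
  rw [mul_assoc, K.X_T, mul_zero]

theorem r_T (g : G) : K.ρ g * K.l (K.t g) = K.l (K.t g) := by
  have := K.X_T g
  rw [X, add_mul, one_mul] at this
  exact K.eq_e this

theorem T_r (g : G) : K.l (K.t g) * K.ρ g = K.l (K.t g) := by
  have := K.T_X g
  rw [X, mul_add, mul_one] at this
  exact K.eq_e this

theorem T_r' (g : G) : K.l (K.t g) * K.ρ g⁻¹ = K.l (K.t g) := by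
  have := K.T_r g
  conv_lhs => rw [← this]
  rw [mul_assoc, K.rinv, mul_one]

theorem r_T' (g : G) : K.ρ g⁻¹ * K.l (K.t g) = K.l (K.t g) := by
  have := K.r_T g
  conv_lhs => rw [← this]
  rw [← mul_assoc, K.rinv', one_mul]

theorem t_inv (g : G) : K.t g⁻¹ = K.t g := by
  apply K.l_eq
  rw [K.l_t, K.l_t, inv_inv, add_comm]

theorem act_t_self (g : G) : K.act g (K.t g) = K.t g := by
  apply K.l_eq
  rw [K.l_act, K.r_T, K.T_r']

theorem act_t_self' (g : G) : K.act g⁻¹ (K.t g) = K.t g := by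
  rw [← K.t_inv, K.act_t_self]

theorem t_conj (h g : G) : K.t (h * g * h⁻¹) = K.act h (K.t g) := by
  apply K.l_eq
  rw [K.l_act, K.l_t, K.l_t, mul_add, add_mul, map_mul, map_mul]
  have : (h * g * h⁻¹)⁻¹ = h * g⁻¹ * h⁻¹ := by group
  rw [this, map_mul, map_mul]

theorem act_b (g : G) (u v : V) : K.act g (K.b u v) = K.b (K.act g u) (K.act g v) := by
  apply K.l_eq
  have h : ∀ a c : E, K.ρ g * (a * c) * K.ρ g⁻¹ = (K.ρ g * a * K.ρ g⁻¹) * (K.ρ g * c * K.ρ g⁻¹) := by
    intro a c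
    have : (K.ρ g * a * K.ρ g⁻¹) * (K.ρ g * c * K.ρ g⁻¹)
        = K.ρ g * a * (K.ρ g⁻¹ * K.ρ g) * c * K.ρ g⁻¹ := by noncomm_ring
    rw [this, K.rinv', mul_one, mul_assoc (K.ρ g) a c]
  rw [K.l_act, K.l_b, K.l_b, mul_add, add_mul, K.l_act, K.l_act, h, h]

theorem act_inv (g : G) (v : V) : K.act g (K.act g⁻¹ v) = v := by
  have : (K.act g * K.act g⁻¹) v = v := by
    rw [← map_mul, mul_inv_cancel, map_one]; rfl
  exact this

theorem act_inv' (g : G) (v : V) : K.act g⁻¹ (K.act g v) = v := by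
  have := K.act_inv g⁻¹ v
  rwa [inv_inv] at this

theorem act_mul (g h : G) (v : V) : K.act (g * h) v = K.act g (K.act h v) := by
  rw [map_mul]; rfl

/-- moving a vector through a group element -/
theorem l_r (x : G) (u : V) : K.l u * K.ρ x = K.ρ x * K.l (K.act x⁻¹ u) := by
  rw [K.l_act, inv_inv, ← mul_assoc, ← mul_assoc, K.rinv, one_mul]

theorem r_l (x : G) (u : V) : K.ρ x * K.l u = K.l (K.act x u) * K.ρ x := by
  rw [K.l_act, mul_assoc, K.rinv', mul_one]

theorem k_act' (x : G) (u v : V) : K.k (K.act x u) v = K.k u (K.act x⁻¹ v) := by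
  rw [← K.k_act x⁻¹, K.act_inv']

theorem k_act'' (x : G) (u v : V) : K.k (K.act x⁻¹ u) v = K.k u (K.act x v) := by
  rw [K.k_act' x⁻¹, inv_inv]

/-- `T a T = 0` for vectors `a` -/
theorem TaT (g : G) (a : V) : K.l (K.t g) * K.l a * K.l (K.t g) = 0 := by
  have h := K.span a
  induction h using Submodule.span_induction with
  | mem x hx =>
    obtain ⟨h, rfl⟩ := hx
    rw [K.l_t h, mul_add, add_mul, K.mid, K.mid, add_zero]
  | zero => rw [map_zero, mul_zero, zero_mul]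
  | add x y _ _ hx hy => rw [map_add, mul_add, add_mul, hx, hy, add_zero]
  | smul z x _ hx => rw [map_smul, mul_smul_comm, smul_mul_assoc, hx, smul_zero]

/-- `T a rho h T = 0` -/
theorem TahT (g : G) (a : V) (h : G) : K.l (K.t g) * (K.l a * K.ρ h) * K.l (K.t g) = 0 := by
  have h' := K.span a
  induction h' using Submodule.span_induction with
  | mem x hx =>
    obtain ⟨h, rfl⟩ := hx
    rw [K.l_t h, add_mul, mul_add, add_mul, ← map_mul, ← map_mul, K.mid, K.mid, add_zero]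
  | zero => rw [map_zero, zero_mul, mul_zero, zero_mul]
  | add x y _ _ hx hy => rw [map_add, add_mul, mul_add, add_mul, hx, hy, add_zero]
  | smul z x _ hx => rw [map_smul, smul_mul_assoc, mul_smul_comm, smul_mul_assoc, hx, smul_zero]

theorem k_TT (g : G) : K.k (K.t g) (K.t g) = 0 := by
  apply K.faith
  intro a
  apply K.l_inj
  have h := K.E1 a (K.t g) (K.t g)
  have h2 : K.k (K.b a (K.t g)) (K.t g) = 0 := K.tau_self' a (K.t g)
  rw [K.TaT, mul_assoc, K.TT, zero_mul, mul_zero, h2, zero_smul, add_zero, add_zero, zero_add] at h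
  rw [map_smul, h]

theorem k_T_T (g : G) (v : V) : K.k v (K.t g) • K.t g = 0 := by
  have h1 : K.b (K.b (K.t g) v) (K.t g) = 0 := by
    apply K.l_inj
    rw [K.l_b, K.l_b, add_mul, mul_add, K.TaT]
    rw [← mul_assoc, K.TT, mul_assoc (K.l v), K.TT, mul_zero, zero_mul, ← mul_assoc, K.TaT]
    simp
  rw [K.R1, K.k_TT, zero_smul, add_zero] at h1
  exact h1

theorem k_T_lT (g : G) (v : V) : K.k v (K.t g) • K.l (K.t g) = 0 := by
  rw [← map_smul, K.k_T_T, map_zero]

/-- action of a square -/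
theorem act_sq (g : G) (v : V) : K.act (g * g) v = v + K.b (K.t g) v := by
  apply K.l_eq
  have h1 : K.ρ (g * g) = 1 + K.l (K.t g) := by rw [map_mul, K.sq]
  have h2 : K.ρ (g * g)⁻¹ = 1 + K.l (K.t g) := by
    have : (g * g)⁻¹ = g⁻¹ * g⁻¹ := by group
    rw [this, map_mul, K.sq, K.t_inv]
  rw [K.l_act, h1, h2, map_add, K.l_b]
  have := K.TaT g v
  calc _ = K.l v + (K.l (K.t g) * K.l v + K.l v * K.l (K.t g)) + K.l (K.t g) * K.l v * K.l (K.t g) := by
        noncomm_ring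
    _ = _ := by rw [this, add_zero]

/-- the square of `x` acts on `E(c,d)` as on vectors -/
theorem sq_Ee (x : G) (c d : V) : K.ρ x * (K.ρ x * K.Ee c d) = K.Ee c (K.act (x * x) d) := by
  rw [← mul_assoc, K.sq, add_mul, one_mul, K.l_mul_Ee, K.act_sq, K.Ee_add_right]

theorem sq_Ee' (x : G) (c d : V) : K.ρ (x * x) * K.Ee c d = K.Ee c (K.act (x * x) d) := by
  rw [map_mul, mul_assoc, K.sq_Ee]

/-- existence of `w` -/
theorem w_ex (x : G) (c : V) : ∃ w : V, K.l w = K.ρ x * K.l c + K.l c * K.ρ x⁻¹ := by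
  have h' := K.span c
  induction h' using Submodule.span_induction with
  | mem y hy =>
    obtain ⟨g, rfl⟩ := hy
    refine ⟨K.t (x * (g * g)) + K.t x, ?_⟩
    have h1 : K.ρ (g * g) = 1 + K.l (K.t g) := by rw [map_mul, K.sq]
    have h2 : K.ρ (g * g)⁻¹ = 1 + K.l (K.t g) := by
      have : (g * g)⁻¹ = g⁻¹ * g⁻¹ := by group
      rw [this, map_mul, K.sq, K.t_inv]
    rw [map_add, K.l_t (x * (g * g)), mul_inv_rev, map_mul K.ρ x, map_mul K.ρ _ x⁻¹, h1, h2, K.l_t x]
    have := K.ee (K.ρ x + K.ρ x⁻¹)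
    calc _ = (K.ρ x * K.l (K.t g) + K.l (K.t g) * K.ρ x⁻¹) + ((K.ρ x + K.ρ x⁻¹) + (K.ρ x + K.ρ x⁻¹)) := by
          noncomm_ring
      _ = _ := by rw [this, add_zero]
  | zero => exact ⟨0, by simp⟩
  | add y z _ _ hy hz =>
    obtain ⟨a, ha⟩ := hy
    obtain ⟨b, hb⟩ := hz
    exact ⟨a + b, by rw [map_add, ha, hb, map_add]; noncomm_ring⟩
  | smul z y _ hy =>
    obtain ⟨a, ha⟩ := hy
    exact ⟨z • a, by rw [map_smul, ha, map_smul, smul_add, mul_smul_comm, smul_mul_assoc]⟩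

/-- the vector `w_c = xc + c x⁻¹` as a linear map -/
noncomputable def W (x : G) : V →ₗ[Z] V where
  toFun c := (K.w_ex x c).choose
  map_add' a c := by
    apply K.l_eq
    have h1 := (K.w_ex x (a + c)).choose_spec
    have h2 := (K.w_ex x a).choose_spec
    have h3 := (K.w_ex x c).choose_spec
    calc _ = _ := h1
      _ = (K.ρ x * K.l a + K.l a * K.ρ x⁻¹) + (K.ρ x * K.l c + K.l c * K.ρ x⁻¹) := by
        rw [map_add]; noncomm_ring
      _ = _ := by rw [map_add]; exact congrArg₂ _ h2.symm h3.symm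
  map_smul' z c := by
    apply K.l_eq
    have h1 := (K.w_ex x (z • c)).choose_spec
    have h2 := (K.w_ex x c).choose_spec
    calc _ = _ := h1
      _ = z • (K.ρ x * K.l c + K.l c * K.ρ x⁻¹) := by
        rw [map_smul, smul_add, mul_smul_comm, smul_mul_assoc]
      _ = _ := by rw [RingHom.id_apply, map_smul]; exact congrArg (fun y => z • y) h2.symm

theorem l_W (x : G) (c : V) : K.l (K.W x c) = K.ρ x * K.l c + K.l c * K.ρ x⁻¹ :=
  (K.w_ex x c).choose_spec

theorem t_mul_sq (x g : G) : K.t (x * (g * g)) = K.t x + K.W x (K.t g) := by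
  apply K.l_eq
  have h1 : K.ρ (g * g) = 1 + K.l (K.t g) := by rw [map_mul, K.sq]
  have h2 : K.ρ (g * g)⁻¹ = 1 + K.l (K.t g) := by
    have : (g * g)⁻¹ = g⁻¹ * g⁻¹ := by group
    rw [this, map_mul, K.sq, K.t_inv]
  rw [map_add, K.l_W, K.l_t (x * (g * g)), mul_inv_rev, map_mul K.ρ x, map_mul K.ρ _ x⁻¹, h1, h2, K.l_t x]
  noncomm_ring

theorem r_inv_eq (x : G) : K.ρ x⁻¹ = 1 + K.X x + K.l (K.t x) := by
  rw [K.l_t, X]
  have := K.ee (K.ρ x)
  have h1 := K.ee (1 : E)
  calc _ = ((1 : E) + 1) + (K.ρ x + K.ρ x) + K.ρ x⁻¹ := by rw [this, h1]; simp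
    _ = _ := by abel

theorem r_eq (x : G) : K.ρ x = 1 + K.X x := by
  rw [X]
  have h1 := K.ee (1 : E)
  calc K.ρ x = ((1 : E) + 1) + K.ρ x := by rw [h1]; simp
    _ = _ := by abel

/-- linearised cubic condition -/
theorem XcX (x : G) (c : V) :
    K.X x * K.l c * K.X x = K.l (K.t x) * K.l c + K.l c * K.l (K.t x) := by
  have h' := K.span c
  induction h' using Submodule.span_induction with
  | mem y hy =>
    obtain ⟨g, rfl⟩ := hy
    have h1 : K.ρ (g * g) = 1 + K.l (K.t g) := by rw [map_mul, K.sq]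
    have h2 := K.XX (x * (g * g))
    have h3 : K.X (x * (g * g)) = K.X x + K.ρ x * K.l (K.t g) := by
      unfold X
      rw [map_mul, h1]
      noncomm_ring
    rw [h3, K.t_mul_sq, map_add, K.l_W, ← K.XX x] at h2
    have h4 := K.mid g x
    have h5 : (K.X x + K.ρ x * K.l (K.t g)) * (K.X x + K.ρ x * K.l (K.t g))
        = K.X x * K.X x + (K.X x * (K.ρ x * K.l (K.t g)) + K.ρ x * K.l (K.t g) * K.X x) := by
      have : K.ρ x * K.l (K.t g) * (K.ρ x * K.l (K.t g)) = 0 := by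
        have : K.ρ x * K.l (K.t g) * (K.ρ x * K.l (K.t g))
          = K.ρ x * (K.l (K.t g) * K.ρ x * K.l (K.t g)) := by noncomm_ring
        rw [this, h4, mul_zero]
      rw [add_mul, mul_add, mul_add, this]; abel
    rw [h5, add_right_inj] at h2
    rw [K.r_eq x, K.r_inv_eq x] at h2
    have h6 : K.X x * ((1 + K.X x) * K.l (K.t g)) + (1 + K.X x) * K.l (K.t g) * K.X x
        = K.X x * K.l (K.t g) + K.l (K.t x) * K.l (K.t g) + K.l (K.t g) * K.X x
          + K.X x * K.l (K.t g) * K.X x := by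
      rw [← K.XX x]; noncomm_ring
    have h7 : (1 + K.X x) * K.l (K.t g) + K.l (K.t g) * (1 + K.X x + K.l (K.t x))
        = (K.l (K.t g) + K.l (K.t g)) + K.X x * K.l (K.t g) + K.l (K.t g) * K.X x
          + K.l (K.t g) * K.l (K.t x) := by
      noncomm_ring
    rw [h6, h7, K.ee, zero_add] at h2
    -- h2 : Xc + Tc + cX + XcX = Xc + cX + cT
    apply K.eq_e
    have h8 : K.X x * K.l (K.t g) * K.X x + (K.l (K.t x) * K.l (K.t g) + K.l (K.t g) * K.l (K.t x))
      = (K.X x * K.l (K.t g) + K.l (K.t x) * K.l (K.t g) + K.l (K.t g) * K.X x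
          + K.X x * K.l (K.t g) * K.X x) - (K.X x * K.l (K.t g) + K.l (K.t g) * K.X x
          - K.l (K.t g) * K.l (K.t x)) := by abel
    rw [h8, h2, K.sub_e, K.sub_e]
    have := K.ee (K.X x * K.l (K.t g) + K.l (K.t g) * K.X x + K.l (K.t g) * K.l (K.t x))
    exact this
  | zero => rw [map_zero, mul_zero, zero_mul, zero_mul, mul_zero, add_zero]
  | add y z _ _ hy hz =>
    rw [map_add, mul_add, add_mul, hy, hz]
    noncomm_ring
  | smul z y _ hy =>
    rw [map_smul, mul_smul_comm, smul_mul_assoc, hy, smul_add, mul_smul_comm, smul_mul_assoc]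

theorem XcT (x : G) (c : V) :
    K.X x * K.l c * K.l (K.t x) = K.l (K.t x) * K.l c * K.X x := by
  have h := K.XcX x c
  have h1 : K.X x * K.l c * K.X x * K.X x
      = (K.l (K.t x) * K.l c + K.l c * K.l (K.t x)) * K.X x := by rw [h]
  rw [mul_assoc (K.X x * K.l c), K.XX, add_mul, mul_assoc (K.l c), K.T_X, mul_zero, add_zero] at h1
  exact h1

end PAlg

end P

end E4
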