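import Pool.Agent.Lib.MP_8a95e3_al.P.P03

/-!
# P04 : the defect `H_c(q) = x E(c, x⁻¹.q) + E(c,q)` and its formal properties
-/

namespace E4

namespace P

variable {G V Z E : Type} [Group G] [AddCommGroup V] [CommRing Z] [Module Z V] [Ring E]
    [Algebra Z E]

namespace PAlg

variable (K : PAlg G V Z E)

/-- the defect -/
def Hd (x : G) (c q : V) : E := K.ρ x * K.Ee c (K.act x⁻¹ q) + K.Ee c q

theorem Hd_add_left (x : G) (a c q : V) : K.Hd x (a + c) q = K.Hd x a q + K.Hd x c q := by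
  unfold Hd
  rw [K.Ee_add_left, K.Ee_add_left, mul_add]; abel

theorem Hd_add_right (x : G) (a q r : V) : K.Hd x a (q + r) = K.Hd x a q + K.Hd x a r := by
  unfold Hd
  rw [map_add, K.Ee_add_right, K.Ee_add_right, mul_add]; abel

theorem Hd_smul_left (x : G) (z : Z) (c q : V) : K.Hd x (z • c) q = z • K.Hd x c q := by
  unfold Hd
  rw [K.Ee_smul_left, K.Ee_smul_left, mul_smul_comm, smul_add]

theorem Hd_smul_right (x : G) (z : Z) (c q : V) : K.Hd x c (z • q) = z • K.Hd x c q := by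
  unfold Hd
  rw [map_smul, K.Ee_smul_right, K.Ee_smul_right, mul_smul_comm, smul_add]

/-- the defect as a bilinear map -/
def HdL (x : G) : V →ₗ[Z] V →ₗ[Z] E :=
  LinearMap.mk₂ Z (K.Hd x) (K.Hd_add_left x) (fun z a c => K.Hd_smul_left x z a c)
    (K.Hd_add_right x) (fun z a c => K.Hd_smul_right x z a c)

theorem HdL_apply (x : G) (c d : V) : K.HdL x c d = K.Hd x c d := rfl

/-- conjugating `E(c,d)` -/
theorem r_Ee (x : G) (c d : V) :
    K.Ee c d * K.ρ x = K.ρ x * K.Ee (K.act x⁻¹ c) (K.act x⁻¹ d) := by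
  unfold Ee
  rw [add_mul, mul_assoc, K.l_r, ← mul_assoc, K.l_r, smul_mul_assoc, one_mul, K.k_act, mul_add,
    mul_smul_comm, mul_one, mul_assoc]

theorem Ee_r (x : G) (c d : V) :
    K.ρ x * K.Ee c d = K.Ee (K.act x c) (K.act x d) * K.ρ x := by
  rw [K.r_Ee, K.act_inv', K.act_inv']

/-- (a) left -/
theorem l_Hd (x : G) (u c q : V) : K.l u * K.Hd x c q = K.Hd x c (K.b u q) := by
  unfold Hd
  rw [mul_add, ← mul_assoc, K.l_r, mul_assoc, K.l_mul_Ee, K.l_mul_Ee, K.act_b]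

/-- (a) right -/
theorem Hd_l (x : G) (u c q : V) : K.Hd x c q * K.l u = K.Hd x (K.b c u) q := by
  unfold Hd
  rw [add_mul, mul_assoc, K.Ee_mul_l, K.Ee_mul_l]

/-- (b) -/
theorem Ee_Hd (x : G) (p r c q : V) : K.Ee p r * K.Hd x c q = K.k p q • K.Hd x c r := by
  unfold Hd
  rw [mul_add, ← mul_assoc, K.r_Ee, mul_assoc, K.Ee_mul_Ee, K.Ee_mul_Ee, K.k_act, smul_add,
    mul_smul_comm]

theorem Hd_Ee (x : G) (c q s t : V) : K.Hd x c q * K.Ee s t = K.k c t • K.Hd x s q := by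
  unfold Hd
  rw [add_mul, mul_assoc, K.Ee_mul_Ee, K.Ee_mul_Ee, smul_add, mul_smul_comm]

theorem act_act (x y : G) (v : V) : K.act x (K.act y v) = K.act (x * y) v := (K.act_mul x y v).symm

theorem Hd_Hd (x : G) (c q s t : V) : K.Hd x c q * K.Hd x s t = 0 := by
  have h1 : K.Hd x c q * K.ρ x * K.Ee s (K.act x⁻¹ t) = K.k c t • K.Hd x s q := by
    have e1 : K.ρ x * K.Ee c (K.act x⁻¹ q) * K.ρ x * K.Ee s (K.act x⁻¹ t)
        = K.k c t • K.Ee s q := by
      rw [mul_assoc (K.ρ x), K.r_Ee, mul_assoc, mul_assoc, K.Ee_mul_Ee, K.k_act, mul_smul_comm,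
        mul_smul_comm, K.sq_Ee]
      rw [K.act_act, K.act_act]
      have : x * x * x⁻¹ * x⁻¹ = 1 := by group
      rw [this, map_one]; rfl
    have e2 : K.Ee c q * K.ρ x * K.Ee s (K.act x⁻¹ t)
        = K.k c t • (K.ρ x * K.Ee s (K.act x⁻¹ q)) := by
      rw [K.r_Ee, mul_assoc, K.Ee_mul_Ee, K.k_act, mul_smul_comm]
    have : K.Hd x c q * K.ρ x * K.Ee s (K.act x⁻¹ t)
        = K.ρ x * K.Ee c (K.act x⁻¹ q) * K.ρ x * K.Ee s (K.act x⁻¹ t)
          + K.Ee c q * K.ρ x * K.Ee s (K.act x⁻¹ t) := by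
      unfold Hd; rw [add_mul, add_mul]
    rw [this, e1, e2]
    unfold Hd
    rw [smul_add, add_comm]
  have h2 : K.Hd x c q * K.Hd x s t
      = K.Hd x c q * K.ρ x * K.Ee s (K.act x⁻¹ t) + K.Hd x c q * K.Ee s t := by
    conv_lhs => rw [Hd.eq_def K x s t]
    rw [mul_add, mul_assoc]
  rw [h2, h1, K.Hd_Ee, K.ee]

/-- (c) -/
theorem r_Hd (x : G) (c q : V) : K.ρ x * K.Hd x c (K.act x⁻¹ q) = K.Hd x c q := by
  unfold Hd
  rw [mul_add, K.sq_Ee, K.act_act, K.act_act]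
  have : x * x * x⁻¹ * x⁻¹ = 1 := by group
  rw [this, map_one, add_comm]; rfl

theorem Hd_inv (x : G) (c q : V) : K.Hd x⁻¹ c q = K.Hd x c q := by
  unfold Hd
  rw [inv_inv]
  have h := K.sq_Ee x c (K.act x⁻¹ q)
  have h2 : K.ρ x⁻¹ * (K.ρ x * (K.ρ x * K.Ee c (K.act x⁻¹ q)))
      = K.ρ x⁻¹ * K.Ee c (K.act (x * x) (K.act x⁻¹ q)) := by rw [h]
  rw [← mul_assoc, K.rinv', one_mul, K.act_act] at h2
  have : x * x * x⁻¹ = x := by group
  rw [this] at h2
  rw [h2]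

theorem Hd_sq (x g : G) (c q : V) : K.Hd (x * (g * g)) c q = K.Hd x c q := by
  unfold Hd
  rw [map_mul K.ρ x, mul_assoc, K.sq_Ee', K.act_act]
  have : g * g * (x * (g * g))⁻¹ = x⁻¹ := by group
  rw [this]

theorem XE_T (x : G) (c : V) : K.X x * K.Ee c (K.t x) = K.Hd x c (K.t x) := by
  unfold X Hd
  rw [add_mul, one_mul, K.act_t_self']

theorem TE_X (x : G) (c : V) : K.Ee (K.t x) c * K.X x = K.Hd x (K.t x) c := by
  unfold X Hd
  rw [mul_add, mul_one, K.r_Ee, K.act_t_self']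

/-- (d) -/
theorem Hd_T (x : G) (c : V) : K.Hd x c (K.t x) = K.Hd x (K.t x) c := by
  have h := K.XcT x c
  have h1 : K.l c * K.l (K.t x) = K.Ee c (K.t x) + K.k c (K.t x) • (1 : E) := by
    unfold Ee
    rw [add_assoc, K.ee, add_zero]
  have h2 : K.l (K.t x) * K.l c = K.Ee (K.t x) c + K.k c (K.t x) • (1 : E) := by
    unfold Ee
    rw [K.k_symm c, add_assoc, K.ee, add_zero]
  rw [mul_assoc, h1, h2, mul_add, add_mul, K.XE_T, K.TE_X, mul_smul_comm, mul_one, smul_mul_assoc,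
    one_mul, add_left_inj] at h
  exact h

/-- (e) (*) -/
theorem Hd_star (x : G) (p c r : V) : K.k p (K.t x) • K.Hd x c r = K.k p c • K.Hd x (K.t x) r := by
  rw [← K.Ee_Hd, ← K.Ee_Hd, K.Hd_T]

/-- (e) -/
theorem Hd_T_zero (x : G) (r : V) : K.Hd x (K.t x) r = 0 := by
  have h1 : ∀ p c u : V, K.k p (K.b c u) • K.Hd x (K.t x) r = K.k p c • K.Hd x (K.b (K.t x) u) r := by
    intro p c u
    rw [← K.Hd_star x p (K.b c u) r, ← K.Hd_l, ← K.Hd_l, ← smul_mul_assoc, ← smul_mul_assoc,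
      K.Hd_star]
  have h2 : ∀ p c u v : V, K.k p (K.b c (K.b u v)) • K.Hd x (K.t x) r = 0 := by
    intro p c u v
    rw [h1]
    have e : K.b (K.t x) (K.b u v) = K.k v (K.t x) • u + K.k u (K.t x) • v := by
      rw [K.b_symm, K.R1]
    rw [e, K.Hd_add_left, K.Hd_smul_left, K.Hd_smul_left, K.Hd_star, K.Hd_star, K.k_symm v u, K.ee,
      smul_zero]
  have h3 : ∀ p c u : V, K.k p (K.b c u) • K.Hd x (K.t x) r = 0 := by
    intro p c u
    have : (LinearMap.toSpanSingleton Z E (K.Hd x (K.t x) r)) ∘ₗ (K.k p) ∘ₗ (K.b c) = 0 := by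
      apply K.T1 K.tf_E
      intro u v
      rw [LinearMap.comp_apply, LinearMap.comp_apply, LinearMap.toSpanSingleton_apply, h2]
    have := congrArg (fun f => f u) this
    simpa using this
  apply K.can_k K.tf_E
  intro p c
  have : (LinearMap.toSpanSingleton Z E (K.Hd x (K.t x) r)) ∘ₗ (K.k p) = 0 := by
    apply K.T1 K.tf_E
    intro u v
    rw [LinearMap.comp_apply, LinearMap.toSpanSingleton_apply, h3]
  have := congrArg (fun f => f c) this
  simpa using this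

theorem kT_Hd (x : G) (p c r : V) : K.k p (K.t x) • K.Hd x c r = 0 := by
  rw [K.Hd_star, K.Hd_T_zero, smul_zero]

/-- (f) -/
theorem kW_Hd (x : G) (p d c r : V) : K.k p (K.W x d) • K.Hd x c r = 0 := by
  have h' := K.span d
  induction h' using Submodule.span_induction with
  | mem y hy =>
    obtain ⟨g, rfl⟩ := hy
    have h := K.kT_Hd (x * (g * g)) p c r
    rw [K.Hd_sq, K.t_mul_sq, map_add, add_smul, K.kT_Hd, zero_add] at h
    exact h
  | zero => rw [map_zero, map_zero, zero_smul]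
  | add y z _ _ hy hz => rw [map_add, map_add, add_smul, hy, hz, add_zero]
  | smul z y _ hy => rw [map_smul, map_smul, smul_eq_mul, mul_smul, hy, smul_zero]

theorem r_Ee_Hd (x : G) (c y : V) : K.ρ x * K.Ee c y = K.Ee c (K.act x y) + K.Hd x c (K.act x y) := by
  unfold Hd
  rw [K.act_inv', add_comm, add_assoc, K.ee, add_zero]

/-- (f) the vector `v0` -/
theorem v0_Hd (x : G) (p d u s r : V) :
    K.k p (K.act x (K.b d u) + K.b d (K.act x⁻¹ u)) • K.Hd x s r = 0 := by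
  have h1 : ∀ c : V, K.Ee c (K.b (K.W x d) u)
      = K.Ee c (K.act x (K.b d u) + K.b d (K.act x⁻¹ u))
        + K.Hd x c (K.act x (K.b d u) + K.b d (K.act x⁻¹ u)) := by
    intro c
    rw [← K.l_mul_Ee, K.l_W, add_mul, mul_assoc, mul_assoc, K.l_mul_Ee, K.r_Ee_Hd, K.r_Ee_Hd,
      K.Hd_inv, mul_add, K.l_mul_Ee, K.l_Hd, K.Ee_add_right, K.Hd_add_right]
    abel
  have h2 : ∀ c : V, K.k p (K.b (K.W x d) u) • K.Ee c r
      = K.k p (K.act x (K.b d u) + K.b d (K.act x⁻¹ u)) • K.Ee c r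
        + K.k p (K.act x (K.b d u) + K.b d (K.act x⁻¹ u)) • K.Hd x c r := by
    intro c
    rw [← K.Ee_mul_Ee, h1, mul_add, K.Ee_mul_Ee, K.Ee_Hd]
  have h3 : ∀ s : V, K.k p (K.b (K.W x d) u) • K.Hd x s r = 0 := by
    intro s
    have : K.k p (K.b (K.W x d) u) = K.k (K.b u p) (K.W x d) := by
      have h1 := K.tau_left p (K.W x d) u
      have h2 := K.tau_cyc p (K.W x d) u
      have h3 := K.tau_cyc (K.W x d) u p
      rw [h3] at h2
      rw [← h1, h2]; rfl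
    rw [this, K.kW_Hd]
  apply K.can_k K.tf_E
  intro c t
  have h4 := congrArg (fun y => y * K.Hd x s t) (h2 c)
  simp only [add_mul, smul_mul_assoc, K.Hd_Hd, K.Ee_Hd, smul_zero, add_zero] at h4
  rw [smul_smul, mul_comm, ← smul_smul, ← h4, smul_smul, mul_comm, ← smul_smul, h3, smul_zero]

end PAlg

end P

end E4
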