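import Pool.Agent.Lib.MP_8a95e3_al.P.P04

/-!
# P05 : Theorem 3, `x E(c,d) = E(c, x.d)`
-/

namespace E4

namespace P

variable {G V Z E : Type} [Group G] [AddCommGroup V] [CommRing Z] [Module Z V] [Ring E]
    [Algebra Z E]

namespace PAlg

variable (K : PAlg G V Z E)

/-- the vectors negligible with respect to the defect of `x` -/
def NH (x : G) : Submodule Z V where
  carrier := {v | ∀ p s r, K.k p v • K.Hd x s r = 0}
  zero_mem' := by intro p s r; rw [map_zero, zero_smul]
  add_mem' := by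
    intro a b ha hb p s r
    rw [map_add, add_smul, ha, hb, add_zero]
  smul_mem' := by
    intro z a ha p s r
    rw [map_smul, smul_eq_mul, mul_smul, ha, smul_zero]

theorem mem_NH {x : G} {v : V} : v ∈ K.NH x ↔ ∀ p s r, K.k p v • K.Hd x s r = 0 := Iff.rfl

theorem NH_b {x : G} (u : V) {v : V} (h : v ∈ K.NH x) : K.b u v ∈ K.NH x := by
  intro p s r
  have : K.k p (K.b u v) = K.k (K.b p u) v := (K.tau_left p u v).symm
  rw [this]
  exact h _ _ _

theorem NH_b' {x : G} (u : V) {v : V} (h : v ∈ K.NH x) : K.b v u ∈ K.NH x := by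
  rw [K.b_symm]; exact K.NH_b u h

theorem NH_act {x : G} (y : G) {v : V} (h : v ∈ K.NH x) : K.act y v ∈ K.NH x := by
  intro p s r
  rw [← K.k_act'']
  exact h _ _ _

theorem NH_sq (x g : G) : K.NH (x * (g * g)) = K.NH x := by
  ext v
  rw [K.mem_NH, K.mem_NH]
  constructor
  · intro h p s r
    rw [← K.Hd_sq x g]; exact h p s r
  · intro h p s r
    rw [K.Hd_sq x g]; exact h p s r

/-- `v0` is negligible -/
theorem v0_mem (x : G) (d u : V) : K.act x (K.b d u) + K.b d (K.act x⁻¹ u) ∈ K.NH x := by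
  intro p s r
  exact K.v0_Hd x p d u s r

theorem step1 (x : G) (d u : V) : K.b d (K.act x u) + K.act x⁻¹ (K.b d u) ∈ K.NH x := by
  have h := K.NH_act x⁻¹ (K.v0_mem x d (K.act x u))
  rw [map_add, K.act_inv', K.act_inv'] at h
  exact h

theorem jac' (d e u : V) : K.b (K.b d e) u = K.b d (K.b e u) + K.b e (K.b d u) := by
  have h := K.jac d e u
  have h2 := K.eq_v (x := K.b (K.b d e) u) (y := K.b (K.b e u) d + K.b (K.b u d) e)
    (by rw [← add_assoc]; exact h)
  rw [h2, K.b_symm _ d, K.b_symm _ e, K.b_symm u d]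

theorem step2 (x : G) (d e u : V) :
    K.act x (K.b (K.b d e) u) + K.b (K.b d e) (K.act x u) ∈ K.NH x := by
  have key : ∀ d e : V, K.act x (K.b d (K.b e u)) + K.b d (K.b e (K.act x u)) ∈ K.NH x := by
    intro d e
    have h1 := K.v0_mem x d (K.b e u)
    have h2 := K.NH_b d (K.step1 x e u)
    rw [map_add] at h2
    have h3 := (K.NH x).add_mem h1 h2
    have e3 : K.act x (K.b d (K.b e u)) + K.b d (K.act x⁻¹ (K.b e u))
        + (K.b d (K.b e (K.act x u)) + K.b d (K.act x⁻¹ (K.b e u)))
        = K.act x (K.b d (K.b e u)) + K.b d (K.b e (K.act x u))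
          + (K.b d (K.act x⁻¹ (K.b e u)) + K.b d (K.act x⁻¹ (K.b e u))) := by abel
    rw [e3, K.vv, add_zero] at h3
    exact h3
  have h := (K.NH x).add_mem (key d e) (key e d)
  have e4 : K.act x (K.b d (K.b e u)) + K.b d (K.b e (K.act x u))
      + (K.act x (K.b e (K.b d u)) + K.b e (K.b d (K.act x u)))
      = K.act x (K.b (K.b d e) u) + K.b (K.b d e) (K.act x u) := by
    rw [K.jac' d e u, K.jac' d e (K.act x u), map_add]; abel
  rw [e4] at h
  exact h

theorem step3 (x : G) (d e u : V) :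
    K.b (K.act x (K.b d e)) u + K.b (K.b d e) u ∈ K.NH x := by
  have h := K.step2 x d e (K.act x⁻¹ u)
  rw [K.act_b, K.act_inv] at h
  exact h

theorem step4 (x g : G) (e f u : V) :
    K.b (K.act x (K.b (K.t g) (K.b e f))) u ∈ K.NH x := by
  have h1 := K.step3 (x * (g * g)) e f u
  rw [K.NH_sq, K.act_mul, K.act_sq, map_add, map_add, LinearMap.add_apply] at h1
  have h2 := (K.NH x).add_mem h1 (K.step3 x e f u)
  have e3 : K.b (K.act x (K.b e f)) u + K.b (K.act x (K.b (K.t g) (K.b e f))) u + K.b (K.b e f) u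
      + (K.b (K.act x (K.b e f)) u + K.b (K.b e f) u)
      = K.b (K.act x (K.b (K.t g) (K.b e f))) u
        + ((K.b (K.act x (K.b e f)) u + K.b (K.b e f) u)
          + (K.b (K.act x (K.b e f)) u + K.b (K.b e f) u)) := by abel
  rw [e3, K.vv, add_zero] at h2
  exact h2

theorem step5 (x : G) (d e f u : V) :
    K.b (K.act x (K.b d (K.b e f))) u ∈ K.NH x := by
  have h' := K.span d
  induction h' using Submodule.span_induction with
  | mem y hy =>
    obtain ⟨g, rfl⟩ := hy
    exact K.step4 x g e f u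
  | zero =>
    rw [map_zero, LinearMap.zero_apply, map_zero, map_zero, LinearMap.zero_apply]
    exact (K.NH x).zero_mem
  | add y z _ _ hy hz =>
    rw [map_add, LinearMap.add_apply, map_add, map_add, LinearMap.add_apply]
    exact (K.NH x).add_mem hy hz
  | smul z y _ hy =>
    rw [map_smul, LinearMap.smul_apply, map_smul, map_smul, LinearMap.smul_apply]
    exact (K.NH x).smul_mem z hy

theorem Hd_zero (x : G) (s r : V) : K.Hd x s r = 0 := by
  apply K.can_k23 K.tf_E
  intro p u d c e
  have h := K.step5 x d c e (K.act x u)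
  have h2 := h (K.act x p) s r
  have : K.k (K.act x p) (K.b (K.act x (K.b d (K.b c e))) (K.act x u))
      = K.k (K.b p u) (K.b d (K.b c e)) := by
    rw [← K.act_b, K.k_act]
    have h1 := K.tau_left p (K.b d (K.b c e)) u
    have h2 := K.tau_symm p (K.b d (K.b c e)) u
    rw [← h1, h2]; rfl
  rw [this] at h2
  exact h2

/-- **Theorem 3** -/
theorem r_mul_Ee (x : G) (c d : V) : K.ρ x * K.Ee c d = K.Ee c (K.act x d) := by
  have h := K.Hd_zero x c (K.act x d)
  unfold Hd at h
  rw [K.act_inv'] at h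
  exact K.eq_e h

theorem Ee_mul_r (x : G) (c d : V) : K.Ee c d * K.ρ x = K.Ee (K.act x⁻¹ c) d := by
  rw [K.r_Ee, K.r_mul_Ee, K.act_inv]

end PAlg

end P

end E4
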