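import Pool.Agent.Lib.MP_8a95e3_al.P.P05

/-!
# P06 : operators represented by their action on vectors; faithfulness
-/

namespace E4

namespace P

variable {G V Z E : Type} [Group G] [AddCommGroup V] [CommRing Z] [Module Z V] [Ring E]
    [Algebra Z E]

namespace PAlg

variable (K : PAlg G V Z E)

/-- `y` acts as `f` on the second slot and as `f'` on the first slot of `E(c,d)` -/
def Rep (y : E) (f f' : V →ₗ[Z] V) : Prop :=
  (∀ c v, y * K.Ee c v = K.Ee c (f v)) ∧ (∀ c v, K.Ee c v * y = K.Ee (f' c) v)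

theorem Ee_inj_sub {u v : V} (h : ∀ c, K.Ee c u = K.Ee c v) : u = v := by
  apply K.eq_v
  apply K.Ee_inj
  intro c
  rw [K.Ee_add_right, h, K.ee]

theorem Ee_inj_sub' {u v : V} (h : ∀ c, K.Ee u c = K.Ee v c) : u = v := by
  apply K.eq_v
  apply K.Ee_inj'
  intro c
  rw [K.Ee_add_left, h, K.ee]

theorem rep_r (g : G) : K.Rep (K.ρ g) (K.act g) (K.act g⁻¹) :=
  ⟨fun c v => K.r_mul_Ee g c v, fun c v => K.Ee_mul_r g c v⟩

theorem rep_l (u : V) : K.Rep (K.l u) (K.b u) (K.b u) :=
  ⟨fun c v => K.l_mul_Ee u c v, fun c v => by rw [K.Ee_mul_l, K.b_symm]⟩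

theorem rep_one : K.Rep 1 LinearMap.id LinearMap.id :=
  ⟨fun c v => by simp, fun c v => by simp⟩

theorem rep_zero : K.Rep 0 0 0 :=
  ⟨fun c v => by simp [K.Ee_zero_right], fun c v => by simp [K.Ee_zero_left]⟩

theorem rep_add {y y' : E} {f f' g g' : V →ₗ[Z] V} (h : K.Rep y f f') (h' : K.Rep y' g g') :
    K.Rep (y + y') (f + g) (f' + g') :=
  ⟨fun c v => by rw [add_mul, h.1, h'.1, LinearMap.add_apply, K.Ee_add_right],
    fun c v => by rw [mul_add, h.2, h'.2, LinearMap.add_apply, K.Ee_add_left]⟩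

theorem rep_mul {y y' : E} {f f' g g' : V →ₗ[Z] V} (h : K.Rep y f f') (h' : K.Rep y' g g') :
    K.Rep (y * y') (f ∘ₗ g) (g' ∘ₗ f') :=
  ⟨fun c v => by rw [mul_assoc, h'.1, h.1, LinearMap.comp_apply],
    fun c v => by rw [← mul_assoc, h.2, h'.2, LinearMap.comp_apply]⟩

theorem rep_smul {y : E} {f f' : V →ₗ[Z] V} (z : Z) (h : K.Rep y f f') :
    K.Rep (z • y) (z • f) (z • f') :=
  ⟨fun c v => by rw [smul_mul_assoc, h.1, LinearMap.smul_apply, K.Ee_smul_right],
    fun c v => by rw [mul_smul_comm, h.2, LinearMap.smul_apply, K.Ee_smul_left]⟩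

theorem rep_z (z : Z) : K.Rep (z • (1 : E)) (z • LinearMap.id) (z • LinearMap.id) :=
  K.rep_smul z K.rep_one

/-- `E(a,b)` acts as `v ↦ k(a,v) b`, on the left slot `c ↦ k(c,b) a` -/
theorem rep_Ee (a b : V) :
    K.Rep (K.Ee a b) ((K.k a).smulRight b) ((K.k.flip b).smulRight a) :=
  ⟨fun c v => by
      rw [K.Ee_mul_Ee, LinearMap.smulRight_apply, K.Ee_smul_right],
    fun c v => by
      rw [K.Ee_mul_Ee, LinearMap.smulRight_apply, LinearMap.flip_apply, K.Ee_smul_left]⟩

theorem rep_X (g : G) : K.Rep (K.X g) (K.act g + LinearMap.id) (K.act g⁻¹ + LinearMap.id) :=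
  K.rep_add (K.rep_r g) K.rep_one

theorem rep_unique {y : E} {f f' g g' : V →ₗ[Z] V} (h : K.Rep y f f') (h' : K.Rep y g g') :
    f = g := by
  ext v
  apply K.Ee_inj_sub
  intro c
  rw [← h.1, ← h'.1]

theorem rep_unique' {y : E} {f f' g g' : V →ₗ[Z] V} (h : K.Rep y f f') (h' : K.Rep y g g') :
    f' = g' := by
  ext v
  apply K.Ee_inj_sub'
  intro c
  rw [← h.2, ← h'.2]

/-- faithfulness -/
theorem rep_inj {y y' : E} {f f' g g' : V →ₗ[Z] V} (h : K.Rep y f f') (h' : K.Rep y' g g')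
    (hfg : ∀ v, f v = g v) : y = y' := by
  apply K.eq_e
  apply K.mul_Ee_zero
  intro c d
  rw [add_mul, h.1, h'.1, hfg, K.ee]

theorem rep_zero_iff {y : E} {f f' : V →ₗ[Z] V} (h : K.Rep y f f') : y = 0 ↔ f = 0 := by
  constructor
  · rintro rfl
    exact K.rep_unique h K.rep_zero
  · rintro rfl
    exact K.rep_inj h K.rep_zero (fun _ => rfl)

/-- `k(f u, v) = k(u, f' v)` -/
theorem rep_adj {y : E} {f f' : V →ₗ[Z] V} (h : K.Rep y f f') (u v : V) :
    K.k u (f v) = K.k (f' u) v := by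
  apply K.eq_z
  apply K.inj
  have h1 : ∀ c r : V, (K.k u (f v) + K.k (f' u) v) • K.Ee c r = 0 := by
    intro c r
    have e1 : K.Ee u r * (y * K.Ee c v) = K.k u (f v) • K.Ee c r := by
      rw [h.1, K.Ee_mul_Ee]
    have e2 : K.Ee u r * (y * K.Ee c v) = K.k (f' u) v • K.Ee c r := by
      rw [← mul_assoc, h.2, K.Ee_mul_Ee]
    rw [add_smul, ← e1, e2, K.ee]
  have h2 : ((K.k u (f v) + K.k (f' u) v) • K.l) = 0 := by
    apply K.T1 K.tf_E
    intro c r
    rw [LinearMap.smul_apply, ← K.Ee_symm, smul_add, h1, h1, add_zero]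
  apply K.canl
  intro s
  rw [mul_smul_comm, mul_one, ← LinearMap.smul_apply, h2, LinearMap.zero_apply]

/-- the scalar criterion -/
theorem rep_zero_k {y : E} {f f' : V →ₗ[Z] V} (h : K.Rep y f f')
    (hk : ∀ p q, K.k p (f q) = 0) : y = 0 := by
  rw [K.rep_zero_iff h]
  ext v
  apply K.k_eq
  intro p
  rw [hk, LinearMap.zero_apply, map_zero]

/-- the scalar criterion on squares -/
theorem rep_zero_t {y : E} {f f' : V →ₗ[Z] V} (h : K.Rep y f f')
    (hk : ∀ g g', K.k (K.t g) (f (K.t g')) = 0) : y = 0 := by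
  apply K.rep_zero_k h
  intro p q
  have hp := K.span p
  have hq := K.span q
  induction hp using Submodule.span_induction with
  | mem p hp =>
    obtain ⟨g, rfl⟩ := hp
    induction hq using Submodule.span_induction with
    | mem q hq =>
      obtain ⟨g', rfl⟩ := hq
      exact hk g g'
    | zero => rw [map_zero, map_zero]
    | add y z _ _ hy hz => rw [map_add, map_add, hy, hz, add_zero]
    | smul z y _ hy => rw [map_smul, map_smul, hy, smul_zero]
  | zero => rw [map_zero, LinearMap.zero_apply]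
  | add y z _ _ hy hz => rw [map_add, LinearMap.add_apply, hy, hz, add_zero]
  | smul z y _ hy => rw [map_smul, LinearMap.smul_apply, hy, smul_zero]

/-- group ring of `G` acting on `E` -/
noncomputable def evE : MonoidAlgebra ℤ G →+* E :=
  (MonoidAlgebra.lift ℤ E G K.ρ : MonoidAlgebra ℤ G →ₐ[ℤ] E).toRingHom

/-- group ring of `G` acting on `V` -/
noncomputable def evV : MonoidAlgebra ℤ G →+* Module.End Z V :=
  (MonoidAlgebra.lift ℤ (Module.End Z V) G K.act : MonoidAlgebra ℤ G →ₐ[ℤ] Module.End Z V).toRingHom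

theorem evE_of (g : G) : K.evE (MonoidAlgebra.of ℤ G g) = K.ρ g := by
  show MonoidAlgebra.lift ℤ E G K.ρ (MonoidAlgebra.of ℤ G g) = K.ρ g
  rw [MonoidAlgebra.lift_of]

theorem evV_of (g : G) : K.evV (MonoidAlgebra.of ℤ G g) = K.act g := by
  show MonoidAlgebra.lift ℤ (Module.End Z V) G K.act (MonoidAlgebra.of ℤ G g) = K.act g
  rw [MonoidAlgebra.lift_of]

/-- every element of the group ring is represented -/
theorem rep_ev (a : MonoidAlgebra ℤ G) : ∃ f', K.Rep (K.evE a) (K.evV a) f' := by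
  induction a using MonoidAlgebra.induction_on with
  | of g => exact ⟨K.act g⁻¹, by rw [K.evE_of, K.evV_of]; exact K.rep_r g⟩
  | add a b ha hb =>
    obtain ⟨f', hf⟩ := ha
    obtain ⟨g', hg⟩ := hb
    exact ⟨f' + g', by rw [map_add, map_add]; exact K.rep_add hf hg⟩
  | smul r a ha =>
    obtain ⟨f', hf⟩ := ha
    refine ⟨r • f', ?_⟩
    rw [map_zsmul, map_zsmul]
    refine ⟨fun c v => ?_, fun c v => ?_⟩
    · rw [smul_mul_assoc, hf.1, LinearMap.smul_apply]
      have := (map_zsmul (K.EeL c) r (K.evV a v)).symm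
      rw [K.EeL_apply, K.EeL_apply] at this
      exact this
    · rw [mul_smul_comm, hf.2, LinearMap.smul_apply]
      have := congrArg (fun f => f v) (map_zsmul K.EeL r (f' c)).symm
      simp only [LinearMap.smul_apply, K.EeL_apply] at this
      exact this

/-- **evaluation principle** -/
theorem evE_zero_iff (a : MonoidAlgebra ℤ G) : K.evE a = 0 ↔ K.evV a = 0 := by
  obtain ⟨f', hf⟩ := K.rep_ev a
  exact K.rep_zero_iff hf

end PAlg

end P

end E4
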