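import Pool.Agent.Lib.MP_8a95e3_al.P.P06

/-!
# P07 : the model `F_2^3` and symbols evaluated in both worlds
-/

namespace E4

namespace P

/-- the model space -/
abbrev VM : Type := ZMod 2 × ZMod 2 × ZMod 2

/-- cross product -/
def bM (u v : VM) : VM :=
  (u.2.1 * v.2.2 + u.2.2 * v.2.1, u.2.2 * v.1 + u.1 * v.2.2, u.1 * v.2.1 + u.2.1 * v.1)

/-- dot product -/
def kM (u v : VM) : ZMod 2 := u.1 * v.1 + u.2.1 * v.2.1 + u.2.2 * v.2.2

/-- triple product -/
def tM (u v w : VM) : ZMod 2 := kM (bM u v) w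

def e1 : VM := (1, 0, 0)
def e2 : VM := (0, 1, 0)
def e3 : VM := (0, 0, 1)
def zM : VM := (1, 1, 1)

theorem c2 (a : ZMod 2) : a + a = 0 := by
  revert a; decide

theorem kM_symm (u v : VM) : kM u v = kM v u := by
  unfold kM; ring

theorem kM_add_left (u v w : VM) : kM (u + v) w = kM u w + kM v w := by
  unfold kM
  simp only [Prod.fst_add, Prod.snd_add]; ring

theorem kM_add_right (u v w : VM) : kM w (u + v) = kM w u + kM w v := by
  rw [kM_symm, kM_add_left, kM_symm u, kM_symm v]

theorem bM_add_left (u v w : VM) : bM (u + v) w = bM u w + bM v w := by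
  unfold bM
  ext <;> simp only [Prod.fst_add, Prod.snd_add] <;> ring

theorem bM_symm (u v : VM) : bM u v = bM v u := by
  unfold bM
  ext <;> simp only [] <;> ring

theorem bM_add_right (u v w : VM) : bM w (u + v) = bM w u + bM w v := by
  rw [bM_symm, bM_add_left, bM_symm u, bM_symm v]

theorem tM_symm' (u v w : VM) : tM u v w = tM v u w := by
  unfold tM; rw [bM_symm]

theorem tM_cyc (u v w : VM) : tM u v w = tM v w u := by
  unfold tM kM bM; simp only []; ring

theorem tM_symm (u v w : VM) : tM u v w = tM u w v := by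
  rw [tM_symm' u v w, tM_cyc v u w]

theorem tM_left (u v w : VM) : tM u v w = kM u (bM v w) := by
  rw [tM_cyc]; unfold tM; rw [kM_symm]

theorem kM22 (p q i j : VM) : kM (bM p q) (bM i j) = kM p i * kM q j + kM p j * kM q i := by
  have h : ∀ a b c d e f a' b' c' d' e' f' : ZMod 2,
      kM (bM (a, b, c) (d, e, f)) (bM (a', b', c') (d', e', f'))
        = kM (a, b, c) (a', b', c') * kM (d, e, f) (d', e', f')
          + kM (a, b, c) (d', e', f') * kM (d, e, f) (a', b', c') := by
    intro a b c d e f a' b' c' d' e' f'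
    unfold kM bM
    simp only []
    have h1 := c2 (a * d * a' * d')
    have h2 := c2 (b * e * b' * e')
    have h3 := c2 (c * f * c' * f')
    linear_combination (-1 : ZMod 2) * h1 - h2 - h3
  exact h p.1 p.2.1 p.2.2 q.1 q.2.1 q.2.2 i.1 i.2.1 i.2.2 j.1 j.2.1 j.2.2

theorem kM_ek (u v : VM) : kM u e1 * kM v e1 + kM u e2 * kM v e2 + kM u e3 * kM v e3 = kM u v := by
  unfold kM e1 e2 e3
  simp only []
  ring

theorem tM_add_left (u v w x : VM) : tM (u + v) w x = tM u w x + tM v w x := by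
  unfold tM; rw [bM_add_left, kM_add_left]

/-- two letters at `z` -/
theorem zz_eq (β : VM → VM → ZMod 2) (h1 : ∀ u v w, β (u + v) w = β u w + β v w)
    (h2 : ∀ u v w, β w (u + v) = β w u + β w v) :
    β zM zM = (β e1 e1 + β e2 e2 + β e3 e3)
      + (β (bM zM e1) e1 + β (bM zM e2) e2 + β (bM zM e3) e3) := by
  have hz : zM = e1 + (e2 + e3) := by decide
  have b1 : bM zM e1 = e2 + e3 := by decide
  have b2 : bM zM e2 = e1 + e3 := by decide
  have b3 : bM zM e3 = e1 + e2 := by decide
  rw [b1, b2, b3]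
  rw [hz]
  simp only [h1, h2]
  ring

/-- symbols evaluated in both worlds: `false` = pairs only, `true` = one triple -/
inductive SS {G V Z E : Type} [Group G] [AddCommGroup V] [CommRing Z] [Module Z V] [Ring E]
    [Algebra Z E] (K : PAlg G V Z E) :
    Bool → Multiset ℕ → ((ℕ → V) → Z) → ((ℕ → VM) → ZMod 2) → Prop
  | one : SS K false 0 (fun _ => 1) (fun _ => 1)
  | tri (i j l : ℕ) : SS K true (i ::ₘ j ::ₘ l ::ₘ 0) (fun p => K.tau (p i) (p j) (p l))
      (fun m => tM (m i) (m j) (m l))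
  | pr {t : Bool} {S : Multiset ℕ} {f : (ℕ → V) → Z} {g : (ℕ → VM) → ZMod 2} (i j : ℕ)
      (h : SS K t S f g) : SS K t (i ::ₘ j ::ₘ S) (fun p => K.k (p i) (p j) * f p)
      (fun m => kM (m i) (m j) * g m)

/-- sums of symbols -/
inductive RR {G V Z E : Type} [Group G] [AddCommGroup V] [CommRing Z] [Module Z V] [Ring E]
    [Algebra Z E] (K : PAlg G V Z E) :
    Bool → Multiset ℕ → ((ℕ → V) → Z) → ((ℕ → VM) → ZMod 2) → Prop
  | zero (t : Bool) (S : Multiset ℕ) : RR K t S (fun _ => 0) (fun _ => 0)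
  | add {t : Bool} {S : Multiset ℕ} {f f' : (ℕ → V) → Z} {g g' : (ℕ → VM) → ZMod 2}
      (h : SS K t S f g) (h' : RR K t S f' g') :
      RR K t S (fun p => f p + f' p) (fun m => g m + g' m)

variable {G V Z E : Type} [Group G] [AddCommGroup V] [CommRing Z] [Module Z V] [Ring E]
    [Algebra Z E] {K : PAlg G V Z E}

theorem SS.rr {t : Bool} {S : Multiset ℕ} {f : (ℕ → V) → Z} {g : (ℕ → VM) → ZMod 2}
    (h : SS K t S f g) : RR K t S f g := by
  have := RR.add h (RR.zero t S)
  simp only [add_zero] at this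
  exact this

theorem RR.addR {t : Bool} {S : Multiset ℕ} {f f' : (ℕ → V) → Z} {g g' : (ℕ → VM) → ZMod 2}
    (h : RR K t S f g) (h' : RR K t S f' g') :
    RR K t S (fun p => f p + f' p) (fun m => g m + g' m) := by
  induction h with
  | zero => simpa only [zero_add] using h'
  | add h0 _ ih =>
    have := RR.add h0 ih
    simp only [add_assoc]
    exact this

/-- structure at a letter -/
theorem SS.at {t : Bool} {S : Multiset ℕ} {f : (ℕ → V) → Z} {g : (ℕ → VM) → ZMod 2}
    (h : SS K t S f g) {j : ℕ} (hj : j ∈ S) :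
    (∃ (i : ℕ) (S' : Multiset ℕ) (f' : (ℕ → V) → Z) (g' : (ℕ → VM) → ZMod 2),
      S = i ::ₘ j ::ₘ S' ∧ SS K t S' f' g' ∧ f = (fun p => K.k (p i) (p j) * f' p) ∧
        g = fun m => kM (m i) (m j) * g' m) ∨
    (t = true ∧ ∃ (a b : ℕ) (S' : Multiset ℕ) (f' : (ℕ → V) → Z) (g' : (ℕ → VM) → ZMod 2),
      S = j ::ₘ a ::ₘ b ::ₘ S' ∧ SS K false S' f' g' ∧
        f = (fun p => K.tau (p j) (p a) (p b) * f' p) ∧
        g = fun m => tM (m j) (m a) (m b) * g' m) := by
  induction h with
  | one => simp at hj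
  | tri i j' l =>
    right
    refine ⟨rfl, ?_⟩
    simp only [Multiset.mem_cons, Multiset.notMem_zero, or_false] at hj
    rcases hj with rfl | rfl | rfl
    · exact ⟨j', l, 0, _, _, rfl, SS.one, by simp, by simp⟩
    · refine ⟨i, l, 0, _, _, Multiset.cons_swap _ _ _, SS.one, ?_, ?_⟩
      · funext p; rw [mul_one, K.tau_symm']
      · funext p; rw [mul_one, tM_symm']
    · refine ⟨i, j', 0, _, _, ?_, SS.one, ?_, ?_⟩
      · simp only [← Multiset.singleton_add]; abel
      · funext p; rw [mul_one, K.tau_cyc, K.tau_cyc]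
      · funext p; rw [mul_one, tM_cyc, tM_cyc]
  | @pr t S f g i i' h ih =>
    simp only [Multiset.mem_cons] at hj
    by_cases h1 : j = i'
    · left
      subst h1
      exact ⟨i, S, f, g, rfl, h, rfl, rfl⟩
    by_cases h2 : j = i
    · left
      subst h2
      refine ⟨i', S, f, g, Multiset.cons_swap _ _ _, h, ?_, ?_⟩
      · funext p; rw [K.k_symm]
      · funext p; rw [kM_symm]
    have hj' : j ∈ S := by tauto
    rcases ih hj' with ⟨a, S', f', g', e1, e2, e3, e4⟩ | ⟨ht, a, b, S', f', g', e1, e2, e3, e4⟩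
    · left
      refine ⟨a, i ::ₘ i' ::ₘ S', _, _, ?_, SS.pr i i' e2, ?_, ?_⟩
      · rw [e1]; simp only [← Multiset.singleton_add]; abel
      · funext p; rw [e3]; ring
      · funext p; rw [e4]; ring
    · right
      refine ⟨ht, a, b, i ::ₘ i' ::ₘ S', _, _, ?_, SS.pr i i' e2, ?_, ?_⟩
      · rw [e1]; simp only [← Multiset.singleton_add]; abel
      · funext p; rw [e3]; ring
      · funext p; rw [e4]; ring

/-- a triple symbol has a triple -/
theorem SS.trip {t : Bool} {S : Multiset ℕ} {f : (ℕ → V) → Z} {g : (ℕ → VM) → ZMod 2}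
    (h : SS K t S f g) (ht : t = true) :
    ∃ (j a b : ℕ) (S' : Multiset ℕ) (f' : (ℕ → V) → Z) (g' : (ℕ → VM) → ZMod 2),
      S = j ::ₘ a ::ₘ b ::ₘ S' ∧ SS K false S' f' g' ∧
        f = (fun p => K.tau (p j) (p a) (p b) * f' p) ∧
        g = fun m => tM (m j) (m a) (m b) * g' m := by
  induction h with
  | one => cases ht
  | tri i j l => exact ⟨i, j, l, 0, _, _, rfl, SS.one, by simp, by simp⟩
  | pr i i' h ih =>
    obtain ⟨j, a, b, S', f', g', e1, e2, e3, e4⟩ := ih ht
    refine ⟨j, a, b, i ::ₘ i' ::ₘ S', _, _, ?_, SS.pr i i' e2, ?_, ?_⟩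
    · rw [e1]; simp only [← Multiset.singleton_add]; abel
    · funext p; rw [e3]; ring
    · funext p; rw [e4]; ring

/-- multiplying a pair symbol by a triple -/
theorem SS.mulT {t : Bool} {S : Multiset ℕ} {f : (ℕ → V) → Z} {g : (ℕ → VM) → ZMod 2}
    (h : SS K t S f g) (ht : t = false) (j a b : ℕ) :
    SS K true (j ::ₘ a ::ₘ b ::ₘ S) (fun p => K.tau (p j) (p a) (p b) * f p)
      (fun m => tM (m j) (m a) (m b) * g m) := by
  induction h with
  | one => simpa using SS.tri (K := K) j a b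
  | tri i j l => cases ht
  | @pr t S f g i i' h ih =>
    have h1 := SS.pr (K := K) i i' (ih ht)
    have e : i ::ₘ i' ::ₘ j ::ₘ a ::ₘ b ::ₘ S = j ::ₘ a ::ₘ b ::ₘ i ::ₘ i' ::ₘ S := by
      simp only [← Multiset.singleton_add]; abel
    rw [e] at h1
    have ef : (fun p => K.k (p i) (p i') * (K.tau (p j) (p a) (p b) * f p))
        = fun p => K.tau (p j) (p a) (p b) * (K.k (p i) (p i') * f p) := by
      funext p; ring
    have eg : (fun m : ℕ → VM => kM (m i) (m i') * (tM (m j) (m a) (m b) * g m))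
        = fun m => tM (m j) (m a) (m b) * (kM (m i) (m i') * g m) := by
      funext p; ring
    rw [ef, eg] at h1
    exact h1

/-- locality -/
theorem SS.loc {t : Bool} {S : Multiset ℕ} {f : (ℕ → V) → Z} {g : (ℕ → VM) → ZMod 2}
    (h : SS K t S f g) {p p' : ℕ → V} (hp : ∀ i ∈ S, p i = p' i) : f p = f p' := by
  induction h with
  | one => rfl
  | tri i j l =>
    simp only [Multiset.mem_cons, Multiset.notMem_zero, or_false] at hp
    simp only [hp i (by simp), hp j (by simp), hp l (by simp)]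
  | pr i i' h ih =>
    simp only [Multiset.mem_cons] at hp
    simp only [hp i (by simp), hp i' (by simp)]
    rw [ih (fun k hk => hp k (by tauto))]

theorem SS.locM {t : Bool} {S : Multiset ℕ} {f : (ℕ → V) → Z} {g : (ℕ → VM) → ZMod 2}
    (h : SS K t S f g) {p p' : ℕ → VM} (hp : ∀ i ∈ S, p i = p' i) : g p = g p' := by
  induction h with
  | one => rfl
  | tri i j l =>
    simp only [Multiset.mem_cons, Multiset.notMem_zero, or_false] at hp
    simp only [hp i (by simp), hp j (by simp), hp l (by simp)]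
  | pr i i' h ih =>
    simp only [Multiset.mem_cons] at hp
    simp only [hp i (by simp), hp i' (by simp)]
    rw [ih (fun k hk => hp k (by tauto))]

theorem RR.loc {t : Bool} {S : Multiset ℕ} {f : (ℕ → V) → Z} {g : (ℕ → VM) → ZMod 2}
    (h : RR K t S f g) {p p' : ℕ → V} (hp : ∀ i ∈ S, p i = p' i) : f p = f p' := by
  induction h with
  | zero => rfl
  | add h _ ih => simp only [h.loc hp, ih]

theorem RR.locM {t : Bool} {S : Multiset ℕ} {f : (ℕ → V) → Z} {g : (ℕ → VM) → ZMod 2}
    (h : RR K t S f g) {p p' : ℕ → VM} (hp : ∀ i ∈ S, p i = p' i) : g p = g p' := by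
  induction h with
  | zero => rfl
  | add h _ ih => simp only [h.locM hp, ih]

end P

end E4
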