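import Pool.Agent.Lib.MP_8a95e3_al.P.P07

/-!
# P08 : contraction and bracket substitution on symbols
-/

namespace E4

namespace P

variable {G V Z E : Type} [Group G] [AddCommGroup V] [CommRing Z] [Module Z V] [Ring E]
    [Algebra Z E] {K : PAlg G V Z E}

/-- two updates -/
def u2 {M : Type} (p : ℕ → M) (j : ℕ) (a : M) (x : ℕ) (b : M) : ℕ → M :=
  Function.update (Function.update p j a) x b

theorem u2_j {M : Type} {p : ℕ → M} {j x : ℕ} (h : j ≠ x) {a b : M} : u2 p j a x b j = a := by
  unfold u2
  rw [Function.update_of_ne h, Function.update_self]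

theorem u2_x {M : Type} {p : ℕ → M} {j x : ℕ} {a b : M} : u2 p j a x b x = b := by
  unfold u2
  rw [Function.update_self]

theorem u2_ne {M : Type} {p : ℕ → M} {j x i : ℕ} (h : i ≠ j) (h' : i ≠ x) {a b : M} :
    u2 p j a x b i = p i := by
  unfold u2
  rw [Function.update_of_ne h', Function.update_of_ne h]

/-- contraction of two linear forms -/
theorem _root_.E4.P.PAlg.con1 (K : PAlg G V Z E) (s i a b c : V) :
    K.k s a * K.k i (K.b b c) + K.k s b * K.k i (K.b c a) + K.k s c * K.k i (K.b a b)
      = K.tau a b c * K.k s i := by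
  have h := congrArg (fun v => K.k v i) (K.cramer a b c s)
  simp only [map_add, map_smul, LinearMap.add_apply, LinearMap.smul_apply, smul_eq_mul] at h
  rw [h, K.k_symm i (K.b b c), K.k_symm i (K.b c a), K.k_symm i (K.b a b), K.b_symm c a,
    K.k_symm s c, K.k_symm b s]
  rw [K.k_symm a s, K.k_symm c s]
  ring

theorem _root_.E4.P.PAlg.jacK (K : PAlg G V Z E) (v a b c : V) :
    K.tau a (K.b b c) v + K.tau b (K.b c a) v + K.tau c (K.b a b) v = 0 := by
  have h := K.jac a b c
  have h1 := congrArg (fun w => K.k w v) h
  simp only [map_add, map_zero, LinearMap.add_apply, LinearMap.zero_apply] at h1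
  unfold PAlg.tau
  rw [K.b_symm a, K.b_symm b (K.b c a), K.b_symm c (K.b a b)]
  rw [← h1]; ring

/-- the product of two triples -/
theorem _root_.E4.P.PAlg.tt6 (K : PAlg G V Z E) (a b c u v w : V) :
    K.tau a b c * K.tau u v w
      = K.k a u * (K.k b v * K.k c w) + K.k a u * (K.k b w * K.k c v)
        + (K.k a v * (K.k b u * K.k c w) + K.k a v * (K.k b w * K.k c u))
        + (K.k a w * (K.k b u * K.k c v) + K.k a w * (K.k b v * K.k c u)) := by
  have h := congrArg (fun x => K.k x (K.b v w)) (K.cramer a b c u)
  simp only [map_add, map_smul, LinearMap.add_apply, LinearMap.smul_apply, smul_eq_mul, K.K22] at h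
  have h2 : K.k u (K.b v w) = K.tau u v w := (K.tau_left u v w).symm
  rw [h2] at h
  rw [h, K.k_symm u c, K.k_symm a u, K.k_symm b u]
  rw [K.k_symm u a, K.k_symm u b]
  ring

theorem tt6M (a b c u v w : VM) :
    tM a b c * tM u v w
      = kM a u * (kM b v * kM c w) + kM a u * (kM b w * kM c v)
        + (kM a v * (kM b u * kM c w) + kM a v * (kM b w * kM c u))
        + (kM a w * (kM b u * kM c v) + kM a w * (kM b v * kM c u)) := by
  obtain ⟨a1, a2, a3⟩ := a
  obtain ⟨b1, b2, b3⟩ := b
  obtain ⟨c1, c2', c3⟩ := c
  obtain ⟨u1, u2, u3⟩ := u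
  obtain ⟨v1, v2, v3⟩ := v
  obtain ⟨w1, w2, w3⟩ := w
  have h2 : (2 : ZMod 2) = 0 := by decide
  unfold tM kM bM
  simp only []
  ring_nf
  simp only [h2, show (6 : ZMod 2) = 0 by decide, mul_zero, add_zero]
  try ring

/-- **contraction** -/
theorem SS.con {t : Bool} {S : Multiset ℕ} {f : (ℕ → V) → Z} {g : (ℕ → VM) → ZMod 2}
    (h : SS K t S f g) (hn : S.Nodup) {j x : ℕ} {T : Multiset ℕ} (hS : S = j ::ₘ x ::ₘ T) :
    ∃ (f' : (ℕ → V) → Z) (g' : (ℕ → VM) → ZMod 2), RR K t T f' g' ∧
      (∀ p a b c, f (u2 p j a x (K.b b c)) + f (u2 p j b x (K.b c a)) + f (u2 p j c x (K.b a b))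
        = K.tau a b c * f' p) ∧
      (∀ m, g (u2 m j e1 x e1) + g (u2 m j e2 x e2) + g (u2 m j e3 x e3) = g' m) := by
  have hnS := hn
  rw [hS] at hn
  simp only [Multiset.nodup_cons, Multiset.mem_cons, not_or] at hn
  obtain ⟨⟨hjx, hjT⟩, hxT, hT⟩ := hn
  have hj : j ∈ S := by rw [hS]; simp
  rcases h.at hj with ⟨i, S', f', g', e1', e2', rfl, rfl⟩ | ⟨ht, a, b, S', f', g', e1', e2', rfl, rfl⟩
  · -- (A)
    have hn2 := hnS
    rw [e1'] at hn2
    simp only [Multiset.nodup_cons, Multiset.mem_cons, not_or] at hn2
    obtain ⟨⟨hij, hiS'⟩, hjS', hS'n⟩ := hn2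
    by_cases hix : i = x
    · subst hix
      have hT' : S' = T := by
        rw [hS, Multiset.cons_swap] at e1'
        have := Multiset.cons_inj_right _ |>.1 e1'
        exact (Multiset.cons_inj_right _ |>.1 this).symm
      subst hT'
      refine ⟨f', g', e2'.rr, ?_, ?_⟩
      · intro p a b c
        have hl : ∀ u v, f' (u2 p j u i v) = f' p := by
          intro u v
          apply e2'.loc
          intro k hk
          apply u2_ne
          · rintro rfl; exact hjT hk
          · rintro rfl; exact hxT hk
        simp only [hl, u2_x, u2_j hjx]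
        have h1 : K.k (K.b b c) a = K.tau a b c := by
          rw [K.tau_cyc]; rfl
        have h2 : K.k (K.b c a) b = K.tau a b c := by
          rw [← K.tau_cyc c a b]; rfl
        have h3 : K.k (K.b a b) c = K.tau a b c := rfl
        rw [h1, h2, h3]
        have := K.zz (K.tau a b c * f' p)
        linear_combination this
      · intro m
        have hl : ∀ u v, g' (u2 m j u i v) = g' m := by
          intro u v
          apply e2'.locM
          intro k hk
          apply u2_ne
          · rintro rfl; exact hjT hk
          · rintro rfl; exact hxT hk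
        simp only [hl, u2_x, u2_j hjx]
        have h1 : kM e1 e1 = 1 := by decide
        have h2 : kM e2 e2 = 1 := by decide
        have h3 : kM e3 e3 = 1 := by decide
        rw [h1, h2, h3]
        have := c2 (g' m)
        linear_combination this
    · -- i ≠ x
      have e3' : i ::ₘ S' = x ::ₘ T := by
        have : j ::ₘ (i ::ₘ S') = j ::ₘ (x ::ₘ T) := by
          rw [← hS, e1', Multiset.cons_swap]
        exact (Multiset.cons_inj_right _).1 this
      have hxS' : x ∈ S' := by
        have : x ∈ i ::ₘ S' := by rw [e3']; simp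
        simp only [Multiset.mem_cons] at this
        rcases this with h | h
        · exact absurd h.symm hix
        · exact h
      rcases e2'.at hxS' with ⟨i', S'', f'', g'', e4', e5', rfl, rfl⟩ |
        ⟨ht, a, b, S'', f'', g'', e4', e5', rfl, rfl⟩
      · have eT : T = i ::ₘ i' ::ₘ S'' := by
          rw [e4'] at e3'
          have : x ::ₘ (i ::ₘ i' ::ₘ S'') = x ::ₘ T := by
            rw [← e3']; simp only [← Multiset.singleton_add]; abel
          exact ((Multiset.cons_inj_right _).1 this).symm
        subst eT
        simp only [Multiset.nodup_cons, Multiset.mem_cons, not_or] at hT hjT hxT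
        refine ⟨_, _, (SS.pr i i' e5').rr, ?_, ?_⟩
        · intro p a b c
          have hl : ∀ u v, f'' (u2 p j u x v) = f'' p := by
            intro u v
            apply e5'.loc
            intro k hk
            apply u2_ne
            · rintro rfl; exact hjT.2.2 hk
            · rintro rfl; exact hxT.2.2 hk
          simp only [hl, u2_x, u2_j hjx, u2_ne (Ne.symm hjT.1) (Ne.symm hxT.1),
            u2_ne (Ne.symm hjT.2.1) (Ne.symm hxT.2.1)]
          have := K.con1 (p i) (p i') a b c
          linear_combination (f'' p) * this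
        · intro m
          have hl : ∀ u v, g'' (u2 m j u x v) = g'' m := by
            intro u v
            apply e5'.locM
            intro k hk
            apply u2_ne
            · rintro rfl; exact hjT.2.2 hk
            · rintro rfl; exact hxT.2.2 hk
          simp only [hl, u2_x, u2_j hjx, u2_ne (Ne.symm hjT.1) (Ne.symm hxT.1),
            u2_ne (Ne.symm hjT.2.1) (Ne.symm hxT.2.1)]
          have := kM_ek (m i) (m i')
          linear_combination (g'' m) * this
      · have eT : T = i ::ₘ a ::ₘ b ::ₘ S'' := by
          rw [e4'] at e3'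
          have : x ::ₘ (i ::ₘ a ::ₘ b ::ₘ S'') = x ::ₘ T := by
            rw [← e3']; simp only [← Multiset.singleton_add]; abel
          exact ((Multiset.cons_inj_right _).1 this).symm
        subst eT
        simp only [Multiset.nodup_cons, Multiset.mem_cons, not_or] at hT hjT hxT
        subst ht
        refine ⟨_, _, (e5'.mulT rfl i a b).rr, ?_, ?_⟩
        · intro p a' b' c'
          have hl : ∀ u v, f'' (u2 p j u x v) = f'' p := by
            intro u v
            apply e5'.loc
            intro k hk
            apply u2_ne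
            · rintro rfl; exact hjT.2.2.2 hk
            · rintro rfl; exact hxT.2.2.2 hk
          simp only [hl, u2_x, u2_j hjx, u2_ne (Ne.symm hjT.1) (Ne.symm hxT.1),
            u2_ne (Ne.symm hjT.2.1) (Ne.symm hxT.2.1), u2_ne (Ne.symm hjT.2.2.1) (Ne.symm hxT.2.2.1)]
          have h1 : ∀ y, K.tau y (p a) (p b) = K.k (K.b (p a) (p b)) y := by
            intro y
            rw [K.tau_left, K.k_symm]
          simp only [h1]
          have := K.con1 (p i) (K.b (p a) (p b)) a' b' c'
          rw [K.k_symm (p i) (K.b (p a) (p b))] at this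
          linear_combination (f'' p) * this
        · intro m
          have hl : ∀ u v, g'' (u2 m j u x v) = g'' m := by
            intro u v
            apply e5'.locM
            intro k hk
            apply u2_ne
            · rintro rfl; exact hjT.2.2.2 hk
            · rintro rfl; exact hxT.2.2.2 hk
          simp only [hl, u2_x, u2_j hjx, u2_ne (Ne.symm hjT.1) (Ne.symm hxT.1),
            u2_ne (Ne.symm hjT.2.1) (Ne.symm hxT.2.1), u2_ne (Ne.symm hjT.2.2.1) (Ne.symm hxT.2.2.1)]
          have h1 : ∀ y, tM y (m a) (m b) = kM (bM (m a) (m b)) y := by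
            intro y
            rw [tM_left, kM_symm]
          simp only [h1]
          have := kM_ek (m i) (bM (m a) (m b))
          rw [kM_symm (m i) (bM (m a) (m b))] at this
          linear_combination (g'' m) * this
  · -- (B)
    subst ht
    have e3' : x ::ₘ T = a ::ₘ b ::ₘ S' := by
      rw [hS] at e1'
      exact (Multiset.cons_inj_right _).1 e1'
    have key : ∀ a b : ℕ, x ≠ a → x ≠ b → x ∈ S' → x ::ₘ T = a ::ₘ b ::ₘ S' → ∃ (f'' : (ℕ → V) → Z)
        (g'' : (ℕ → VM) → ZMod 2), RR K true T f'' g'' ∧
        (∀ p a' b' c', (fun p => K.tau (p j) (p a) (p b) * f' p) (u2 p j a' x (K.b b' c'))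
          + (fun p => K.tau (p j) (p a) (p b) * f' p) (u2 p j b' x (K.b c' a'))
          + (fun p => K.tau (p j) (p a) (p b) * f' p) (u2 p j c' x (K.b a' b'))
          = K.tau a' b' c' * f'' p) ∧
        (∀ m, (fun m => tM (m j) (m a) (m b) * g' m) (u2 m j e1 x e1)
          + (fun m => tM (m j) (m a) (m b) * g' m) (u2 m j e2 x e2)
          + (fun m => tM (m j) (m a) (m b) * g' m) (u2 m j e3 x e3) = g'' m) := by
      intro a b hxa hxb hxS' e3'
      rcases e2'.at hxS' with ⟨i', S'', f'', g'', e4', e5', rfl, rfl⟩ | ⟨ht, _⟩
      · have eT : T = i' ::ₘ a ::ₘ b ::ₘ S'' := by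
          rw [e4'] at e3'
          have : x ::ₘ (i' ::ₘ a ::ₘ b ::ₘ S'') = x ::ₘ T := by
            rw [e3']; simp only [← Multiset.singleton_add]; abel
          exact ((Multiset.cons_inj_right _).1 this).symm
        subst eT
        simp only [Multiset.nodup_cons, Multiset.mem_cons, not_or] at hT hjT hxT
        refine ⟨_, _, (e5'.mulT rfl i' a b).rr, ?_, ?_⟩
        · intro p a' b' c'
          have hl : ∀ u v, f'' (u2 p j u x v) = f'' p := by
            intro u v
            apply e5'.loc
            intro k hk
            apply u2_ne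
            · rintro rfl; exact hjT.2.2.2 hk
            · rintro rfl; exact hxT.2.2.2 hk
          simp only [hl, u2_x, u2_j hjx, u2_ne (Ne.symm hjT.1) (Ne.symm hxT.1),
            u2_ne (Ne.symm hjT.2.1) (Ne.symm hxT.2.1), u2_ne (Ne.symm hjT.2.2.1) (Ne.symm hxT.2.2.1)]
          have h1 : ∀ y, K.tau y (p a) (p b) = K.k (K.b (p a) (p b)) y := by
            intro y
            rw [K.tau_left, K.k_symm]
          simp only [h1]
          have := K.con1 (K.b (p a) (p b)) (p i') a' b' c'
          linear_combination (f'' p) * this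
        · intro m
          have hl : ∀ u v, g'' (u2 m j u x v) = g'' m := by
            intro u v
            apply e5'.locM
            intro k hk
            apply u2_ne
            · rintro rfl; exact hjT.2.2.2 hk
            · rintro rfl; exact hxT.2.2.2 hk
          simp only [hl, u2_x, u2_j hjx, u2_ne (Ne.symm hjT.1) (Ne.symm hxT.1),
            u2_ne (Ne.symm hjT.2.1) (Ne.symm hxT.2.1), u2_ne (Ne.symm hjT.2.2.1) (Ne.symm hxT.2.2.1)]
          have h1 : ∀ y, tM y (m a) (m b) = kM (bM (m a) (m b)) y := by
            intro y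
            rw [tM_left, kM_symm]
          simp only [h1]
          have := kM_ek (bM (m a) (m b)) (m i')
          linear_combination (g'' m) * this
      · cases ht
    have key2 : ∀ b : ℕ, x ≠ b → x ::ₘ T = x ::ₘ b ::ₘ S' → ∃ (f'' : (ℕ → V) → Z)
        (g'' : (ℕ → VM) → ZMod 2), RR K true T f'' g'' ∧
        (∀ p a' b' c', (fun p => K.tau (p j) (p x) (p b) * f' p) (u2 p j a' x (K.b b' c'))
          + (fun p => K.tau (p j) (p x) (p b) * f' p) (u2 p j b' x (K.b c' a'))
          + (fun p => K.tau (p j) (p x) (p b) * f' p) (u2 p j c' x (K.b a' b'))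
          = K.tau a' b' c' * f'' p) ∧
        (∀ m, (fun m => tM (m j) (m x) (m b) * g' m) (u2 m j e1 x e1)
          + (fun m => tM (m j) (m x) (m b) * g' m) (u2 m j e2 x e2)
          + (fun m => tM (m j) (m x) (m b) * g' m) (u2 m j e3 x e3) = g'' m) := by
      intro b hxb e3'
      have eT : T = b ::ₘ S' := (Multiset.cons_inj_right _).1 e3'
      subst eT
      simp only [Multiset.nodup_cons, Multiset.mem_cons, not_or] at hT hjT hxT
      refine ⟨_, _, RR.zero _ _, ?_, ?_⟩
      · intro p a' b' c'
        have hl : ∀ u v, f' (u2 p j u x v) = f' p := by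
          intro u v
          apply e2'.loc
          intro k hk
          apply u2_ne
          · rintro rfl; exact hjT.2 hk
          · rintro rfl; exact hxT.2 hk
        simp only [hl, u2_x, u2_j hjx, u2_ne (Ne.symm hjT.1) (Ne.symm hxT.1), mul_zero]
        have := K.jacK (p b) a' b' c'
        linear_combination (f' p) * this
      · intro m
        have hl : ∀ u v, g' (u2 m j u x v) = g' m := by
          intro u v
          apply e2'.locM
          intro k hk
          apply u2_ne
          · rintro rfl; exact hjT.2 hk
          · rintro rfl; exact hxT.2 hk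
        simp only [hl, u2_x, u2_j hjx, u2_ne (Ne.symm hjT.1) (Ne.symm hxT.1)]
        have h1 : ∀ y v, tM y y v = 0 := by
          intro y v
          unfold tM kM bM
          simp only []
          have q1 := c2 (y.2.1 * y.2.2)
          have q2 := c2 (y.2.2 * y.1)
          have q3 := c2 (y.1 * y.2.1)
          linear_combination v.1 * q1 + v.2.1 * q2 + v.2.2 * q3
        rw [h1, h1, h1]; ring
    by_cases hxa : x = a
    · subst hxa
      have hxb : x ≠ b := by
        rintro rfl
        apply hxT
        have := (Multiset.cons_inj_right _).1 e3'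
        rw [this]; simp
      exact key2 b hxb e3'
    by_cases hxb : x = b
    · subst hxb
      have e6 : x ::ₘ T = x ::ₘ a ::ₘ S' := by rw [e3', Multiset.cons_swap]
      obtain ⟨f'', g'', h1, h2, h3⟩ := key2 a hxa e6
      refine ⟨f'', g'', h1, ?_, ?_⟩
      · intro p a' b' c'
        have := h2 p a' b' c'
        simp only [K.tau_symm _ _ ((u2 _ _ _ _ _) a)] at this ⊢
        exact this
      · intro m
        have := h3 m
        simp only [tM_symm _ _ ((u2 _ _ _ _ _) a)] at this ⊢
        exact this
    have hxS' : x ∈ S' := by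
      have : x ∈ a ::ₘ b ::ₘ S' := by rw [← e3']; simp
      simp only [Multiset.mem_cons] at this
      tauto
    exact key a b hxa hxb hxS' e3'

end P

end E4
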