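import Pool.Agent.Lib.MP_8a95e3_al.P.P08

/-!
# P09 : bracket substitution; contraction for sums; additivity
-/

namespace E4

namespace P

variable {G V Z E : Type} [Group G] [AddCommGroup V] [CommRing Z] [Module Z V] [Ring E]
    [Algebra Z E] {K : PAlg G V Z E}

/-- **bracket substitution** -/
theorem SS.bs {t : Bool} {S : Multiset ℕ} {f : (ℕ → V) → Z} {g : (ℕ → VM) → ZMod 2}
    (h : SS K t S f g) (hn : S.Nodup) {j c d : ℕ} {T : Multiset ℕ} (hS : S = j ::ₘ T) :
    RR K (!t) (c ::ₘ d ::ₘ T) (fun p => f (Function.update p j (K.b (p c) (p d))))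
      (fun m => g (Function.update m j (bM (m c) (m d)))) := by
  have hnS := hn
  rw [hS] at hn
  simp only [Multiset.nodup_cons] at hn
  obtain ⟨hjT, hT⟩ := hn
  have hj : j ∈ S := by rw [hS]; simp
  rcases h.at hj with ⟨i, S', f', g', e1', e2', rfl, rfl⟩ | ⟨ht, a, b, S', f', g', e1', e2', rfl, rfl⟩
  · -- (A)
    have eT : T = i ::ₘ S' := by
      have : j ::ₘ T = j ::ₘ (i ::ₘ S') := by rw [← hS, e1', Multiset.cons_swap]
      exact (Multiset.cons_inj_right _).1 this
    subst eT
    simp only [Multiset.nodup_cons, Multiset.mem_cons, not_or] at hT hjT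
    have hf : ∀ (p : ℕ → V) u, f' (Function.update p j u) = f' p := by
      intro p u
      apply e2'.loc
      intro k hk
      apply Function.update_of_ne
      rintro rfl
      exact hjT.2 hk
    have hg : ∀ (p : ℕ → VM) u, g' (Function.update p j u) = g' p := by
      intro p u
      apply e2'.locM
      intro k hk
      apply Function.update_of_ne
      rintro rfl
      exact hjT.2 hk
    have hi : ∀ (p : ℕ → V) u, Function.update p j u i = p i := fun p u =>
      Function.update_of_ne (Ne.symm hjT.1) _ _
    have hiM : ∀ (p : ℕ → VM) u, Function.update p j u i = p i := fun p u =>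
      Function.update_of_ne (Ne.symm hjT.1) _ _
    simp only [hf, hg, hi, hiM, Function.update_self]
    cases t with
    | false =>
      have h1 := (e2'.mulT rfl i c d).rr
      have e : i ::ₘ c ::ₘ d ::ₘ S' = c ::ₘ d ::ₘ i ::ₘ S' := by
        simp only [← Multiset.singleton_add]; abel
      rw [e] at h1
      simp only [K.tau_left, tM_left] at h1
      exact h1
    | true =>
      obtain ⟨u, v, w, S'', f'', g'', e4', e5', rfl, rfl⟩ := e2'.trip rfl
      have e : ∀ u v w : ℕ, i ::ₘ u ::ₘ c ::ₘ v ::ₘ d ::ₘ w ::ₘ S''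
          = c ::ₘ d ::ₘ i ::ₘ u ::ₘ v ::ₘ w ::ₘ S'' := by
        intro u v w
        simp only [← Multiset.singleton_add]; abel
      have e' : ∀ u v w : ℕ, u ::ₘ v ::ₘ w ::ₘ S'' = w ::ₘ u ::ₘ v ::ₘ S'' := by
        intro u v w
        simp only [← Multiset.singleton_add]; abel
      have e'' : ∀ u v w : ℕ, u ::ₘ v ::ₘ w ::ₘ S'' = u ::ₘ w ::ₘ v ::ₘ S'' := by
        intro u v w
        simp only [← Multiset.singleton_add]; abel
      have s : ∀ u v w : ℕ, RR K false (c ::ₘ d ::ₘ i ::ₘ u ::ₘ v ::ₘ w ::ₘ S'')
          (fun p => K.k (p i) (p u) * (K.k (p c) (p v) * (K.k (p d) (p w) * f'' p)))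
          (fun m => kM (m i) (m u) * (kM (m c) (m v) * (kM (m d) (m w) * g'' m))) := by
        intro u v w
        rw [← e]
        exact (SS.pr i u (SS.pr c v (SS.pr d w e5'))).rr
      have s1 := s u v w
      have s2 := s u w v
      have s3 := s v u w
      have s4 := s v w u
      have s5 := s w u v
      have s6 := s w v u
      rw [e'' u w v] at s2
      rw [e' v u w, e'' w v u, e' w u v, e' v w u] at s3
      rw [e' v w u] at s4
      rw [e' w u v, e' v w u] at s5
      rw [e'' w v u, e' w u v, e' v w u] at s6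
      rw [e4']
      have := ((s1.addR s2).addR (s3.addR s4)).addR (s5.addR s6)
      have ef : (fun p : ℕ → V => K.k (p i) (K.b (p c) (p d))
          * (K.tau (p u) (p v) (p w) * f'' p))
          = fun p => K.k (p i) (p u) * (K.k (p c) (p v) * (K.k (p d) (p w) * f'' p))
            + K.k (p i) (p u) * (K.k (p c) (p w) * (K.k (p d) (p v) * f'' p))
            + (K.k (p i) (p v) * (K.k (p c) (p u) * (K.k (p d) (p w) * f'' p))
            + K.k (p i) (p v) * (K.k (p c) (p w) * (K.k (p d) (p u) * f'' p)))
            + (K.k (p i) (p w) * (K.k (p c) (p u) * (K.k (p d) (p v) * f'' p))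
            + K.k (p i) (p w) * (K.k (p c) (p v) * (K.k (p d) (p u) * f'' p))) := by
        funext p
        have := K.tt6 (p i) (p c) (p d) (p u) (p v) (p w)
        rw [K.tau_left (p i)] at this
        linear_combination (f'' p) * this
      have eg : (fun m : ℕ → VM => kM (m i) (bM (m c) (m d))
          * (tM (m u) (m v) (m w) * g'' m))
          = fun m => kM (m i) (m u) * (kM (m c) (m v) * (kM (m d) (m w) * g'' m))
            + kM (m i) (m u) * (kM (m c) (m w) * (kM (m d) (m v) * g'' m))
            + (kM (m i) (m v) * (kM (m c) (m u) * (kM (m d) (m w) * g'' m))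
            + kM (m i) (m v) * (kM (m c) (m w) * (kM (m d) (m u) * g'' m)))
            + (kM (m i) (m w) * (kM (m c) (m u) * (kM (m d) (m v) * g'' m))
            + kM (m i) (m w) * (kM (m c) (m v) * (kM (m d) (m u) * g'' m))) := by
        funext m
        have := tt6M (m i) (m c) (m d) (m u) (m v) (m w)
        rw [tM_left (m i)] at this
        linear_combination (g'' m) * this
      simp only [Bool.not_true]
      rw [ef, eg]
      exact this
  · -- (B)
    subst ht
    have eT : T = a ::ₘ b ::ₘ S' := by
      rw [hS] at e1'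
      exact (Multiset.cons_inj_right _).1 e1'
    subst eT
    simp only [Multiset.nodup_cons, Multiset.mem_cons, not_or] at hT hjT
    have hf : ∀ (p : ℕ → V) u, f' (Function.update p j u) = f' p := by
      intro p u
      apply e2'.loc
      intro k hk
      apply Function.update_of_ne
      rintro rfl
      exact hjT.2.2 hk
    have hg : ∀ (p : ℕ → VM) u, g' (Function.update p j u) = g' p := by
      intro p u
      apply e2'.locM
      intro k hk
      apply Function.update_of_ne
      rintro rfl
      exact hjT.2.2 hk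
    have ha : ∀ (p : ℕ → V) u, Function.update p j u a = p a := fun p u =>
      Function.update_of_ne (Ne.symm hjT.1) _ _
    have haM : ∀ (p : ℕ → VM) u, Function.update p j u a = p a := fun p u =>
      Function.update_of_ne (Ne.symm hjT.1) _ _
    have hb : ∀ (p : ℕ → V) u, Function.update p j u b = p b := fun p u =>
      Function.update_of_ne (Ne.symm hjT.2.1) _ _
    have hbM : ∀ (p : ℕ → VM) u, Function.update p j u b = p b := fun p u =>
      Function.update_of_ne (Ne.symm hjT.2.1) _ _
    simp only [hf, hg, ha, haM, hb, hbM, Function.update_self, Bool.not_true]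
    have h1 := (SS.pr c a (SS.pr d b e2')).rr
    have h2 := (SS.pr c b (SS.pr d a e2')).rr
    have e : c ::ₘ a ::ₘ d ::ₘ b ::ₘ S' = c ::ₘ d ::ₘ a ::ₘ b ::ₘ S' := by
      simp only [← Multiset.singleton_add]; abel
    have e' : c ::ₘ b ::ₘ d ::ₘ a ::ₘ S' = c ::ₘ d ::ₘ a ::ₘ b ::ₘ S' := by
      simp only [← Multiset.singleton_add]; abel
    rw [e] at h1
    rw [e'] at h2
    have h3 := h1.addR h2
    have ef : (fun p : ℕ → V => K.tau (K.b (p c) (p d)) (p a) (p b) * f' p)
        = fun p => K.k (p c) (p a) * (K.k (p d) (p b) * f' p)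
          + K.k (p c) (p b) * (K.k (p d) (p a) * f' p) := by
      funext p
      rw [K.tau_left, K.K22]; ring
    have eg : (fun m : ℕ → VM => tM (bM (m c) (m d)) (m a) (m b) * g' m)
        = fun m => kM (m c) (m a) * (kM (m d) (m b) * g' m)
          + kM (m c) (m b) * (kM (m d) (m a) * g' m) := by
      funext p
      rw [tM_left, kM22]; ring
    rw [ef, eg]
    exact h3

/-- bracket substitution for sums -/
theorem RR.bs {t : Bool} {S : Multiset ℕ} {f : (ℕ → V) → Z} {g : (ℕ → VM) → ZMod 2}
    (h : RR K t S f g) (hn : S.Nodup) {j c d : ℕ} {T : Multiset ℕ} (hS : S = j ::ₘ T) :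
    RR K (!t) (c ::ₘ d ::ₘ T) (fun p => f (Function.update p j (K.b (p c) (p d))))
      (fun m => g (Function.update m j (bM (m c) (m d)))) := by
  induction h with
  | zero => exact RR.zero _ _
  | add h0 _ ih => exact (h0.bs hn hS).addR ih

/-- contraction for sums -/
theorem RR.con {t : Bool} {S : Multiset ℕ} {f : (ℕ → V) → Z} {g : (ℕ → VM) → ZMod 2}
    (h : RR K t S f g) (hn : S.Nodup) {j x : ℕ} {T : Multiset ℕ} (hS : S = j ::ₘ x ::ₘ T) :
    ∃ (f' : (ℕ → V) → Z) (g' : (ℕ → VM) → ZMod 2), RR K t T f' g' ∧
      (∀ p a b c, f (u2 p j a x (K.b b c)) + f (u2 p j b x (K.b c a)) + f (u2 p j c x (K.b a b))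
        = K.tau a b c * f' p) ∧
      (∀ m, g (u2 m j e1 x e1) + g (u2 m j e2 x e2) + g (u2 m j e3 x e3) = g' m) := by
  induction h with
  | zero => exact ⟨_, _, RR.zero _ _, by simp, by simp⟩
  | add h0 _ ih =>
    obtain ⟨f', g', h1, h2, h3⟩ := ih
    obtain ⟨f'', g'', h1', h2', h3'⟩ := h0.con hn hS
    refine ⟨_, _, h1'.addR h1, ?_, ?_⟩
    · intro p a b c
      have := h2 p a b c
      have := h2' p a b c
      linear_combination h2 p a b c + h2' p a b c
    · intro m
      linear_combination h3 m + h3' m

/-- additivity in a letter (model side) -/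
theorem SS.addM {t : Bool} {S : Multiset ℕ} {f : (ℕ → V) → Z} {g : (ℕ → VM) → ZMod 2}
    (h : SS K t S f g) (hn : S.Nodup) {j : ℕ} (hj : j ∈ S) (m : ℕ → VM) (u v : VM) :
    g (Function.update m j (u + v)) = g (Function.update m j u) + g (Function.update m j v) := by
  have hnS := hn
  rcases h.at hj with ⟨i, S', f', g', e1', e2', rfl, rfl⟩ | ⟨ht, a, b, S', f', g', e1', e2', rfl, rfl⟩
  · rw [e1'] at hn
    simp only [Multiset.nodup_cons, Multiset.mem_cons, not_or] at hn
    have hg : ∀ u, g' (Function.update m j u) = g' m := by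
      intro u
      apply e2'.locM
      intro k hk
      apply Function.update_of_ne
      rintro rfl
      exact hn.2.1 hk
    have hi : ∀ u, Function.update m j u i = m i := fun u => Function.update_of_ne hn.1.1 _ _
    simp only [hg, hi, Function.update_self]
    rw [kM_add_right]; ring
  · rw [e1'] at hn
    simp only [Multiset.nodup_cons, Multiset.mem_cons, not_or] at hn
    have hg : ∀ u, g' (Function.update m j u) = g' m := by
      intro u
      apply e2'.locM
      intro k hk
      apply Function.update_of_ne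
      rintro rfl
      exact hn.1.2.2 hk
    have hi : ∀ u, Function.update m j u a = m a := fun u =>
      Function.update_of_ne (Ne.symm hn.1.1) _ _
    have hi' : ∀ u, Function.update m j u b = m b := fun u =>
      Function.update_of_ne (Ne.symm hn.1.2.1) _ _
    simp only [hg, hi, hi', Function.update_self]
    rw [tM_add_left]; ring

theorem RR.addM {t : Bool} {S : Multiset ℕ} {f : (ℕ → V) → Z} {g : (ℕ → VM) → ZMod 2}
    (h : RR K t S f g) (hn : S.Nodup) {j : ℕ} (hj : j ∈ S) (m : ℕ → VM) (u v : VM) :
    g (Function.update m j (u + v)) = g (Function.update m j u) + g (Function.update m j v) := by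
  induction h with
  | zero => simp
  | add h0 _ ih =>
    have := h0.addM hn hj m u v
    simp only [this, ih]; ring

end P

end E4
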