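import Pool.Agent.Lib.MP_8a95e3_al.P.P09

/-!
# P10 : the model functionals are functionals on the quotient
-/

namespace E4

namespace P

variable {G V Z E : Type} [Group G] [AddCommGroup V] [CommRing Z] [Module Z V] [Ring E]
    [Algebra Z E] {K : PAlg G V Z E}

theorem SS.card0 {t : Bool} {S : Multiset ℕ} {f : (ℕ → V) → Z} {g : (ℕ → VM) → ZMod 2}
    (h : SS K t S f g) (hc : S.card = 0) : f = (fun _ => 1) ∧ g = fun _ => 1 := by
  induction h with
  | one => exact ⟨rfl, rfl⟩
  | tri i j l => simp at hc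
  | pr i j h ih => simp at hc

theorem SS.card1 {t : Bool} {S : Multiset ℕ} {f : (ℕ → V) → Z} {g : (ℕ → VM) → ZMod 2}
    (h : SS K t S f g) (hc : S.card = 1) : False := by
  induction h with
  | one => simp at hc
  | tri i j l => simp at hc
  | pr i j h ih => simp at hc

theorem SS.card2 {t : Bool} {S : Multiset ℕ} {f : (ℕ → V) → Z} {g : (ℕ → VM) → ZMod 2}
    (h : SS K t S f g) {i j : ℕ} (hS : S = i ::ₘ j ::ₘ 0) :
    f = (fun p => K.k (p i) (p j)) ∧ g = fun m => kM (m i) (m j) := by
  have hi : i ∈ S := by rw [hS]; simp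
  have hcS : S.card = 2 := by rw [hS]; simp
  rcases h.at hi with ⟨a, S', f', g', e1', e2', rfl, rfl⟩ | ⟨ht, a, b, S', f', g', e1', e2', rfl, rfl⟩
  · have hc : S'.card = 0 := by
      rw [e1'] at hcS; simp at hcS; exact Multiset.card_eq_zero.2 hcS
    obtain ⟨rfl, rfl⟩ := e2'.card0 hc
    have hS' : S' = 0 := Multiset.card_eq_zero.1 hc
    subst hS'
    have : a = j := by
      have h1 : i ::ₘ (a ::ₘ 0) = i ::ₘ (j ::ₘ 0) := by rw [← hS, e1', Multiset.cons_swap]
      have h2 := (Multiset.cons_inj_right _).1 h1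
      simpa using h2
    subst this
    refine ⟨?_, ?_⟩
    · funext p; rw [mul_one, K.k_symm]
    · funext p; rw [mul_one, kM_symm]
  · rw [e1'] at hcS
    simp at hcS

theorem SS.card3 {t : Bool} {S : Multiset ℕ} {f : (ℕ → V) → Z} {g : (ℕ → VM) → ZMod 2}
    (h : SS K t S f g) {i j l : ℕ} (hS : S = i ::ₘ j ::ₘ l ::ₘ 0) :
    f = (fun p => K.tau (p i) (p j) (p l)) ∧ g = fun m => tM (m i) (m j) (m l) := by
  have hi : i ∈ S := by rw [hS]; simp
  have hcS : S.card = 3 := by rw [hS]; simp
  rcases h.at hi with ⟨a, S', f', g', e1', e2', rfl, rfl⟩ | ⟨ht, a, b, S', f', g', e1', e2', rfl, rfl⟩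
  · have hc : S'.card = 1 := by
      rw [e1'] at hcS; simp only [Multiset.card_cons] at hcS; omega
    exact (e2'.card1 hc).elim
  · have hc : S'.card = 0 := by
      rw [e1'] at hcS; simp only [Multiset.card_cons] at hcS; omega
    obtain ⟨rfl, rfl⟩ := e2'.card0 hc
    have hS' : S' = 0 := Multiset.card_eq_zero.1 hc
    subst hS'
    have h2 : a ::ₘ b ::ₘ 0 = j ::ₘ l ::ₘ 0 := by
      rw [e1'] at hS
      exact (Multiset.cons_inj_right _).1 hS
    have h3 : a ∈ j ::ₘ l ::ₘ 0 := by rw [← h2]; simp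
    simp only [Multiset.mem_cons, Multiset.notMem_zero, or_false] at h3
    rcases h3 with rfl | rfl
    · have h4 := (Multiset.cons_inj_right _).1 h2
      have h5 : b = l := by simpa using h4
      subst h5
      exact ⟨by funext p; rw [mul_one], by funext p; rw [mul_one]⟩
    · rw [Multiset.cons_swap j] at h2
      have h4 := (Multiset.cons_inj_right _).1 h2
      have h5 : b = j := by simpa using h4
      subst h5
      refine ⟨?_, ?_⟩
      · funext p; rw [mul_one, K.tau_symm]
      · funext p; rw [mul_one, tM_symm]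

/-- sums of copies of one symbol -/
theorem RR.uniq {t : Bool} {S : Multiset ℕ} {f : (ℕ → V) → Z} {g : (ℕ → VM) → ZMod 2}
    (h : RR K t S f g) (F : (ℕ → V) → Z) (Gm : (ℕ → VM) → ZMod 2)
    (hu : ∀ f g, SS K t S f g → f = F ∧ g = Gm) (hF : ∃ p, F p ≠ 0) (hf : ∀ p, f p = 0) :
    ∀ m, g m = 0 := by
  have key : (f = (fun _ => 0) ∧ g = fun _ => 0) ∨ (f = F ∧ g = Gm) := by
    clear hf
    induction h with
    | zero => left; exact ⟨rfl, rfl⟩
    | add h0 _ ih =>
      obtain ⟨rfl, rfl⟩ := hu _ _ h0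
      rcases ih with ⟨rfl, rfl⟩ | ⟨rfl, rfl⟩
      · right
        exact ⟨by simp, by simp⟩
      · left
        refine ⟨?_, ?_⟩
        · funext p; exact K.zz _
        · funext p; exact c2 _
  rcases key with ⟨_, rfl⟩ | ⟨rfl, _⟩
  · intro m; rfl
  · obtain ⟨p, hp⟩ := hF
    exact absurd (hf p) hp

theorem tau_ne [Nontrivial E] (K : PAlg G V Z E) : ∃ u v w : V, K.tau u v w ≠ 0 := by
  by_contra hcon
  push Not at hcon
  have : (1 : E) = 0 := by
    apply K.tf_E
    intro u v w
    rw [hcon, zero_smul]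
  exact one_ne_zero this

theorem k_ne [Nontrivial E] (K : PAlg G V Z E) : ∃ u v : V, K.k u v ≠ 0 := by
  obtain ⟨u, v, w, h⟩ := tau_ne K
  exact ⟨_, _, h⟩

theorem one_ne [Nontrivial E] (K : PAlg G V Z E) : (1 : Z) ≠ 0 := by
  intro h
  obtain ⟨u, v, w, h'⟩ := tau_ne K
  apply h'
  rw [← mul_one (K.tau u v w), h, mul_zero]

/-- base of the induction -/
theorem RR.base [Nontrivial E] {t : Bool} {S : Multiset ℕ} {f : (ℕ → V) → Z}
    {g : (ℕ → VM) → ZMod 2} (h : RR K t S f g) (hn : S.Nodup) (hc : S.card ≤ 3)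
    (hf : ∀ p, f p = 0) : ∀ m, g m = 0 := by
  have h0 : S.card = 0 ∨ S.card = 1 ∨ S.card = 2 ∨ S.card = 3 := by omega
  rcases h0 with h0 | h0 | h0 | h0
  · exact h.uniq _ _ (fun f g hs => hs.card0 h0) ⟨fun _ => 0, one_ne K⟩ hf
  · induction h with
    | zero => intro m; rfl
    | add h1 _ _ => exact (h1.card1 h0).elim
  · obtain ⟨i, j, hS⟩ := Multiset.card_eq_two.1 h0
    have hS' : S = i ::ₘ j ::ₘ 0 := hS
    obtain ⟨u, v, huv⟩ := k_ne K
    have hij : i ≠ j := by
      rw [hS'] at hn; simp at hn; exact hn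
    refine h.uniq _ _ (fun f g hs => hs.card2 hS') ⟨fun l => if l = i then u else v, ?_⟩ hf
    simp only [if_true, if_neg (Ne.symm hij)]
    exact huv
  · obtain ⟨i, j, l, hS⟩ := Multiset.card_eq_three.1 h0
    have hS' : S = i ::ₘ j ::ₘ l ::ₘ 0 := hS
    obtain ⟨u, v, w, huv⟩ := tau_ne K
    rw [hS'] at hn
    simp at hn
    obtain ⟨⟨hij, hil⟩, hjl⟩ := hn
    refine h.uniq _ _ (fun f g hs => hs.card3 hS')
      ⟨fun x => if x = i then u else if x = j then v else w, ?_⟩ hf
    simp only [if_true, if_neg (Ne.symm hij), if_neg (Ne.symm hil), if_neg (Ne.symm hjl)]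
    exact huv

theorem fresh (S : Multiset ℕ) : ∃ c, ∀ i ∈ S, i < c := by
  refine ⟨S.sum + 1, fun i hi => ?_⟩
  have := Multiset.single_le_sum (fun x _ => Nat.zero_le x) i hi
  omega

/-- **the model functionals vanish on identities** -/
theorem lam [Nontrivial E] (n : ℕ) : ∀ (t : Bool) (S : Multiset ℕ) (f : (ℕ → V) → Z)
    (g : (ℕ → VM) → ZMod 2), S.card = n → S.Nodup → RR K t S f g → (∀ p, f p = 0) →
    ∀ m : ℕ → VM, (S.filter (fun i => m i ≠ zM)).card ≤ 2 → g m = 0 := by
  induction n using Nat.strong_induction_on with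
  | _ n ih =>
  intro t S f g hcS hn h hf m hm
  by_cases hz : (S.filter (fun i => m i = zM)).card ≤ 1
  · have hle : S.card ≤ 3 := by
      have := congrArg Multiset.card (Multiset.filter_add_not (fun i => m i = zM) S)
      rw [Multiset.card_add] at this
      have h2 : (S.filter (fun i => ¬ m i = zM)).card ≤ 2 := hm
      omega
    exact h.base hn hle hf m
  · -- two letters at z
    have h2 : 2 ≤ (S.filter (fun i => m i = zM)).card := by omega
    obtain ⟨jj, hjj⟩ := Multiset.card_pos_iff_exists_mem.1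
      (by omega : 0 < (S.filter (fun i => m i = zM)).card)
    obtain ⟨B, hB⟩ := Multiset.exists_cons_of_mem hjj
    have hBc : 1 ≤ B.card := by
      rw [hB, Multiset.card_cons] at h2; omega
    obtain ⟨xx, hxx⟩ := Multiset.card_pos_iff_exists_mem.1 (by omega : 0 < B.card)
    obtain ⟨B', hB'⟩ := Multiset.exists_cons_of_mem hxx
    have hjm : jj ∈ S.filter (fun i => m i = zM) := by rw [hB]; simp
    have hxm : xx ∈ S.filter (fun i => m i = zM) := by rw [hB, hB']; simp
    rw [Multiset.mem_filter] at hjm hxm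
    have hle : jj ::ₘ xx ::ₘ 0 ≤ S := by
      refine le_trans ?_ (Multiset.filter_le (fun i => m i = zM) S)
      rw [hB, hB']
      exact Multiset.cons_le_cons _ (Multiset.cons_le_cons _ (Multiset.zero_le _))
    obtain ⟨T, hT⟩ := Multiset.le_iff_exists_add.1 hle
    have hS : S = jj ::ₘ xx ::ₘ T := by rw [hT]; simp
    clear hT hle
    have hmj : m jj = zM := hjm.2
    have hmx : m xx = zM := hxm.2
    have hnS := hn
    rw [hS] at hn
    simp only [Multiset.nodup_cons, Multiset.mem_cons, not_or] at hn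
    obtain ⟨⟨hjx, hjT⟩, hxT, hTn⟩ := hn
    have hcT : T.card + 2 = n := by rw [← hcS, hS]; simp
    have hfT : (T.filter (fun i => m i ≠ zM)).card ≤ 2 := by
      rw [hS] at hm
      rw [Multiset.filter_cons_of_neg _ (by simpa using hmj),
        Multiset.filter_cons_of_neg _ (by simpa using hmx)] at hm
      exact hm
    -- contraction
    obtain ⟨f1, g1, r1, r2, r3⟩ := h.con hnS hS
    have hf1 : ∀ p, f1 p = 0 := by
      intro p
      apply K.tf_Z
      intro a b c
      rw [smul_eq_mul, ← r2 p a b c, hf, hf, hf]; simp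
    have hg1 := ih T.card (by omega) _ T f1 g1 rfl hTn r1 hf1 m hfT
    rw [← r3 m] at hg1
    -- cap
    obtain ⟨c, hc⟩ := fresh S
    have hcS' : c ∉ S := fun h => lt_irrefl _ (hc c h)
    have hdS' : c + 1 ∉ S := fun h => by have := hc _ h; omega
    have hbs := h.bs (c := c) (d := c + 1) hnS hS
    have hcj : c ≠ jj := by rintro rfl; exact hcS' hjm.1
    have hcx : c ≠ xx := by rintro rfl; exact hcS' hxm.1
    have hdj : c + 1 ≠ jj := by intro h; apply hdS'; rw [h]; exact hjm.1
    have hdx : c + 1 ≠ xx := by intro h; apply hdS'; rw [h]; exact hxm.1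
    have hcT' : c ∉ T := by intro h; apply hcS'; rw [hS]; simp [h]
    have hdT' : c + 1 ∉ T := by intro h; apply hdS'; rw [hS]; simp [h]
    have hn2 : (c ::ₘ (c + 1) ::ₘ xx ::ₘ T).Nodup := by
      simp only [Multiset.nodup_cons, Multiset.mem_cons, not_or]
      exact ⟨⟨by omega, hcx, hcT'⟩, ⟨hdx, hdT'⟩, hxT, hTn⟩
    have hS2 : c ::ₘ (c + 1) ::ₘ xx ::ₘ T = (c + 1) ::ₘ xx ::ₘ (c ::ₘ T) := by
      simp only [← Multiset.singleton_add]; abel
    obtain ⟨f3, g3, s1, s2, s3⟩ := hbs.con hn2 hS2
    have hf3 : ∀ p, f3 p = 0 := by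
      intro p
      apply K.tf_Z
      intro a b c
      rw [smul_eq_mul, ← s2 p a b c, hf, hf, hf]; simp
    have hm' : ((c ::ₘ T).filter (fun i => Function.update m c zM i ≠ zM)).card ≤ 2 := by
      rw [Multiset.filter_cons_of_neg _ (by simp)]
      refine le_trans (le_of_eq ?_) hfT
      congr 1
      apply Multiset.filter_congr
      intro i hi
      have : i ≠ c := by rintro rfl; exact hcT' hi
      rw [Function.update_of_ne this]
    have hg3 := ih (c ::ₘ T).card (by rw [Multiset.card_cons]; omega) _ (c ::ₘ T) f3 g3 rfl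
      (by simp only [Multiset.nodup_cons]; exact ⟨hcT', hTn⟩) s1 hf3 (Function.update m c zM) hm'
    rw [← s3] at hg3
    have hloc : ∀ w v : VM, g (Function.update (u2 (Function.update m c zM) (c + 1) v xx v) jj w)
        = g (u2 m jj w xx v) := by
      intro w v
      apply h.locM
      intro i hi
      have hic : i ≠ c := by rintro rfl; exact hcS' hi
      have hid : i ≠ c + 1 := by rintro rfl; exact hdS' hi
      by_cases hij : i = jj
      · subst hij
        rw [Function.update_self, u2_j hjx]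
      · rw [Function.update_of_ne hij]
        by_cases hix : i = xx
        · subst hix
          rw [u2_x, u2_x]
        · rw [u2_ne hid hix, u2_ne hij hix, Function.update_of_ne hic]
    have hcv : ∀ v : VM, u2 (Function.update m c zM) (c + 1) v xx v c = zM := by
      intro v
      rw [u2_ne (by omega) hcx, Function.update_self]
    have hdv : ∀ v : VM, u2 (Function.update m c zM) (c + 1) v xx v (c + 1) = v := by
      intro v
      rw [u2_j hdx]
    simp only [hcv, hdv, hloc] at hg3
    -- additivity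
    have add1 : ∀ u v w : VM, g (u2 m jj (u + v) xx w) = g (u2 m jj u xx w) + g (u2 m jj v xx w) := by
      intro u v w
      have hsw : ∀ u, u2 m jj u xx w = Function.update (Function.update m xx w) jj u := by
        intro u
        unfold u2
        rw [Function.update_comm hjx]
      rw [hsw, hsw, hsw]
      exact h.addM hnS hjm.1 _ u v
    have add2 : ∀ u v w : VM, g (u2 m jj w xx (u + v)) = g (u2 m jj w xx u) + g (u2 m jj w xx v) := by
      intro u v w
      exact h.addM hnS hxm.1 _ u v
    have hzz := zz_eq (fun u v => g (u2 m jj u xx v)) add1 add2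
    beta_reduce at hzz
    have hmm : u2 m jj zM xx zM = m := by
      unfold u2
      rw [← hmj, Function.update_eq_self, hmj, ← hmx, Function.update_eq_self]
    rw [hmm, hg1, hg3, add_zero] at hzz
    exact hzz

end P

end E4
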