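import Pool.Agent.Lib.MP_8a95e3_al.P.P10

/-!
# P11 : square free coefficients of products `Π (1 + X_j)`
-/

namespace E4

namespace P

/-- the part of `Π (1 + X_j)` which is linear in the letters of `S` and does not contain others -/
def cf {R : Type} [Ring R] (X : ℕ → R) : List ℕ → Finset ℕ → R
  | [], S => if S = ∅ then 1 else 0
  | j :: L, S => cf X L S + if j ∈ S then X j * cf X L (S.erase j) else 0

theorem cf_congr {R : Type} [Ring R] {X X' : ℕ → R} (L : List ℕ) :
    ∀ S : Finset ℕ, (∀ j ∈ S, X j = X' j) → cf X L S = cf X' L S := by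
  induction L with
  | nil => intro S _; rfl
  | cons j L ih =>
    intro S h
    unfold cf
    rw [ih S h]
    by_cases hj : j ∈ S
    · rw [if_pos hj, if_pos hj, h j hj, ih (S.erase j) (fun i hi => h i (Finset.mem_of_mem_erase hi))]
    · rw [if_neg hj, if_neg hj]

/-- repeated letters vanish -/
theorem cf_rep {R : Type} [Ring R] {X : ℕ → R}
    (hX : ∀ (j : ℕ) (w : List ℕ), X j * (w.map X).prod * X j = 0) (j : ℕ) (L : List ℕ) :
    ∀ (w : List ℕ) (S : Finset ℕ), j ∈ S → X j * (w.map X).prod * cf X L S = 0 := by
  induction L with
  | nil =>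
    intro w S h
    unfold cf
    rw [if_neg (by rintro rfl; simp at h), mul_zero]
  | cons i L ih =>
    intro w S h
    unfold cf
    rw [mul_add, ih w S h, zero_add]
    by_cases hi : i ∈ S
    · rw [if_pos hi]
      by_cases hij : i = j
      · subst hij
        rw [← mul_assoc, hX, zero_mul]
      · have h1 : X j * (w.map X).prod * (X i * cf X L (S.erase i))
            = X j * ((w ++ [i]).map X).prod * cf X L (S.erase i) := by
          rw [List.map_append, List.prod_append, List.map_singleton, List.prod_singleton]
          simp only [mul_assoc]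
        rw [h1]
        exact ih _ _ (Finset.mem_erase.2 ⟨Ne.symm hij, h⟩)
    · rw [if_neg hi, mul_zero]

theorem cf_sum {R : Type} [Ring R] {X : ℕ → R}
    (hX : ∀ (j : ℕ) (w : List ℕ), X j * (w.map X).prod * X j = 0) (n : ℕ) (L : List ℕ) :
    (∀ j ∈ L, j < n) →
    (L.map (fun j => 1 + X j)).prod = ∑ S ∈ (Finset.range n).powerset, cf X L S := by
  induction L with
  | nil =>
    intro _
    simp only [List.map_nil, List.prod_nil]
    unfold cf
    rw [Finset.sum_eq_single_of_mem ∅ (Finset.empty_mem_powerset _)]
    · simp
    · intro S _ hS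
      rw [if_neg hS]
  | cons j L ih =>
    intro h
    simp only [List.map_cons, List.prod_cons]
    rw [ih (fun i hi => h i (List.mem_cons_of_mem _ hi)), add_mul, one_mul]
    have e : ∀ S ∈ (Finset.range n).powerset, cf X (j :: L) S
        = cf X L S + if j ∈ S then X j * cf X L (S.erase j) else 0 := fun S _ => rfl
    rw [Finset.sum_congr rfl e, Finset.sum_add_distrib]
    congr 1
    rw [Finset.mul_sum]
    rw [← Finset.sum_filter]
    -- left sum: only `S` without `j`
    have e1 : ∑ S ∈ (Finset.range n).powerset, X j * cf X L S
        = ∑ S ∈ (Finset.range n).powerset.filter (fun S => j ∉ S), X j * cf X L S := by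
      rw [Finset.sum_filter]
      apply Finset.sum_congr rfl
      intro S _
      by_cases hj : j ∈ S
      · rw [if_neg (by simpa using hj)]
        have := cf_rep hX j L [] S hj
        simpa using this
      · rw [if_pos hj]
    rw [e1]
    have hjn : j < n := h j List.mem_cons_self
    refine Finset.sum_bij' (fun S _ => insert j S) (fun S _ => S.erase j) ?_ ?_ ?_ ?_ ?_
    · intro S hS
      simp only [Finset.mem_filter, Finset.mem_powerset] at hS ⊢
      refine ⟨?_, Finset.mem_insert_self _ _⟩
      intro x hx
      rcases Finset.mem_insert.1 hx with rfl | hx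
      · exact Finset.mem_range.2 hjn
      · exact hS.1 hx
    · intro S hS
      simp only [Finset.mem_filter, Finset.mem_powerset] at hS ⊢
      exact ⟨fun x hx => hS.1 (Finset.mem_of_mem_erase hx), Finset.notMem_erase _ _⟩
    · intro S hS
      simp only [Finset.mem_filter, Finset.mem_powerset] at hS
      exact Finset.erase_insert hS.2
    · intro S hS
      simp only [Finset.mem_filter, Finset.mem_powerset] at hS
      exact Finset.insert_erase hS.2
    · intro S hS
      simp only [Finset.mem_filter, Finset.mem_powerset] at hS
      rw [Finset.erase_insert hS.2]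

/-- scaling the letters -/
theorem cf_smul {R B : Type} [Ring R] [CommRing B] [Algebra B R] (X : ℕ → R) (ε : ℕ → B)
    (L : List ℕ) : ∀ S : Finset ℕ,
    cf (fun j => ε j • X j) L S = (∏ i ∈ S, ε i) • cf X L S := by
  induction L with
  | nil =>
    intro S
    unfold cf
    by_cases h : S = ∅
    · subst h; simp
    · rw [if_neg h, smul_zero]
  | cons j L ih =>
    intro S
    unfold cf
    rw [ih S, smul_add]
    congr 1
    by_cases hj : j ∈ S
    · rw [if_pos hj, if_pos hj, ih (S.erase j), ← Finset.mul_prod_erase S ε hj, smul_mul_smul_comm]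
    · rw [if_neg hj, if_neg hj, smul_zero]

end P

end E4
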