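import Pool.Agent.Lib.MP_8a95e3_al.P.P11

/-!
# P12 : multilinearity, extension from squares, the coefficients `cf` as related pairs
-/

namespace E4

namespace P

variable {G V Z E : Type} [Group G] [AddCommGroup V] [CommRing Z] [Module Z V] [Ring E]
    [Algebra Z E] {K : PAlg G V Z E}

/-- linearity in a letter (quotient side) -/
theorem SS.linV {t : Bool} {S : Multiset ℕ} {f : (ℕ → V) → Z} {g : (ℕ → VM) → ZMod 2}
    (h : SS K t S f g) (hn : S.Nodup) {j : ℕ} (hj : j ∈ S) (p : ℕ → V) :
    (∀ u v, f (Function.update p j (u + v)) = f (Function.update p j u) + f (Function.update p j v))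
    ∧ (∀ (z : Z) (u : V), f (Function.update p j (z • u)) = z * f (Function.update p j u)) := by
  have hnS := hn
  rcases h.at hj with ⟨i, S', f', g', e1', e2', rfl, rfl⟩ | ⟨ht, a, b, S', f', g', e1', e2', rfl, rfl⟩
  · rw [e1'] at hn
    simp only [Multiset.nodup_cons, Multiset.mem_cons, not_or] at hn
    have hg : ∀ u, f' (Function.update p j u) = f' p := by
      intro u
      apply e2'.loc
      intro k hk
      apply Function.update_of_ne
      rintro rfl
      exact hn.2.1 hk
    have hi : ∀ u, Function.update p j u i = p i := fun u => Function.update_of_ne hn.1.1 _ _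
    simp only [hg, hi, Function.update_self, map_add, map_smul, smul_eq_mul]
    exact ⟨fun u v => by ring, fun z u => by ring⟩
  · rw [e1'] at hn
    simp only [Multiset.nodup_cons, Multiset.mem_cons, not_or] at hn
    have hg : ∀ u, f' (Function.update p j u) = f' p := by
      intro u
      apply e2'.loc
      intro k hk
      apply Function.update_of_ne
      rintro rfl
      exact hn.1.2.2 hk
    have hi : ∀ u, Function.update p j u a = p a := fun u =>
      Function.update_of_ne (Ne.symm hn.1.1) _ _
    have hi' : ∀ u, Function.update p j u b = p b := fun u =>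
      Function.update_of_ne (Ne.symm hn.1.2.1) _ _
    simp only [hg, hi, hi', Function.update_self, K.tau_left, LinearMap.map_add₂,
      LinearMap.map_smul₂, smul_eq_mul]
    exact ⟨fun u v => by ring, fun z u => by ring⟩

theorem RR.linV {t : Bool} {S : Multiset ℕ} {f : (ℕ → V) → Z} {g : (ℕ → VM) → ZMod 2}
    (h : RR K t S f g) (hn : S.Nodup) {j : ℕ} (hj : j ∈ S) (p : ℕ → V) :
    (∀ u v, f (Function.update p j (u + v)) = f (Function.update p j u) + f (Function.update p j v))
    ∧ (∀ (z : Z) (u : V), f (Function.update p j (z • u)) = z * f (Function.update p j u)) := by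
  induction h with
  | zero => simp
  | add h0 _ ih =>
    obtain ⟨h1, h2⟩ := h0.linV hn hj p
    refine ⟨fun u v => ?_, fun z u => ?_⟩
    · beta_reduce; rw [h1, ih.1]; ring
    · beta_reduce; rw [h2, ih.2]; ring

/-- extension from squares -/
theorem RR.ext {t : Bool} {S : Multiset ℕ} {f : (ℕ → V) → Z} {g : (ℕ → VM) → ZMod 2}
    (h : RR K t S f g) (hn : S.Nodup) (hf : ∀ x : ℕ → G, f (fun i => K.t (x i)) = 0) :
    ∀ p, f p = 0 := by
  have key : ∀ (A : Finset ℕ) (p : ℕ → V), (∀ i ∈ S, i ∉ A → ∃ x, p i = K.t x) → f p = 0 := by
    intro A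
    induction A using Finset.induction_on with
    | empty =>
      intro p hp
      have hch : ∀ i, ∃ x : G, i ∈ S → p i = K.t x := by
        intro i
        by_cases hi : i ∈ S
        · obtain ⟨x, hx⟩ := hp i hi (by simp)
          exact ⟨x, fun _ => hx⟩
        · exact ⟨1, fun h => absurd h hi⟩
      choose x hx using hch
      rw [h.loc (p' := fun i => K.t (x i)) (fun i hi => hx i hi)]
      exact hf x
    | insert j A hj ih =>
      intro p hp
      by_cases hjS : j ∈ S
      · have hpj : p = Function.update p j (p j) := by rw [Function.update_eq_self]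
        rw [hpj]
        have h' := K.span (p j)
        generalize p j = q at h'
        induction h' using Submodule.span_induction with
        | mem u hu =>
          obtain ⟨x, rfl⟩ := hu
          apply ih
          intro i hi hiA
          by_cases hij : i = j
          · subst hij; exact ⟨x, by rw [Function.update_self]⟩
          · obtain ⟨y, hy⟩ := hp i hi (by simp [hij, hiA])
            exact ⟨y, by rw [Function.update_of_ne hij, hy]⟩
        | zero =>
          have := (h.linV hn hjS p).2 0 0
          rw [zero_smul, zero_mul] at this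
          exact this
        | add u v _ _ hu hv => rw [(h.linV hn hjS p).1, hu, hv, add_zero]
        | smul z u _ hu => rw [(h.linV hn hjS p).2, hu, mul_zero]
      · rw [h.loc (p' := Function.update p j (K.t 1)) (fun i hi => by
          rw [Function.update_of_ne]; rintro rfl; exact hjS hi)]
        apply ih
        intro i hi hiA
        have hij : i ≠ j := by rintro rfl; exact hjS hi
        obtain ⟨y, hy⟩ := hp i hi (by simp [hij, hiA])
        exact ⟨y, by rw [Function.update_of_ne hij, hy]⟩
  intro p
  exact key S.toFinset p (fun i hi hiA => absurd (Multiset.mem_toFinset.2 hi) hiA)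

/-- coordinates -/
def toV (u : VM) : Fin 3 → ZMod 2 := ![u.1, u.2.1, u.2.2]

/-- the matrix of `[u, ·]` -/
def mat (u : VM) : Matrix (Fin 3) (Fin 3) (ZMod 2) :=
  !![0, u.2.2, u.2.1; u.2.2, 0, u.1; u.2.1, u.1, 0]

/-- pairing of a matrix with two vectors -/
def pm (u v : VM) (Y : Matrix (Fin 3) (Fin 3) (ZMod 2)) : ZMod 2 :=
  dotProduct (toV u) (Y.mulVec (toV v))

theorem pm_one (u v : VM) : pm u v 1 = kM u v := by
  unfold pm toV kM
  rw [Matrix.one_mulVec]
  simp [dotProduct, Fin.sum_univ_three]

theorem pm_add (u v : VM) (Y Y' : Matrix (Fin 3) (Fin 3) (ZMod 2)) :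
    pm u v (Y + Y') = pm u v Y + pm u v Y' := by
  unfold pm
  rw [Matrix.add_mulVec, dotProduct_add]

theorem pm_zero (u v : VM) : pm u v 0 = 0 := by
  unfold pm
  rw [Matrix.zero_mulVec, dotProduct_zero]

theorem vm_mat (u w : VM) : Matrix.vecMul (toV u) (mat w) = toV (bM u w) := by
  obtain ⟨u1, u2, u3⟩ := u
  obtain ⟨w1, w2, w3⟩ := w
  funext i
  fin_cases i <;>
    simp [Matrix.vecMul, dotProduct, Fin.sum_univ_three, toV, mat, bM]
  all_goals ring

theorem pm_mat (u v w : VM) (Y : Matrix (Fin 3) (Fin 3) (ZMod 2)) :
    pm u v (mat w * Y) = pm (bM u w) v Y := by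
  unfold pm
  rw [← vm_mat, ← Matrix.mulVec_mulVec, Matrix.dotProduct_mulVec]

/-- the coefficients are related pairs -/
theorem cf_rr (L : List ℕ) : ∀ (S : Finset ℕ) (a b : ℕ), a ∉ S → b ∉ S → a ≠ b →
    RR K S.card.bodd (a ::ₘ b ::ₘ S.val)
      (fun p => K.k (p a) (cf (R := Module.End Z V) (fun j => K.b (p j)) L S (p b)))
      (fun m => pm (m a) (m b) (cf (fun j => mat (m j)) L S)) := by
  induction L with
  | nil =>
    intro S a b ha hb hab
    unfold cf
    by_cases h : S = ∅
    · subst h
      have := (SS.pr (K := K) a b SS.one).rr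
      simp only [if_true, pm_one]
      simpa using this
    · simp only [if_neg h, pm_zero]
      simpa using RR.zero (K := K) S.card.bodd (a ::ₘ b ::ₘ S.val)
  | cons j L ih =>
    intro S a b ha hb hab
    have h1 := ih S a b ha hb hab
    unfold cf
    by_cases hj : j ∈ S
    · simp only [if_pos hj, pm_add, pm_mat]
      have ha' : a ∉ S.erase j := fun h => ha (Finset.mem_of_mem_erase h)
      have hb' : b ∉ S.erase j := fun h => hb (Finset.mem_of_mem_erase h)
      have h2 := ih (S.erase j) a b ha' hb' hab
      have hn : (a ::ₘ b ::ₘ (S.erase j).val).Nodup := by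
        simp only [Multiset.nodup_cons, Multiset.mem_cons, not_or]
        exact ⟨⟨hab, ha'⟩, hb', (S.erase j).nodup⟩
      have h3 := h2.bs (c := a) (d := j) hn (j := a) (T := b ::ₘ (S.erase j).val) rfl
      have hc : (!(S.erase j).card.bodd) = S.card.bodd := by
        rw [← Finset.card_erase_add_one hj, Nat.bodd_succ]
      rw [hc] at h3
      have hS : a ::ₘ j ::ₘ b ::ₘ (S.erase j).val = a ::ₘ b ::ₘ S.val := by
        have : S.val = j ::ₘ (S.erase j).val := by
          rw [Finset.erase_val, Multiset.cons_erase hj]
        rw [this, Multiset.cons_swap j b]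
      rw [hS] at h3
      have haj : a ≠ j := by rintro rfl; exact ha hj
      have e1 : (fun p : ℕ → V => K.k (Function.update p a (K.b (p a) (p j)) a)
            (cf (R := Module.End Z V) (fun i => K.b (Function.update p a (K.b (p a) (p j)) i)) L
              (S.erase j) (Function.update p a (K.b (p a) (p j)) b)))
          = fun p => K.k (p a) ((K.b (p j) * cf (R := Module.End Z V) (fun i => K.b (p i)) L
              (S.erase j) : Module.End Z V) (p b)) := by
        funext p
        rw [Function.update_self, Function.update_of_ne (Ne.symm hab)]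
        rw [cf_congr (R := Module.End Z V) (X' := fun i => K.b (p i)) L (S.erase j) (fun i hi => by
          rw [Function.update_of_ne]; rintro rfl; exact ha' hi)]
        rw [Module.End.mul_apply]
        exact K.tau_left _ _ _
      have e2 : (fun m : ℕ → VM => pm (Function.update m a (bM (m a) (m j)) a)
            (Function.update m a (bM (m a) (m j)) b)
            (cf (fun i => mat (Function.update m a (bM (m a) (m j)) i)) L (S.erase j)))
          = fun m => pm (bM (m a) (m j)) (m b) (cf (fun i => mat (m i)) L (S.erase j)) := by
        funext p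
        rw [Function.update_self, Function.update_of_ne (Ne.symm hab)]
        rw [cf_congr (X' := fun i => mat (p i)) L (S.erase j) (fun i hi => by
          rw [Function.update_of_ne]; rintro rfl; exact ha' hi)]
      rw [e1, e2] at h3
      have h4 := h1.addR h3
      simp only [LinearMap.add_apply, map_add]
      exact h4
    · simp only [if_neg hj, add_zero]
      exact h1

end P

end E4
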