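import Pool.Agent.Lib.MP_8a95e3_al.P.P06

/-!
# P14 : resolution of the identity, linear identities for represented operators
-/

namespace E4

namespace P

variable {G V Z E : Type} [Group G] [AddCommGroup V] [CommRing Z] [Module Z V] [Ring E]
    [Algebra Z E]

namespace PAlg

variable (K : PAlg G V Z E)

/-- dual Cramer -/
theorem cramerD (a b c v : V) :
    K.tau a b c • v = K.k (K.b b c) v • a + K.k (K.b c a) v • b + K.k (K.b a b) v • c := by
  have h := K.cramer' a b c v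
  rw [h]
  unfold tau
  abel

/-- `τ(a,b,c) = Σ E([b,c],a)` -/
theorem resol (a b c : V) :
    K.tau a b c • (1 : E) = K.Ee (K.b b c) a + K.Ee (K.b c a) b + K.Ee (K.b a b) c := by
  apply K.rep_inj (K.rep_z (K.tau a b c))
    (K.rep_add (K.rep_add (K.rep_Ee (K.b b c) a) (K.rep_Ee (K.b c a) b)) (K.rep_Ee (K.b a b) c))
  intro v
  simp only [LinearMap.smul_apply, LinearMap.id_apply, LinearMap.add_apply,
    LinearMap.smulRight_apply]
  exact K.cramerD a b c v

/-- `τ(a,b,c) y = Σ E([b,c], y a)` -/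
theorem resolR {y : E} {f f' : V →ₗ[Z] V} (h : K.Rep y f f') (a b c : V) :
    K.tau a b c • y = K.Ee (K.b b c) (f a) + K.Ee (K.b c a) (f b) + K.Ee (K.b a b) (f c) := by
  have h1 : K.tau a b c • y = y * (K.tau a b c • (1 : E)) := by
    rw [mul_smul_comm, mul_one]
  rw [h1, K.resol, mul_add, mul_add, h.1, h.1, h.1]

/-- **principle**: a linear map on `E` with values in a torsion free module which vanishes on all
`E(p,q)` vanishes on all represented operators -/
theorem princ {M : Type} [AddCommGroup M] [Module Z M] (hM : K.TF M) (Φ : E →ₗ[Z] M)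
    (h : ∀ p q, Φ (K.Ee p q) = 0) {y : E} {f f' : V →ₗ[Z] V} (hy : K.Rep y f f') : Φ y = 0 := by
  apply hM
  intro a b c
  rw [← map_smul, K.resolR hy, map_add, map_add, h, h, h]
  simp

/-- (T-b) -/
theorem cyc2 (a b c : V) :
    K.l a * K.l (K.b b c) + K.l b * K.l (K.b c a) + K.l c * K.l (K.b a b) = 0 := by
  apply K.rep_inj
    (K.rep_add (K.rep_add (K.rep_mul (K.rep_l a) (K.rep_l (K.b b c)))
      (K.rep_mul (K.rep_l b) (K.rep_l (K.b c a)))) (K.rep_mul (K.rep_l c) (K.rep_l (K.b a b))))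
    K.rep_zero
  intro v
  simp only [LinearMap.add_apply, LinearMap.comp_apply, LinearMap.zero_apply, K.R1, map_add,
    map_smul]
  rw [K.b_symm b a, K.b_symm c a, K.b_symm c b]
  have h1 := K.vv (K.k c v • K.b a b)
  have h2 := K.vv (K.k b v • K.b a c)
  have h3 := K.vv (K.k a v • K.b b c)
  calc _ = (K.k c v • K.b a b + K.k c v • K.b a b) + (K.k b v • K.b a c + K.k b v • K.b a c)
        + (K.k a v • K.b b c + K.k a v • K.b b c) := by abel
    _ = 0 := by rw [h1, h2, h3]; simp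

/-- (T-b), other side -/
theorem cyc2' (a b c : V) :
    K.l (K.b b c) * K.l a + K.l (K.b c a) * K.l b + K.l (K.b a b) * K.l c = 0 := by
  have h := K.cyc2 a b c
  have hj : K.b a (K.b b c) + K.b b (K.b c a) + K.b c (K.b a b) = 0 := by
    have := K.jac a b c
    rw [K.b_symm a, K.b_symm b (K.b c a), K.b_symm c (K.b a b)]
    rw [← this]; abel
  have h2 := congrArg K.l hj
  rw [map_add, map_add, map_zero, K.l_b a (K.b b c), K.l_b b (K.b c a), K.l_b c (K.b a b)] at h2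
  rw [← h2]
  have : K.l a * K.l (K.b b c) + K.l (K.b b c) * K.l a + (K.l b * K.l (K.b c a) + K.l (K.b c a) * K.l b)
      + (K.l c * K.l (K.b a b) + K.l (K.b a b) * K.l c)
      = (K.l a * K.l (K.b b c) + K.l b * K.l (K.b c a) + K.l c * K.l (K.b a b))
        + (K.l (K.b b c) * K.l a + K.l (K.b c a) * K.l b + K.l (K.b a b) * K.l c) := by abel
  rw [this, h, zero_add]

/-- Cramer in `E` -/
theorem cramE (a b c p : V) :
    K.k p a • K.l (K.b b c) + K.k p b • K.l (K.b c a) + K.k p c • K.l (K.b a b)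
      = K.tau a b c • K.l p := by
  have h := congrArg K.l (K.cramer a b c p)
  rw [map_smul, map_add, map_add, map_smul, map_smul, map_smul, K.k_symm b p,
    K.k_symm a p, K.b_symm a c] at h
  rw [h]
  abel

/-- `b E(c,q) + c E(b,q) = q [b,c]` -/
theorem bEc (b c q : V) : K.Ee c (K.b b q) + K.Ee b (K.b c q) = K.l q * K.l (K.b b c) := by
  rw [← K.l_mul_Ee, ← K.l_mul_Ee]
  unfold Ee
  have h1 : K.l (K.b (K.b b c) q) = K.k c q • K.l b + K.k b q • K.l c := by
    rw [K.R1, map_add, map_smul, map_smul]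
  rw [K.l_b, K.l_b] at h1
  rw [K.l_b]
  have h2 : K.l b * (K.l c * K.l q + K.k c q • (1 : E)) + K.l c * (K.l b * K.l q + K.k b q • (1 : E))
      = (K.l b * K.l c + K.l c * K.l b) * K.l q + (K.k c q • K.l b + K.k b q • K.l c) := by
    rw [mul_add, mul_add, mul_smul_comm, mul_smul_comm, mul_one, mul_one]
    noncomm_ring
  rw [h2, ← h1]
  have := K.ee ((K.l b * K.l c + K.l c * K.l b) * K.l q)
  rw [← add_assoc, this, zero_add]

/-- `E([q,b],c) + E([q,c],b) = [b,c] q` -/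
theorem bEc' (b c q : V) : K.Ee (K.b q b) c + K.Ee (K.b q c) b = K.l (K.b b c) * K.l q := by
  rw [← K.Ee_mul_l, ← K.Ee_mul_l]
  unfold Ee
  have h1 : K.l (K.b (K.b b c) q) = K.k c q • K.l b + K.k b q • K.l c := by
    rw [K.R1, map_add, map_smul, map_smul]
  rw [K.l_b, K.l_b] at h1
  rw [K.l_b]
  have h2 : (K.l q * K.l c + K.k q c • (1 : E)) * K.l b + (K.l q * K.l b + K.k q b • (1 : E)) * K.l c
      = K.l q * (K.l b * K.l c + K.l c * K.l b) + (K.k c q • K.l b + K.k b q • K.l c) := by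
    rw [add_mul, add_mul, smul_mul_assoc, smul_mul_assoc, one_mul, one_mul, K.k_symm q c,
      K.k_symm q b]
    noncomm_ring
  rw [h2, ← h1]
  have := K.ee (K.l q * (K.l b * K.l c + K.l c * K.l b))
  calc _ = (K.l q * (K.l b * K.l c + K.l c * K.l b) + K.l q * (K.l b * K.l c + K.l c * K.l b))
        + (K.l b * K.l c + K.l c * K.l b) * K.l q := by abel
    _ = _ := by rw [this, zero_add]

/-- value of the contraction on `E(p,q)` -/
theorem con_Ee (a b c p q : V) :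
    K.l a * K.Ee p q * K.l (K.b b c) + K.l b * K.Ee p q * K.l (K.b c a)
      + K.l c * K.Ee p q * K.l (K.b a b) = K.tau a b c • (K.l q * K.l p) := by
  have h1 : ∀ u v : V, K.l u * K.Ee p q * K.l v = K.Ee (K.b p v) (K.b u q) := by
    intro u v
    rw [K.l_mul_Ee, K.Ee_mul_l]
  have hp : ∀ u v : V, K.b p (K.b u v) = K.k p v • u + K.k p u • v := by
    intro u v
    rw [K.b_symm, K.R1, K.k_symm v p, K.k_symm u p]
  simp only [h1, hp, K.Ee_add_left, K.Ee_smul_left]
  have e : ∀ u v : V, K.Ee u (K.b v q) + K.Ee v (K.b u q) = K.l q * K.l (K.b u v) := by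
    intro u v
    rw [K.b_symm u v, ← K.bEc v u]
  calc _ = K.k p a • (K.Ee c (K.b b q) + K.Ee b (K.b c q))
        + K.k p b • (K.Ee a (K.b c q) + K.Ee c (K.b a q))
        + K.k p c • (K.Ee b (K.b a q) + K.Ee a (K.b b q)) := by
        simp only [smul_add]; abel
    _ = K.k p a • (K.l q * K.l (K.b b c)) + K.k p b • (K.l q * K.l (K.b c a))
        + K.k p c • (K.l q * K.l (K.b a b)) := by
        rw [e c b, e a c, e b a, K.b_symm c b, K.b_symm a c, K.b_symm b a]
    _ = K.l q * (K.k p a • K.l (K.b b c) + K.k p b • K.l (K.b c a) + K.k p c • K.l (K.b a b)) := by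
        rw [mul_add, mul_add, mul_smul_comm, mul_smul_comm, mul_smul_comm]
    _ = _ := by rw [K.cramE, mul_smul_comm]

theorem con_Ee' (a b c p q : V) :
    K.l (K.b b c) * K.Ee p q * K.l a + K.l (K.b c a) * K.Ee p q * K.l b
      + K.l (K.b a b) * K.Ee p q * K.l c = K.tau a b c • (K.l q * K.l p) := by
  have h1 : ∀ u v : V, K.l u * K.Ee p q * K.l v = K.Ee (K.b p v) (K.b u q) := by
    intro u v
    rw [K.l_mul_Ee, K.Ee_mul_l]
  simp only [h1, K.R1, K.Ee_add_right, K.Ee_smul_right]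
  calc _ = K.k q a • (K.Ee (K.b p b) c + K.Ee (K.b p c) b)
        + K.k q b • (K.Ee (K.b p c) a + K.Ee (K.b p a) c)
        + K.k q c • (K.Ee (K.b p a) b + K.Ee (K.b p b) a) := by
        simp only [smul_add, K.k_symm q a, K.k_symm q b, K.k_symm q c]; abel
    _ = K.k q a • (K.l (K.b b c) * K.l p) + K.k q b • (K.l (K.b c a) * K.l p)
        + K.k q c • (K.l (K.b a b) * K.l p) := by
        rw [K.bEc' b c, K.bEc' c a, K.bEc' a b]
    _ = (K.k q a • K.l (K.b b c) + K.k q b • K.l (K.b c a) + K.k q c • K.l (K.b a b)) * K.l p := by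
        rw [add_mul, add_mul, smul_mul_assoc, smul_mul_assoc, smul_mul_assoc]
    _ = _ := by rw [K.cramE, smul_mul_assoc]

/-- **(Trg)** `Σ a v [b,c] = Σ [b,c] v a` for represented `v` -/
theorem con_sym {y : E} {f f' : V →ₗ[Z] V} (hy : K.Rep y f f') (a b c : V) :
    K.l a * y * K.l (K.b b c) + K.l b * y * K.l (K.b c a) + K.l c * y * K.l (K.b a b)
      = K.l (K.b b c) * y * K.l a + K.l (K.b c a) * y * K.l b + K.l (K.b a b) * y * K.l c := by
  have hlin : ∀ u v : V, ∃ Φ : E →ₗ[Z] E, ∀ y, Φ y = K.l u * y * K.l v := by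
    intro u v
    exact ⟨(LinearMap.mulRight Z (K.l v)) ∘ₗ (LinearMap.mulLeft Z (K.l u)), fun y => rfl⟩
  obtain ⟨P1, h1⟩ := hlin a (K.b b c)
  obtain ⟨P2, h2⟩ := hlin b (K.b c a)
  obtain ⟨P3, h3⟩ := hlin c (K.b a b)
  obtain ⟨Q1, g1⟩ := hlin (K.b b c) a
  obtain ⟨Q2, g2⟩ := hlin (K.b c a) b
  obtain ⟨Q3, g3⟩ := hlin (K.b a b) c
  have key := K.princ K.tf_E ((P1 + P2 + P3) + (Q1 + Q2 + Q3)) (by
    intro p q
    simp only [LinearMap.add_apply, h1, h2, h3, g1, g2, g3]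
    rw [K.con_Ee, K.con_Ee', K.ee]) hy
  simp only [LinearMap.add_apply, h1, h2, h3, g1, g2, g3] at key
  exact K.eq_e key

/-- (T-c) `Σ a h [b,c] = τ(a,b,c) h` -/
theorem cyc3 (a b c h : V) :
    K.l a * K.l h * K.l (K.b b c) + K.l b * K.l h * K.l (K.b c a) + K.l c * K.l h * K.l (K.b a b)
      = K.tau a b c • K.l h := by
  apply K.rep_inj
    (K.rep_add (K.rep_add (K.rep_mul (K.rep_mul (K.rep_l a) (K.rep_l h)) (K.rep_l (K.b b c)))
      (K.rep_mul (K.rep_mul (K.rep_l b) (K.rep_l h)) (K.rep_l (K.b c a))))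
      (K.rep_mul (K.rep_mul (K.rep_l c) (K.rep_l h)) (K.rep_l (K.b a b))))
    (K.rep_smul (K.tau a b c) (K.rep_l h))
  intro v
  simp only [LinearMap.add_apply, LinearMap.comp_apply, LinearMap.smul_apply, K.R1, map_add,
    map_smul]
  have hj : ∀ x y : V, K.b x (K.b h y) + K.b y (K.b h x) = K.b h (K.b x y) := by
    intro x y
    have h1 := K.jac' x y h
    rw [K.b_symm h (K.b x y), h1, K.b_symm y h, K.b_symm x h]
  have hc : K.tau a b c • K.b h v = K.b h (K.tau a b c • v) := by rw [map_smul]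
  rw [hc, K.cramer a b c v, map_add, map_add, map_smul, map_smul, map_smul]
  rw [← hj a b, ← hj a c, ← hj b c]
  rw [K.k_symm v c]
  simp only [smul_add]
  abel

/-- **(Kg)** `ab g + g⁻¹ba + g⁻¹a g b + b g⁻¹ a g = k(a,b) T_g` -/
theorem Kg (a b : V) (g : G) :
    K.l a * K.l b * K.ρ g + K.ρ g⁻¹ * K.l b * K.l a + K.ρ g⁻¹ * K.l a * K.ρ g * K.l b
      + K.l b * K.ρ g⁻¹ * K.l a * K.ρ g = K.k a b • K.l (K.t g) := by
  have hab : ∀ u v : V, K.l u * K.l v = K.Ee u v + K.k u v • (1 : E) := by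
    intro u v
    unfold Ee
    rw [add_assoc, K.ee, add_zero]
  have hc : K.ρ g⁻¹ * K.l a * K.ρ g = K.l (K.act g⁻¹ a) := by
    rw [K.l_act, inv_inv]
  have hc' : K.l b * K.ρ g⁻¹ * K.l a * K.ρ g = K.l b * K.l (K.act g⁻¹ a) := by
    rw [← hc]; noncomm_ring
  rw [hc', hc, hab a b, add_mul, K.Ee_mul_r, smul_mul_assoc, one_mul]
  rw [mul_assoc, hab b a, mul_add, K.r_mul_Ee, mul_smul_comm, mul_one]
  have h3 : K.l (K.act g⁻¹ a) * K.l b + K.l b * K.l (K.act g⁻¹ a)
      = K.Ee (K.act g⁻¹ a) b + K.Ee b (K.act g⁻¹ a) := by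
    rw [← K.l_b, K.Ee_symm]
  rw [K.l_t, smul_add, K.k_symm b a]
  have h1 := K.ee (K.Ee (K.act g⁻¹ a) b)
  have h2 := K.ee (K.Ee b (K.act g⁻¹ a))
  calc _ = (K.k a b • K.ρ g + K.k a b • K.ρ g⁻¹) + (K.l (K.act g⁻¹ a) * K.l b
        + K.l b * K.l (K.act g⁻¹ a)) + (K.Ee (K.act g⁻¹ a) b + K.Ee b (K.act g⁻¹ a)) := by abel
    _ = (K.k a b • K.ρ g + K.k a b • K.ρ g⁻¹) + (K.Ee (K.act g⁻¹ a) b + K.Ee (K.act g⁻¹ a) b)
        + (K.Ee b (K.act g⁻¹ a) + K.Ee b (K.act g⁻¹ a)) := by rw [h3]; abel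
    _ = _ := by rw [h1, h2, add_zero, add_zero]

end PAlg

end P

end E4
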