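import Pool.Agent.Lib.MP_8a95e3_al.P.P12
import Pool.Agent.Lib.MP_8a95e3_al.P.P14

/-!
# P15 : words as related pairs
-/

namespace E4

namespace P

variable {G V Z E : Type} [Group G] [AddCommGroup V] [CommRing Z] [Module Z V] [Ring E]
    [Algebra Z E] {K : PAlg G V Z E}

/-- value of a word in `E` -/
def wE (K : PAlg G V Z E) (p : ℕ → V) (L : List ℕ) : E := (L.map (fun j => K.l (p j))).prod

/-- action of a word on `V` -/
def wV (K : PAlg G V Z E) (p : ℕ → V) (L : List ℕ) : Module.End Z V :=
  (L.map (fun j => (K.b (p j) : Module.End Z V))).prod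

/-- value of a word in the model -/
def wM (m : ℕ → VM) (L : List ℕ) : Matrix (Fin 3) (Fin 3) (ZMod 2) :=
  (L.map (fun j => mat (m j))).prod

theorem wV_cons (p : ℕ → V) (j : ℕ) (L : List ℕ) (v : V) :
    wV K p (j :: L) v = K.b (p j) (wV K p L v) := by
  unfold wV
  rw [List.map_cons, List.prod_cons, Module.End.mul_apply]

theorem wM_cons (m : ℕ → VM) (j : ℕ) (L : List ℕ) : wM m (j :: L) = mat (m j) * wM m L := by
  unfold wM
  rw [List.map_cons, List.prod_cons]

theorem w_Rep (p : ℕ → V) (L : List ℕ) : K.Rep (wE K p L) (wV K p L) (wV K p L.reverse) := by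
  induction L with
  | nil => exact K.rep_one
  | cons j L ih =>
    have h := K.rep_mul (K.rep_l (p j)) ih
    have e1 : wE K p (j :: L) = K.l (p j) * wE K p L := by
      unfold wE; rw [List.map_cons, List.prod_cons]
    have e2 : wV K p (j :: L) = (K.b (p j)) ∘ₗ (wV K p L) := by
      ext v; rw [wV_cons]; rfl
    have e3 : wV K p (j :: L).reverse = (wV K p L.reverse) ∘ₗ (K.b (p j)) := by
      unfold wV
      rw [List.reverse_cons, List.map_append, List.prod_append, List.map_singleton,
        List.prod_singleton]
      rfl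
    rw [e1, e2, e3]
    exact h

theorem wV_congr {p p' : ℕ → V} {L : List ℕ} (h : ∀ j ∈ L, p j = p' j) : wV K p L = wV K p' L := by
  unfold wV
  congr 1
  apply List.map_congr_left
  intro j hj
  rw [h j hj]

theorem wM_congr {p p' : ℕ → VM} {L : List ℕ} (h : ∀ j ∈ L, p j = p' j) : wM p L = wM p' L := by
  unfold wM
  congr 1
  apply List.map_congr_left
  intro j hj
  rw [h j hj]

/-- words are related pairs -/
theorem w_rr (L : List ℕ) : ∀ (a b : ℕ), (a :: b :: L).Nodup →
    RR K L.length.bodd (a ::ₘ b ::ₘ (L : Multiset ℕ)) (fun p => K.k (p a) (wV K p L (p b)))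
      (fun m => pm (m a) (m b) (wM m L)) := by
  induction L with
  | nil =>
    intro a b _
    have := (SS.pr (K := K) a b SS.one).rr
    unfold wV wM
    simp only [List.map_nil, List.prod_nil, pm_one]
    simpa using this
  | cons j L ih =>
    intro a b hab
    simp only [List.nodup_cons, List.mem_cons, not_or] at hab
    obtain ⟨⟨hne, haj, haL⟩, ⟨hbj, hbL⟩, hjL, hL⟩ := hab
    have h2 := ih a b (by
      simp only [List.nodup_cons, List.mem_cons, not_or]
      exact ⟨⟨hne, haL⟩, hbL, hL⟩)
    have hn : (a ::ₘ b ::ₘ (L : Multiset ℕ)).Nodup := by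
      simp only [Multiset.nodup_cons, Multiset.mem_cons, Multiset.mem_coe, not_or,
        Multiset.coe_nodup]
      exact ⟨⟨hne, haL⟩, hbL, hL⟩
    have h3 := h2.bs (c := a) (d := j) hn (j := a) (T := b ::ₘ (L : Multiset ℕ)) rfl
    have hS : a ::ₘ j ::ₘ b ::ₘ (L : Multiset ℕ) = a ::ₘ b ::ₘ ((j :: L : List ℕ) : Multiset ℕ) := by
      rw [← Multiset.cons_coe, Multiset.cons_swap j b]
    rw [hS] at h3
    have e1 : (fun p : ℕ → V => K.k (Function.update p a (K.b (p a) (p j)) a)
          (wV K (Function.update p a (K.b (p a) (p j))) L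
            (Function.update p a (K.b (p a) (p j)) b)))
        = fun p => K.k (p a) (wV K p (j :: L) (p b)) := by
      funext p
      rw [Function.update_self, Function.update_of_ne (Ne.symm hne)]
      rw [wV_congr (p' := p) (fun i hi => by
        rw [Function.update_of_ne]; rintro rfl; exact haL hi), wV_cons]
      exact K.tau_left _ _ _
    have e2 : (fun m : ℕ → VM => pm (Function.update m a (bM (m a) (m j)) a)
          (Function.update m a (bM (m a) (m j)) b)
          (wM (Function.update m a (bM (m a) (m j))) L))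
        = fun m => pm (m a) (m b) (wM m (j :: L)) := by
      funext p
      rw [Function.update_self, Function.update_of_ne (Ne.symm hne)]
      rw [wM_congr (p' := p) (fun i hi => by
        rw [Function.update_of_ne]; rintro rfl; exact haL hi), wM_cons, pm_mat]
    rw [e1, e2] at h3
    rw [List.length_cons, Nat.bodd_succ]
    exact h3

/-- sums of words, all permutations of the same letters -/
theorem ws_rr (S : Multiset ℕ) (Ms : List (List ℕ)) (hM : ∀ L ∈ Ms, (L : Multiset ℕ) = S)
    (a b : ℕ) (hab : (a ::ₘ b ::ₘ S).Nodup) :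
    RR K S.card.bodd (a ::ₘ b ::ₘ S)
      (fun p => K.k (p a) ((Ms.map (fun L => wV K p L)).sum (p b)))
      (fun m => pm (m a) (m b) (Ms.map (fun L => wM m L)).sum) := by
  induction Ms with
  | nil =>
    simp only [List.map_nil, List.sum_nil, pm_zero, LinearMap.zero_apply, map_zero]
    exact RR.zero _ _
  | cons L Ms ih =>
    have hLS : (L : Multiset ℕ) = S := hM L List.mem_cons_self
    have hn : (a :: b :: L).Nodup := by
      rw [← hLS] at hab
      exact hab
    have h1 := w_rr (K := K) L a b hn
    have hlen : L.length = S.card := by rw [← hLS, Multiset.coe_card]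
    rw [hLS, hlen] at h1
    have := h1.addR (ih (fun L' hL' => hM L' (List.mem_cons_of_mem _ hL')))
    simp only [List.map_cons, List.sum_cons, pm_add, LinearMap.add_apply, map_add]
    exact this

theorem RR.mulK {t : Bool} {S : Multiset ℕ} {f : (ℕ → V) → Z} {g : (ℕ → VM) → ZMod 2}
    (h : RR K t S f g) (i j : ℕ) : RR K t (i ::ₘ j ::ₘ S) (fun p => K.k (p i) (p j) * f p)
      (fun m => kM (m i) (m j) * g m) := by
  induction h with
  | zero => simpa using RR.zero (K := K) t (i ::ₘ j ::ₘ S)
  | add h0 _ ih =>
    have := (SS.pr i j h0).rr.addR ih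
    simp only [mul_add]
    exact this

theorem RR.mulT {S : Multiset ℕ} {f : (ℕ → V) → Z} {g : (ℕ → VM) → ZMod 2}
    (h : RR K false S f g) (i j l : ℕ) :
    RR K true (i ::ₘ j ::ₘ l ::ₘ S) (fun p => K.tau (p i) (p j) (p l) * f p)
      (fun m => tM (m i) (m j) (m l) * g m) := by
  induction h with
  | zero => simpa using RR.zero (K := K) true (i ::ₘ j ::ₘ l ::ₘ S)
  | add h0 _ ih =>
    have := (h0.mulT rfl i j l).rr.addR ih
    simp only [mul_add]
    exact this

theorem lsum_w_Rep (p : ℕ → V) (Ms : List (List ℕ)) : K.Rep (Ms.map (fun L => wE K p L)).sum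
    (Ms.map (fun L => wV K p L)).sum (Ms.map (fun L => wV K p L.reverse)).sum := by
  induction Ms with
  | nil => exact K.rep_zero
  | cons L Ms ih =>
    simp only [List.map_cons, List.sum_cons]
    exact K.rep_add (w_Rep p L) ih

/-- two fresh letters -/
theorem fresh2 (S : Multiset ℕ) (hS : S.Nodup) : ∃ a b : ℕ, (a ::ₘ b ::ₘ S).Nodup := by
  obtain ⟨c, hc⟩ := fresh S
  refine ⟨c, c + 1, ?_⟩
  simp only [Multiset.nodup_cons, Multiset.mem_cons, not_or]
  refine ⟨⟨by omega, fun h => lt_irrefl _ (hc c h)⟩, fun h => ?_, hS⟩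
  have := hc _ h
  omega

/-! ### matrices of the model -/

/-- `q`, `q'` -/
def qM : VM := (1, 1, 0)
def qM' : VM := (0, 1, 1)

theorem NN : mat zM * mat zM = mat zM := by decide
theorem NQN : mat zM * mat qM * mat zM = 0 := by decide
theorem NQN' : mat zM * mat qM' * mat zM = 0 := by decide
theorem NQ : mat zM * mat qM + mat qM * mat zM = mat qM := by decide
theorem NQ' : mat zM * mat qM' + mat qM' * mat zM = mat qM' := by decide

theorem wM_z (m : ℕ → VM) (L : List ℕ) (hL : L ≠ []) (h : ∀ j ∈ L, m j = zM) :
    wM m L = mat zM := by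
  induction L with
  | nil => exact absurd rfl hL
  | cons j L ih =>
    rw [wM_cons, h j List.mem_cons_self]
    by_cases hL' : L = []
    · subst hL'
      unfold wM
      simp
    · rw [ih hL' (fun i hi => h i (List.mem_cons_of_mem _ hi)), NN]

theorem pm_qq : pm qM qM' (mat zM) = 1 := by decide

/-- **(cnt)** a sum of words in the same letters which vanishes has an even number of terms -/
theorem cnt [Nontrivial E] (S : Multiset ℕ) (hS : S.Nodup) (Ms : List (List ℕ))
    (hM : ∀ L ∈ Ms, (L : Multiset ℕ) = S)
    (h : ∀ x : ℕ → G, (Ms.map (fun L => wE K (fun i => K.t (x i)) L)).sum = 0) :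
    (Ms.length : ZMod 2) = 0 := by
  obtain ⟨a, b, hab⟩ := fresh2 S hS
  have hrr := ws_rr (K := K) S Ms hM a b hab
  have hz := hrr.ext hab (by
    intro x
    have h1 := h x
    rw [K.rep_zero_iff (lsum_w_Rep (fun i => K.t (x i)) Ms)] at h1
    beta_reduce
    rw [h1, LinearMap.zero_apply, map_zero])
  have hab2 := hab
  simp only [Multiset.nodup_cons, Multiset.mem_cons, not_or] at hab2
  obtain ⟨⟨hne, haS⟩, hbS, _⟩ := hab2
  have hm := lam (K := K) _ _ _ _ _ rfl hab hrr hz
    (fun i => if i = a then qM else if i = b then qM' else zM) (by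
      rw [Multiset.filter_cons, Multiset.filter_cons, Multiset.card_add, Multiset.card_add]
      have e1 : Multiset.filter (fun i => (if i = a then qM else if i = b then qM' else zM) ≠ zM)
          S = 0 := by
        rw [Multiset.filter_eq_nil]
        intro i hi
        have h1 : i ≠ a := by rintro rfl; exact haS hi
        have h2 : i ≠ b := by rintro rfl; exact hbS hi
        rw [if_neg h1, if_neg h2]; simp
      rw [e1, Multiset.card_zero]
      have : ∀ (c : Prop) [Decidable c] (i : ℕ), (if c then ({i} : Multiset ℕ) else 0).card ≤ 1 := by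
        intro c _ i
        by_cases hc : c
        · rw [if_pos hc]; simp
        · rw [if_neg hc]; simp
      have h1 := this ((if a = a then qM else if a = b then qM' else zM) ≠ zM) a
      have h2 := this ((if b = a then qM else if b = b then qM' else zM) ≠ zM) b
      omega)
  simp only [if_true, if_neg (Ne.symm hne)] at hm
  have hsum : ∀ Ms : List (List ℕ), (∀ L ∈ Ms, (L : Multiset ℕ) = S) →
      pm qM qM' (Ms.map (fun L => wM (fun i => if i = a then qM else if i = b then qM' else zM) L)).sum
        = (Ms.length : ZMod 2) := by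
    intro Ms
    induction Ms with
    | nil => intro _; simp [pm_zero]
    | cons L Ms ih =>
      intro hM
      simp only [List.map_cons, List.sum_cons, pm_add, List.length_cons, Nat.cast_add, Nat.cast_one]
      rw [ih (fun L' hL' => hM L' (List.mem_cons_of_mem _ hL')), add_comm]
      congr 1
      have hLS := hM L List.mem_cons_self
      by_cases hL : L = []
      · subst hL
        unfold wM
        rw [List.map_nil, List.prod_nil, pm_one]
        decide
      · rw [wM_z _ L hL (fun j hj => by
          have hjS : j ∈ S := by rw [← hLS]; exact Multiset.mem_coe.2 hj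
          have h1 : j ≠ a := by rintro rfl; exact haS hjS
          have h2 : j ≠ b := by rintro rfl; exact hbS hjS
          rw [if_neg h1, if_neg h2])]
        exact pm_qq
  rw [← hsum Ms hM]
  exact hm

end P

end E4
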