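import Pool.Agent.Lib.MP_8a95e3_al.P.P15

/-!
# P16 : two letters different from `z`; end letters; the fact (lam)
-/

namespace E4

namespace P

variable {G V Z E : Type} [Group G] [AddCommGroup V] [CommRing Z] [Module Z V] [Ring E]
    [Algebra Z E] {K : PAlg G V Z E}

/-- all letters `z` except `i`, `j` -/
def A2 (i : ℕ) (w : VM) (j : ℕ) (w' : VM) : ℕ → VM :=
  fun l => if l = i then w else if l = j then w' else zM

theorem A2_i {i j : ℕ} {w w' : VM} : A2 i w j w' i = w := by
  unfold A2; rw [if_pos rfl]

theorem A2_j {i j : ℕ} {w w' : VM} (h : j ≠ i) : A2 i w j w' j = w' := by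
  unfold A2; rw [if_neg h, if_pos rfl]

theorem A2_ne {i j l : ℕ} {w w' : VM} (h : l ≠ i) (h' : l ≠ j) : A2 i w j w' l = zM := by
  unfold A2; rw [if_neg h, if_neg h']

/-- the functional with two letters different from `z` -/
theorem lam2 [Nontrivial E] {t : Bool} {S : Multiset ℕ} {f : (ℕ → V) → Z}
    {g : (ℕ → VM) → ZMod 2} (h : RR K t S f g) (hn : S.Nodup) (hf : ∀ p, f p = 0)
    (i : ℕ) (w : VM) (j : ℕ) (w' : VM) : g (A2 i w j w') = 0 := by
  apply lam (K := K) _ _ _ _ _ rfl hn h hf
  have : Multiset.filter (fun l => A2 i w j w' l ≠ zM) S ≤ i ::ₘ j ::ₘ 0 := by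
    rw [Multiset.le_iff_subset (hn.filter _)]
    intro l hl
    rw [Multiset.mem_filter] at hl
    simp only [Multiset.mem_cons, Multiset.notMem_zero, or_false]
    by_contra hcon
    rw [not_or] at hcon
    exact hl.2 (A2_ne hcon.1 hcon.2)
  exact le_trans (Multiset.card_le_card this) (by simp)

theorem pm_matR (u v w : VM) (Y : Matrix (Fin 3) (Fin 3) (ZMod 2)) :
    pm u v (Y * mat w) = pm u (bM w v) Y := by
  have h : (mat w).mulVec (toV v) = toV (bM w v) := by
    have h1 := vm_mat v w
    have h2 : (mat w).transpose = mat w := by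
      obtain ⟨w1, w2, w3⟩ := w
      ext i j
      fin_cases i <;> fin_cases j <;> simp [mat]
    rw [← Matrix.vecMul_transpose, h2, h1, bM_symm]
  unfold pm
  rw [← Matrix.mulVec_mulVec, h]

theorem wM_append (m : ℕ → VM) (L L' : List ℕ) : wM m (L ++ L') = wM m L * wM m L' := by
  unfold wM
  rw [List.map_append, List.prod_append]

theorem bzz : bM zM zM = 0 := by decide
theorem bzq : bM zM qM = qM := by decide
theorem bzq' : bM zM qM' = qM' := by decide
theorem bqz : bM qM zM = qM := by decide
theorem bqz' : bM qM' zM = qM' := by decide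

theorem pm_zero_left (v : VM) (Y : Matrix (Fin 3) (Fin 3) (ZMod 2)) : pm 0 v Y = 0 := by
  unfold pm
  have : toV (0 : VM) = 0 := by
    funext i; fin_cases i <;> rfl
  rw [this, zero_dotProduct]

theorem pm_zero_right (v : VM) (Y : Matrix (Fin 3) (Fin 3) (ZMod 2)) : pm v 0 Y = 0 := by
  unfold pm
  have : toV (0 : VM) = 0 := by
    funext i; fin_cases i <;> rfl
  rw [this, Matrix.mulVec_zero, dotProduct_zero]

/-- the word starts with `i` and ends with `j` or conversely -/
def Ends (i j : ℕ) (L : List ℕ) : Prop :=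
  (L.head? = some i ∧ L.getLast? = some j) ∨ (L.head? = some j ∧ L.getLast? = some i)

instance (i j : ℕ) (L : List ℕ) : Decidable (Ends i j L) := by
  unfold Ends; infer_instance

/-- inner evaluation: `u ∈ {q, q'}` on the left -/
theorem inner_eval (m : ℕ → VM) (u w : VM) (huN : ∀ Y, pm u w (mat zM * Y) = pm u w Y)
    (L : List ℕ) (h : ∀ l ∈ L, m l = zM) : pm u w (wM m L) = kM u w := by
  induction L with
  | nil => unfold wM; rw [List.map_nil, List.prod_nil, pm_one]
  | cons l L ih =>
    rw [wM_cons, h l List.mem_cons_self, huN]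
    exact ih (fun l' hl' => h l' (List.mem_cons_of_mem _ hl'))

/-- evaluation of words at two letters `q`, `q'` and ends `z` -/
theorem ends_eval {i j : ℕ} (hij : i ≠ j) (L : List ℕ) (hL : L.Nodup) (hi : i ∈ L) (hj : j ∈ L) :
    pm zM zM (wM (A2 i qM j qM') L) = if Ends i j L then 1 else 0 := by
  cases L with
  | nil => simp at hi
  | cons k L =>
    rw [wM_cons, pm_mat]
    rw [List.nodup_cons] at hL
    by_cases hki : k = i
    · subst hki
      rw [A2_i, bzq]
      have hjL : j ∈ L := by
        rcases List.mem_cons.1 hj with h | h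
        · exact absurd h.symm hij
        · exact h
      have hne : L ≠ [] := by rintro rfl; simp at hjL
      obtain ⟨L', l, hL'⟩ : ∃ L' l, L = L' ++ [l] := by
        exact ⟨L.dropLast, L.getLast hne, (List.dropLast_append_getLast hne).symm⟩
      subst hL'
      rw [wM_append]
      have hw1 : wM (A2 k qM j qM') [l] = mat (A2 k qM j qM' l) := by
        unfold wM; simp
      rw [hw1, pm_matR]
      have hlast : (k :: (L' ++ [l])).getLast? = some l := by
        rw [← List.cons_append, List.getLast?_append]; simp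
      have hhead : (k :: (L' ++ [l])).head? = some k := rfl
      by_cases hlj : l = j
      · subst hlj
        rw [A2_j (Ne.symm hij), bqz']
        rw [if_pos (show Ends k l (k :: (L' ++ [l])) from Or.inl ⟨hhead, hlast⟩)]
        rw [inner_eval _ qM qM' (by intro Y; rw [pm_mat]; rfl)]
        · decide
        · intro x hx
          apply A2_ne
          · rintro rfl; exact hL.1 (List.mem_append_left _ hx)
          · rintro rfl
            have := hL.2
            rw [List.nodup_append] at this
            exact this.2.2 x hx x (by simp) rfl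
      · have hlk : l ≠ k := by rintro rfl; exact hL.1 (by simp)
        rw [A2_ne hlk hlj, bzz, pm_zero_right, if_neg]
        rintro (⟨_, h⟩ | ⟨h, _⟩)
        · rw [hlast] at h
          exact hlj (Option.some.inj h)
        · rw [hhead] at h
          exact hij (Option.some.inj h)
    by_cases hkj : k = j
    · subst hkj
      rw [A2_j (Ne.symm hij), bzq']
      have hiL : i ∈ L := by
        rcases List.mem_cons.1 hi with h | h
        · exact absurd h hij
        · exact h
      have hne : L ≠ [] := by rintro rfl; simp at hiL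
      obtain ⟨L', l, hL'⟩ : ∃ L' l, L = L' ++ [l] := by
        exact ⟨L.dropLast, L.getLast hne, (List.dropLast_append_getLast hne).symm⟩
      subst hL'
      rw [wM_append]
      have hw1 : wM (A2 i qM k qM') [l] = mat (A2 i qM k qM' l) := by
        unfold wM; simp
      rw [hw1, pm_matR]
      have hlast : (k :: (L' ++ [l])).getLast? = some l := by
        rw [← List.cons_append, List.getLast?_append]; simp
      have hhead : (k :: (L' ++ [l])).head? = some k := rfl
      by_cases hli : l = i
      · subst hli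
        rw [A2_i, bqz]
        rw [if_pos (show Ends l k (k :: (L' ++ [l])) from Or.inr ⟨hhead, hlast⟩)]
        rw [inner_eval _ qM' qM (by intro Y; rw [pm_mat]; rfl)]
        · decide
        · intro x hx
          apply A2_ne
          · rintro rfl
            have := hL.2
            rw [List.nodup_append] at this
            exact this.2.2 x hx x (by simp) rfl
          · rintro rfl; exact hL.1 (List.mem_append_left _ hx)
      · have hlk : l ≠ k := by rintro rfl; exact hL.1 (by simp)
        rw [A2_ne hli hlk, bzz, pm_zero_right, if_neg]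
        rintro (⟨h, _⟩ | ⟨_, h⟩)
        · rw [hhead] at h
          exact hij (Option.some.inj h).symm
        · rw [hlast] at h
          exact hli (Option.some.inj h)
    · rw [A2_ne hki hkj, bzz, pm_zero_left, if_neg]
      rintro (⟨h, _⟩ | ⟨h, _⟩)
      · exact hki (Option.some.inj h)
      · exact hkj (Option.some.inj h)

theorem pm_lsum (u v : VM) (Ms : List (List ℕ)) (m : ℕ → VM) :
    pm u v (Ms.map (fun L => wM m L)).sum = (Ms.map (fun L => pm u v (wM m L))).sum := by
  induction Ms with
  | nil => simp [pm_zero]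
  | cons L Ms ih => simp only [List.map_cons, List.sum_cons, pm_add, ih]

/-- **(lam)** -/
theorem lamf [Nontrivial E] (S : Multiset ℕ) (y1 y2 : ℕ) (hS : (y1 ::ₘ y2 ::ₘ S).Nodup)
    (hne : S ≠ 0) (Ms Ws : List (List ℕ)) (hM : ∀ L ∈ Ms, (L : Multiset ℕ) = y1 ::ₘ y2 ::ₘ S)
    (hW : ∀ L ∈ Ws, (L : Multiset ℕ) = S)
    (h : ∀ x : ℕ → G, (Ms.map (fun L => wE K (fun i => K.t (x i)) L)).sum
      + K.k (K.t (x y1)) (K.t (x y2)) • (Ws.map (fun L => wE K (fun i => K.t (x i)) L)).sum = 0) :
    (Ms.map (fun L => if Ends y1 y2 L then (1 : ZMod 2) else 0)).sum = 0 := by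
  obtain ⟨a, b, hab⟩ := fresh2 (y1 ::ₘ y2 ::ₘ S) hS
  have hab2 := hab
  simp only [Multiset.nodup_cons, Multiset.mem_cons, not_or] at hab2
  obtain ⟨⟨hab', hay1, hay2, haS⟩, ⟨hby1, hby2, hbS⟩, ⟨hy12, hy1S⟩, hy2S, hSn⟩ := hab2
  have habS : (a ::ₘ b ::ₘ S).Nodup := by
    simp only [Multiset.nodup_cons, Multiset.mem_cons, not_or]
    exact ⟨⟨hab', haS⟩, hbS, hSn⟩
  have h1 := ws_rr (K := K) _ Ms hM a b hab
  have h2 := (ws_rr (K := K) _ Ws hW a b habS).mulK y1 y2
  have hc : (y1 ::ₘ y2 ::ₘ S).card.bodd = S.card.bodd := by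
    rw [Multiset.card_cons, Multiset.card_cons, Nat.bodd_succ, Nat.bodd_succ, Bool.not_not]
  rw [hc] at h1
  have hS2 : y1 ::ₘ y2 ::ₘ a ::ₘ b ::ₘ S = a ::ₘ b ::ₘ y1 ::ₘ y2 ::ₘ S := by
    simp only [← Multiset.singleton_add]; abel
  rw [hS2] at h2
  have h3 := h1.addR h2
  have hz := h3.ext hab (by
    intro x
    have h1 := h x
    have hrep := K.rep_add (lsum_w_Rep (K := K) (fun i => K.t (x i)) Ms)
      (K.rep_smul (K.k (K.t (x y1)) (K.t (x y2))) (lsum_w_Rep (K := K) (fun i => K.t (x i)) Ws))
    rw [K.rep_zero_iff hrep] at h1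
    have h4 := congrArg (fun f => K.k (K.t (x a)) (f (K.t (x b)))) h1
    simp only [LinearMap.add_apply, LinearMap.smul_apply, map_add, map_smul, smul_eq_mul,
      LinearMap.zero_apply, map_zero] at h4
    exact h4)
  have hm := lam2 h3 hab hz y1 qM y2 qM'
  rw [A2_ne hay1 hay2, A2_ne hby1 hby2, pm_lsum] at hm
  have hw : pm zM zM (Ws.map (fun L => wM (A2 y1 qM y2 qM') L)).sum = 0 := by
    rw [pm_lsum]
    have : ∀ L ∈ Ws, pm zM zM (wM (A2 y1 qM y2 qM') L) = 0 := by
      intro L hL
      have hLS := hW L hL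
      have hLne : L ≠ [] := by
        rintro rfl
        exact hne hLS.symm
      rw [wM_z _ L hLne (fun j hj => by
        have hjS : j ∈ S := by rw [← hLS]; exact Multiset.mem_coe.2 hj
        apply A2_ne
        · rintro rfl; exact hy1S hjS
        · rintro rfl; exact hy2S hjS)]
      decide
    rw [List.map_congr_left this]
    simp
  rw [hw, mul_zero, add_zero] at hm
  have key : ∀ L ∈ Ms, (if Ends y1 y2 L then (1 : ZMod 2) else 0)
      = pm zM zM (wM (A2 y1 qM y2 qM') L) := by
    intro L hL
    have hLS := hM L hL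
    have hLn : L.Nodup := by
      rw [← Multiset.coe_nodup, hLS]; exact hS
    have hi : y1 ∈ L := by rw [← Multiset.mem_coe, hLS]; simp
    have hj : y2 ∈ L := by rw [← Multiset.mem_coe, hLS]; simp
    exact (ends_eval hy12 L hLn hi hj).symm
  rw [List.map_congr_left key]
  exact hm

end P

end E4
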