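import Pool.Agent.Lib.MP_8a95e3_al.P.P16

/-!
# P17 : sums over pairs of letters; the fact (od)
-/

namespace E4

namespace P

/-- sum over the pairs `i` before `j` of a list -/
def psum {M : Type} [AddCommMonoid M] (f : ℕ → ℕ → M) : List ℕ → M
  | [] => 0
  | j :: L => (L.map (fun i => f j i)).sum + psum f L

theorem psum_perm {M : Type} [AddCommMonoid M] {f : ℕ → ℕ → M} (hf : ∀ i j, f i j = f j i)
    {L L' : List ℕ} (h : L.Perm L') : psum f L = psum f L' := by
  induction h with
  | nil => rfl
  | cons j h ih =>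
    unfold psum
    rw [ih, (h.map _).sum_eq]
  | swap a b L =>
    simp only [psum, List.map_cons, List.sum_cons]
    rw [hf a b]
    abel
  | trans _ _ ih1 ih2 => rw [ih1, ih2]

theorem psum_congr {M : Type} [AddCommMonoid M] {f f' : ℕ → ℕ → M} {L : List ℕ} (hL : L.Nodup)
    (h : ∀ i j, i ∈ L → j ∈ L → i ≠ j → f i j = f' i j) : psum f L = psum f' L := by
  induction L with
  | nil => rfl
  | cons k L ih =>
    unfold psum
    rw [List.nodup_cons] at hL
    rw [ih hL.2 (fun i j hi hj hij => h i j (List.mem_cons_of_mem _ hi) (List.mem_cons_of_mem _ hj) hij)]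
    congr 2
    apply List.map_congr_left
    intro i hi
    apply h k i List.mem_cons_self (List.mem_cons_of_mem _ hi)
    rintro rfl
    exact hL.1 hi

theorem psum_map {M N : Type} [AddCommMonoid M] [AddCommMonoid N] (φ : M →+ N) (f : ℕ → ℕ → M)
    (L : List ℕ) : psum (fun i j => φ (f i j)) L = φ (psum f L) := by
  induction L with
  | nil => simp [psum]
  | cons k L ih =>
    unfold psum
    rw [ih, map_add, map_list_sum, List.map_map]
    rfl

theorem psum_add {M : Type} [AddCommMonoid M] (f g : ℕ → ℕ → M) (L : List ℕ) :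
    psum (fun i j => f i j + g i j) L = psum f L + psum g L := by
  induction L with
  | nil => simp [psum]
  | cons k L ih =>
    unfold psum
    rw [ih, List.sum_map_add]
    abel

theorem psum_zero {M : Type} [AddCommMonoid M] (L : List ℕ) :
    psum (fun _ _ => (0 : M)) L = 0 := by
  induction L with
  | nil => rfl
  | cons k L ih =>
    unfold psum
    rw [ih]; simp

theorem psum_lsum {M : Type} [AddCommMonoid M] (f : ℕ → ℕ → List ℕ → M) (Ms : List (List ℕ))
    (L : List ℕ) :
    psum (fun i j => (Ms.map (fun u => f i j u)).sum) L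
      = (Ms.map (fun u => psum (fun i j => f i j u) L)).sum := by
  induction Ms with
  | nil => simp [psum_zero]
  | cons u Ms ih =>
    simp only [List.map_cons, List.sum_cons]
    rw [psum_add, ih]

/-- one letter `q'`, the others `z` -/
def A1 (i : ℕ) : ℕ → VM := fun l => if l = i then qM' else zM

theorem A1_sum (L : List ℕ) (hL : L.Nodup) (hne : L ≠ []) :
    (L.map (fun i => wM (A1 i) L)).sum = mat qM' := by
  induction L with
  | nil => exact absurd rfl hne
  | cons k L ih =>
    rw [List.nodup_cons] at hL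
    simp only [List.map_cons, List.sum_cons]
    have e1 : wM (A1 k) (k :: L) = mat qM' * wM (A1 k) L := by
      rw [wM_cons]; unfold A1; rw [if_pos rfl]
    have e2 : ∀ i ∈ L, wM (A1 i) (k :: L) = mat zM * wM (A1 i) L := by
      intro i hi
      rw [wM_cons]
      have : k ≠ i := by rintro rfl; exact hL.1 hi
      unfold A1; rw [if_neg this]
    rw [e1, List.map_congr_left e2]
    have e3 : (L.map (fun i => mat zM * wM (A1 i) L)).sum
        = mat zM * (L.map (fun i => wM (A1 i) L)).sum := by
      rw [← List.sum_map_mul_left]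
    rw [e3]
    by_cases h0 : L = []
    · subst h0
      unfold wM; simp
    · rw [ih hL.2 h0]
      have e4 : wM (A1 k) L = mat zM := by
        apply wM_z _ _ h0
        intro j hj
        have : j ≠ k := by rintro rfl; exact hL.1 hj
        unfold A1; rw [if_neg this]
      rw [e4, add_comm, NQ']

/-- two letters -/
def P2 (L : List ℕ) : Matrix (Fin 3) (Fin 3) (ZMod 2) :=
  psum (fun i j => wM (A2 i qM j qM') L) L

theorem P2_cons (k : ℕ) (L : List ℕ) (hL : (k :: L).Nodup) (hne : L ≠ []) :
    P2 (k :: L) = mat qM * mat qM' + mat zM * P2 L := by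
  unfold P2
  rw [List.nodup_cons] at hL
  show (L.map (fun i => wM (A2 k qM i qM') (k :: L))).sum
    + psum (fun i j => wM (A2 i qM j qM') (k :: L)) L = _
  have e1 : ∀ i ∈ L, wM (A2 k qM i qM') (k :: L) = mat qM * wM (A1 i) L := by
    intro i hi
    rw [wM_cons, A2_i]
    congr 1
    apply wM_congr
    intro j hj
    have hjk : j ≠ k := by rintro rfl; exact hL.1 hj
    unfold A2 A1
    rw [if_neg hjk]
  rw [List.map_congr_left e1]
  have e3 : (L.map (fun i => mat qM * wM (A1 i) L)).sum
      = mat qM * (L.map (fun i => wM (A1 i) L)).sum := by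
    rw [← List.sum_map_mul_left]
  rw [e3, A1_sum L hL.2 hne]
  congr 1
  have e4 : psum (fun i j => wM (A2 i qM j qM') (k :: L)) L
      = psum (fun i j => mat zM * wM (A2 i qM j qM') L) L := by
    apply psum_congr hL.2
    intro i j hi hj _
    rw [wM_cons, A2_ne]
    · rintro rfl; exact hL.1 hi
    · rintro rfl; exact hL.1 hj
  rw [e4]
  exact psum_map (AddMonoidHom.mulLeft (mat zM)) _ L

theorem P2_val (L : List ℕ) : L.Nodup → 2 ≤ L.length →
    P2 L = mat qM * mat qM' + if L.length.bodd then mat zM * (mat qM * mat qM') else 0 := by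
  induction L with
  | nil => intro _ h; simp at h
  | cons k L ih =>
    intro hL hlen
    have hne : L ≠ [] := by rintro rfl; simp at hlen
    rw [P2_cons k L hL hne, List.length_cons, Nat.bodd_succ]
    by_cases h2 : 2 ≤ L.length
    · rw [ih (List.nodup_cons.1 hL).2 h2]
      congr 1
      cases L.length.bodd with
      | false => simp
      | true =>
        simp only [if_true, Bool.not_true]
        rw [mul_add, ← mul_assoc (mat zM) (mat zM), NN]
        decide
    · have h1 : L.length = 1 := by
        have : L.length ≠ 0 := by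
          intro h; exact hne (List.length_eq_zero_iff.1 h)
        omega
      obtain ⟨a, rfl⟩ := List.length_eq_one_iff.1 h1
      have : P2 [a] = 0 := by unfold P2 psum; simp [psum]
      rw [this]
      simp

theorem P2_pm (L : List ℕ) (hL : L.Nodup) (h : 2 ≤ L.length) : pm zM zM (P2 L) = 1 := by
  rw [P2_val L hL h]
  cases L.length.bodd with
  | false => decide
  | true => decide

theorem P2_tr (L : List ℕ) (hL : L.Nodup) (h : 2 ≤ L.length) :
    Matrix.trace (P2 L) = if L.length.bodd then 1 else 0 := by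
  rw [P2_val L hL h]
  cases L.length.bodd with
  | false => decide
  | true => decide

/-- the pairing as an additive map -/
def pmH (u v : VM) : Matrix (Fin 3) (Fin 3) (ZMod 2) →+ ZMod 2 where
  toFun := pm u v
  map_zero' := pm_zero u v
  map_add' := pm_add u v

theorem Ends_symm (i j : ℕ) (L : List ℕ) : Ends i j L ↔ Ends j i L := by
  unfold Ends; exact or_comm

theorem ends_psum (u v : List ℕ) (hu : u.Nodup) (h : 2 ≤ u.length) (hp : v.Perm u) :
    psum (fun i j => pm zM zM (wM (A2 i qM j qM') u)) v = 1 := by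
  have hv : v.Nodup := hp.nodup_iff.2 hu
  have e1 : psum (fun i j => pm zM zM (wM (A2 i qM j qM') u)) v
      = psum (fun i j => if Ends i j u then (1 : ZMod 2) else 0) v := by
    apply psum_congr hv
    intro i j hi hj hij
    exact ends_eval hij u hu (hp.mem_iff.1 hi) (hp.mem_iff.1 hj)
  have e2 : psum (fun i j => pm zM zM (wM (A2 i qM j qM') u)) u
      = psum (fun i j => if Ends i j u then (1 : ZMod 2) else 0) u := by
    apply psum_congr hu
    intro i j hi hj hij
    exact ends_eval hij u hu hi hj
  have e3 : psum (fun i j => if Ends i j u then (1 : ZMod 2) else 0) v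
      = psum (fun i j => if Ends i j u then (1 : ZMod 2) else 0) u := by
    apply psum_perm _ hp
    intro i j
    simp only [Ends_symm i j u]
  rw [e1, e3, ← e2]
  have := psum_map (pmH zM zM) (fun i j => wM (A2 i qM j qM') u) u
  have e4 : psum (fun i j => pm zM zM (wM (A2 i qM j qM') u)) u = pm zM zM (P2 u) := this
  rw [e4, P2_pm u hu h]

variable {G V Z E : Type} [Group G] [AddCommGroup V] [CommRing Z] [Module Z V] [Ring E]
    [Algebra Z E] {K : PAlg G V Z E}

/-- cancellation of `τ` at squares -/
theorem can_tau_t (K : PAlg G V Z E) {M : Type} [AddCommGroup M] [Module Z M] (hM : K.TF M) (y : M)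
    (h : ∀ a b c : G, K.tau (K.t a) (K.t b) (K.t c) • y = 0) : y = 0 := by
  apply hM
  intro u v w
  have hu := K.span u
  have hv := K.span v
  have hw := K.span w
  induction hu using Submodule.span_induction with
  | mem u hu =>
    obtain ⟨a, rfl⟩ := hu
    induction hv using Submodule.span_induction with
    | mem v hv =>
      obtain ⟨b, rfl⟩ := hv
      induction hw using Submodule.span_induction with
      | mem w hw =>
        obtain ⟨c, rfl⟩ := hw
        exact h a b c
      | zero => unfold PAlg.tau; rw [map_zero, zero_smul]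
      | add x y _ _ hx hy => unfold PAlg.tau at *; rw [map_add, add_smul, hx, hy, add_zero]
      | smul z x _ hx => unfold PAlg.tau at *; rw [map_smul, smul_eq_mul, mul_smul, hx, smul_zero]
    | zero => unfold PAlg.tau; rw [map_zero, map_zero, LinearMap.zero_apply, zero_smul]
    | add x y _ _ hx hy =>
      unfold PAlg.tau at *; rw [map_add, map_add, LinearMap.add_apply, add_smul, hx, hy, add_zero]
    | smul z x _ hx =>
      unfold PAlg.tau at *
      rw [map_smul, map_smul, LinearMap.smul_apply, smul_eq_mul, mul_smul, hx, smul_zero]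
  | zero =>
    unfold PAlg.tau
    rw [map_zero, LinearMap.zero_apply, map_zero, LinearMap.zero_apply, zero_smul]
  | add x y _ _ hx hy =>
    unfold PAlg.tau at *
    rw [map_add, LinearMap.add_apply, map_add, LinearMap.add_apply, add_smul, hx, hy, add_zero]
  | smul z x _ hx =>
    unfold PAlg.tau at *
    rw [map_smul, LinearMap.smul_apply, map_smul, LinearMap.smul_apply, smul_eq_mul, mul_smul, hx,
      smul_zero]

theorem conM (Y : Matrix (Fin 3) (Fin 3) (ZMod 2)) :
    mat e1 * Y * mat e1 + mat e2 * Y * mat e2 + mat e3 * Y * mat e3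
      = Y.transpose + Y.trace • (1 : Matrix (Fin 3) (Fin 3) (ZMod 2)) := by
  have key : ∀ a b c d e f g h i : ZMod 2,
      mat e1 * !![a, b, c; d, e, f; g, h, i] * mat e1
        + mat e2 * !![a, b, c; d, e, f; g, h, i] * mat e2
        + mat e3 * !![a, b, c; d, e, f; g, h, i] * mat e3
      = Matrix.transpose !![a, b, c; d, e, f; g, h, i]
        + Matrix.trace !![a, b, c; d, e, f; g, h, i] • (1 : Matrix (Fin 3) (Fin 3) (ZMod 2)) := by
    intro a b c d e f g h i
    ext r s
    fin_cases r <;> fin_cases s <;>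
      simp [mat, e1, e2, e3, Matrix.trace, Fin.sum_univ_three]
    · have := c2 a; linear_combination -this
    · have := c2 e; linear_combination -this
    · have := c2 i; linear_combination -this
  rw [Matrix.eta_fin_three Y]
  exact key _ _ _ _ _ _ _ _ _

theorem pm_transpose (u v : VM) (Y : Matrix (Fin 3) (Fin 3) (ZMod 2)) :
    pm u v Y.transpose = pm v u Y := by
  unfold pm
  rw [Matrix.mulVec_transpose, dotProduct_comm, Matrix.dotProduct_mulVec]

theorem pm_smul (u v : VM) (c : ZMod 2) (Y : Matrix (Fin 3) (Fin 3) (ZMod 2)) :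
    pm u v (c • Y) = c * pm u v Y := by
  unfold pm
  rw [Matrix.smul_mulVec, dotProduct_smul, smul_eq_mul]

/-- **(od)** -/
theorem odf [Nontrivial E] (v : List ℕ) (hv : v.Nodup) (hodd : v.length.bodd = true)
    (hlen : 3 ≤ v.length) (Ms : List (List ℕ)) (hM : ∀ L ∈ Ms, L.Perm v)
    (h : ∀ (x : ℕ → G) (a b c : G),
      K.l (K.t a) * wE K (fun i => K.t (x i)) v * K.l (K.b (K.t b) (K.t c))
      + K.l (K.t b) * wE K (fun i => K.t (x i)) v * K.l (K.b (K.t c) (K.t a))
      + K.l (K.t c) * wE K (fun i => K.t (x i)) v * K.l (K.b (K.t a) (K.t b))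
      + K.tau (K.t a) (K.t b) (K.t c) • (Ms.map (fun L => wE K (fun i => K.t (x i)) L)).sum = 0) :
    False := by
  have hvS : (v : Multiset ℕ).Nodup := Multiset.coe_nodup.2 hv
  -- fresh letters a, b, y1, y2
  obtain ⟨y1, y2, hy⟩ := fresh2 (v : Multiset ℕ) hvS
  obtain ⟨a, b, hab⟩ := fresh2 (y1 ::ₘ y2 ::ₘ (v : Multiset ℕ)) hy
  have hab2 := hab
  simp only [Multiset.nodup_cons, Multiset.mem_cons, Multiset.mem_coe, not_or] at hab2
  obtain ⟨⟨hne, hay1, hay2, hav⟩, ⟨hby1, hby2, hbv⟩, ⟨hy12, hy1v⟩, hy2v, _⟩ := hab2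
  have habv : (a ::ₘ b ::ₘ (v : Multiset ℕ)).Nodup := by
    simp only [Multiset.nodup_cons, Multiset.mem_cons, Multiset.mem_coe, not_or]
    exact ⟨⟨hne, hav⟩, hbv, hvS⟩
  -- the word y1 v y2
  have hL0 : (a :: b :: (y1 :: (v ++ [y2]))).Nodup := by
    have e : ((a :: b :: (y1 :: (v ++ [y2])) : List ℕ) : Multiset ℕ)
        = a ::ₘ b ::ₘ y1 ::ₘ y2 ::ₘ (v : Multiset ℕ) := by
      rw [← Multiset.cons_coe, ← Multiset.cons_coe, ← Multiset.cons_coe, ← Multiset.coe_add]
      simp only [← Multiset.singleton_add, Multiset.coe_singleton]; abel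
    rw [← Multiset.coe_nodup, e]
    exact hab
  have h1 := w_rr (K := K) (y1 :: (v ++ [y2])) a b hL0
  have hS1 : a ::ₘ b ::ₘ ((y1 :: (v ++ [y2]) : List ℕ) : Multiset ℕ)
      = y1 ::ₘ y2 ::ₘ (a ::ₘ b ::ₘ (v : Multiset ℕ)) := by
    rw [← Multiset.cons_coe, ← Multiset.coe_add]
    simp only [← Multiset.singleton_add, Multiset.coe_singleton]; abel
  have hlen1 : (y1 :: (v ++ [y2])).length.bodd = v.length.bodd := by
    simp
  rw [hlen1] at h1
  have hnd1 : (a ::ₘ b ::ₘ ((y1 :: (v ++ [y2]) : List ℕ) : Multiset ℕ)).Nodup := hL0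
  obtain ⟨f', g', r1, r2, r3⟩ := h1.con hnd1 hS1
  -- evaluation of the contraction
  have hf : ∀ (p : ℕ → V) (u w : V), K.k (u2 p y1 u y2 w a)
      (wV K (u2 p y1 u y2 w) (y1 :: (v ++ [y2])) (u2 p y1 u y2 w b))
      = K.k (p a) (K.b u (wV K p v (K.b w (p b)))) := by
    intro p u w
    rw [u2_ne hay1 hay2, u2_ne hby1 hby2, wV_cons, u2_j hy12]
    have e1 : wV K (u2 p y1 u y2 w) (v ++ [y2]) = wV K p v * (K.b w : Module.End Z V) := by
      have : wV K (u2 p y1 u y2 w) (v ++ [y2])
          = wV K (u2 p y1 u y2 w) v * (K.b (u2 p y1 u y2 w y2) : Module.End Z V) := by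
        unfold wV
        rw [List.map_append, List.prod_append]; simp
      rw [this, u2_x]
      congr 1
      apply wV_congr
      intro j hj
      apply u2_ne
      · rintro rfl; exact hy1v hj
      · rintro rfl; exact hy2v hj
    rw [e1, Module.End.mul_apply]
  have hg : ∀ (m : ℕ → VM) (u w : VM), pm (u2 m y1 u y2 w a) (u2 m y1 u y2 w b)
      (wM (u2 m y1 u y2 w) (y1 :: (v ++ [y2])))
      = pm (m a) (m b) (mat u * wM m v * mat w) := by
    intro p u w
    rw [u2_ne hay1 hay2, u2_ne hby1 hby2, wM_cons, u2_j hy12, wM_append]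
    have hw1 : wM (u2 p y1 u y2 w) [y2] = mat w := by
      unfold wM; simp [u2_x]
    have hw2 : wM (u2 p y1 u y2 w) v = wM p v := by
      apply wM_congr
      intro j hj
      apply u2_ne
      · rintro rfl; exact hy1v hj
      · rintro rfl; exact hy2v hj
    rw [hw1, hw2, mul_assoc]
  simp only [hf] at r2
  simp only [hg] at r3
  have r3' : ∀ m : ℕ → VM, g' m
      = pm (m b) (m a) (wM m v) + Matrix.trace (wM m v) * kM (m a) (m b) := by
    intro m
    rw [← r3 m, ← pm_add, ← pm_add, conM, pm_add, pm_smul, pm_one, pm_transpose]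
  -- the sum
  have h2 := ws_rr (K := K) (v : Multiset ℕ) Ms (fun L hL => Multiset.coe_eq_coe.2 (hM L hL)) a b habv
  have hc : Multiset.card (v : Multiset ℕ) = v.length := rfl
  rw [hc] at h2
  have h3 := r1.addR h2
  have hz := h3.ext habv (by
    intro x
    beta_reduce
    apply can_tau_t K K.tf_Z
    intro a' b' c'
    have hh := h x a' b' c'
    have hw := w_Rep (K := K) (fun i => K.t (x i)) v
    have hrep := K.rep_add (K.rep_add (K.rep_add
      (K.rep_mul (K.rep_mul (K.rep_l (K.t a')) hw) (K.rep_l (K.b (K.t b') (K.t c'))))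
      (K.rep_mul (K.rep_mul (K.rep_l (K.t b')) hw) (K.rep_l (K.b (K.t c') (K.t a')))))
      (K.rep_mul (K.rep_mul (K.rep_l (K.t c')) hw) (K.rep_l (K.b (K.t a') (K.t b')))))
      (K.rep_smul (K.tau (K.t a') (K.t b') (K.t c')) (lsum_w_Rep (K := K) (fun i => K.t (x i)) Ms))
    rw [K.rep_zero_iff hrep] at hh
    have h4 := congrArg (fun f => K.k (K.t (x a)) (f (K.t (x b)))) hh
    simp only [LinearMap.add_apply, LinearMap.smul_apply, LinearMap.comp_apply, map_add, map_smul,
      smul_eq_mul, LinearMap.zero_apply, map_zero] at h4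
    rw [r2 (fun i => K.t (x i)) (K.t a') (K.t b') (K.t c'), ← mul_add] at h4
    rw [smul_eq_mul]
    exact h4)
  -- evaluation 1
  have hvne : v ≠ [] := by rintro rfl; simp at hlen
  have ev1 := lam2 h3 habv hz a qM b qM'
  have ev2 := fun i j => lam2 h3 habv hz i qM j qM'
  simp only [r3', pm_lsum] at ev1 ev2
  rw [A2_i, A2_j (Ne.symm hne)] at ev1
  have hz1 : ∀ L : List ℕ, L.Perm v → wM (A2 a qM b qM') L = mat zM := by
    intro L hL
    apply wM_z
    · rintro rfl; exact hvne hL.symm.eq_nil
    · intro j hj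
      apply A2_ne
      · rintro rfl; exact hav (hL.mem_iff.1 hj)
      · rintro rfl; exact hbv (hL.mem_iff.1 hj)
  have hz2 : (Ms.map (fun L => pm qM qM' (wM (A2 a qM b qM') L))).sum = (Ms.length : ZMod 2) := by
    have : ∀ L ∈ Ms, pm qM qM' (wM (A2 a qM b qM') L) = 1 := by
      intro L hL
      rw [hz1 L (hM L hL), pm_qq]
    rw [List.map_congr_left this]
    simp
  rw [hz1 v (List.Perm.refl _), hz2] at ev1
  have c1 : pm qM' qM (mat zM) + Matrix.trace (mat zM) * kM qM qM' = 1 := by decide
  rw [c1] at ev1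
  -- evaluation 2
  have hv2 : 2 ≤ v.length := by omega
  have ev3 : psum (fun i j => pm zM zM (wM (A2 i qM j qM') v)
      + Matrix.trace (wM (A2 i qM j qM') v)
      + (Ms.map (fun L => pm zM zM (wM (A2 i qM j qM') L))).sum) v = 0 := by
    have : psum (fun i j => pm zM zM (wM (A2 i qM j qM') v)
      + Matrix.trace (wM (A2 i qM j qM') v)
      + (Ms.map (fun L => pm zM zM (wM (A2 i qM j qM') L))).sum) v
      = psum (fun _ _ => (0 : ZMod 2)) v := by
      apply psum_congr hv
      intro i j hi hj hij
      have e := ev2 i j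
      have hai : a ≠ i := by rintro rfl; exact hav hi
      have haj : a ≠ j := by rintro rfl; exact hav hj
      have hbi : b ≠ i := by rintro rfl; exact hbv hi
      have hbj : b ≠ j := by rintro rfl; exact hbv hj
      rw [A2_ne hai haj, A2_ne hbi hbj] at e
      have hk : kM zM zM = 1 := by decide
      rw [hk, mul_one] at e
      exact e
    rw [this, psum_zero]
  rw [psum_add, psum_add, ends_psum v v hv hv2 (List.Perm.refl _), psum_lsum] at ev3
  have e5 : psum (fun i j => Matrix.trace (wM (A2 i qM j qM') v)) v = 1 := by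
    have := psum_map (Matrix.traceAddMonoidHom (Fin 3) (ZMod 2)) (fun i j => wM (A2 i qM j qM') v) v
    have e6 : psum (fun i j => Matrix.trace (wM (A2 i qM j qM') v)) v = Matrix.trace (P2 v) := this
    rw [e6, P2_tr v hv hv2, hodd, if_pos rfl]
  have e7 : (Ms.map (fun u => psum (fun i j => pm zM zM (wM (A2 i qM j qM') u)) v)).sum
      = (Ms.length : ZMod 2) := by
    have : ∀ u ∈ Ms, psum (fun i j => pm zM zM (wM (A2 i qM j qM') u)) v = 1 := by
      intro u hu
      apply ends_psum u v ((hM u hu).nodup_iff.2 hv) _ (hM u hu).symm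
      rw [(hM u hu).length_eq]; exact hv2
    rw [List.map_congr_left this]
    simp
  rw [e5, e7] at ev3
  have h11 : (1 : ZMod 2) + 1 = 0 := by decide
  rw [h11, zero_add] at ev3
  rw [ev3, add_zero] at ev1
  exact one_ne_zero ev1

end P

end E4
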