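import Pool.Agent.Lib.MP_8a95e3_al.P.P17

/-!
# P18 : the symmetrised sandwich formula and the fact (par)
-/

namespace E4

namespace P

variable {G V Z E : Type} [Group G] [AddCommGroup V] [CommRing Z] [Module Z V] [Ring E]
    [Algebra Z E] {K : PAlg G V Z E}

/-- rank one operator `v ↦ k(p,v) q` -/
def Rk (K : PAlg G V Z E) (p q : V) : Module.End Z V := (K.k p).smulRight q

theorem Rk_apply (p q v : V) : Rk K p q v = K.k p v • q := rfl

/-- adjoint pair -/
def Adj (K : PAlg G V Z E) (f f' : Module.End Z V) : Prop := ∀ u v, K.k (f u) v = K.k u (f' v)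

theorem princ2 {M : Type} [AddCommGroup M] [Module Z M] (hM : K.TF M)
    (Ψ Ψ' : Module.End Z V →ₗ[Z] M) (h : ∀ p q, Ψ (Rk K p q) + Ψ' (Rk K q p) = 0)
    {f f' : Module.End Z V} (hf : Adj K f f') : Ψ f + Ψ' f' = 0 := by
  apply hM
  intro a b c
  have h1 : K.tau a b c • f = Rk K (K.b b c) (f a) + Rk K (K.b c a) (f b) + Rk K (K.b a b) (f c) := by
    ext v
    simp only [LinearMap.smul_apply, LinearMap.add_apply, Rk_apply]
    rw [← map_smul, K.cramerD, map_add, map_add, map_smul, map_smul, map_smul]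
  have h2 : K.tau a b c • f' = Rk K (f a) (K.b b c) + Rk K (f b) (K.b c a) + Rk K (f c) (K.b a b) := by
    ext v
    simp only [LinearMap.smul_apply, LinearMap.add_apply, Rk_apply]
    rw [hf, hf, hf, K.cramer, K.k_symm (f' v) c, K.b_symm c a]
    abel
  rw [smul_add, ← map_smul, ← map_smul, h1, h2, map_add, map_add, map_add, map_add]
  have e1 := h (K.b b c) (f a)
  have e2 := h (K.b c a) (f b)
  have e3 := h (K.b a b) (f c)
  calc _ = (Ψ (Rk K (K.b b c) (f a)) + Ψ' (Rk K (f a) (K.b b c)))
        + (Ψ (Rk K (K.b c a) (f b)) + Ψ' (Rk K (f b) (K.b c a)))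
        + (Ψ (Rk K (K.b a b) (f c)) + Ψ' (Rk K (f c) (K.b a b))) := by abel
    _ = 0 := by rw [e1, e2, e3]; simp

/-- trace form `Σ k(c1, f [c2,c3])` -/
def trF (K : PAlg G V Z E) (c1 c2 c3 : V) (f : Module.End Z V) : Z :=
  K.k c1 (f (K.b c2 c3)) + K.k c2 (f (K.b c3 c1)) + K.k c3 (f (K.b c1 c2))

theorem trF_Rk (c1 c2 c3 p q : V) : trF K c1 c2 c3 (Rk K p q) = K.tau c1 c2 c3 * K.k p q := by
  unfold trF
  simp only [Rk_apply, map_smul, smul_eq_mul]
  have := K.con1 q p c1 c2 c3
  rw [K.k_symm q c1, K.k_symm q c2, K.k_symm q c3, K.k_symm q p] at this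
  rw [← this]; ring

theorem sand_Rk (p q a b w : V) :
    K.b a (Rk K p q (K.b b w)) + K.b b (Rk K p q (K.b a w))
      = Rk K q p (K.b (K.b a b) w) + K.b (K.b a b) (Rk K q p w) + K.k p q • K.b (K.b a b) w
        + K.k (K.b p (K.b a b)) q • w := by
  simp only [Rk_apply, map_smul]
  have hb : ∀ x y : V, K.k x (K.b y w) = K.tau x y w := fun x y => (K.tau_left x y w).symm
  rw [hb p b, hb p a, hb q (K.b a b)]
  have e1 : K.tau p b w • K.b a q = (K.k p a * K.k b q + K.k p q * K.k b a) • w
      + (K.k b a * K.k w q + K.k b q * K.k w a) • p + (K.k w a * K.k p q + K.k w q * K.k p a) • b := by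
    have h := K.cramer' p b w (K.b a q)
    rw [h]
    unfold PAlg.tau
    rw [K.K22, K.K22, K.K22]
  have e2 : K.tau p a w • K.b b q = (K.k p b * K.k a q + K.k p q * K.k a b) • w
      + (K.k a b * K.k w q + K.k a q * K.k w b) • p + (K.k w b * K.k p q + K.k w q * K.k p b) • a := by
    have h := K.cramer' p a w (K.b b q)
    rw [h]
    unfold PAlg.tau
    rw [K.K22, K.K22, K.K22]
  have e3 : K.tau q (K.b a b) w = K.k b q * K.k a w + K.k a q * K.k b w := by
    rw [K.tau_symm' q]
    unfold PAlg.tau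
    rw [K.R1, map_add, LinearMap.add_apply, map_smul, map_smul, LinearMap.smul_apply,
      LinearMap.smul_apply, smul_eq_mul, smul_eq_mul]
  have e4 : K.k (K.b p (K.b a b)) q = K.k b p * K.k a q + K.k a p * K.k b q := by
    rw [K.b_symm, K.R1, map_add, LinearMap.add_apply, map_smul, map_smul, LinearMap.smul_apply,
      LinearMap.smul_apply, smul_eq_mul, smul_eq_mul]
  rw [e1, e2, e3, e4, K.R1 a b p, K.R1 a b w]
  rw [K.k_symm b p, K.k_symm a p, K.k_symm w q, K.k_symm w a, K.k_symm w b, K.k_symm b q,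
    K.k_symm b a, K.k_symm a q]
  -- collect
  have c1 := K.vv ((K.k p q * K.k a b) • w)
  have c2 := K.vv ((K.k a b * K.k q w) • p)
  simp only [smul_add, smul_smul, add_smul]
  calc _ = ((K.k p q * K.k a b) • w + (K.k p q * K.k a b) • w)
        + ((K.k a b * K.k q w) • p + (K.k a b * K.k q w) • p)
        + ((K.k p a * K.k q b) • w + (K.k p b * K.k q a) • w
          + (K.k q b * K.k a w) • p + (K.k q a * K.k b w) • p
          + (K.k a w * K.k p q) • b + (K.k q w * K.k p a) • b
          + (K.k b w * K.k p q) • a + (K.k q w * K.k p b) • a) := by abel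
    _ = _ := by
        rw [c1, c2, zero_add, zero_add]
        rw [mul_comm (K.k a w) (K.k p q), mul_comm (K.k b w) (K.k p q)]
        abel

/-- **the symmetrised sandwich formula** -/
theorem sand {f f' : Module.End Z V} (hf : Adj K f f') (c1 c2 c3 a b w : V) :
    K.tau c1 c2 c3 • (K.b a (f (K.b b w)) + K.b b (f (K.b a w)))
      = K.tau c1 c2 c3 • (f' (K.b (K.b a b) w) + K.b (K.b a b) (f' w))
        + trF K c1 c2 c3 f • K.b (K.b a b) w
        + trF K c1 c2 c3 (f * (K.b (K.b a b) : Module.End Z V)) • w := by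
  let Ψ : Module.End Z V →ₗ[Z] V :=
    { toFun := fun f => K.tau c1 c2 c3 • (K.b a (f (K.b b w)) + K.b b (f (K.b a w)))
        + trF K c1 c2 c3 f • K.b (K.b a b) w
        + trF K c1 c2 c3 (f * (K.b (K.b a b) : Module.End Z V)) • w
      map_add' := by
        intro f g
        unfold trF
        simp only [LinearMap.add_apply, add_mul, Module.End.mul_apply, map_add, smul_add, add_smul]
        abel
      map_smul' := by
        intro z f
        unfold trF
        simp only [LinearMap.smul_apply, smul_mul_assoc, Module.End.mul_apply, map_smul, smul_add,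
          RingHom.id_apply, smul_eq_mul, smul_smul, add_smul, mul_comm _ z] }
  let Ψ' : Module.End Z V →ₗ[Z] V :=
    { toFun := fun f' => K.tau c1 c2 c3 • (f' (K.b (K.b a b) w) + K.b (K.b a b) (f' w))
      map_add' := by
        intro f g
        simp only [LinearMap.add_apply, map_add, smul_add]
        abel
      map_smul' := by
        intro z f
        simp only [LinearMap.smul_apply, map_smul, smul_add, RingHom.id_apply, smul_smul,
          mul_comm _ z] }
  have key := princ2 (K := K) K.tf_V Ψ Ψ' (by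
    intro p q
    show K.tau c1 c2 c3 • (K.b a (Rk K p q (K.b b w)) + K.b b (Rk K p q (K.b a w)))
        + trF K c1 c2 c3 (Rk K p q) • K.b (K.b a b) w
        + trF K c1 c2 c3 (Rk K p q * (K.b (K.b a b) : Module.End Z V)) • w
        + K.tau c1 c2 c3 • (Rk K q p (K.b (K.b a b) w) + K.b (K.b a b) (Rk K q p w)) = 0
    have h1 : Rk K p q * (K.b (K.b a b) : Module.End Z V) = Rk K (K.b p (K.b a b)) q := by
      ext v
      rw [Module.End.mul_apply, Rk_apply, Rk_apply]
      congr 1
      exact (K.tau_left p (K.b a b) v).symm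
    rw [h1, trF_Rk, trF_Rk, sand_Rk, mul_smul, mul_smul]
    simp only [smul_add]
    generalize K.tau c1 c2 c3 • Rk K q p (K.b (K.b a b) w) = A1
    generalize K.tau c1 c2 c3 • K.b (K.b a b) (Rk K q p w) = A2
    generalize K.tau c1 c2 c3 • K.k p q • K.b (K.b a b) w = A3
    generalize K.tau c1 c2 c3 • K.k (K.b p (K.b a b)) q • w = A4
    have h1 := K.vv A1
    have h2 := K.vv A2
    have h3 := K.vv A3
    have h4 := K.vv A4
    calc _ = (A1 + A1) + (A2 + A2) + (A3 + A3) + (A4 + A4) := by abel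
      _ = 0 := by rw [h1, h2, h3, h4]; simp) hf
  have key' : K.tau c1 c2 c3 • (K.b a (f (K.b b w)) + K.b b (f (K.b a w)))
        + trF K c1 c2 c3 f • K.b (K.b a b) w
        + trF K c1 c2 c3 (f * (K.b (K.b a b) : Module.End Z V)) • w
        + K.tau c1 c2 c3 • (f' (K.b (K.b a b) w) + K.b (K.b a b) (f' w)) = 0 := key
  apply K.eq_v
  rw [← key']
  abel

/-- trace of a word as a related pair -/
theorem tr_rr (v : List ℕ) (hv : v.Nodup) : ∃ (f : (ℕ → V) → Z),
    RR K v.length.bodd (v : Multiset ℕ) f (fun m => Matrix.trace (wM m v)) ∧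
      ∀ p c1 c2 c3, K.tau c1 c2 c3 * f p = trF K c1 c2 c3 (wV K p v) := by
  have hvS : (v : Multiset ℕ).Nodup := Multiset.coe_nodup.2 hv
  obtain ⟨a, b, hab⟩ := fresh2 (v : Multiset ℕ) hvS
  have hab2 := hab
  simp only [Multiset.nodup_cons, Multiset.mem_cons, Multiset.mem_coe, not_or] at hab2
  obtain ⟨⟨hne, hav⟩, hbv, _⟩ := hab2
  have h1 := w_rr (K := K) v a b hab
  obtain ⟨f', g', r1, r2, r3⟩ := h1.con hab rfl
  have hl : ∀ (p : ℕ → V) (u w : V), wV K (u2 p a u b w) v = wV K p v := by
    intro p u w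
    apply wV_congr
    intro j hj
    apply u2_ne
    · rintro rfl; exact hav hj
    · rintro rfl; exact hbv hj
  have hl' : ∀ (p : ℕ → VM) (u w : VM), wM (u2 p a u b w) v = wM p v := by
    intro p u w
    apply wM_congr
    intro j hj
    apply u2_ne
    · rintro rfl; exact hav hj
    · rintro rfl; exact hbv hj
  simp only [hl, u2_x, u2_j hne] at r2
  simp only [hl', u2_x, u2_j hne] at r3
  refine ⟨f', ?_, ?_⟩
  · have hg : g' = fun m => Matrix.trace (wM m v) := by
      funext m
      rw [← r3 m]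
      unfold pm toV e1 e2 e3
      simp [dotProduct, Matrix.mulVec, Fin.sum_univ_three, Matrix.trace]
    rw [← hg]
    exact r1
  · intro p c1 c2 c3
    rw [← r2 p c1 c2 c3]
    rfl

end P

end E4
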