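import Pool.Agent.Lib.MP_8a95e3_al.P.P18

/-!
# P19 : the fact (par)
-/

namespace E4

namespace P

variable {G V Z E : Type} [Group G] [AddCommGroup V] [CommRing Z] [Module Z V] [Ring E]
    [Algebra Z E] {K : PAlg G V Z E}

theorem wV_Adj (p : ℕ → V) (v : List ℕ) : Adj K (wV K p v) (wV K p v.reverse) := by
  intro u w
  have h := K.rep_adj (w_Rep (K := K) p v) w u
  rw [K.k_symm, h, K.k_symm]

theorem wV_snoc (p : ℕ → V) (L : List ℕ) (j : ℕ) (w : V) :
    wV K p (L ++ [j]) w = wV K p L (K.b (p j) w) := by
  unfold wV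
  rw [List.map_append, List.prod_append, Module.End.mul_apply]
  simp

theorem mat_symm (w : VM) : (mat w).transpose = mat w := by
  obtain ⟨w1, w2, w3⟩ := w
  ext i j
  fin_cases i <;> fin_cases j <;> simp [mat]

theorem wM_snoc (m : ℕ → VM) (L : List ℕ) (j : ℕ) : wM m (L ++ [j]) = wM m L * mat (m j) := by
  rw [wM_append]
  congr 1
  unfold wM; simp

theorem wM_reverse (m : ℕ → VM) (v : List ℕ) : wM m v.reverse = (wM m v).transpose := by
  induction v with
  | nil => unfold wM; simp
  | cons j v ih =>
    rw [List.reverse_cons, wM_snoc, ih, wM_cons, Matrix.transpose_mul, mat_symm]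

/-- exchange of the outer coordinates -/
def swV (u : VM) : VM := (u.2.2, u.2.1, u.1)

theorem mat_swV (u : VM) : mat (swV u) = (mat u).submatrix (Equiv.swap 0 2) (Equiv.swap 0 2) := by
  obtain ⟨u1, u2, u3⟩ := u
  revert u1 u2 u3
  decide

theorem wM_swV (m : ℕ → VM) (L : List ℕ) :
    wM (fun i => swV (m i)) L = (wM m L).submatrix (Equiv.swap 0 2) (Equiv.swap 0 2) := by
  induction L with
  | nil =>
    unfold wM
    rw [List.map_nil, List.prod_nil, List.map_nil, List.prod_nil]
    exact (Matrix.submatrix_one_equiv _).symm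
  | cons j L ih =>
    rw [wM_cons, wM_cons, ih, mat_swV, Matrix.submatrix_mul_equiv]

theorem trace_sw (M : Matrix (Fin 3) (Fin 3) (ZMod 2)) :
    Matrix.trace (M.submatrix (Equiv.swap 0 2) (Equiv.swap 0 2)) = Matrix.trace M := by
  unfold Matrix.trace
  simp only [Fin.sum_univ_three, Matrix.diag_apply, Matrix.submatrix_apply]
  have h0 : (Equiv.swap (0 : Fin 3) 2) 0 = 2 := by decide
  have h1 : (Equiv.swap (0 : Fin 3) 2) 1 = 1 := by decide
  have h2 : (Equiv.swap (0 : Fin 3) 2) 2 = 0 := by decide
  rw [h0, h1, h2]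
  ring

theorem trace_symm {i j : ℕ} (hij : i ≠ j) (L : List ℕ) :
    Matrix.trace (wM (A2 i qM j qM') L) = Matrix.trace (wM (A2 j qM i qM') L) := by
  have h : (fun l => swV (A2 i qM j qM' l)) = A2 j qM i qM' := by
    funext l
    by_cases h1 : l = i
    · subst h1
      rw [A2_i, A2_j hij]
      decide
    by_cases h2 : l = j
    · subst h2
      rw [A2_j h1, A2_i]
      decide
    · rw [A2_ne h1 h2, A2_ne h2 h1]
      decide
  rw [← h, wM_swV, trace_sw]

theorem pm_matOne (u v w : VM) : pm u v (mat w) = tM u w v := by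
  have h := pm_mat u v w 1
  rw [mul_one, pm_one] at h
  rw [h]; rfl

/-- the function `G(c)` with `y1 v y2 + y2 v y1 = G([y1,y2])` as a related pair -/
theorem G_rr (v : List ℕ) (a b c : ℕ) (hn : (a :: b :: c :: v).Nodup)
    (hev : v.length.bodd = false) : ∃ (f : (ℕ → V) → Z),
    RR K true (a ::ₘ b ::ₘ c ::ₘ (v : Multiset ℕ)) f
      (fun m => pm (m a) (m b) (wM m (v.reverse ++ [c])) + pm (m a) (m b) (wM m (c :: v.reverse))
        + Matrix.trace (wM m v) * tM (m a) (m c) (m b)
        + kM (m a) (m b) * Matrix.trace (wM m (v ++ [c]))) ∧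
      ∀ p c1 c2 c3, K.tau c1 c2 c3 * f p = K.k (p a)
        (K.tau c1 c2 c3 • (wV K p v.reverse (K.b (p c) (p b)) + K.b (p c) (wV K p v.reverse (p b)))
          + trF K c1 c2 c3 (wV K p v) • K.b (p c) (p b)
          + trF K c1 c2 c3 (wV K p v * (K.b (p c) : Module.End Z V)) • p b) := by
  have hn2 := hn
  simp only [List.nodup_cons, List.mem_cons, not_or] at hn2
  obtain ⟨⟨hab, hac, hav⟩, ⟨hbc, hbv⟩, hcv, hv⟩ := hn2
  have hnd : ∀ L : List ℕ, L.Perm (c :: v) → (a :: b :: L).Nodup := by
    intro L hL
    have : (a :: b :: L).Perm (a :: b :: c :: v) := (hL.cons b).cons a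
    exact this.nodup_iff.2 hn
  have p1 : (v.reverse ++ [c]).Perm (c :: v) := by
    have h1 : (v.reverse ++ [c]).Perm (v ++ [c]) := (List.reverse_perm v).append_right [c]
    exact h1.trans List.perm_append_comm
  have p2 : (c :: v.reverse).Perm (c :: v) := (List.reverse_perm v).cons c
  have p3 : (v ++ [c]).Perm (c :: v) := List.perm_append_comm
  have hS : ∀ L : List ℕ, L.Perm (c :: v) → (L : Multiset ℕ) = c ::ₘ (v : Multiset ℕ) := by
    intro L hL
    rw [Multiset.cons_coe]
    exact Multiset.coe_eq_coe.2 hL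
  have hlen : ∀ L : List ℕ, L.Perm (c :: v) → L.length.bodd = true := by
    intro L hL
    rw [hL.length_eq, List.length_cons, Nat.bodd_succ, hev]; rfl
  have r1 := w_rr (K := K) (v.reverse ++ [c]) a b (hnd _ p1)
  rw [hS _ p1, hlen _ p1] at r1
  have r2 := w_rr (K := K) (c :: v.reverse) a b (hnd _ p2)
  rw [hS _ p2, hlen _ p2] at r2
  obtain ⟨f3, s3, t3⟩ := tr_rr (K := K) v hv
  rw [hev] at s3
  have r3 := s3.mulT a c b
  obtain ⟨f4, s4, t4⟩ := tr_rr (K := K) (v ++ [c]) (p3.nodup_iff.2 (by
    rw [List.nodup_cons]; exact ⟨hcv, hv⟩))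
  rw [hlen _ p3, hS _ p3] at s4
  have r4 := s4.mulK a b
  have e3 : a ::ₘ c ::ₘ b ::ₘ (v : Multiset ℕ) = a ::ₘ b ::ₘ c ::ₘ (v : Multiset ℕ) := by
    rw [Multiset.cons_swap c b]
  rw [e3] at r3
  have rr := ((r1.addR r2).addR r3).addR r4
  refine ⟨fun p => K.k (p a) (wV K p (v.reverse ++ [c]) (p b))
      + K.k (p a) (wV K p (c :: v.reverse) (p b)) + K.tau (p a) (p c) (p b) * f3 p
      + K.k (p a) (p b) * f4 p, ?_, ?_⟩
  · have eg : (fun m : ℕ → VM => pm (m a) (m b) (wM m (v.reverse ++ [c]))
          + pm (m a) (m b) (wM m (c :: v.reverse))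
          + Matrix.trace (wM m v) * tM (m a) (m c) (m b)
          + kM (m a) (m b) * Matrix.trace (wM m (v ++ [c])))
        = fun m => pm (m a) (m b) (wM m (v.reverse ++ [c]))
          + pm (m a) (m b) (wM m (c :: v.reverse))
          + tM (m a) (m c) (m b) * Matrix.trace (wM m v)
          + kM (m a) (m b) * Matrix.trace (wM m (v ++ [c])) := by
      funext m
      rw [mul_comm (Matrix.trace (wM m v))]
    rw [eg]
    exact rr
  · intro p c1 c2 c3
    have h3 := t3 p c1 c2 c3
    have h4 := t4 p c1 c2 c3
    have e4 : wV K p (v ++ [c]) = wV K p v * (K.b (p c) : Module.End Z V) := by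
      ext w
      rw [wV_snoc]; rfl
    rw [e4] at h4
    simp only [map_add, map_smul, smul_eq_mul, wV_snoc, wV_cons]
    rw [← h3, ← h4, K.tau_left (p a) (p c) (p b)]
    ring

/-- **(par)** -/
theorem parf [Nontrivial E] (v : List ℕ) (c y1 y2 : ℕ) (hn : (c :: y1 :: y2 :: v).Nodup)
    (hev : v.length.bodd = false) (hlen : 2 ≤ v.length) (Ms : List (List ℕ))
    (hM : ∀ L ∈ Ms, L.Perm (c :: v))
    (h : ∀ x : ℕ → G,
      (Ms.map (fun L => wE K (Function.update (fun i => K.t (x i)) c
        (K.b (K.t (x y1)) (K.t (x y2)))) L)).sum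
      + (K.l (K.t (x y1)) * wE K (fun i => K.t (x i)) v * K.l (K.t (x y2))
        + K.l (K.t (x y2)) * wE K (fun i => K.t (x i)) v * K.l (K.t (x y1))) = 0) : False := by
  have hn2 := hn
  simp only [List.nodup_cons, List.mem_cons, not_or] at hn2
  obtain ⟨⟨hcy1, hcy2, hcv⟩, ⟨hy12, hy1v⟩, hy2v, hv⟩ := hn2
  have hcvn : (c :: v).Nodup := by
    rw [List.nodup_cons]; exact ⟨hcv, hv⟩
  obtain ⟨a, b, hab⟩ := fresh2 ((c :: y1 :: y2 :: v : List ℕ) : Multiset ℕ) (Multiset.coe_nodup.2 hn)
  have hab2 := hab
  simp only [Multiset.nodup_cons, Multiset.mem_cons, Multiset.mem_coe, List.mem_cons, not_or] at hab2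
  obtain ⟨⟨hne, hac, hay1, hay2, hav⟩, ⟨hbc, hby1, hby2, hbv⟩, _⟩ := hab2
  have hnabc : (a :: b :: c :: v).Nodup := by
    simp only [List.nodup_cons, List.mem_cons, not_or]
    exact ⟨⟨hne, hac, hav⟩, ⟨hbc, hbv⟩, hcv, hv⟩
  obtain ⟨fG, rG, tG⟩ := G_rr (K := K) v a b c hnabc hev
  have hMS : ∀ L ∈ Ms, (L : Multiset ℕ) = c ::ₘ (v : Multiset ℕ) := by
    intro L hL
    rw [Multiset.cons_coe]
    exact Multiset.coe_eq_coe.2 (hM L hL)
  have hnabcM : (a ::ₘ b ::ₘ c ::ₘ (v : Multiset ℕ)).Nodup := hnabc
  have rM := ws_rr (K := K) (c ::ₘ (v : Multiset ℕ)) Ms hMS a b hnabcM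
  have hcard : (c ::ₘ (v : Multiset ℕ)).card.bodd = true := by
    rw [Multiset.card_cons, Multiset.coe_card, Nat.bodd_succ, hev]; rfl
  rw [hcard] at rM
  have rT := rM.addR rG
  have hSc : a ::ₘ b ::ₘ c ::ₘ (v : Multiset ℕ) = c ::ₘ (a ::ₘ b ::ₘ (v : Multiset ℕ)) := by
    simp only [← Multiset.singleton_add]; abel
  have rB := rT.bs (c := y1) (d := y2) hnabcM hSc
  have hnB : (y1 ::ₘ y2 ::ₘ a ::ₘ b ::ₘ (v : Multiset ℕ)).Nodup := by
    simp only [Multiset.nodup_cons, Multiset.mem_cons, Multiset.mem_coe, not_or]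
    exact ⟨⟨hy12, fun h => hay1 h.symm, fun h => hby1 h.symm, hy1v⟩,
      ⟨fun h => hay2 h.symm, fun h => hby2 h.symm, hy2v⟩, ⟨hne, hav⟩, hbv, Multiset.coe_nodup.2 hv⟩
  -- it vanishes on squares
  have hz := rB.ext hnB (by
    intro x
    beta_reduce
    apply can_tau_t K K.tf_Z
    intro c1 c2 c3
    have h1 := h x
    have hw := w_Rep (K := K) (fun i => K.t (x i)) v
    have hrep := K.rep_add (lsum_w_Rep (K := K) (Function.update (fun i => K.t (x i)) c
        (K.b (K.t (x y1)) (K.t (x y2)))) Ms)
      (K.rep_add (K.rep_mul (K.rep_mul (K.rep_l (K.t (x y1))) hw) (K.rep_l (K.t (x y2))))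
        (K.rep_mul (K.rep_mul (K.rep_l (K.t (x y2))) hw) (K.rep_l (K.t (x y1)))))
    rw [K.rep_zero_iff hrep] at h1
    have h4 := congrArg (fun f => K.k (K.t (x a)) (f (K.t (x b)))) h1
    simp only [LinearMap.add_apply, LinearMap.comp_apply, map_add,
      LinearMap.zero_apply, map_zero] at h4
    have h5 := tG (Function.update (fun i => K.t (x i)) c (K.b (K.t (x y1)) (K.t (x y2))))
      (K.t c1) (K.t c2) (K.t c3)
    rw [Function.update_self, Function.update_of_ne hac, Function.update_of_ne hbc] at h5
    have ev : ∀ L : List ℕ, (∀ j ∈ L, j ∈ v) →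
        wV K (Function.update (fun i => K.t (x i)) c (K.b (K.t (x y1)) (K.t (x y2)))) L
          = wV K (fun i => K.t (x i)) L := by
      intro L hL
      apply wV_congr
      intro j hj
      rw [Function.update_of_ne]
      rintro rfl
      exact hcv (hL j hj)
    rw [ev v (fun j hj => hj), ev v.reverse (fun j hj => List.mem_reverse.1 hj)] at h5
    have h6 := sand (K := K) (wV_Adj (K := K) (fun i => K.t (x i)) v) (K.t c1) (K.t c2) (K.t c3)
      (K.t (x y1)) (K.t (x y2)) (K.t (x b))
    rw [← h6, map_smul, map_add, smul_eq_mul] at h5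
    rw [Function.update_of_ne hac, Function.update_of_ne hbc, smul_eq_mul, mul_add, h5, ← mul_add,
      h4, mul_zero])
  -- T1
  have hz2 : ∀ p, K.k (p a) ((Ms.map (fun L => wV K p L)).sum (p b)) + fG p = 0 := by
    intro p
    have hlin := rT.linV hnabcM (j := c) (by simp) p
    let r : V →ₗ[Z] Z :=
      { toFun := fun u => K.k (Function.update p c u a)
          ((Ms.map (fun L => wV K (Function.update p c u) L)).sum (Function.update p c u b))
          + fG (Function.update p c u)
        map_add' := hlin.1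
        map_smul' := hlin.2 }
    have hr : r = 0 := by
      apply K.T1 K.tf_Z
      intro u w
      have h1 := hz (Function.update (Function.update p y1 u) y2 w)
      beta_reduce at h1
      rw [Function.update_of_ne hy12, Function.update_self, Function.update_self] at h1
      have hl := rT.loc (p := Function.update (Function.update (Function.update p y1 u) y2 w) c (K.b u w))
        (p' := Function.update p c (K.b u w)) (by
          intro i hi
          simp only [Multiset.mem_cons, Multiset.mem_coe] at hi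
          by_cases hic : i = c
          · subst hic; rw [Function.update_self, Function.update_self]
          · rw [Function.update_of_ne hic, Function.update_of_ne hic, Function.update_of_ne,
              Function.update_of_ne]
            · rintro rfl
              rcases hi with h | h | h | h
              · exact hay1 h.symm
              · exact hby1 h.symm
              · exact hcy1 h.symm
              · exact hy1v h
            · rintro rfl
              rcases hi with h | h | h | h
              · exact hay2 h.symm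
              · exact hby2 h.symm
              · exact hcy2 h.symm
              · exact hy2v h)
      show _ = (0 : Z)
      rw [← h1]
      exact hl.symm
    have h2 := congrArg (fun f => f (p c)) hr
    have h3 : r (p c) = 0 := h2
    have h4 : r (p c) = K.k (p a) ((Ms.map (fun L => wV K p L)).sum (p b)) + fG p := by
      show K.k (Function.update p c (p c) a)
          ((Ms.map (fun L => wV K (Function.update p c (p c)) L)).sum (Function.update p c (p c) b))
          + fG (Function.update p c (p c)) = _
      rw [Function.update_eq_self]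
    rw [← h4, h3]
  -- evaluation 1
  have hvne : v ≠ [] := by rintro rfl; simp at hlen
  have ev1 := lam2 rT hnabcM hz2 a qM b qM'
  have ev2 := fun i j => lam2 rT hnabcM hz2 i qM j qM'
  simp only [pm_lsum] at ev1 ev2
  rw [A2_i, A2_j (Ne.symm hne)] at ev1
  have hin : ∀ L : List ℕ, (∀ j ∈ L, j ∈ c :: v) → L ≠ [] → wM (A2 a qM b qM') L = mat zM := by
    intro L hL hLne
    apply wM_z _ _ hLne
    intro j hj
    have hj' := hL j hj
    apply A2_ne
    · rintro rfl
      rcases List.mem_cons.1 hj' with h | h
      · exact hac h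
      · exact hav h
    · rintro rfl
      rcases List.mem_cons.1 hj' with h | h
      · exact hbc h
      · exact hbv h
  have hz3 : (Ms.map (fun L => pm qM qM' (wM (A2 a qM b qM') L))).sum = (Ms.length : ZMod 2) := by
    have : ∀ L ∈ Ms, pm qM qM' (wM (A2 a qM b qM') L) = 1 := by
      intro L hL
      rw [hin L (fun j hj => (hM L hL).mem_iff.1 hj) (by
        rintro rfl
        have := (hM [] hL).length_eq
        simp at this), pm_qq]
    rw [List.map_congr_left this]
    simp
  rw [hz3, hin (v.reverse ++ [c]) (fun j hj => by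
      rcases List.mem_append.1 hj with h | h
      · exact List.mem_cons_of_mem _ (List.mem_reverse.1 h)
      · simp at h; subst h; exact List.mem_cons_self) (by simp),
    hin (c :: v.reverse) (fun j hj => by
      rcases List.mem_cons.1 hj with h | h
      · subst h; exact List.mem_cons_self
      · exact List.mem_cons_of_mem _ (List.mem_reverse.1 h)) (by simp),
    hin v (fun j hj => List.mem_cons_of_mem _ hj) hvne,
    hin (v ++ [c]) (fun j hj => by
      rcases List.mem_append.1 hj with h | h
      · exact List.mem_cons_of_mem _ h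
      · simp at h; subst h; exact List.mem_cons_self) (by simp)] at ev1
  have hAc : A2 a qM b qM' c = zM := A2_ne (fun h => hac h.symm) (fun h => hbc h.symm)
  rw [hAc] at ev1
  have c1 : pm qM qM' (mat zM) + pm qM qM' (mat zM) + Matrix.trace (mat zM) * tM qM zM qM'
      + kM qM qM' * Matrix.trace (mat zM) = 0 := by decide
  rw [c1, add_zero] at ev1
  -- evaluation 2
  have hcv2 : 2 ≤ (c :: v).length := by rw [List.length_cons]; omega
  have ev3 : psum (fun i j => (Ms.map (fun L => pm zM zM (wM (A2 i qM j qM') L))).sum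
      + (pm zM zM (wM (A2 i qM j qM') (v.reverse ++ [c]))
        + pm zM zM (wM (A2 i qM j qM') (c :: v.reverse))
        + Matrix.trace (wM (A2 i qM j qM') (v ++ [c])))) (c :: v) = 0 := by
    have : psum (fun i j => (Ms.map (fun L => pm zM zM (wM (A2 i qM j qM') L))).sum
      + (pm zM zM (wM (A2 i qM j qM') (v.reverse ++ [c]))
        + pm zM zM (wM (A2 i qM j qM') (c :: v.reverse))
        + Matrix.trace (wM (A2 i qM j qM') (v ++ [c])))) (c :: v)
      = psum (fun _ _ => (0 : ZMod 2)) (c :: v) := by
      apply psum_congr hcvn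
      intro i j hi hj hij
      have e := ev2 i j
      have hai : a ≠ i := by
        rintro rfl
        rcases List.mem_cons.1 hi with h | h
        · exact hac h
        · exact hav h
      have haj : a ≠ j := by
        rintro rfl
        rcases List.mem_cons.1 hj with h | h
        · exact hac h
        · exact hav h
      have hbi : b ≠ i := by
        rintro rfl
        rcases List.mem_cons.1 hi with h | h
        · exact hbc h
        · exact hbv h
      have hbj : b ≠ j := by
        rintro rfl
        rcases List.mem_cons.1 hj with h | h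
        · exact hbc h
        · exact hbv h
      rw [A2_ne hai haj, A2_ne hbi hbj] at e
      have hk : kM zM zM = 1 := by decide
      have ht : ∀ w, tM zM w zM = 0 := by decide
      rw [hk, one_mul, ht, mul_zero, add_zero] at e
      exact e
    rw [this, psum_zero]
  have p1 : (v.reverse ++ [c]).Perm (c :: v) := by
    have h1 : (v.reverse ++ [c]).Perm (v ++ [c]) := (List.reverse_perm v).append_right [c]
    exact h1.trans List.perm_append_comm
  have p2 : (c :: v.reverse).Perm (c :: v) := (List.reverse_perm v).cons c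
  have p3 : (v ++ [c]).Perm (c :: v) := List.perm_append_comm
  have hone : ∀ u : List ℕ, u.Perm (c :: v) →
      psum (fun i j => pm zM zM (wM (A2 i qM j qM') u)) (c :: v) = 1 := by
    intro u hu
    apply ends_psum u (c :: v) (hu.nodup_iff.2 hcvn) _ hu.symm
    rw [hu.length_eq]; exact hcv2
  rw [psum_add, psum_add, psum_add, psum_lsum, hone _ p1, hone _ p2] at ev3
  have e5 : psum (fun i j => Matrix.trace (wM (A2 i qM j qM') (v ++ [c]))) (c :: v) = 1 := by
    have e9 : psum (fun i j => Matrix.trace (wM (A2 i qM j qM') (v ++ [c]))) (c :: v)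
        = psum (fun i j => Matrix.trace (wM (A2 i qM j qM') (v ++ [c]))) (v ++ [c]) := by
      have e10 : ∀ L : List ℕ, L.Nodup →
          psum (fun i j => Matrix.trace (wM (A2 i qM j qM') (v ++ [c]))) L
          = psum (fun i j => if i = j then 0 else Matrix.trace (wM (A2 i qM j qM') (v ++ [c]))) L := by
        intro L hL
        apply psum_congr hL
        intro i j _ _ hij
        rw [if_neg hij]
      rw [e10 _ hcvn, e10 _ (p3.nodup_iff.2 hcvn)]
      apply psum_perm _ p3.symm
      intro i j
      by_cases hij : i = j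
      · rw [if_pos hij, if_pos hij.symm]
      · rw [if_neg hij, if_neg (Ne.symm hij), trace_symm hij]
    have e8 : psum (fun i j => Matrix.trace (wM (A2 i qM j qM') (v ++ [c]))) (v ++ [c]) = 1 := by
      have := psum_map (Matrix.traceAddMonoidHom (Fin 3) (ZMod 2))
        (fun i j => wM (A2 i qM j qM') (v ++ [c])) (v ++ [c])
      have e6 : psum (fun i j => Matrix.trace (wM (A2 i qM j qM') (v ++ [c]))) (v ++ [c])
        = Matrix.trace (P2 (v ++ [c])) := this
      rw [e6, P2_tr _ (p3.nodup_iff.2 hcvn) (by rw [p3.length_eq]; exact hcv2), p3.length_eq,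
        List.length_cons, Nat.bodd_succ, hev]
      rfl
    rw [e9, e8]
  have e7 : (Ms.map (fun u => psum (fun i j => pm zM zM (wM (A2 i qM j qM') u)) (c :: v))).sum
      = (Ms.length : ZMod 2) := by
    have : ∀ u ∈ Ms, psum (fun i j => pm zM zM (wM (A2 i qM j qM') u)) (c :: v) = 1 := by
      intro u hu
      exact hone u (hM u hu)
    rw [List.map_congr_left this]
    simp
  rw [e5, e7, ev1] at ev3
  revert ev3
  decide

end P

end E4
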