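import Pool.Agent.Lib.MP_8a95e3_al.P.P19
import Pool.Agent.Lib.MP_8a95e3_al.X04a

/-!
# P20 : evaluation of the group ring over `F_2` in a `PAlg` over the free group
-/

namespace E4

namespace P

open E4.X (FB eB o C T Xl rp ret kls sqs sw)

variable {V Z E : Type} [AddCommGroup V] [CommRing Z] [Module Z V] [Ring E] [Algebra Z E]

/-- the model: `P0` is the kernel of `e`, `e` extends `K.ρ`, `P0` is closed under endomorphisms -/
structure Md (K : PAlg F V Z E) (e : FB →+* E) (P0 : AddSubgroup FB) : Prop where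
  o : ∀ g, e (o g) = K.ρ g
  ker : ∀ f, e f = 0 ↔ f ∈ P0
  endo : ∀ (φ : F →* F) (f : FB), f ∈ P0 → eB φ f ∈ P0

/-- evaluation at group elements -/
noncomputable def evx (e : FB →+* E) (w : ℕ → F) : FB →+* E := e.comp (eB (FreeGroup.lift w))

section

variable {K : PAlg F V Z E} {e : FB →+* E} {P0 : AddSubgroup FB} (M : Md K e P0)

include M

theorem Md.evx_o (w : ℕ → F) (g : F) : evx e w (E4.X.o g) = K.ρ (FreeGroup.lift w g) := by
  show e (eB (FreeGroup.lift w) (E4.X.o g)) = _
  rw [E4.X.eB_o, M.o]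

theorem Md.evx_x (w : ℕ → F) (j : ℕ) : evx e w (E4.X.o (x j)) = K.ρ (w j) := by
  rw [M.evx_o]
  congr 1
  exact FreeGroup.lift_apply_of

theorem Md.evx_C (w : ℕ → F) (g : F) : evx e w (C g) = K.X (FreeGroup.lift w g) := by
  show evx e w (E4.X.o g + 1) = _
  rw [map_add, M.evx_o, map_one]
  rfl

theorem Md.evx_Xl (w : ℕ → F) (j : ℕ) : evx e w (Xl j) = K.X (w j) := by
  show evx e w (C (x j)) = _
  rw [M.evx_C]
  congr 1
  exact FreeGroup.lift_apply_of

omit M in
theorem Md.X_sq (g : F) : K.X (g ^ 2) = K.l (K.t g) := by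
  unfold PAlg.X
  rw [pow_two, map_mul, K.sq, add_comm (1 : E), add_assoc, K.ee, add_zero]

theorem Md.evx_Xl_sq (w : ℕ → F) (j : ℕ) {u : F} (h : w j = u ^ 2) : evx e w (Xl j) = K.l (K.t u) := by
  rw [M.evx_Xl, h, Md.X_sq]

theorem Md.evx_T (w : ℕ → F) (g : F) : evx e w (T g) = K.l (K.t (FreeGroup.lift w g)) := by
  show evx e w (E4.X.o g + E4.X.o g⁻¹) = _
  rw [map_add, M.evx_o, M.evx_o, K.l_t, map_inv]

end

theorem evx_w (e : FB →+* E) {w w' : ℕ → F} (h : ∀ i, w i = w' i) (f : FB) : evx e w f = evx e w' f := by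
  rw [funext h]

theorem evx_eB (e : FB →+* E) (w : ℕ → F) (φ : F →* F) (f : FB) :
    evx e w (eB φ f) = evx e (fun i => FreeGroup.lift w (φ (x i))) f := by
  show e (eB _ (eB φ f)) = e (eB _ f)
  rw [E4.X.eB_comp]
  congr 2
  congr 1
  apply E4.X.hom_ext
  intro i
  rw [MonoidHom.comp_apply]
  exact (FreeGroup.lift_apply_of (f := fun i => FreeGroup.lift w (φ (x i)))).symm

theorem lift_x (w : ℕ → F) (i : ℕ) : FreeGroup.lift w (x i) = w i := FreeGroup.lift_apply_of

theorem evx_rp (e : FB →+* E) (w : ℕ → F) (j : ℕ) (g : F) (f : FB) :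
    evx e w (eB (rp j g) f) = evx e (Function.update w j (FreeGroup.lift w g)) f := by
  rw [evx_eB]
  apply evx_w
  intro i
  rw [E4.X.rp_x]
  by_cases h : i = j
  · subst h
    rw [if_pos rfl, Function.update_self]
  · rw [if_neg h, Function.update_of_ne h, lift_x]

theorem evx_rp1 (e : FB →+* E) (w : ℕ → F) (j : ℕ) (f : FB) :
    evx e w (eB (rp j 1) f) = evx e (Function.update w j 1) f := by
  rw [evx_rp, map_one]

theorem evx_ret (e : FB →+* E) (w : ℕ → F) (M : Finset ℕ) (f : FB) :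
    evx e w (eB (ret M) f) = evx e (fun i => if i ∈ M then w i else 1) f := by
  rw [evx_eB]
  apply evx_w
  intro i
  rw [E4.X.ret_x]
  by_cases h : i ∈ M
  · rw [if_pos h, if_pos h, lift_x]
  · rw [if_neg h, if_neg h, map_one]

theorem evx_sw (e : FB →+* E) (w : ℕ → F) (y z : ℕ) (f : FB) :
    evx e w (eB (sw y z) f) = evx e (fun i => if i = y then w z else if i = z then w y else w i) f := by
  rw [evx_eB]
  apply evx_w
  intro i
  rw [E4.X.sw_x]
  by_cases h : i = y
  · rw [if_pos h, if_pos h, lift_x]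
  · rw [if_neg h, if_neg h]
    by_cases h' : i = z
    · rw [if_pos h', if_pos h', lift_x]
    · rw [if_neg h', if_neg h', lift_x]

theorem evx_sqs (e : FB →+* E) (w : ℕ → F) (Q : Finset ℕ) (f : FB) :
    evx e w (eB (sqs Q) f) = evx e (fun i => if i ∈ Q then w i ^ 2 else w i) f := by
  rw [evx_eB]
  apply evx_w
  intro i
  rw [E4.X.sqs_x]
  by_cases h : i ∈ Q
  · rw [if_pos h, if_pos h, map_pow, lift_x]
  · rw [if_neg h, if_neg h, lift_x]

theorem evx_id (e : FB →+* E) (f : FB) : evx e (fun i => x i) f = e f := by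
  show e (eB _ f) = e f
  congr 1
  apply E4.X.eB_id
  intro i
  exact lift_x _ _

/-- functions of the letters in `M` only -/
theorem evx_congr (e : FB →+* E) {w w' : ℕ → F} {M : Finset ℕ} {f : FB} (hf : eB (ret M) f = f)
    (h : ∀ i ∈ M, w i = w' i) : evx e w f = evx e w' f := by
  rw [← hf, evx_ret, evx_ret]
  apply evx_w
  intro i
  by_cases hi : i ∈ M
  · rw [if_pos hi, if_pos hi, h i hi]
  · rw [if_neg hi, if_neg hi]

section

variable {K : PAlg F V Z E} {e : FB →+* E} {P0 : AddSubgroup FB} (M : Md K e P0)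

include M

theorem Md.mem_iff (f : FB) : f ∈ P0 ↔ ∀ w, evx e w f = 0 := by
  constructor
  · intro h w
    exact (M.ker _).2 (M.endo _ f h)
  · intro h
    rw [← M.ker, ← evx_id e f]
    exact h _

/-- **evaluation of `P`-letters at squares** -/
theorem Md.sq_iff (Q : Finset ℕ) (f : FB) :
    eB (sqs Q) f ∈ P0 ↔ ∀ w : ℕ → F, (∀ i ∈ Q, ∃ u, w i = u ^ 2) → evx e w f = 0 := by
  rw [M.mem_iff]
  constructor
  · intro h w hw
    classical
    let u : ℕ → F := fun i => if hi : i ∈ Q then (hw i hi).choose else w i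
    have hu := h u
    rw [evx_sqs] at hu
    rw [← hu]
    apply evx_w
    intro i
    by_cases hi : i ∈ Q
    · rw [if_pos hi]
      show w i = (if hi : i ∈ Q then (hw i hi).choose else w i) ^ 2
      rw [dif_pos hi]
      exact (hw i hi).choose_spec
    · rw [if_neg hi]
      show w i = (if hi : i ∈ Q then (hw i hi).choose else w i)
      rw [dif_neg hi]
  · intro h w
    rw [evx_sqs]
    apply h
    intro i hi
    exact ⟨w i, by rw [if_pos hi]⟩

theorem Md.ti : E4.X.TI P0 where
  left a p hp := by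
    rw [← M.ker] at hp ⊢
    rw [map_mul, hp, mul_zero]
  right a p hp := by
    rw [← M.ker] at hp ⊢
    rw [map_mul, hp, zero_mul]
  endo φ p hp := M.endo φ p hp
  cube h := by
    rw [← M.ker, map_pow]
    have : e (C h) = K.X h := by
      show e (E4.X.o h + 1) = _
      rw [map_add, M.o, map_one]
      rfl
    rw [this]
    exact K.cube h

end

end P

end E4
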