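import Pool.Agent.Lib.MP_8a95e3_al.P.P14

/-!
# P21 : the scalar `theta`
-/

namespace E4

namespace P

variable {G V Z E : Type} [Group G] [AddCommGroup V] [CommRing Z] [Module Z V] [Ring E]
    [Algebra Z E]

namespace PAlg

variable (K : PAlg G V Z E)

/-- `Θ_x(c) = w_c + x⁻¹.c + c` -/
noncomputable def Th (x : G) : V →ₗ[Z] V := K.W x + K.act x⁻¹ + LinearMap.id

theorem Th_apply (x : G) (c : V) : K.Th x c = K.W x c + K.act x⁻¹ c + c := rfl

theorem l_Th (x : G) (c : V) : K.l (K.Th x c) = K.l (K.t x) * K.l c * K.X x := by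
  rw [K.Th_apply, map_add, map_add, K.l_W, K.l_act, inv_inv, K.r_inv_eq x, K.r_eq x]
  have h := K.XcX x c
  have e1 := K.ee (K.l c)
  have e2 := K.ee (K.X x * K.l c)
  have e3 := K.ee (K.l c * K.X x)
  have e4 := K.ee (K.l (K.t x) * K.l c)
  have e5 := K.ee (K.l c * K.l (K.t x))
  calc _ = (K.l c + K.l c) + (K.l c + K.l c) + (K.X x * K.l c + K.X x * K.l c)
        + (K.l c * K.X x + K.l c * K.X x) + (K.l c * K.l (K.t x) + K.X x * K.l c * K.X x
          + K.l (K.t x) * K.l c) + K.l (K.t x) * K.l c * K.X x := by noncomm_ring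
    _ = (K.l c * K.l (K.t x) + K.l c * K.l (K.t x)) + (K.l (K.t x) * K.l c
        + K.l (K.t x) * K.l c) + K.l (K.t x) * K.l c * K.X x := by
        rw [e1, e2, e3, h]; abel
    _ = _ := by rw [e4, e5]; simp

theorem act_T (x : G) : K.act x (K.t x) = K.t x := K.act_t_self x

theorem TcX_k (x : G) (c : V) : K.l (K.t x) * K.l c * K.X x = K.k (K.t x) c • K.X x := by
  have h : K.l (K.t x) * K.l c = K.Ee (K.t x) c + K.k (K.t x) c • (1 : E) := by
    unfold Ee
    rw [add_assoc, K.ee, add_zero]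
  have h2 : K.Ee (K.t x) c * K.X x = 0 := by
    unfold X
    rw [mul_add, mul_one, K.Ee_mul_r, K.act_t_self', K.ee]
  rw [h, add_mul, h2, smul_mul_assoc, one_mul, zero_add]

theorem b_W (x : G) (c u : V) : K.b (K.W x c) u = K.act x (K.b c u) + K.b c (K.act x⁻¹ u) := by
  have h1 : K.Rep (K.l (K.W x c)) (K.b (K.W x c)) (K.b (K.W x c)) := K.rep_l _
  have h2 := K.rep_add (K.rep_mul (K.rep_r x) (K.rep_l c)) (K.rep_mul (K.rep_l c) (K.rep_r x⁻¹))
  rw [← K.l_W] at h2
  have h3 := K.rep_unique h1 h2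
  have h4 := congrArg (fun f => f u) h3
  exact h4

/-- `S(p,c,q) = τ(p,Θc,q)` -/
theorem S_eq (x : G) (p c q : V) : K.tau p (K.Th x c) q
    = K.tau (K.act x⁻¹ p) c q + K.tau p c (K.act x⁻¹ q) + K.tau p (K.act x⁻¹ c) q + K.tau p c q := by
  have h : ∀ v, K.tau p v q = K.k p (K.b v q) := fun v => K.tau_left p v q
  rw [h, K.Th_apply, map_add, map_add, LinearMap.add_apply, LinearMap.add_apply, K.b_W, map_add,
    map_add, map_add, ← K.k_act'', K.tau_left, K.tau_left, K.tau_left, K.tau_left]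

theorem S_symm (x : G) (p c q : V) : K.tau p (K.Th x c) q = K.tau c (K.Th x p) q := by
  rw [K.S_eq, K.S_eq]
  rw [K.tau_symm' (K.act x⁻¹ p) c q, K.tau_symm' p c, K.tau_symm' p (K.act x⁻¹ c), K.tau_symm' p c q]
  ring

theorem S_symm' (x : G) (p c q : V) : K.tau p (K.Th x c) q = K.tau q (K.Th x c) p := by
  rw [K.S_eq, K.S_eq]
  rw [K.tau_symm' (K.act x⁻¹ p) c q, K.tau_cyc c (K.act x⁻¹ p) q, K.tau_symm' (K.act x⁻¹ p) q c,
    K.tau_symm q (K.act x⁻¹ p) c, K.tau_cyc p c (K.act x⁻¹ q), K.tau_symm' c (K.act x⁻¹ q) p,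
    K.tau_cyc p (K.act x⁻¹ c) q, K.tau_symm' (K.act x⁻¹ c) q p, K.tau_cyc p c q, K.tau_symm' c q p]
  ring

theorem S1 (x : G) (u p q : V) : K.tau (K.Th x u) p q = K.tau u (K.Th x p) q := by
  rw [K.tau_symm' (K.Th x u), K.S_symm]

theorem S3 (x : G) (u p q : V) : K.tau u p (K.Th x q) = K.tau u (K.Th x p) q := by
  rw [K.tau_symm u p, K.tau_symm' u (K.Th x q), K.S1, K.tau_cyc, K.tau_symm' (K.Th x u) p,
    K.S_symm]

/-- **Lemma S** -/
theorem lemS (x : G) (a b c v : V) :
    K.tau a b c • K.Th x v = K.tau a (K.Th x b) c • v := by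
  have c1 := K.cramer' (K.Th x a) b c v
  have c2 := K.cramer' a (K.Th x b) c v
  have c3 := K.cramer' a b (K.Th x c) v
  have c0 := congrArg (K.Th x) (K.cramer' a b c v)
  rw [map_smul, map_add, map_add, map_smul, map_smul, map_smul] at c0
  have h1 : K.tau (K.Th x a) b c = K.tau a (K.Th x b) c := K.S1 x a b c
  have h3 : K.tau a b (K.Th x c) = K.tau a (K.Th x b) c := K.S3 x a b c
  have h4 : K.tau (K.Th x a) b v = K.tau a (K.Th x b) v := K.S1 x a b v
  have h5 : K.tau (K.Th x b) c v = K.tau b (K.Th x c) v := K.S1 x b c v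
  have h6 : K.tau c (K.Th x a) v = K.tau (K.Th x c) a v := (K.S1 x c a v).symm
  rw [h1, h4] at c1
  rw [h5] at c2
  rw [h3, ← h6] at c3
  rw [c0]
  have e1 := K.vv (K.tau a (K.Th x b) v • c)
  have e2 := K.vv (K.tau b (K.Th x c) v • a)
  have e3 := K.vv (K.tau c (K.Th x a) v • b)
  have e4 := K.vv (K.tau a (K.Th x b) c • v)
  calc K.tau a b v • K.Th x c + K.tau b c v • K.Th x a + K.tau c a v • K.Th x b
      = K.tau a b v • K.Th x c + K.tau b c v • K.Th x a + K.tau c a v • K.Th x b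
        + ((K.tau a (K.Th x b) v • c + K.tau a (K.Th x b) v • c)
          + (K.tau b (K.Th x c) v • a + K.tau b (K.Th x c) v • a)
          + (K.tau c (K.Th x a) v • b + K.tau c (K.Th x a) v • b)) := by rw [e1, e2, e3]; simp
    _ = (K.tau a (K.Th x b) v • c + K.tau b c v • K.Th x a + K.tau c (K.Th x a) v • b)
        + (K.tau a (K.Th x b) v • c + K.tau b (K.Th x c) v • a + K.tau c a v • K.Th x b)
        + (K.tau a b v • K.Th x c + K.tau b (K.Th x c) v • a + K.tau c (K.Th x a) v • b) := by abel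
    _ = K.tau a (K.Th x b) c • v + K.tau a (K.Th x b) c • v + K.tau a (K.Th x b) c • v := by
        rw [← c1, ← c2, ← c3]
    _ = _ := by rw [e4, zero_add]

theorem t_sq_mem (x g : G) : K.Th x (K.t g) ∈ AddSubgroup.closure (Set.range K.t) := by
  have h : K.Th x (K.t g) = K.t (x * (g * g)) + K.t x + K.t (x⁻¹ * g * x⁻¹⁻¹) + K.t g := by
    rw [K.t_mul_sq, K.t_conj, K.Th_apply]
    have := K.vv (K.t x)
    calc _ = K.W x (K.t g) + (K.t x + K.t x) + K.act x⁻¹ (K.t g) + K.t g := by rw [this]; simp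
      _ = _ := by abel
  rw [h]
  exact add_mem (add_mem (add_mem (AddSubgroup.subset_closure ⟨_, rfl⟩)
    (AddSubgroup.subset_closure ⟨_, rfl⟩)) (AddSubgroup.subset_closure ⟨_, rfl⟩))
    (AddSubgroup.subset_closure ⟨_, rfl⟩)

theorem ex_theta (x : G) : ∃ z : Z, ∀ v, K.Th x v = z • v := by
  apply K.schur _ (fun g => K.t_sq_mem x g)
  intro u v
  have h : K.Rep (K.l (K.Th x u) * K.l v) (K.b (K.Th x u) ∘ₗ K.b v) (K.b v ∘ₗ K.b (K.Th x u)) :=
    K.rep_mul (K.rep_l _) (K.rep_l _)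
  have h' : K.Rep (K.l u * K.l (K.Th x v)) (K.b u ∘ₗ K.b (K.Th x v)) (K.b (K.Th x v) ∘ₗ K.b u) :=
    K.rep_mul (K.rep_l _) (K.rep_l _)
  apply K.rep_inj h h'
  intro w
  simp only [LinearMap.comp_apply]
  rw [← sub_eq_zero]
  apply K.tf_V
  intro a b c
  rw [K.sub_v, smul_add]
  have e1 : K.tau a b c • K.b (K.Th x u) (K.b v w)
      = K.tau a (K.Th x b) c • K.b u (K.b v w) := by
    rw [← LinearMap.smul_apply, ← map_smul, K.lemS, map_smul, LinearMap.smul_apply]
  have e2 : K.tau a b c • K.b u (K.b (K.Th x v) w)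
      = K.tau a (K.Th x b) c • K.b u (K.b v w) := by
    rw [← map_smul, ← LinearMap.smul_apply, ← map_smul, K.lemS, map_smul, LinearMap.smul_apply,
      map_smul]
  rw [e1, e2, K.vv]

/-- the scalar `θ(x)` -/
noncomputable def th (x : G) : Z := (K.ex_theta x).choose

theorem Th_eq (x : G) (v : V) : K.Th x v = K.th x • v := (K.ex_theta x).choose_spec v

/-- (5.1) -/
theorem th_TcX (x : G) (c : V) : K.th x • K.l c = K.l (K.t x) * K.l c * K.X x := by
  rw [← map_smul, ← K.Th_eq, K.l_Th]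

theorem th_XcT (x : G) (c : V) : K.th x • K.l c = K.X x * K.l c * K.l (K.t x) := by
  rw [K.th_TcX, K.XcT]

theorem th_kX (x : G) (c : V) : K.k (K.t x) c • K.X x = K.th x • K.l c := by
  rw [K.th_TcX, K.TcX_k]

theorem th_X (x : G) : K.th x • K.X x = 0 := by
  apply K.canl
  intro v
  rw [mul_smul_comm, ← smul_mul_assoc, K.th_XcT, mul_assoc, K.T_X, mul_zero]

theorem th_T (x : G) : K.th x • K.l (K.t x) = 0 := by
  rw [← K.XX, ← smul_mul_assoc, K.th_X, zero_mul]

theorem th_inv (x : G) : K.th x⁻¹ = K.th x := by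
  apply K.faith_eq
  intro s
  apply K.l_eq
  rw [map_smul, map_smul, K.th_TcX, K.th_TcX, K.t_inv]
  have : K.X x⁻¹ = K.X x + K.l (K.t x) := by
    unfold X
    rw [K.r_inv_eq]
    unfold X
    have := K.ee (1 : E)
    calc _ = ((1 : E) + 1) + (K.ρ x + 1) + K.l (K.t x) := by abel
      _ = _ := by rw [this, zero_add]
  rw [this, mul_add, K.TaT, add_zero]

/-- (5.0) traces -/
theorem th_tau (x : G) (p c q : V) : K.th x * K.tau p c q
    = K.tau (K.act x p) c q + K.tau p c (K.act x q) + K.tau p (K.act x c) q + K.tau p c q := by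
  have h := K.S_eq x⁻¹ p c q
  rw [inv_inv, K.Th_eq, K.th_inv] at h
  rw [← h]
  unfold tau
  rw [map_smul, map_smul, LinearMap.smul_apply, smul_eq_mul]

/-- trace of `X_x` -/
theorem tr_X (x : G) (a b c : V) :
    K.k (K.b b c) (K.act x a + a) + K.k (K.b c a) (K.act x b + b) + K.k (K.b a b) (K.act x c + c)
      = K.tau a b c * K.th x := by
  have h := K.th_tau x a b c
  have h1 : ∀ u v w, K.k (K.b u v) w = K.tau u v w := fun u v w => rfl
  have h2 : ∀ u v w w', K.tau u v (w + w') = K.tau u v w + K.tau u v w' := by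
    intro u v w w'
    unfold tau
    rw [map_add]
  rw [K.tau_cyc (K.act x a) b c, K.tau_cyc a (K.act x b) c, K.tau_cyc (K.act x b) c a] at h
  rw [h1, h1, h1, h2, h2, h2, K.tau_cyc c a b, ← K.tau_cyc a b c]
  have e := K.zz (K.tau a b c)
  linear_combination (-1 : Z) * h + e

/-- (5.3) -/
theorem th_mul_sq (x g : G) : K.th (x * (g * g)) = K.th x + K.k (K.t x) (K.t g) := by
  apply K.faith_eq
  intro c
  rw [add_smul, ← K.Th_eq, ← K.Th_eq]
  apply K.l_eq
  have hg : K.ρ (g * g) = 1 + K.l (K.t g) := by rw [map_mul, K.sq]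
  have hg' : K.ρ (g * g)⁻¹ = 1 + K.l (K.t g) := by
    have : (g * g)⁻¹ = g⁻¹ * g⁻¹ := by group
    rw [this, map_mul, K.sq, K.t_inv]
  have ha : ∀ u v : V, K.l u * K.l v = K.Ee u v + K.k u v • (1 : E) := by
    intro u v
    unfold Ee
    rw [add_assoc, K.ee, add_zero]
  -- expand
  have e1 : K.l (K.W (x * (g * g)) c) = K.l (K.W x c)
      + (K.ρ x * (K.l (K.t g) * K.l c) + K.l c * K.l (K.t g) * K.ρ x⁻¹) := by
    rw [K.l_W, K.l_W, mul_inv_rev, map_mul K.ρ x, map_mul K.ρ _ x⁻¹, hg, hg']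
    noncomm_ring
  have e2 : K.l (K.act (x * (g * g))⁻¹ c) = K.l (K.act x⁻¹ c) + K.l (K.b (K.t g) (K.act x⁻¹ c)) := by
    have h0 : K.l (K.act (x * (g * g))⁻¹ c)
        = K.ρ (g * g)⁻¹ * K.l (K.act x⁻¹ c) * K.ρ (g * g) := by
      rw [mul_inv_rev, K.act_mul, K.l_act (g * g)⁻¹, inv_inv]
    have h1 := K.TaT g (K.act x⁻¹ c)
    rw [h0, hg, hg', K.l_b]
    have : (1 + K.l (K.t g)) * K.l (K.act x⁻¹ c) * (1 + K.l (K.t g))
        = K.l (K.act x⁻¹ c) + (K.l (K.t g) * K.l (K.act x⁻¹ c) + K.l (K.act x⁻¹ c) * K.l (K.t g))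
          + K.l (K.t g) * K.l (K.act x⁻¹ c) * K.l (K.t g) := by noncomm_ring
    rw [this, h1, add_zero]
  have e3 : K.ρ x * (K.l (K.t g) * K.l c) + K.l c * K.l (K.t g) * K.ρ x⁻¹
      = K.l (K.b (K.t g) (K.act x c)) + K.k (K.t g) c • K.l (K.t x) := by
    rw [ha, ha, mul_add, add_mul, K.r_mul_Ee, K.Ee_mul_r, inv_inv, mul_smul_comm, mul_one,
      smul_mul_assoc, one_mul, K.k_symm c, K.l_t x, smul_add, ← K.Ee_symm]
    abel
  have e4 : K.b (K.t g) (K.act x c) + K.b (K.t g) (K.act x⁻¹ c)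
      = K.k c (K.t g) • K.t x + K.k (K.t x) (K.t g) • c := by
    rw [← map_add]
    have h1 : K.act x c + K.act x⁻¹ c = K.b (K.t x) c := by
      have r1 := K.rep_add (K.rep_r x) (K.rep_r x⁻¹)
      rw [← K.l_t] at r1
      have r2 := K.rep_unique r1 (K.rep_l (K.t x))
      exact congrArg (fun f => f c) r2
    rw [h1, K.b_symm, K.R1]
  rw [K.Th_apply, map_add, map_add, e1, e2, e3, K.Th_apply]
  have e5 : K.k (K.t x) (K.t g) • c = K.b (K.t g) (K.act x c) + K.b (K.t g) (K.act x⁻¹ c)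
      + K.k (K.t g) c • K.t x := by
    rw [e4, K.k_symm c]
    have := K.vv (K.k (K.t g) c • K.t x)
    calc _ = K.k (K.t x) (K.t g) • c + (K.k (K.t g) c • K.t x + K.k (K.t g) c • K.t x) := by
          rw [this, add_zero]
      _ = _ := by abel
  rw [e5]
  simp only [map_add, map_smul]
  abel

theorem act_add_inv (x : G) (c : V) : K.act x c + K.act x⁻¹ c = K.b (K.t x) c := by
  have r1 := K.rep_add (K.rep_r x) (K.rep_r x⁻¹)
  rw [← K.l_t] at r1
  have r2 := K.rep_unique r1 (K.rep_l (K.t x))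
  exact congrArg (fun f => f c) r2

/-- `(A)` on vectors -/
theorem th_kXv (x : G) (c v : V) : K.k (K.t x) c • (K.act x v + v) = K.th x • K.b c v := by
  have h1 : K.Rep (K.k (K.t x) c • K.X x) _ _ := K.rep_smul (K.k (K.t x) c) (K.rep_X x)
  have h2 : K.Rep (K.th x • K.l c) _ _ := K.rep_smul (K.th x) (K.rep_l c)
  rw [K.th_kX] at h1
  have h3 := K.rep_unique h1 h2
  exact congrArg (fun f => f v) h3

theorem th_Xv (x : G) (v : V) : K.th x • (K.act x v + v) = 0 := by
  have h1 : K.Rep (K.th x • K.X x) _ _ := K.rep_smul (K.th x) (K.rep_X x)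
  rw [K.th_X] at h1
  have h3 := K.rep_unique h1 K.rep_zero
  exact congrArg (fun f => f v) h3

theorem W_eq (x : G) (c : V) : K.W x c = K.th x • c + K.act x⁻¹ c + c := by
  rw [← K.Th_eq, K.Th_apply]
  have h1 := K.vv (K.act x⁻¹ c)
  have h2 := K.vv c
  calc _ = K.W x c + (K.act x⁻¹ c + K.act x⁻¹ c) + (c + c) := by rw [h1, h2]; simp
    _ = _ := by abel

/-- (5.4) for a square -/
theorem s54t (x g : G) (b v : V) :
    K.k (K.t g) (K.act x b + b) • (K.act x v + v)
      = K.k (K.t x) (K.t g) • K.b b v + K.k (K.t x) b • K.b (K.t g) v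
        + K.th x • K.b b (K.b (K.t g) v) := by
  have h := K.th_kXv (x * (g * g)) b v
  rw [K.th_mul_sq, K.t_mul_sq, K.act_mul, K.act_sq, map_add, map_add (K.act x), LinearMap.add_apply] at h
  have h0 := K.th_kXv x b v
  have h1 := K.th_kXv x b (K.b (K.t g) v)
  have hz : ∀ u : V, K.k u (K.t g) • K.act x (K.b (K.t g) v) = 0 := by
    intro u
    rw [← map_smul, ← LinearMap.smul_apply, ← map_smul, K.k_T_T, map_zero, LinearMap.zero_apply,
      map_zero]
  have hW : K.k (K.W x (K.t g)) b = K.th x * K.k (K.t g) b + K.k (K.t g) (K.act x b + b) := by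
    rw [K.W_eq, map_add, map_add, LinearMap.add_apply, LinearMap.add_apply, map_smul,
      LinearMap.smul_apply, K.k_act'', map_add, smul_eq_mul]
    ring
  have hz1 : K.k (K.W x (K.t g)) b • K.act x (K.b (K.t g) v) = 0 := by
    rw [hW, add_smul, mul_smul, K.k_symm (K.t g) b, hz, smul_zero, K.k_symm (K.t g), hz, add_zero]
  have hz2 : K.k (K.W x (K.t g)) b • (K.act x v + v)
      = K.k (K.t g) (K.act x b + b) • (K.act x v + v) := by
    rw [hW, add_smul, mul_comm, mul_smul, K.th_Xv, smul_zero, zero_add]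
  have e1 : (K.k (K.t x) b + K.k (K.W x (K.t g)) b) • (K.act x v + K.act x (K.b (K.t g) v) + v)
      = K.k (K.t x) b • (K.act x v + v) + K.k (K.W x (K.t g)) b • (K.act x v + v)
        + K.k (K.t x) b • K.act x (K.b (K.t g) v)
        + K.k (K.W x (K.t g)) b • K.act x (K.b (K.t g) v) := by
    simp only [add_smul, smul_add]; abel
  rw [e1, hz1, add_zero, h0, hz2, add_smul] at h
  have h2 : K.k (K.t x) b • K.act x (K.b (K.t g) v)
      = K.th x • K.b b (K.b (K.t g) v) + K.k (K.t x) b • K.b (K.t g) v := by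
    rw [← h1, smul_add]
    have := K.vv (K.k (K.t x) b • K.b (K.t g) v)
    rw [add_assoc, this, add_zero]
  rw [h2] at h
  have h3 := K.vv (K.th x • K.b b v)
  have h4 := K.vv (K.th x • K.b b (K.b (K.t g) v) + K.k (K.t x) b • K.b (K.t g) v)
  generalize K.th x • K.b b v = A at h h3
  generalize K.k (K.t g) (K.act x b + b) • (K.act x v + v) = B at h ⊢
  generalize K.th x • K.b b (K.b (K.t g) v) = C at h h4 ⊢
  generalize K.k (K.t x) b • K.b (K.t g) v = D at h h4 ⊢
  generalize K.k (K.t x) (K.t g) • K.b b v = H at h ⊢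
  calc B = (A + B + (C + D)) + A + (C + D) := by
        have : (A + B + (C + D)) + A + (C + D) = B + (A + A) + ((C + D) + (C + D)) := by abel
        rw [this, h3, h4]; simp
    _ = (A + H) + A + (C + D) := by rw [h]
    _ = (A + A) + (H + D + C) := by abel
    _ = _ := by rw [h3, zero_add]

/-- **(5.4)** -/
theorem s54 (x : G) (a b v : V) :
    K.k a (K.act x b + b) • (K.act x v + v)
      = K.k (K.t x) a • K.b b v + K.k (K.t x) b • K.b a v + K.th x • K.b b (K.b a v) := by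
  have h' := K.span a
  induction h' using Submodule.span_induction with
  | mem y hy =>
    obtain ⟨g, rfl⟩ := hy
    exact K.s54t x g b v
  | zero => simp only [map_zero, LinearMap.zero_apply, zero_smul, smul_zero, add_zero]
  | add y z _ _ hy hz =>
    generalize K.act x b + b = B at hy hz ⊢
    generalize K.act x v + v = A at hy hz ⊢
    simp only [map_add, LinearMap.add_apply, add_smul, smul_add]
    rw [hy, hz]
    abel
  | smul z y _ hy =>
    generalize K.act x b + b = B at hy ⊢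
    generalize K.act x v + v = A at hy ⊢
    simp only [map_smul, LinearMap.smul_apply, smul_eq_mul, mul_smul]
    rw [hy]
    simp only [smul_add, smul_smul, mul_comm z]

end PAlg

end P

end E4
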