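import Pool.Agent.Lib.MP_8a95e3_al.P.P20
import Pool.Agent.Lib.MP_8a95e3_al.P.P21

/-!
# P22 : the fields `t1`, `tr`, `e0`, `b1`, `b2`
-/

namespace E4

namespace P

open E4.X (FB eB C T Xl rp ret kls sqs sw Fr Bil KP ee)

variable {V Z E : Type} [AddCommGroup V] [CommRing Z] [Module Z V] [Ring E] [Algebra Z E]

theorem lift_xi (w : ℕ → F) (i : ℕ) : FreeGroup.lift w (x i)⁻¹ = (w i)⁻¹ := by
  rw [map_inv, lift_x]

/-- the maps `c ↦ ρ(a) c ρ(b)` -/
noncomputable def lab (K : PAlg F V Z E) (a b : F) : V →ₗ[Z] E :=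
  (LinearMap.mulLeft Z (K.ρ a)) ∘ₗ (LinearMap.mulRight Z (K.ρ b)) ∘ₗ K.l

theorem lab_apply (K : PAlg F V Z E) (a b : F) (c : V) : lab K a b c = K.ρ a * (K.l c * K.ρ b) := rfl

/-- linear functions of a P-letter -/
def LinF (K : PAlg F V Z E) : AddSubgroup (V →ₗ[Z] E) :=
  AddSubgroup.closure {r | ∃ a b, r = lab K a b}

theorem LinF_left (K : PAlg F V Z E) (c : F) {r : V →ₗ[Z] E} (h : r ∈ LinF K) :
    (LinearMap.mulLeft Z (K.ρ c)) ∘ₗ r ∈ LinF K := by
  induction h using AddSubgroup.closure_induction with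
  | mem r hr =>
    obtain ⟨a, b, rfl⟩ := hr
    apply AddSubgroup.subset_closure
    refine ⟨c * a, b, ?_⟩
    ext v
    rw [lab_apply, map_mul, mul_assoc]
    rfl
  | zero => rw [LinearMap.comp_zero]; exact zero_mem _
  | add r s _ _ hr hs => rw [LinearMap.comp_add]; exact add_mem hr hs
  | neg r _ hr => rw [LinearMap.comp_neg]; exact neg_mem hr

theorem LinF_right (K : PAlg F V Z E) (c : F) {r : V →ₗ[Z] E} (h : r ∈ LinF K) :
    (LinearMap.mulRight Z (K.ρ c)) ∘ₗ r ∈ LinF K := by
  induction h using AddSubgroup.closure_induction with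
  | mem r hr =>
    obtain ⟨a, b, rfl⟩ := hr
    apply AddSubgroup.subset_closure
    refine ⟨a, b * c, ?_⟩
    ext v
    rw [lab_apply, map_mul]
    show K.ρ a * (K.l v * K.ρ b) * K.ρ c = _
    noncomm_ring
  | zero => rw [LinearMap.comp_zero]; exact zero_mem _
  | add r s _ _ hr hs => rw [LinearMap.comp_add]; exact add_mem hr hs
  | neg r _ hr => rw [LinearMap.comp_neg]; exact neg_mem hr

/-- square zero -/
theorem LinF_sq (K : PAlg F V Z E) (g : F) {r s : V →ₗ[Z] E} (hr : r ∈ LinF K) (hs : s ∈ LinF K) :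
    r (K.t g) * s (K.t g) = 0 := by
  induction hr using AddSubgroup.closure_induction with
  | mem r hr =>
    obtain ⟨a, b, rfl⟩ := hr
    induction hs using AddSubgroup.closure_induction with
    | mem s hs =>
      obtain ⟨c, d, rfl⟩ := hs
      rw [lab_apply, lab_apply]
      have h := K.mid g (b * c)
      calc _ = K.ρ a * (K.l (K.t g) * (K.ρ b * K.ρ c) * K.l (K.t g)) * K.ρ d := by noncomm_ring
        _ = 0 := by rw [← map_mul, h]; simp
    | zero => rw [LinearMap.zero_apply, mul_zero]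
    | add r s _ _ hr hs => rw [LinearMap.add_apply, mul_add, hr, hs, add_zero]
    | neg r _ hr => rw [LinearMap.neg_apply, mul_neg, hr, neg_zero]
  | zero => rw [LinearMap.zero_apply, zero_mul]
  | add r s _ _ hr hs => rw [LinearMap.add_apply, add_mul, hr, hs, add_zero]
  | neg r _ hr => rw [LinearMap.neg_apply, neg_mul, hr, neg_zero]

section

variable {K : PAlg F V Z E} {e : FB →+* E} {P0 : AddSubgroup FB} (M : Md K e P0)

include M

/-- **the linear part in a letter** -/
theorem Md.lin (w : ℕ → F) (y : ℕ) (f : FB) : ∃ r ∈ LinF K, ∀ g : F,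
    evx e (Function.update w y (g ^ 2)) f = evx e (Function.update w y 1) f + r (K.t g) := by
  refine E4.X.fb_ind (p := fun f => ∃ r ∈ LinF K, ∀ g : F,
    evx e (Function.update w y (g ^ 2)) f = evx e (Function.update w y 1) f + r (K.t g)) ?_ ?_ ?_ f
  · intro h
    induction h using FreeGroup.induction_on with
    | C1 =>
      refine ⟨0, zero_mem _, fun g => ?_⟩
      rw [M.evx_o, M.evx_o, LinearMap.zero_apply, add_zero]
      simp only [map_one]
    | of j =>
      by_cases hj : j = y
      · subst hj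
        refine ⟨lab K 1 1, AddSubgroup.subset_closure ⟨1, 1, rfl⟩, fun g => ?_⟩
        show evx e _ (E4.X.o (x j)) = evx e _ (E4.X.o (x j)) + _
        rw [M.evx_x, M.evx_x, Function.update_self, Function.update_self, lab_apply, map_one,
          one_mul, mul_one, pow_two, map_mul, K.sq]
      · refine ⟨0, zero_mem _, fun g => ?_⟩
        show evx e _ (E4.X.o (x j)) = evx e _ (E4.X.o (x j)) + _
        rw [M.evx_x, M.evx_x, Function.update_of_ne hj, Function.update_of_ne hj,
          LinearMap.zero_apply, add_zero]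
    | inv_of j _ =>
      by_cases hj : j = y
      · subst hj
        refine ⟨lab K 1 1, AddSubgroup.subset_closure ⟨1, 1, rfl⟩, fun g => ?_⟩
        show evx e _ (E4.X.o (x j)⁻¹) = evx e _ (E4.X.o (x j)⁻¹) + _
        rw [M.evx_o, M.evx_o, lift_xi, lift_xi, Function.update_self,
          Function.update_self, lab_apply, map_one, one_mul, mul_one]
        have : (g ^ 2)⁻¹ = g⁻¹ * g⁻¹ := by group
        rw [this, map_mul, K.sq, K.t_inv, inv_one, map_one]
      · refine ⟨0, zero_mem _, fun g => ?_⟩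
        show evx e _ (E4.X.o (x j)⁻¹) = evx e _ (E4.X.o (x j)⁻¹) + _
        rw [M.evx_o, M.evx_o, lift_xi, lift_xi, Function.update_of_ne hj,
          Function.update_of_ne hj, LinearMap.zero_apply, add_zero]
    | mul a b ha hb =>
      obtain ⟨r, hr, hr'⟩ := ha
      obtain ⟨s, hs, hs'⟩ := hb
      refine ⟨(LinearMap.mulRight Z (K.ρ (FreeGroup.lift (Function.update w y 1) b))) ∘ₗ r
        + (LinearMap.mulLeft Z (K.ρ (FreeGroup.lift (Function.update w y 1) a))) ∘ₗ s,
        add_mem (LinF_right K _ hr) (LinF_left K _ hs), fun g => ?_⟩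
      rw [map_mul, map_mul, map_mul, hr', hs', M.evx_o, M.evx_o]
      show (_ + _) * (_ + _) = _ + (r (K.t g) * _ + _ * s (K.t g))
      have h := LinF_sq K g hr hs
      rw [add_mul, mul_add, mul_add, h]
      abel
  · refine ⟨0, zero_mem _, fun g => ?_⟩
    rw [map_zero, map_zero, LinearMap.zero_apply, add_zero]
  · rintro a b ⟨r, hr, hr'⟩ ⟨s, hs, hs'⟩
    refine ⟨r + s, add_mem hr hs, fun g => ?_⟩
    rw [map_add, map_add, hr', hs', LinearMap.add_apply]
    abel

omit M in
theorem t_mul_sqsq (g h : F) : K.t (g ^ 2 * h ^ 2) = K.b (K.t g) (K.t h) := by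
  apply K.l_eq
  have hg : ∀ g : F, K.ρ (g ^ 2) = 1 + K.l (K.t g) := by
    intro g
    rw [pow_two, map_mul, K.sq]
  have hg' : ∀ g : F, K.ρ (g ^ 2)⁻¹ = 1 + K.l (K.t g) := by
    intro g
    have : (g ^ 2)⁻¹ = (g⁻¹) ^ 2 := by group
    rw [this, hg, K.t_inv]
  rw [K.l_t, K.l_b, mul_inv_rev, map_mul, map_mul, hg, hg, hg', hg']
  have e1 := K.ee (1 : E)
  have e2 := K.ee (K.l (K.t g))
  have e3 := K.ee (K.l (K.t h))
  calc _ = ((1 : E) + 1) + (K.l (K.t g) + K.l (K.t g)) + (K.l (K.t h) + K.l (K.t h))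
        + (K.l (K.t g) * K.l (K.t h) + K.l (K.t h) * K.l (K.t g)) := by noncomm_ring
    _ = _ := by rw [e1, e2, e3]; simp

omit M in
/-- a bilinear map which vanishes on squares -/
theorem bil_zero {N : Type} [AddCommGroup N] [Module Z N] (B : V →ₗ[Z] V →ₗ[Z] N)
    (h : ∀ g g', B (K.t g) (K.t g') = 0) (u v : V) : B u v = 0 := by
  have hp := K.span u
  have hq := K.span v
  induction hp using Submodule.span_induction with
  | mem p hp =>
    obtain ⟨g, rfl⟩ := hp
    induction hq using Submodule.span_induction with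
    | mem q hq =>
      obtain ⟨g', rfl⟩ := hq
      exact h g g'
    | zero => rw [map_zero]
    | add y z _ _ hy hz => rw [map_add, hy, hz, add_zero]
    | smul z y _ hy => rw [map_smul, hy, smul_zero]
  | zero => rw [map_zero, LinearMap.zero_apply]
  | add y z _ _ hy hz => rw [map_add, LinearMap.add_apply, hy, hz, add_zero]
  | smul z y _ hy => rw [map_smul, LinearMap.smul_apply, hy, smul_zero]

/-- **field `t1`** -/
theorem Md.t1 (y z : ℕ) (t : FB) (hyz : y ≠ z) (hy : eB (rp y 1) t = 0) (hz : eB (rp z 1) t = t)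
    (h : eB (sqs {y, z}) (eB (rp y ((x y * x z) ^ 2)) t) ∈ P0) : eB (sqs {y}) t ∈ P0 := by
  rw [M.sq_iff] at h ⊢
  intro w hw
  obtain ⟨u, hu⟩ := hw y (Finset.mem_singleton_self y)
  obtain ⟨r, hr, hr'⟩ := M.lin w y t
  have h1 : ∀ v : ℕ → F, evx e (Function.update v y 1) t = 0 := by
    intro v
    rw [← evx_rp1, hy, map_zero]
  have h2 : evx e w t = r (K.t u) := by
    have := hr' u
    rw [h1, zero_add, ← hu, Function.update_eq_self] at this
    exact this
  rw [h2]
  have hr0 : r = 0 := by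
    apply K.T1 K.tf_E
    intro p q
    let B : V →ₗ[Z] V →ₗ[Z] E := LinearMap.compr₂ K.b r
    have hB : ∀ u v, B u v = r (K.b u v) := fun u v => rfl
    rw [← hB]
    apply bil_zero (K := K)
    intro g g'
    have h3 := h (Function.update (Function.update w y (g ^ 2)) z (g' ^ 2)) (by
      intro i hi
      rw [Finset.mem_insert, Finset.mem_singleton] at hi
      rcases hi with rfl | rfl
      · exact ⟨g, by rw [Function.update_of_ne hyz, Function.update_self]⟩
      · exact ⟨g', by rw [Function.update_self]⟩)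
    rw [evx_rp, map_pow, map_mul, lift_x, lift_x, Function.update_of_ne hyz, Function.update_self,
      Function.update_self, Function.update_comm hyz.symm, Function.update_idem] at h3
    have h4 : evx e (Function.update w y ((g ^ 2 * g' ^ 2) ^ 2)) t = 0 := by
      have h5 : evx e (Function.update (Function.update w y ((g ^ 2 * g' ^ 2) ^ 2)) z (g' ^ 2)) (eB (rp z 1) t)
          = 0 := by rw [hz]; exact h3
      rw [evx_rp1, Function.update_idem, ← evx_rp1, hz] at h5
      exact h5
    have h6 := hr' (g ^ 2 * g' ^ 2)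
    rw [h4, h1, zero_add] at h6
    rw [hB, ← t_mul_sqsq]
    exact h6.symm
  rw [hr0, LinearMap.zero_apply]

end

end P

end E4
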