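import Pool.Agent.Lib.MP_8a95e3_al.P.P22

/-!
# P23 : the fields `tr`, `e0`, `b1`, `b2`
-/

namespace E4

namespace P

open E4.X (FB eB C T Xl rp ret kls sqs sw Fr Bil KP ee tau)

variable {V Z E : Type} [AddCommGroup V] [CommRing Z] [Module Z V] [Ring E] [Algebra Z E]

/-- bilinear building blocks -/
noncomputable def lab2 (K : PAlg F V Z E) (a b c : F) : V →ₗ[Z] V →ₗ[Z] E :=
  LinearMap.mk₂ Z (fun p q => K.ρ a * K.l p * K.ρ b * K.l q * K.ρ c)
    (by intro p p' q; rw [map_add]; noncomm_ring)
    (by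
      intro z p q
      rw [map_smul, mul_smul_comm, smul_mul_assoc, smul_mul_assoc, smul_mul_assoc])
    (by intro p q q'; rw [map_add]; noncomm_ring)
    (by
      intro z p q
      rw [map_smul, mul_smul_comm, smul_mul_assoc])

theorem lab2_apply (K : PAlg F V Z E) (a b c : F) (p q : V) :
    lab2 K a b c p q = K.ρ a * K.l p * K.ρ b * K.l q * K.ρ c := rfl

/-- the two P-letters -/
def up (w : ℕ → F) (y z : ℕ) (g h : F) : ℕ → F :=
  Function.update (Function.update w y (g ^ 2)) z (h ^ 2)

theorem up_y {w : ℕ → F} {y z : ℕ} {g h : F} (hyz : y ≠ z) : up w y z g h y = g ^ 2 := by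
  unfold up
  rw [Function.update_of_ne hyz, Function.update_self]

theorem up_z {w : ℕ → F} {y z : ℕ} {g h : F} : up w y z g h z = h ^ 2 := by
  unfold up
  rw [Function.update_self]

theorem up_ne {w : ℕ → F} {y z i : ℕ} {g h : F} (hy : i ≠ y) (hz : i ≠ z) :
    up w y z g h i = w i := by
  unfold up
  rw [Function.update_of_ne hz, Function.update_of_ne hy]

theorem up_swap (w : ℕ → F) {y z : ℕ} (hyz : y ≠ z) (g h : F) (i : ℕ) :
    (if i = y then up w y z g h z else if i = z then up w y z g h y else up w y z g h i)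
      = up w y z h g i := by
  by_cases hy : i = y
  · subst hy
    rw [if_pos rfl, up_z, up_y hyz]
  · rw [if_neg hy]
    by_cases hz : i = z
    · subst hz
      rw [if_pos rfl, up_z, up_y hyz]
    · rw [if_neg hz, up_ne hy hz, up_ne hy hz]

theorem lift_Fr {w : ℕ → F} {y z : ℕ} {g h : F} {a : F} (ha : Fr y z a) :
    FreeGroup.lift (up w y z g h) a = FreeGroup.lift (Function.update (Function.update w y 1) z 1) a := by
  obtain ⟨h1, h2⟩ := ha
  have key : FreeGroup.lift (Function.update (Function.update w y 1) z 1) a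
      = FreeGroup.lift (up w y z g h) (rp y 1 (rp z 1 a)) := by
    have : (FreeGroup.lift (up w y z g h)).comp ((rp y 1).comp (rp z 1))
        = FreeGroup.lift (Function.update (Function.update w y 1) z 1) := by
      apply E4.X.hom_ext
      intro i
      rw [MonoidHom.comp_apply, MonoidHom.comp_apply, E4.X.rp_x, lift_x]
      by_cases hz : i = z
      · rw [if_pos hz, map_one, map_one, hz, Function.update_self]
      · rw [if_neg hz, E4.X.rp_x, Function.update_of_ne hz]
        by_cases hy : i = y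
        · rw [if_pos hy, map_one, hy, Function.update_self]
        · rw [if_neg hy, lift_x, Function.update_of_ne hy, up_ne hy hz]
    rw [← this]
    rfl
  rw [key, h2, h1]

section

variable {K : PAlg F V Z E} {e : FB →+* E} {P0 : AddSubgroup FB} (M : Md K e P0)

include M

/-- bilinear elements -/
theorem Md.bil (w : ℕ → F) {y z : ℕ} (hyz : y ≠ z) {s : FB} (hs : s ∈ Bil y z) :
    ∃ B : V →ₗ[Z] V →ₗ[Z] E, (∀ g h, evx e (up w y z g h) s = B (K.t g) (K.t h)) ∧
      ∀ a b c, (B a (K.b b c) + B b (K.b c a) + B c (K.b a b))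
        + (B (K.b b c) a + B (K.b c a) b + B (K.b a b) c) = 0 := by
  induction hs using AddSubgroup.closure_induction with
  | mem s hs =>
    obtain ⟨a, b, c, ha, hb, hc, h⟩ := hs
    have hcon : ∀ (a' b' c' : F) (u v s : V),
        (K.ρ a' * K.l u * K.ρ b' * K.l (K.b v s) * K.ρ c' + K.ρ a' * K.l v * K.ρ b' * K.l (K.b s u) * K.ρ c'
          + K.ρ a' * K.l s * K.ρ b' * K.l (K.b u v) * K.ρ c')
        + (K.ρ a' * K.l (K.b v s) * K.ρ b' * K.l u * K.ρ c' + K.ρ a' * K.l (K.b s u) * K.ρ b' * K.l v * K.ρ c'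
          + K.ρ a' * K.l (K.b u v) * K.ρ b' * K.l s * K.ρ c') = 0 := by
      intro a' b' c' u v s
      have h := K.con_sym (K.rep_r b') u v s
      have h2 := congrArg (fun y => K.ρ a' * y * K.ρ c') h
      calc _ = K.ρ a' * (K.l u * K.ρ b' * K.l (K.b v s) + K.l v * K.ρ b' * K.l (K.b s u)
            + K.l s * K.ρ b' * K.l (K.b u v)) * K.ρ c'
            + K.ρ a' * (K.l (K.b v s) * K.ρ b' * K.l u + K.l (K.b s u) * K.ρ b' * K.l v
              + K.l (K.b u v) * K.ρ b' * K.l s) * K.ρ c' := by noncomm_ring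
        _ = 0 := by rw [h, K.ee]
    rcases h with rfl | rfl
    · refine ⟨lab2 K (FreeGroup.lift (Function.update (Function.update w y 1) z 1) a)
        (FreeGroup.lift (Function.update (Function.update w y 1) z 1) b)
        (FreeGroup.lift (Function.update (Function.update w y 1) z 1) c), ?_, ?_⟩
      · intro g h
        rw [map_mul, map_mul, map_mul, map_mul, M.evx_o, M.evx_o, M.evx_o, lift_Fr ha, lift_Fr hb,
          lift_Fr hc, M.evx_Xl_sq _ _ (up_y hyz), M.evx_Xl_sq _ _ up_z]
        rfl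
      · intro p q r
        simp only [lab2_apply]
        exact hcon _ _ _ p q r
    · refine ⟨(lab2 K (FreeGroup.lift (Function.update (Function.update w y 1) z 1) a)
        (FreeGroup.lift (Function.update (Function.update w y 1) z 1) b)
        (FreeGroup.lift (Function.update (Function.update w y 1) z 1) c)).flip, ?_, ?_⟩
      · intro g h
        rw [map_mul, map_mul, map_mul, map_mul, M.evx_o, M.evx_o, M.evx_o, lift_Fr ha, lift_Fr hb,
          lift_Fr hc, M.evx_Xl_sq _ _ (up_y hyz), M.evx_Xl_sq _ _ up_z]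
        rfl
      · intro p q r
        simp only [LinearMap.flip_apply, lab2_apply]
        rw [add_comm]
        exact hcon _ _ _ p q r
  | zero =>
    refine ⟨0, ?_, ?_⟩
    · intro g h; rw [map_zero]; rfl
    · intro a b c; simp
  | add s t _ _ hs ht =>
    obtain ⟨B, h1, h2⟩ := hs
    obtain ⟨B', h1', h2'⟩ := ht
    refine ⟨B + B', ?_, ?_⟩
    · intro g h
      rw [map_add, h1, h1']; rfl
    · intro a b c
      have e1 := h2 a b c
      have e2 := h2' a b c
      simp only [LinearMap.add_apply]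
      calc _ = ((B a (K.b b c) + B b (K.b c a) + B c (K.b a b))
        + (B (K.b b c) a + B (K.b c a) b + B (K.b a b) c)) + ((B' a (K.b b c) + B' b (K.b c a) + B' c (K.b a b))
        + (B' (K.b b c) a + B' (K.b c a) b + B' (K.b a b) c)) := by abel
        _ = 0 := by rw [e1, e2, add_zero]
  | neg s _ hs =>
    obtain ⟨B, h1, h2⟩ := hs
    refine ⟨-B, ?_, ?_⟩
    · intro g h
      rw [map_neg, h1]; rfl
    · intro a b c
      have e1 := h2 a b c
      simp only [LinearMap.neg_apply]
      rw [← neg_eq_zero] at e1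
      rw [← e1]
      abel

omit [AddCommGroup V] [CommRing Z] [Module Z V] [Algebra Z E] M in
theorem bil_sw (w : ℕ → F) {y z : ℕ} (hyz : y ≠ z) {s : FB} (g h : F) :
    evx e (up w y z g h) (eB (sw y z) s) = evx e (up w y z h g) s := by
  rw [evx_sw]
  apply evx_w
  intro i
  exact up_swap w hyz g h i

/-- **the map `K(y,z)` in the model** -/
theorem Md.kp {y z : ℕ} {w k : FB} (h : (w, k) ∈ KP y z) (v : ℕ → F) {g g' : F}
    (hy : v y = g ^ 2) (hz : v z = g' ^ 2) :
    evx e v k = K.k (K.t g) (K.t g') • evx e v w := by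
  let φ : FB × FB →+ E := (evx e v).toAddMonoidHom.comp (AddMonoidHom.snd FB FB)
  let ψ : FB × FB →+ E := (DistribSMul.toAddMonoidHom E (K.k (K.t g) (K.t g'))).comp
    ((evx e v).toAddMonoidHom.comp (AddMonoidHom.fst FB FB))
  have key : ∀ p ∈ KP y z, φ p = ψ p := by
    intro p hp
    induction hp using AddSubgroup.closure_induction with
    | mem p hp =>
      obtain ⟨u, a, b, rfl⟩ := hp
      show evx e v (E4.X.o u * tau y z a * E4.X.o b)
        = K.k (K.t g) (K.t g') • evx e v (E4.X.o u * T a * E4.X.o b)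
      rw [map_mul, map_mul, map_mul, map_mul, M.evx_T]
      have h1 : evx e v (tau y z a) = K.k (K.t g) (K.t g') • K.l (K.t (FreeGroup.lift v a)) := by
        rw [← K.Kg]
        unfold E4.X.tau
        simp only [map_add, map_mul, M.evx_o, M.evx_Xl_sq v y hy, M.evx_Xl_sq v z hz, map_inv]
      rw [h1, mul_smul_comm, smul_mul_assoc]
    | zero => rw [map_zero, map_zero]
    | add a b _ _ ha hb => rw [map_add, map_add, ha, hb]
    | neg a _ ha => rw [map_neg, map_neg, ha]
  exact key _ h

/-- **field `tr`** -/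
theorem Md.tr (L : Finset ℕ) (y z : ℕ) (hyz : y ≠ z) (hy : y ∉ L) (hz : z ∉ L) (s : FB)
    (hs : s ∈ Bil y z) (w k : FB) (hk : (w, k) ∈ KP y z) (hw : eB (ret L) w = w)
    (h : eB (sqs {y, z}) (s + eB (sw y z) s + k) ∈ P0) : w ∈ P0 := by
  rw [M.sq_iff] at h
  rw [M.mem_iff]
  intro v
  obtain ⟨B, h1, h2⟩ := M.bil v hyz hs
  have h3 : ∀ g g', B (K.t g) (K.t g') + B (K.t g') (K.t g) + K.k (K.t g) (K.t g') • evx e v w = 0 := by
    intro g g'
    have h4 := h (up v y z g g') (by
      intro i hi
      rw [Finset.mem_insert, Finset.mem_singleton] at hi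
      rcases hi with rfl | rfl
      · exact ⟨g, up_y hyz⟩
      · exact ⟨g', up_z⟩)
    rw [map_add, map_add, bil_sw v hyz, h1, h1, M.kp hk _ (up_y hyz) up_z] at h4
    rw [← h4]
    congr 2
    apply evx_congr e hw
    intro i hi
    rw [up_ne]
    · rintro rfl; exact hy hi
    · rintro rfl; exact hz hi
  let Q : V →ₗ[Z] V →ₗ[Z] E := B + B.flip + LinearMap.compr₂ K.k (LinearMap.toSpanSingleton Z E (evx e v w))
  have hQ : ∀ a b, Q a b = B a b + B b a + K.k a b • evx e v w := fun a b => rfl
  have h5 : ∀ a b, Q a b = 0 := by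
    intro a b
    apply bil_zero (K := K)
    intro g g'
    rw [hQ, h3]
  apply K.tf_E
  intro a b c
  have e1 := h5 a (K.b b c)
  have e2 := h5 b (K.b c a)
  have e3 := h5 c (K.b a b)
  rw [hQ] at e1 e2 e3
  have e4 := h2 a b c
  have t1 : K.k a (K.b b c) = K.tau a b c := (K.tau_left a b c).symm
  have t2 : K.k b (K.b c a) = K.tau a b c := by rw [← K.tau_left, ← K.tau_cyc]
  have t3 : K.k c (K.b a b) = K.tau a b c := by rw [← K.tau_left, K.tau_cyc]
  rw [t1] at e1
  rw [t2] at e2
  rw [t3] at e3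
  have e5 := K.ee (K.tau a b c • evx e v w)
  calc K.tau a b c • evx e v w
      = ((B a (K.b b c) + B b (K.b c a) + B c (K.b a b))
        + (B (K.b b c) a + B (K.b c a) b + B (K.b a b) c))
        + (K.tau a b c • evx e v w + (K.tau a b c • evx e v w + K.tau a b c • evx e v w)) := by
        rw [e4, e5]; simp
    _ = (B a (K.b b c) + B (K.b b c) a + K.tau a b c • evx e v w)
        + (B b (K.b c a) + B (K.b c a) b + K.tau a b c • evx e v w)
        + (B c (K.b a b) + B (K.b a b) c + K.tau a b c • evx e v w) := by abel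
    _ = 0 := by rw [e1, e2, e3]; simp

omit M in
/-- `T p q X = θ q p` -/
theorem TpqX (x : F) (p q : V) :
    K.l (K.t x) * K.l p * K.l q * K.X x = K.th x • (K.l q * K.l p) := by
  have r1 := K.rep_mul (K.rep_mul (K.rep_mul (K.rep_l (K.t x)) (K.rep_l p)) (K.rep_l q)) (K.rep_X x)
  have r2 := K.rep_smul (K.th x) (K.rep_mul (K.rep_l q) (K.rep_l p))
  apply K.rep_inj r1 r2
  intro v
  simp only [LinearMap.comp_apply, LinearMap.smul_apply, LinearMap.add_apply, LinearMap.id_apply]
  apply K.k_eq
  intro r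
  have hT : K.b (K.t x) (K.act x v + v) = 0 := by
    have h1 : K.Rep (K.l (K.t x) * K.X x) _ _ := K.rep_mul (K.rep_l (K.t x)) (K.rep_X x)
    rw [K.T_X] at h1
    have h3 := K.rep_unique h1 K.rep_zero
    exact congrArg (fun f => f v) h3
  have h1 : K.b p (K.b q (K.act x v + v))
      = K.k (K.act x v + v) p • q + K.k q p • (K.act x v + v) := by
    rw [K.b_symm, K.R1]
  rw [h1, map_add, map_smul, map_smul, hT, smul_zero, add_zero, map_smul, smul_eq_mul, map_smul,
    smul_eq_mul]
  have h2 : K.k r (K.b (K.t x) q) = K.k (K.t x) (K.b r q) := by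
    rw [← K.tau_left, ← K.tau_left, K.tau_symm']
  have h3 := congrArg (fun u => K.k u p) (K.th_kXv x (K.b r q) v)
  simp only [map_smul, LinearMap.smul_apply, smul_eq_mul] at h3
  rw [h2, mul_comm, h3]
  congr 1
  have h4 : K.k (K.b (K.b r q) v) p = K.k (K.b r q) (K.b v p) := K.tau_left (K.b r q) v p
  have h5 : K.k r (K.b q (K.b p v)) = K.k (K.b r q) (K.b p v) := (K.tau_left r q (K.b p v)).symm
  rw [h4, h5, K.b_symm v p]

/-- **field `e0`** -/
theorem Md.e0 (y z : ℕ) (hyz : y ≠ z) (g : F) : eB (sqs {y, z}) (ee g y z) ∈ P0 := by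
  rw [M.sq_iff]
  intro w hw
  obtain ⟨u, hu⟩ := hw y (by simp)
  obtain ⟨u', hu'⟩ := hw z (by simp)
  unfold E4.X.ee
  rw [map_add, map_mul, map_mul, map_mul, map_mul, map_mul, map_mul, M.evx_T, M.evx_C,
    M.evx_Xl_sq w y hu, M.evx_Xl_sq w z hu', TpqX, ← K.th_TcX, smul_mul_assoc, K.ee]

/-- **field `b1`** -/
theorem Md.b1 [Nontrivial E] (j : ℕ) : Xl j ^ 2 ∉ P0 := by
  intro h
  rw [M.mem_iff] at h
  have h1 : ∀ g, K.t g = 0 := by
    intro g
    apply K.l_inj
    have := h (fun _ => g)
    rw [map_pow, M.evx_Xl, pow_two, K.XX] at this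
    exact this
  obtain ⟨u, v, huv⟩ := k_ne K
  apply huv
  apply bil_zero (K := K)
  intro g g'
  rw [h1, map_zero, LinearMap.zero_apply]

/-- **field `b2`** -/
theorem Md.b2 [Nontrivial E] (j q : ℕ) (hjq : j ≠ q) : eB (sqs {q}) (Xl j * Xl q * Xl j ^ 2) ∉ P0 := by
  intro h
  rw [M.sq_iff] at h
  have h1 : ∀ x, K.th x = 0 := by
    intro x
    apply K.faith
    intro s
    have hs := K.span s
    induction hs using Submodule.span_induction with
    | mem s hs =>
      obtain ⟨g, rfl⟩ := hs
      apply K.l_inj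
      rw [map_smul, K.th_XcT]
      have := h (Function.update (fun _ => x) q (g ^ 2)) (by
        intro i hi
        rw [Finset.mem_singleton] at hi
        subst hi
        exact ⟨g, by rw [Function.update_self]⟩)
      rw [map_mul, map_mul, map_pow, M.evx_Xl, M.evx_Xl_sq (u := g) _ _ (by rw [Function.update_self]),
        Function.update_of_ne hjq, pow_two, K.XX] at this
      exact this
    | zero => rw [smul_zero]
    | add y z _ _ hy hz => rw [smul_add, hy, hz, add_zero]
    | smul z y _ hy => rw [smul_comm, hy, smul_zero]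
  obtain ⟨u, v, huv⟩ := k_ne K
  apply huv
  apply bil_zero (K := K)
  intro g g'
  have := K.th_mul_sq g g'
  rw [h1, h1, zero_add] at this
  exact this.symm

end

end P

end E4
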