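import Pool.Agent.Lib.MP_8a95e3_al.P.P12
import Pool.Agent.Lib.MP_8a95e3_al.P.P15
import Pool.Agent.Lib.MP_8a95e3_al.P.P21

/-!
# P24 : renaming of letters, the evaluation at `z`, one new group letter
-/

namespace E4

namespace P

variable {G V Z E : Type} [Group G] [AddCommGroup V] [CommRing Z] [Module Z V] [Ring E]
    [Algebra Z E] {K : PAlg G V Z E}

/-- renaming -/
theorem SS.ren {t : Bool} {S : Multiset ℕ} {f : (ℕ → V) → Z} {g : (ℕ → VM) → ZMod 2}
    (h : SS K t S f g) (σ : ℕ → ℕ) :
    SS K t (S.map σ) (fun p => f (fun i => p (σ i))) (fun m => g (fun i => m (σ i))) := by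
  induction h with
  | one => exact SS.one
  | tri i j l =>
    simp only [Multiset.map_cons, Multiset.map_zero]
    exact SS.tri (σ i) (σ j) (σ l)
  | pr i j _ ih =>
    simp only [Multiset.map_cons]
    exact SS.pr (σ i) (σ j) ih

theorem RR.ren {t : Bool} {S : Multiset ℕ} {f : (ℕ → V) → Z} {g : (ℕ → VM) → ZMod 2}
    (h : RR K t S f g) (σ : ℕ → ℕ) :
    RR K t (S.map σ) (fun p => f (fun i => p (σ i))) (fun m => g (fun i => m (σ i))) := by
  induction h with
  | zero => exact RR.zero _ _
  | add h0 _ ih => exact RR.add (h0.ren σ) ih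

/-- renaming of one letter -/
theorem RR.ren1 {t : Bool} {f : (ℕ → V) → Z} {g : (ℕ → VM) → ZMod 2} {j c : ℕ} {T : Multiset ℕ}
    (h : RR K t (j ::ₘ T) f g) (hj : j ∉ T) :
    RR K t (c ::ₘ T) (fun p => f (Function.update p j (p c))) (fun m => g (Function.update m j (m c))) := by
  have h1 := h.ren (fun i => if i = j then c else i)
  have e1 : (j ::ₘ T).map (fun i => if i = j then c else i) = c ::ₘ T := by
    rw [Multiset.map_cons, if_pos rfl]
    congr 1
    conv_rhs => rw [← Multiset.map_id T]
    apply Multiset.map_congr rfl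
    intro i hi
    rw [if_neg]
    · rfl
    · rintro rfl; exact hj hi
  have e2 : ∀ {M : Type} (p : ℕ → M), (fun i => p (if i = j then c else i))
      = Function.update p j (p c) := by
    intro M p
    funext i
    by_cases hi : i = j
    · subst hi; rw [if_pos rfl, Function.update_self]
    · rw [if_neg hi, Function.update_of_ne hi]
  rw [e1] at h1
  simp only [e2] at h1
  exact h1

/-- all letters at `z` -/
def zA : ℕ → VM := fun _ => zM

theorem SS.zT {t : Bool} {S : Multiset ℕ} {f : (ℕ → V) → Z} {g : (ℕ → VM) → ZMod 2}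
    (h : SS K t S f g) (ht : t = true) : g zA = 0 := by
  induction h with
  | one => cases ht
  | tri i j l => show tM zM zM zM = 0; decide
  | pr i j _ ih => beta_reduce; rw [ih ht, mul_zero]

theorem RR.zT {t : Bool} {S : Multiset ℕ} {f : (ℕ → V) → Z} {g : (ℕ → VM) → ZMod 2}
    (h : RR K t S f g) (ht : t = true) : g zA = 0 := by
  induction h with
  | zero => rfl
  | add h0 _ ih => beta_reduce; rw [h0.zT ht, ih, add_zero]

theorem RR.z0 {t : Bool} {S : Multiset ℕ} {f : (ℕ → V) → Z} {g : (ℕ → VM) → ZMod 2}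
    (h : RR K t S f g) (hn : S.Nodup) {j : ℕ} (hj : j ∈ S) (m : ℕ → VM) :
    g (Function.update m j 0) = 0 := by
  have h1 := h.addM hn hj m 0 0
  rw [c2, add_zero] at h1
  exact h1

/-- contraction and evaluation at `z` -/
theorem RR.zcon {t : Bool} {S : Multiset ℕ} {f : (ℕ → V) → Z} {g : (ℕ → VM) → ZMod 2}
    (h : RR K t S f g) (hn : S.Nodup) {j x : ℕ} {T : Multiset ℕ} (hS : S = j ::ₘ x ::ₘ T) :
    g (u2 zA j e1 x e1) + g (u2 zA j e2 x e2) + g (u2 zA j e3 x e3) = g zA := by
  have hnS := hn
  rw [hS] at hn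
  simp only [Multiset.nodup_cons, Multiset.mem_cons, not_or] at hn
  obtain ⟨⟨hjx, hjT⟩, hxT, hTn⟩ := hn
  have hjS : j ∈ S := by rw [hS]; simp
  have hxS : x ∈ S := by rw [hS]; simp
  cases ht : t with
  | true =>
    obtain ⟨f1, g1, r1, r2, r3⟩ := h.con hnS hS
    rw [r3 zA, r1.zT ht, h.zT ht]
  | false =>
    obtain ⟨c, hc⟩ := fresh S
    have hcS' : c ∉ S := fun h => lt_irrefl _ (hc c h)
    have hdS' : c + 1 ∉ S := fun h => by have := hc _ h; omega
    have hbs := h.bs (c := c) (d := c + 1) hnS hS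
    have hcx : c ≠ x := by rintro rfl; exact hcS' hxS
    have hdx : c + 1 ≠ x := by intro h; apply hdS'; rw [h]; exact hxS
    have hcT' : c ∉ T := by intro h; apply hcS'; rw [hS]; simp [h]
    have hdT' : c + 1 ∉ T := by intro h; apply hdS'; rw [hS]; simp [h]
    have hn2 : (c ::ₘ (c + 1) ::ₘ x ::ₘ T).Nodup := by
      simp only [Multiset.nodup_cons, Multiset.mem_cons, not_or]
      exact ⟨⟨by omega, hcx, hcT'⟩, ⟨hdx, hdT'⟩, hxT, hTn⟩
    have hS2 : c ::ₘ (c + 1) ::ₘ x ::ₘ T = (c + 1) ::ₘ x ::ₘ (c ::ₘ T) := by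
      simp only [← Multiset.singleton_add]; abel
    obtain ⟨f3, g3, s1, s2, s3⟩ := hbs.con hn2 hS2
    have hg3 : g3 zA = 0 := s1.zT (by rw [ht]; rfl)
    rw [← s3] at hg3
    have hloc : ∀ w v : VM, g (Function.update (u2 zA (c + 1) v x v) j w) = g (u2 zA j w x v) := by
      intro w v
      apply h.locM
      intro i hi
      have hid : i ≠ c + 1 := by rintro rfl; exact hdS' hi
      by_cases hij : i = j
      · subst hij
        rw [Function.update_self, u2_j hjx]
      · rw [Function.update_of_ne hij]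
        by_cases hix : i = x
        · subst hix
          rw [u2_x, u2_x]
        · rw [u2_ne hid hix, u2_ne hij hix]
    have hcv : ∀ v : VM, u2 zA (c + 1) v x v c = zM := by
      intro v
      rw [u2_ne (by omega) hcx]; rfl
    have hdv : ∀ v : VM, u2 zA (c + 1) v x v (c + 1) = v := by
      intro v
      rw [u2_j hdx]
    simp only [hcv, hdv, hloc] at hg3
    have add1 : ∀ u v w : VM, g (u2 zA j (u + v) x w) = g (u2 zA j u x w) + g (u2 zA j v x w) := by
      intro u v w
      have hsw : ∀ u, u2 zA j u x w = Function.update (Function.update zA x w) j u := by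
        intro u
        unfold u2
        rw [Function.update_comm hjx]
      rw [hsw, hsw, hsw]
      exact h.addM hnS hjS _ u v
    have add2 : ∀ u v w : VM, g (u2 zA j w x (u + v)) = g (u2 zA j w x u) + g (u2 zA j w x v) := by
      intro u v w
      exact h.addM hnS hxS _ u v
    have hzz := zz_eq (fun u v => g (u2 zA j u x v)) add1 add2
    beta_reduce at hzz
    have hmm : u2 zA j zM x zM = zA := by
      unfold u2
      have e1 : Function.update zA j zM = zA := Function.update_eq_self j zA
      rw [e1]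
      exact Function.update_eq_self x zA
    rw [hmm, hg3, add_zero] at hzz
    exact hzz.symm

end P

end E4
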