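import Pool.Agent.Lib.MP_8a95e3_al.P.P24

/-!
# P25 : one more occurrence of a group letter
-/

namespace E4

namespace P

variable {G V Z E : Type} [Group G] [AddCommGroup V] [CommRing Z] [Module Z V] [Ring E]
    [Algebra Z E]

namespace PAlg

variable (K : PAlg G V Z E)

theorem k_Xsym (x : G) (a b : V) :
    K.k b (K.act x a + a) + K.k a (K.act x b + b) = K.tau (K.t x) a b := by
  have h := K.act_add_inv x a
  have h1 : K.tau (K.t x) a b = K.k (K.act x a + K.act x⁻¹ a) b := by rw [h]; rfl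
  rw [h1, map_add, map_add, map_add, LinearMap.add_apply, K.k_act'', K.k_symm b (K.act x a),
    K.k_symm b a]
  have := K.zz (K.k a b)
  linear_combination this

/-- `Σ [[b,c], X a] = τ T` -/
theorem cyc_T (x : G) (a b c : V) :
    K.b (K.b b c) (K.act x a + a) + K.b (K.b c a) (K.act x b + b) + K.b (K.b a b) (K.act x c + c)
      = K.tau a b c • K.t x := by
  apply K.k_eq
  intro p
  have e : ∀ u v w : V, K.k p (K.b (K.b u v) w) = K.k p v * K.k u w + K.k p u * K.k v w := by
    intro u v w
    rw [K.R1, map_add, map_smul, map_smul, smul_eq_mul, smul_eq_mul]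
    ring
  rw [map_add, map_add, e, e, e]
  have h1 := K.k_Xsym x a b
  have h2 := K.k_Xsym x b c
  have h3 := K.k_Xsym x c a
  have h := congrArg (K.k p) (K.cramer' a b c (K.t x))
  simp only [map_add, map_smul, smul_eq_mul] at h
  rw [map_smul, smul_eq_mul, h]
  have t1 : K.tau a b (K.t x) = K.tau (K.t x) a b := K.tau_cyc (K.t x) a b ▸ rfl
  have t2 : K.tau b c (K.t x) = K.tau (K.t x) b c := K.tau_cyc (K.t x) b c ▸ rfl
  have t3 : K.tau c a (K.t x) = K.tau (K.t x) c a := K.tau_cyc (K.t x) c a ▸ rfl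
  rw [t1, t2, t3, ← h1, ← h2, ← h3]
  ring

/-- the tensor `X a ⊗ X v` -/
theorem ten {N : Type} [AddCommGroup N] [Module Z N] (Ψ : V →ₗ[Z] V →ₗ[Z] N) (x : G)
    (a v a' b' c' : V) :
    K.tau a' b' c' • Ψ (K.act x a + a) (K.act x v + v)
      = K.tau a' b' c' • Ψ (K.t x) (K.b a v)
        + K.k (K.t x) a • (Ψ (K.b b' c') (K.b a' v) + Ψ (K.b c' a') (K.b b' v)
          + Ψ (K.b a' b') (K.b c' v))
        + K.th x • (Ψ (K.b b' c') (K.b a (K.b a' v)) + Ψ (K.b c' a') (K.b a (K.b b' v))
          + Ψ (K.b a' b') (K.b a (K.b c' v))) := by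
  have hs : ∀ s : V, K.tau a' b' c' • s = K.k b' s • K.b c' a' + K.k a' s • K.b b' c'
      + K.k c' s • K.b a' b' := by
    intro s
    rw [K.cramer a' b' c' s, K.b_symm a' c', K.k_symm s c']
    abel
  have e1 : ∀ s t : V, K.tau a' b' c' • Ψ s t = Ψ (K.b c' a') (K.k b' s • t)
      + Ψ (K.b b' c') (K.k a' s • t) + Ψ (K.b a' b') (K.k c' s • t) := by
    intro s t
    rw [← LinearMap.smul_apply, ← map_smul, hs]
    simp only [map_add, map_smul, LinearMap.add_apply, LinearMap.smul_apply]
  have hT := e1 (K.t x) (K.b a v)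
  rw [e1, K.s54, K.s54, K.s54, hT]
  simp only [map_add, map_smul, smul_add, K.k_symm (K.t x) b', K.k_symm (K.t x) a',
    K.k_symm (K.t x) c']
  abel

/-- a bilinear form on which all contractions against letters vanish -/
theorem legit {M : Type} [AddCommGroup M] [Module Z M] (hM : K.TF M) (B : V →ₗ[Z] V →ₗ[Z] M)
    (h : ∀ x a b c, B (K.b b c) (K.act x a + a) + B (K.b c a) (K.act x b + b)
      + B (K.b a b) (K.act x c + c) = 0) (u v : V) : B u v = 0 := by
  -- the submodule of good operators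
  let R : Submodule Z (V →ₗ[Z] V) :=
    { carrier := {f | ∀ a b c, B (K.b b c) (f a) + B (K.b c a) (f b) + B (K.b a b) (f c) = 0}
      zero_mem' := by intro a b c; simp
      add_mem' := by
        intro f g hf hg a b c
        have h1 := hf a b c
        have h2 := hg a b c
        simp only [LinearMap.add_apply, map_add]
        calc _ = (B (K.b b c) (f a) + B (K.b c a) (f b) + B (K.b a b) (f c))
            + (B (K.b b c) (g a) + B (K.b c a) (g b) + B (K.b a b) (g c)) := by abel
          _ = 0 := by rw [h1, h2, add_zero]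
      smul_mem' := by
        intro z f hf a b c
        have h1 := hf a b c
        simp only [LinearMap.smul_apply, map_smul]
        rw [← smul_add, ← smul_add, h1, smul_zero] }
  have hR : ∀ f : V →ₗ[Z] V, f ∈ R ↔ ∀ a b c, B (K.b b c) (f a) + B (K.b c a) (f b) + B (K.b a b) (f c) = 0 :=
    fun f => Iff.rfl
  have h0 : ∀ x, K.act x + LinearMap.id ∈ R := fun x => h x
  -- `ρ(g) l(v)`
  have h1 : ∀ (g : G) (v : V), K.act g ∘ₗ K.b v ∈ R := by
    intro g v
    have hv := K.span v
    induction hv using Submodule.span_induction with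
    | mem v hv =>
      obtain ⟨u, rfl⟩ := hv
      have h2 := R.add_mem (h0 (g * (u * u))) (h0 g)
      have e : K.act (g * (u * u)) + LinearMap.id + (K.act g + LinearMap.id) = K.act g ∘ₗ K.b (K.t u) := by
        ext w
        simp only [LinearMap.add_apply, LinearMap.id_apply, LinearMap.comp_apply]
        rw [K.act_mul, K.act_sq, map_add]
        have e1 := K.vv (K.act g w)
        have e2 := K.vv w
        calc _ = (K.act g w + K.act g w) + (w + w) + K.act g (K.b (K.t u) w) := by abel
          _ = _ := by rw [e1, e2]; simp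
      rw [e] at h2
      exact h2
    | zero =>
      have : K.act g ∘ₗ K.b 0 = 0 := by ext w; simp
      rw [this]; exact R.zero_mem
    | add y z _ _ hy hz =>
      have : K.act g ∘ₗ K.b (y + z) = K.act g ∘ₗ K.b y + K.act g ∘ₗ K.b z := by ext w; simp
      rw [this]; exact R.add_mem hy hz
    | smul z y _ hy =>
      have : K.act g ∘ₗ K.b (z • y) = z • (K.act g ∘ₗ K.b y) := by ext w; simp
      rw [this]; exact R.smul_mem _ hy
  have h2 : ∀ (g : G) (u v : V), K.act g ∘ₗ K.b u ∘ₗ K.b v ∈ R := by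
    intro g u v
    have hv := K.span u
    induction hv using Submodule.span_induction with
    | mem u hu =>
      obtain ⟨u, rfl⟩ := hu
      have h2 := R.add_mem (h1 (g * (u * u)) v) (h1 g v)
      have e : K.act (g * (u * u)) ∘ₗ K.b v + K.act g ∘ₗ K.b v = K.act g ∘ₗ K.b (K.t u) ∘ₗ K.b v := by
        ext w
        simp only [LinearMap.add_apply, LinearMap.comp_apply]
        rw [K.act_mul, K.act_sq, map_add]
        have e1 := K.vv (K.act g (K.b v w))
        calc _ = (K.act g (K.b v w) + K.act g (K.b v w)) + K.act g (K.b (K.t u) (K.b v w)) := by abel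
          _ = _ := by rw [e1]; simp
      rw [e] at h2
      exact h2
    | zero =>
      have : K.act g ∘ₗ K.b 0 ∘ₗ K.b v = 0 := by ext w; simp
      rw [this]; exact R.zero_mem
    | add y z _ _ hy hz =>
      have : K.act g ∘ₗ K.b (y + z) ∘ₗ K.b v = K.act g ∘ₗ K.b y ∘ₗ K.b v + K.act g ∘ₗ K.b z ∘ₗ K.b v := by
        ext w; simp
      rw [this]; exact R.add_mem hy hz
    | smul z y _ hy =>
      have : K.act g ∘ₗ K.b (z • y) ∘ₗ K.b v = z • (K.act g ∘ₗ K.b y ∘ₗ K.b v) := by ext w; simp
      rw [this]; exact R.smul_mem _ hy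
  have h3 : ∀ (u v w : V), K.b u ∘ₗ K.b v ∘ₗ K.b w ∈ R := by
    intro u v w
    have hv := K.span u
    induction hv using Submodule.span_induction with
    | mem u hu =>
      obtain ⟨u, rfl⟩ := hu
      have h2 := R.add_mem (h2 (u * u) v w) (h2 1 v w)
      have e : K.act (u * u) ∘ₗ K.b v ∘ₗ K.b w + K.act 1 ∘ₗ K.b v ∘ₗ K.b w
          = K.b (K.t u) ∘ₗ K.b v ∘ₗ K.b w := by
        ext s
        simp only [LinearMap.add_apply, LinearMap.comp_apply, map_one, Module.End.one_apply]
        rw [K.act_sq]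
        have e1 := K.vv (K.b v (K.b w s))
        calc _ = (K.b v (K.b w s) + K.b v (K.b w s)) + K.b (K.t u) (K.b v (K.b w s)) := by abel
          _ = _ := by rw [e1]; simp
      rw [e] at h2
      exact h2
    | zero =>
      have : K.b 0 ∘ₗ K.b v ∘ₗ K.b w = 0 := by ext w; simp
      rw [this]; exact R.zero_mem
    | add y z _ _ hy hz =>
      have : K.b (y + z) ∘ₗ K.b v ∘ₗ K.b w = K.b y ∘ₗ K.b v ∘ₗ K.b w + K.b z ∘ₗ K.b v ∘ₗ K.b w := by
        ext w; simp
      rw [this]; exact R.add_mem hy hz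
    | smul z y _ hy =>
      have : K.b (z • y) ∘ₗ K.b v ∘ₗ K.b w = z • (K.b y ∘ₗ K.b v ∘ₗ K.b w) := by ext w; simp
      rw [this]; exact R.smul_mem _ hy
  have h1' : ∀ (v : V), K.b v ∈ R := by
    intro v
    have := h1 1 v
    have e : K.act 1 ∘ₗ K.b v = K.b v := by ext s; simp
    rw [e] at this
    exact this
  have h2' : ∀ (u v : V), K.b u ∘ₗ K.b v ∈ R := by
    intro u v
    have := h2 1 u v
    have e : K.act 1 ∘ₗ K.b u ∘ₗ K.b v = K.b u ∘ₗ K.b v := by ext s; simp
    rw [e] at this
    exact this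
  -- the identity
  have h4 : ∀ a c d : V, K.tau a c d • (LinearMap.id : V →ₗ[Z] V) ∈ R := by
    intro a c d
    have e : K.b a ∘ₗ K.b c ∘ₗ K.b d + K.b c ∘ₗ K.b a ∘ₗ K.b d + K.b c ∘ₗ K.b d ∘ₗ K.b a
        + K.k c d • K.b a = K.tau a c d • (LinearMap.id : V →ₗ[Z] V) := by
      have hE := K.E1 a c d
      have r1 : ∀ u v w : V, K.Rep (K.l u * K.l v * K.l w) (K.b u ∘ₗ K.b v ∘ₗ K.b w)
          ((K.b w ∘ₗ K.b v) ∘ₗ K.b u) := by
        intro u v w
        rw [mul_assoc]
        exact K.rep_mul (K.rep_l u) (K.rep_mul (K.rep_l v) (K.rep_l w))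
      have r2 := K.rep_add (K.rep_add (K.rep_add (r1 a c d) (r1 c a d)) (r1 c d a))
        (K.rep_smul (K.k c d) (K.rep_l a))
      rw [hE] at r2
      exact K.rep_unique r2 (K.rep_z _)
    rw [← e]
    exact R.add_mem (R.add_mem (R.add_mem (h3 _ _ _) (h3 _ _ _)) (h3 _ _ _)) (R.smul_mem _ (h1' a))
  have h5 : (LinearMap.id : V →ₗ[Z] V) ∈ R := by
    rw [hR]
    intro a b c
    apply hM
    intro u v w
    have := (hR _).1 (h4 u v w) a b c
    simp only [LinearMap.smul_apply, map_smul] at this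
    rw [← smul_add, ← smul_add] at this
    exact this
  -- rank one operators
  have h6 : ∀ a b : V, (K.k a).smulRight b ∈ R := by
    intro a b
    have r1 : K.Rep (K.l a * K.l b + K.k a b • (1 : E)) _ _ :=
      K.rep_add (K.rep_mul (K.rep_l a) (K.rep_l b)) (K.rep_z (K.k a b))
    have r2 := K.rep_unique (K.rep_Ee a b) r1
    rw [r2]
    exact R.add_mem (h2' a b) (R.smul_mem _ h5)
  apply hM
  intro a b c
  have h7 := (hR _).1 (h6 u v) a b c
  simp only [LinearMap.smulRight_apply, map_smul] at h7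
  rw [← h7]
  have h8 := K.cramer a b c u
  have h9 := congrArg (fun s => B s v) h8
  simp only [map_smul, map_add, LinearMap.smul_apply, LinearMap.add_apply] at h9
  rw [h9, K.k_symm b u, K.k_symm a u, K.b_symm a c]
  abel

end PAlg

end P

end E4
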