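import Pool.Agent.Lib.MP_8a95e3_al.P.P25

/-!
# P26 : the steps `Q := X_j Q` for new and old letters, `Q := [q, Q]`
-/

namespace E4

namespace P

variable {G V Z E : Type} [Group G] [AddCommGroup V] [CommRing Z] [Module Z V] [Ring E]
    [Algebra Z E]

theorem bzz0 : bM zM zM = 0 := by decide

/-- contraction against a letter: `Σ F(A := [b,c], B := X a)` -/
def Cf (K : PAlg G V Z E) (A B : ℕ) (x : G) (a b c : V) (F : (ℕ → V) → Z) (p : ℕ → V) : Z :=
  F (u2 p A (K.b b c) B (K.act x a + a)) + F (u2 p A (K.b c a) B (K.act x b + b))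
    + F (u2 p A (K.b a b) B (K.act x c + c))

/-- three updates -/
def u3 {M : Type} (p : ℕ → M) (A : ℕ) (a : M) (B : ℕ) (b : M) (Q : ℕ) (q : M) : ℕ → M :=
  Function.update (u2 p A a B b) Q q

theorem RR.loc' {K : PAlg G V Z E} {t : Bool} {S : Multiset ℕ} {f : (ℕ → V) → Z}
    {g : (ℕ → VM) → ZMod 2} (h : RR K t S f g) {A B Q : ℕ} {T : Multiset ℕ}
    (hS : S = A ::ₘ B ::ₘ Q ::ₘ T) (hn : S.Nodup) (r p : ℕ → V) (α β κ : V)
    (hA : r A = α) (hB : r B = β) (hQ : r Q = κ) (hT : ∀ i ∈ T, r i = p i) :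
    f r = f (u3 p A α B β Q κ) := by
  rw [hS] at hn
  simp only [Multiset.nodup_cons, Multiset.mem_cons, not_or] at hn
  obtain ⟨⟨hAB, hAQ, hAT⟩, ⟨hBQ, hBT⟩, hQT, hTn⟩ := hn
  apply h.loc
  intro i hi
  rw [hS] at hi
  simp only [Multiset.mem_cons] at hi
  unfold u3
  rcases hi with rfl | rfl | rfl | hi
  · rw [Function.update_of_ne hAQ, u2_j hAB, hA]
  · rw [Function.update_of_ne hBQ, u2_x, hB]
  · rw [Function.update_self, hQ]
  · have h1 : i ≠ Q := by rintro rfl; exact hQT hi
    have h2 : i ≠ B := by rintro rfl; exact hBT hi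
    have h3 : i ≠ A := by rintro rfl; exact hAT hi
    rw [Function.update_of_ne h1, u2_ne h3 h2, hT i hi]

/-- **new letter** -/
theorem RR.newL {K : PAlg G V Z E} {t : Bool} {A B Q : ℕ} {T : Multiset ℕ} {f : (ℕ → V) → Z}
    {g : (ℕ → VM) → ZMod 2} (h : RR K t (Q ::ₘ T) f g) (hn : (A ::ₘ B ::ₘ Q ::ₘ T).Nodup) :
    ∃ (f' : (ℕ → V) → Z) (g' : (ℕ → VM) → ZMod 2), RR K t (A ::ₘ B ::ₘ Q ::ₘ T) f' g' ∧
      (∀ x a b c p, Cf K A B x a b c f' p = K.tau a b c * f (Function.update p Q (K.act x (p Q) + p Q))) ∧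
      g' zA = g zA := by
  have hn' := hn
  simp only [Multiset.nodup_cons, Multiset.mem_cons, not_or] at hn
  obtain ⟨⟨hAB, hAQ, hAT⟩, ⟨hBQ, hBT⟩, hQT, hTn⟩ := hn
  have h1 := (h.ren1 (c := B) hQT).mulK A Q
  have e1 : A ::ₘ Q ::ₘ B ::ₘ T = A ::ₘ B ::ₘ Q ::ₘ T := by rw [Multiset.cons_swap Q B]
  rw [e1] at h1
  refine ⟨_, _, h1, ?_, ?_⟩
  · intro x a b c p
    unfold Cf
    have hl : ∀ α β : V, f (Function.update (u2 p A α B β) Q ((u2 p A α B β) B))
        = f (Function.update p Q β) := by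
      intro α β
      apply h.loc
      intro i hi
      rcases Multiset.mem_cons.1 hi with hi2 | hi2
      · rw [hi2, Function.update_self, Function.update_self, u2_x]
      · have h1 : i ≠ Q := fun h0 => hQT (h0 ▸ hi2)
        have h2 : i ≠ B := fun h0 => hBT (h0 ▸ hi2)
        have h3 : i ≠ A := fun h0 => hAT (h0 ▸ hi2)
        rw [Function.update_of_ne h1, Function.update_of_ne h1, u2_ne h3 h2]
    beta_reduce
    simp only [hl, u2_j hAB, u2_ne (Ne.symm hAQ) (Ne.symm hBQ)]
    have hlin := h.linV (Multiset.nodup_cons.2 ⟨hQT, hTn⟩) (Multiset.mem_cons_self Q T) p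
    have e2 : K.tau a b c * f (Function.update p Q (K.act x (p Q) + p Q))
        = f (Function.update p Q (K.tau a b c • (K.act x (p Q) + p Q))) := (hlin.2 _ _).symm
    rw [e2]
    have e3 : K.tau a b c • (K.act x (p Q) + p Q)
        = K.k (K.b b c) (p Q) • (K.act x a + a) + K.k (K.b c a) (p Q) • (K.act x b + b)
          + K.k (K.b a b) (p Q) • (K.act x c + c) := by
      have h5 := K.cramerD a b c (p Q)
      have h6 : K.tau a b c • (K.act x (p Q) + p Q)
          = (K.act x + LinearMap.id : V →ₗ[Z] V) (K.tau a b c • p Q) := by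
        rw [map_smul]; rfl
      rw [h6, h5]
      simp only [map_add, map_smul, LinearMap.add_apply, LinearMap.id_apply]
    rw [e3]
    generalize K.act x a + a = Xa
    generalize K.act x b + b = Xb
    generalize K.act x c + c = Xc
    rw [hlin.1, hlin.1, hlin.2, hlin.2, hlin.2]
  · show kM zM zM * g (Function.update zA Q zM) = g zA
    have : Function.update zA Q zM = zA := Function.update_eq_self Q zA
    rw [this, show kM zM zM = 1 by decide, one_mul]

/-- **P-letter** -/
theorem RR.newP {K : PAlg G V Z E} {t : Bool} {q Q : ℕ} {T : Multiset ℕ} {f : (ℕ → V) → Z}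
    {g : (ℕ → VM) → ZMod 2} (h : RR K t (Q ::ₘ T) f g) (hn : (Q ::ₘ T).Nodup) :
    ∃ (g' : (ℕ → VM) → ZMod 2), RR K (!t) (q ::ₘ Q ::ₘ T)
      (fun p => f (Function.update p Q (K.b (p q) (p Q)))) g' ∧ g' zA = 0 := by
  refine ⟨_, h.bs (c := q) (d := Q) hn rfl, ?_⟩
  show g (Function.update zA Q (bM zM zM)) = 0
  rw [bzz0]
  exact h.z0 hn (Multiset.mem_cons_self Q T) _

theorem u3_A {M : Type} {p : ℕ → M} {A B Q : ℕ} (hAB : A ≠ B) (hAQ : A ≠ Q) {a b q : M} :
    u3 p A a B b Q q A = a := by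
  unfold u3
  rw [Function.update_of_ne hAQ, u2_j hAB]

theorem u3_B {M : Type} {p : ℕ → M} {A B Q : ℕ} (hBQ : B ≠ Q) {a b q : M} :
    u3 p A a B b Q q B = b := by
  unfold u3
  rw [Function.update_of_ne hBQ, u2_x]

theorem u3_Q {M : Type} {p : ℕ → M} {A B Q : ℕ} {a b q : M} : u3 p A a B b Q q Q = q := by
  unfold u3
  rw [Function.update_self]

theorem u3_ne {M : Type} {p : ℕ → M} {A B Q i : ℕ} (h1 : i ≠ A) (h2 : i ≠ B) (h3 : i ≠ Q)
    {a b q : M} : u3 p A a B b Q q i = p i := by
  unfold u3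
  rw [Function.update_of_ne h3, u2_ne h1 h2]

/-- **old letter** -/
theorem RR.oldL {K : PAlg G V Z E} {t : Bool} {A B Q : ℕ} {T : Multiset ℕ} {f : (ℕ → V) → Z}
    {g : (ℕ → VM) → ZMod 2} (h : RR K t (A ::ₘ B ::ₘ Q ::ₘ T) f g)
    (hn : (A ::ₘ B ::ₘ Q ::ₘ T).Nodup) :
    ∃ (f' : (ℕ → V) → Z) (g' : (ℕ → VM) → ZMod 2), RR K t (A ::ₘ B ::ₘ Q ::ₘ T) f' g' ∧
      (∀ x a b c p, Cf K A B x a b c f' p
        = Cf K A B x a b c f (Function.update p Q (K.act x (p Q) + p Q))) ∧ g' zA = 0 := by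
  have hn0 := hn
  simp only [Multiset.nodup_cons, Multiset.mem_cons, not_or] at hn0
  obtain ⟨⟨hAB, hAQ, hAT⟩, ⟨hBQ, hBT⟩, hQT, hTn⟩ := hn0
  obtain ⟨γ, hγ⟩ := fresh (A ::ₘ B ::ₘ Q ::ₘ T)
  have hlt : A < γ ∧ B < γ ∧ Q < γ ∧ ∀ i ∈ T, i < γ :=
    ⟨hγ A (by simp), hγ B (by simp), hγ Q (by simp), fun i hi => hγ i (by simp [hi])⟩
  obtain ⟨lA, lB, lQ, lT⟩ := hlt
  obtain ⟨δ, hδ⟩ : ∃ δ, δ = γ + 1 := ⟨_, rfl⟩
  have dγT : γ ∉ T := fun h => lt_irrefl _ (lT _ h)
  have dδT : δ ∉ T := fun h => by have := lT _ h; omega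
  have hS1 : A ::ₘ B ::ₘ Q ::ₘ T = Q ::ₘ (A ::ₘ B ::ₘ T) := by
    simp only [← Multiset.singleton_add]; abel
  have b1 := h.bs (c := γ) (d := Q) hn hS1
  have n1 : (γ ::ₘ Q ::ₘ A ::ₘ B ::ₘ T).Nodup := by
    simp only [Multiset.nodup_cons, Multiset.mem_cons, not_or]
    exact ⟨⟨by omega, by omega, by omega, dγT⟩, ⟨Ne.symm hAQ, Ne.symm hBQ, hQT⟩, ⟨hAB, hAT⟩, hBT, hTn⟩
  obtain ⟨f1, g1, c1, c2', c3⟩ := b1.con n1 (j := γ) (x := A) (T := Q ::ₘ B ::ₘ T) (by
    simp only [← Multiset.singleton_add]; abel)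
  obtain ⟨f2, g2, d1, d2, d3⟩ := b1.con n1 (j := γ) (x := B) (T := Q ::ₘ A ::ₘ T) (by
    simp only [← Multiset.singleton_add]; abel)
  have b2 := b1.bs (c := δ) (d := Q) (j := Q) (T := γ ::ₘ A ::ₘ B ::ₘ T) n1 (by
    simp only [← Multiset.singleton_add]; abel)
  have n2 : (δ ::ₘ Q ::ₘ γ ::ₘ A ::ₘ B ::ₘ T).Nodup := by
    simp only [Multiset.nodup_cons, Multiset.mem_cons, not_or]
    exact ⟨⟨by omega, by omega, by omega, by omega, dδT⟩, ⟨by omega, Ne.symm hAQ, Ne.symm hBQ, hQT⟩,
      ⟨by omega, by omega, dγT⟩, ⟨hAB, hAT⟩, hBT, hTn⟩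
  obtain ⟨f3, g3, e1', e2', e3'⟩ := b2.con n2 (j := γ) (x := A) (T := δ ::ₘ Q ::ₘ B ::ₘ T) (by
    simp only [← Multiset.singleton_add]; abel)
  have n3 : (δ ::ₘ Q ::ₘ B ::ₘ T).Nodup := by
    simp only [Multiset.nodup_cons, Multiset.mem_cons, not_or]
    exact ⟨⟨by omega, by omega, dδT⟩, ⟨Ne.symm hBQ, hQT⟩, hBT, hTn⟩
  obtain ⟨f4, g4, k1, k2, k3⟩ := e1'.con n3 (j := δ) (x := B) (T := Q ::ₘ T) (by
    simp only [← Multiset.singleton_add]; abel)
  have nQB : (Q ::ₘ B ::ₘ T).Nodup := by
    simp only [Multiset.nodup_cons, Multiset.mem_cons, not_or]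
    exact ⟨⟨Ne.symm hBQ, hQT⟩, hBT, hTn⟩
  have nQA : (Q ::ₘ A ::ₘ T).Nodup := by
    simp only [Multiset.nodup_cons, Multiset.mem_cons, not_or]
    exact ⟨⟨Ne.symm hAQ, hQT⟩, hAT, hTn⟩
  have F1 := c1.bs (c := A) (d := B) (j := B) (T := Q ::ₘ T) nQB (Multiset.cons_swap _ _ _)
  have F2 := d1.bs (c := A) (d := B) (j := A) (T := Q ::ₘ T) nQA (Multiset.cons_swap _ _ _)
  have F3 := k1.mulK A B
  simp only [Bool.not_not] at F1 F2 F3
  refine ⟨_, _, (F1.addR F2).addR F3, ?_, ?_⟩
  · -- values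
    have hloc := fun (r p : ℕ → V) (α β κ : V) => h.loc' rfl hn r p α β κ
    have v1 : ∀ p a b c, f (u3 p A (K.b b c) B (p B) Q (K.b a (p Q)))
        + f (u3 p A (K.b c a) B (p B) Q (K.b b (p Q))) + f (u3 p A (K.b a b) B (p B) Q (K.b c (p Q)))
        = K.tau a b c * f1 p := by
      intro p a b c
      have key : ∀ a w : V, f (Function.update (u2 p γ a A w) Q (K.b ((u2 p γ a A w) γ) ((u2 p γ a A w) Q)))
          = f (u3 p A w B (p B) Q (K.b a (p Q))) := by
        intro a w
        rw [u2_j (show γ ≠ A by omega), u2_ne (show Q ≠ γ by omega) (Ne.symm hAQ)]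
        apply hloc
        · rw [Function.update_of_ne hAQ, u2_x]
        · rw [Function.update_of_ne hBQ, u2_ne (by omega) (Ne.symm hAB)]
        · rw [Function.update_self]
        · intro i hi
          have h1 : i ≠ Q := fun h0 => hQT (h0 ▸ hi)
          have h2 : i ≠ A := fun h0 => hAT (h0 ▸ hi)
          have h3 : i ≠ γ := fun h0 => dγT (h0 ▸ hi)
          rw [Function.update_of_ne h1, u2_ne h3 h2]
      rw [← c2' p a b c, key, key, key]
    have v2 : ∀ p a b c, f (u3 p A (p A) B (K.b b c) Q (K.b a (p Q)))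
        + f (u3 p A (p A) B (K.b c a) Q (K.b b (p Q))) + f (u3 p A (p A) B (K.b a b) Q (K.b c (p Q)))
        = K.tau a b c * f2 p := by
      intro p a b c
      have key : ∀ a w : V, f (Function.update (u2 p γ a B w) Q (K.b ((u2 p γ a B w) γ) ((u2 p γ a B w) Q)))
          = f (u3 p A (p A) B w Q (K.b a (p Q))) := by
        intro a w
        rw [u2_j (show γ ≠ B by omega), u2_ne (show Q ≠ γ by omega) (Ne.symm hBQ)]
        apply hloc
        · rw [Function.update_of_ne hAQ, u2_ne (by omega) hAB]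
        · rw [Function.update_of_ne hBQ, u2_x]
        · rw [Function.update_self]
        · intro i hi
          have h1 : i ≠ Q := fun h0 => hQT (h0 ▸ hi)
          have h2 : i ≠ B := fun h0 => hBT (h0 ▸ hi)
          have h3 : i ≠ γ := fun h0 => dγT (h0 ▸ hi)
          rw [Function.update_of_ne h1, u2_ne h3 h2]
      rw [← d2 p a b c, key, key, key]
    have v3 : ∀ p a b c a' w', f (u3 p A (K.b b c) B w' Q (K.b a (K.b a' (p Q))))
        + f (u3 p A (K.b c a) B w' Q (K.b b (K.b a' (p Q))))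
        + f (u3 p A (K.b a b) B w' Q (K.b c (K.b a' (p Q))))
        = K.tau a b c * f3 (u2 p δ a' B w') := by
      intro p a b c a' w'
      have key : ∀ a w : V, (fun p : ℕ → V => f (Function.update (Function.update p Q (K.b (p δ) (p Q))) Q
            (K.b ((Function.update p Q (K.b (p δ) (p Q))) γ) ((Function.update p Q (K.b (p δ) (p Q))) Q))))
            (u2 (u2 p δ a' B w') γ a A w)
          = f (u3 p A w B w' Q (K.b a (K.b a' (p Q)))) := by
        intro a w
        beta_reduce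
        rw [Function.update_of_ne (show γ ≠ Q by omega), Function.update_self,
          u2_j (show γ ≠ A by omega), u2_ne (show Q ≠ γ by omega) (Ne.symm hAQ),
          u2_ne (show δ ≠ γ by omega) (show δ ≠ A by omega), u2_j (show δ ≠ B by omega),
          u2_ne (show Q ≠ δ by omega) (Ne.symm hBQ)]
        apply hloc
        · rw [Function.update_of_ne hAQ, Function.update_of_ne hAQ, u2_x]
        · rw [Function.update_of_ne hBQ, Function.update_of_ne hBQ, u2_ne (by omega) (Ne.symm hAB), u2_x]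
        · rw [Function.update_self]
        · intro i hi
          have h1 : i ≠ Q := fun h0 => hQT (h0 ▸ hi)
          have h2 : i ≠ A := fun h0 => hAT (h0 ▸ hi)
          have h3 : i ≠ γ := fun h0 => dγT (h0 ▸ hi)
          have h4 : i ≠ δ := fun h0 => dδT (h0 ▸ hi)
          have h5 : i ≠ B := fun h0 => hBT (h0 ▸ hi)
          rw [Function.update_of_ne h1, Function.update_of_ne h1, u2_ne h3 h2, u2_ne h4 h5]
      rw [← e2' (u2 p δ a' B w') a b c]
      rw [← key, ← key, ← key]
    intro x a b c p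
    -- trilinearity
    have lA' := fun (β κ : V) => h.linV hn (j := A) (by simp) (u3 p A (p A) B β Q κ)
    have lB' := fun (α κ : V) => h.linV hn (j := B) (by simp) (u3 p A α B (p B) Q κ)
    have lQ' := fun (α β : V) => h.linV hn (j := Q) (by simp) (u3 p A α B β Q (p Q))
    have upA : ∀ α α' β κ : V, Function.update (u3 p A α B β Q κ) A α' = u3 p A α' B β Q κ := by
      intro α α' β κ
      unfold u3 u2
      rw [Function.update_comm (Ne.symm hAQ), Function.update_comm (Ne.symm hAB), Function.update_idem]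
    have upB : ∀ α β β' κ : V, Function.update (u3 p A α B β Q κ) B β' = u3 p A α B β' Q κ := by
      intro α β β' κ
      unfold u3 u2
      rw [Function.update_comm (Ne.symm hBQ), Function.update_idem]
    have upQ : ∀ α β κ κ' : V, Function.update (u3 p A α B β Q κ) Q κ' = u3 p A α B β Q κ' := by
      intro α β κ κ'
      unfold u3 u2
      rw [Function.update_idem]
    simp only [upA] at lA'
    simp only [upB] at lB'
    simp only [upQ] at lQ'
    let Φ : V → V → V → Z := fun α β κ => f (u3 p A α B β Q κ)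
    have hΦ : ∀ α β κ, f (u3 p A α B β Q κ) = Φ α β κ := fun _ _ _ => rfl
    simp only [hΦ] at lA' lB' lQ'
    let Ψ : V → V →ₗ[Z] V →ₗ[Z] Z := fun α => LinearMap.mk₂ Z (fun β κ => Φ α β κ)
      (fun β β' κ => (lB' α κ).1 β β') (fun z β κ => (lB' α κ).2 z β)
      (fun β κ κ' => (lQ' α β).1 κ κ') (fun z β κ => (lQ' α β).2 z κ)
    have hΨ : ∀ α β κ, Ψ α β κ = Φ α β κ := fun _ _ _ => rfl
    -- left side
    have L1 : ∀ α β : V, f1 (Function.update (u2 p A α B β) B (K.b α β))
        = f1 (Function.update p B (K.b α β)) := by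
      intro α β
      apply c1.loc
      intro i hi
      simp only [Multiset.mem_cons] at hi
      by_cases hiB : i = B
      · rw [hiB, Function.update_self, Function.update_self]
      · rw [Function.update_of_ne hiB, Function.update_of_ne hiB, u2_ne _ hiB]
        rintro rfl
        rcases hi with h | h | h
        · exact hAQ h
        · exact hAB h
        · exact hAT h
    have L2 : ∀ α β : V, f2 (Function.update (u2 p A α B β) A (K.b α β))
        = f2 (Function.update p A (K.b α β)) := by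
      intro α β
      apply d1.loc
      intro i hi
      simp only [Multiset.mem_cons] at hi
      by_cases hiA : i = A
      · rw [hiA, Function.update_self, Function.update_self]
      · rw [Function.update_of_ne hiA, Function.update_of_ne hiA, u2_ne hiA]
        rintro rfl
        rcases hi with h | h | h
        · exact hBQ h
        · exact hAB h.symm
        · exact hBT h
    have L3 : ∀ α β : V, f4 (u2 p A α B β) = f4 p := by
      intro α β
      apply k1.loc
      intro i hi
      simp only [Multiset.mem_cons] at hi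
      apply u2_ne
      · rintro rfl
        rcases hi with h | h
        · exact hAQ h
        · exact hAT h
      · rintro rfl
        rcases hi with h | h
        · exact hBQ h
        · exact hBT h
    have lin1 := c1.linV nQB (j := B) (by simp) p
    have lin2 := d1.linV nQA (j := A) (by simp) p
    -- right side
    have R1 : ∀ α β : V, f (u2 (Function.update p Q (K.act x (p Q) + p Q)) A α B β)
        = Φ α β (K.act x (p Q) + p Q) := by
      intro α β
      apply hloc
      · rw [u2_j hAB]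
      · rw [u2_x]
      · rw [u2_ne (Ne.symm hAQ) (Ne.symm hBQ), Function.update_self]
      · intro i hi
        have h1 : i ≠ Q := fun h0 => hQT (h0 ▸ hi)
        have h2 : i ≠ A := fun h0 => hAT (h0 ▸ hi)
        have h5 : i ≠ B := fun h0 => hBT (h0 ▸ hi)
        rw [u2_ne h2 h5, Function.update_of_ne h1]
    unfold Cf
    simp only [L1, L2, L3, R1, u2_j hAB, u2_x]
    have q1 : f1 (Function.update p B (K.b (K.b b c) (K.act x a + a)))
        + f1 (Function.update p B (K.b (K.b c a) (K.act x b + b)))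
        + f1 (Function.update p B (K.b (K.b a b) (K.act x c + c)))
        = K.tau a b c * f1 (Function.update p B (K.t x)) := by
      rw [← lin1.2, ← K.cyc_T, lin1.1, lin1.1]
    have q2 : f2 (Function.update p A (K.b (K.b b c) (K.act x a + a)))
        + f2 (Function.update p A (K.b (K.b c a) (K.act x b + b)))
        + f2 (Function.update p A (K.b (K.b a b) (K.act x c + c)))
        = K.tau a b c * f2 (Function.update p A (K.t x)) := by
      rw [← lin2.2, ← K.cyc_T, lin2.1, lin2.1]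
    have q3 := K.tr_X x a b c
    have w1 := v1 (Function.update p B (K.t x)) a b c
    have w2 := fun a b c => v2 (Function.update p A (K.t x)) a b c
    have uw1 : ∀ α κ, f (u3 (Function.update p B (K.t x)) A α B (K.t x) Q κ) = Φ α (K.t x) κ := by
      intro α κ
      apply hloc
      · rw [u3_A hAB hAQ]
      · rw [u3_B hBQ]
      · rw [u3_Q]
      · intro i hi
        have h1 : i ≠ Q := fun h0 => hQT (h0 ▸ hi)
        have h2 : i ≠ A := fun h0 => hAT (h0 ▸ hi)
        have h5 : i ≠ B := fun h0 => hBT (h0 ▸ hi)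
        rw [u3_ne h2 h5 h1, Function.update_of_ne h5]
    have uw2 : ∀ β κ, f (u3 (Function.update p A (K.t x)) A (K.t x) B β Q κ) = Φ (K.t x) β κ := by
      intro α κ
      apply hloc
      · rw [u3_A hAB hAQ]
      · rw [u3_B hBQ]
      · rw [u3_Q]
      · intro i hi
        have h1 : i ≠ Q := fun h0 => hQT (h0 ▸ hi)
        have h2 : i ≠ A := fun h0 => hAT (h0 ▸ hi)
        have h5 : i ≠ B := fun h0 => hBT (h0 ▸ hi)
        rw [u3_ne h2 h5 h1, Function.update_of_ne h2]
    rw [Function.update_self, Function.update_of_ne (Ne.symm hBQ)] at w1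
    simp only [Function.update_self, Function.update_of_ne (Ne.symm hAQ)] at w2
    simp only [uw1] at w1
    simp only [uw2] at w2
    apply sub_eq_zero.1
    apply K.tf_Z
    intro a' b' c'
    rw [smul_eq_mul, K.sub_z, mul_add]
    have t1 := K.ten (Ψ (K.b b c)) x a (p Q) a' b' c'
    have t2 := K.ten (Ψ (K.b c a)) x b (p Q) a' b' c'
    have t3 := K.ten (Ψ (K.b a b)) x c (p Q) a' b' c'
    simp only [hΨ, smul_eq_mul] at t1 t2 t3
    -- first slot
    have s1 : ∀ β κ, K.k (K.t x) a * Φ (K.b b c) β κ + K.k (K.t x) b * Φ (K.b c a) β κ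
        + K.k (K.t x) c * Φ (K.b a b) β κ = K.tau a b c * Φ (K.t x) β κ := by
      intro β κ
      rw [← (lA' β κ).2, ← (lA' β κ).2, ← (lA' β κ).2, ← (lA' β κ).2, ← (lA' β κ).1, ← (lA' β κ).1]
      congr 1
      rw [K.cramer a b c (K.t x), K.k_symm (K.t x) a, K.k_symm (K.t x) b, K.b_symm a c]
      abel
    have s2 := s1 (K.b b' c') (K.b a' (p Q))
    have s3 := s1 (K.b c' a') (K.b b' (p Q))
    have s4 := s1 (K.b a' b') (K.b c' (p Q))
    have m1 := v3 p a b c a' (K.b b' c')
    have m2 := v3 p a b c b' (K.b c' a')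
    have m3 := v3 p a b c c' (K.b a' b')
    have m4 := k2 p a' b' c'
    simp only [hΦ] at m1 m2 m3
    have z1 := w2 a' b' c'
    have zz0 := K.zz (K.tau a' b' c' * (K.tau a b c * f1 (Function.update p B (K.t x))))
    have zz1 := K.zz (K.tau a' b' c' * (K.tau a b c * f2 (Function.update p A (K.t x))))
    have zz2 := K.zz (K.tau a' b' c' * (K.tau a b c * K.th x * f4 p))
    linear_combination (K.tau a' b' c') * q1 + (K.tau a' b' c') * q2 + (K.tau a' b' c' * f4 p) * q3
      + t1 + t2 + t3 + K.tau a' b' c' * w1 + s2 + s3 + s4 + K.tau a b c * z1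
      + K.th x * (m1 + m2 + m3) + K.th x * K.tau a b c * m4 + zz0 + zz1 + zz2
  · -- parity
    show g1 (Function.update zA B (bM zM zM)) + g2 (Function.update zA A (bM zM zM))
      + kM zM zM * g4 zA = 0
    rw [bzz0, c1.z0 nQB (by simp), d1.z0 nQA (by simp), show kM zM zM = 1 by decide, one_mul,
      zero_add, zero_add]
    have h1 := e1'.zcon n3 (j := δ) (x := B) (T := Q ::ₘ T) (by
      simp only [← Multiset.singleton_add]; abel)
    have h2 := b2.zcon n2 (j := γ) (x := A) (T := δ ::ₘ Q ::ₘ B ::ₘ T) (by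
      simp only [← Multiset.singleton_add]; abel)
    rw [← k3 zA, h1, ← e3' zA, h2]
    show g (Function.update (Function.update zA Q (bM zM zM)) Q (bM _ ((Function.update zA Q (bM zM zM)) Q))) = 0
    rw [bzz0, Function.update_self]
    have : ∀ w, bM w 0 = 0 := by decide
    rw [this]
    exact h.z0 hn (by simp) _

end P

end E4
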