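import Pool.Agent.Lib.MP_8a95e3_al.P.P26

/-!
# P27 : natural functions of group letters as related pairs
-/

namespace E4

namespace P

variable {G V Z E : Type} [Group G] [AddCommGroup V] [CommRing Z] [Module Z V] [Ring E]
    [Algebra Z E]

/-- the space of functions -/
abbrev FS (V Z : Type) : Type := (ℕ → V) → Z

/-- substitution of a vector -/
def Up (Z : Type) [CommRing Z] (c : ℕ) (v : V) : Module.End Z (FS V Z) where
  toFun F := fun p => F (Function.update p c v)
  map_add' _ _ := rfl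
  map_smul' _ _ := rfl

omit [AddCommGroup V] in
theorem Up_apply (c : ℕ) (v : V) (F : FS V Z) (p : ℕ → V) : Up Z c v F p = F (Function.update p c v) :=
  rfl

omit [AddCommGroup V] in
theorem Up_comm {c c' : ℕ} (h : c ≠ c') (v v' : V) : Commute (Up Z c v) (Up Z c' v') := by
  apply LinearMap.ext
  intro F
  funext p
  show F _ = F _
  rw [Function.update_comm h]

/-- slots -/
def sA (i : ℕ) : ℕ := 3 * i + 2
def sB (i : ℕ) : ℕ := 3 * i + 3
def sC (i : ℕ) : ℕ := 3 * i + 4

/-- contraction against the letter in the slots of `i` -/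
def Cn (K : PAlg G V Z E) (i : ℕ) (x : G) (a b c : V) : Module.End Z (FS V Z) :=
  Up Z (sA i) (K.b b c) * Up Z (sB i) (K.act x a + a)
    + Up Z (sA i) (K.b c a) * Up Z (sB i) (K.act x b + b)
    + Up Z (sA i) (K.b a b) * Up Z (sB i) (K.act x c + c)

theorem Cn_apply (K : PAlg G V Z E) (i : ℕ) (x : G) (a b c : V) (F : FS V Z) (p : ℕ → V) :
    Cn K i x a b c F p = Cf K (sA i) (sB i) x a b c F p := rfl

theorem Up_Cn (K : PAlg G V Z E) (c : ℕ) (v : V) (j : ℕ) (h1 : c ≠ sA j) (h2 : c ≠ sB j) (y : G)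
    (a' b' c' : V) : Commute (Up Z c v) (Cn K j y a' b' c') := by
  unfold Cn
  have h : ∀ w w', Commute (Up Z c v) (Up Z (sA j) w * Up Z (sB j) w') := fun w w' =>
    (Up_comm h1 v w).mul_right (Up_comm h2 v w')
  exact ((h _ _).add_right (h _ _)).add_right (h _ _)

theorem Cn_comm (K : PAlg G V Z E) {i j : ℕ} (hij : i ≠ j) (x y : G) (a b c a' b' c' : V) :
    Commute (Cn K i x a b c) (Cn K j y a' b' c') := by
  have h1 : ∀ v, Commute (Up Z (sA i) v) (Cn K j y a' b' c') := fun v =>
    Up_Cn K _ v j (by unfold sA; omega) (by unfold sA sB; omega) y a' b' c'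
  have h2 : ∀ v, Commute (Up Z (sB i) v) (Cn K j y a' b' c') := fun v =>
    Up_Cn K _ v j (by unfold sA sB; omega) (by unfold sB; omega) y a' b' c'
  have h3 : ∀ w w', Commute (Up Z (sA i) w * Up Z (sB i) w') (Cn K j y a' b' c') := fun w w' =>
    (h1 w).mul_left (h2 w')
  exact ((h3 _ _).add_left (h3 _ _)).add_left (h3 _ _)

/-- `Q := X_x Q` -/
def Sb (K : PAlg G V Z E) (x : G) : Module.End Z (FS V Z) where
  toFun F := fun p => F (Function.update p 1 (K.act x (p 1) + p 1))
  map_add' _ _ := rfl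
  map_smul' _ _ := rfl

/-- `Q := [q, Q]` -/
def Sp (K : PAlg G V Z E) (q : ℕ) : Module.End Z (FS V Z) where
  toFun F := fun p => F (Function.update p 1 (K.b (p q) (p 1)))
  map_add' _ _ := rfl
  map_smul' _ _ := rfl

theorem Up_Sb (K : PAlg G V Z E) {c : ℕ} (h : c ≠ 1) (v : V) (x : G) :
    Commute (Up Z c v) (Sb K x) := by
  apply LinearMap.ext
  intro F
  funext p
  show F (Function.update (Function.update p c v) 1 (K.act x ((Function.update p c v) 1)
    + (Function.update p c v) 1)) = F (Function.update (Function.update p 1 (K.act x (p 1) + p 1)) c v)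
  rw [Function.update_of_ne (Ne.symm h), Function.update_comm h]

theorem Up_Sp (K : PAlg G V Z E) {c q : ℕ} (h : c ≠ 1) (h' : c ≠ q) (v : V) :
    Commute (Up Z c v) (Sp K q) := by
  apply LinearMap.ext
  intro F
  funext p
  show F (Function.update (Function.update p c v) 1 (K.b ((Function.update p c v) q)
    ((Function.update p c v) 1))) = F (Function.update (Function.update p 1 (K.b (p q) (p 1))) c v)
  rw [Function.update_of_ne (Ne.symm h), Function.update_of_ne (Ne.symm h'), Function.update_comm h]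

theorem Cn_Sb (K : PAlg G V Z E) (i : ℕ) (x : G) (a b c : V) (y : G) :
    Commute (Cn K i x a b c) (Sb K y) := by
  have h1 : ∀ v, Commute (Up Z (sA i) v) (Sb K y) := fun v => Up_Sb K (by unfold sA; omega) v y
  have h2 : ∀ v, Commute (Up Z (sB i) v) (Sb K y) := fun v => Up_Sb K (by unfold sB; omega) v y
  have h3 : ∀ w w', Commute (Up Z (sA i) w * Up Z (sB i) w') (Sb K y) := fun w w' =>
    (h1 w).mul_left (h2 w')
  exact ((h3 _ _).add_left (h3 _ _)).add_left (h3 _ _)

theorem Cn_Sp (K : PAlg G V Z E) (i : ℕ) (x : G) (a b c : V) (j : ℕ) :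
    Commute (Cn K i x a b c) (Sp K (sC j)) := by
  have h1 : ∀ v, Commute (Up Z (sA i) v) (Sp K (sC j)) := fun v =>
    Up_Sp K (by unfold sA; omega) (by unfold sA sC; omega) v
  have h2 : ∀ v, Commute (Up Z (sB i) v) (Sp K (sC j)) := fun v =>
    Up_Sp K (by unfold sB; omega) (by unfold sB sC; omega) v
  have h3 : ∀ w w', Commute (Up Z (sA i) w * Up Z (sB i) w') (Sp K (sC j)) := fun w w' =>
    (h1 w).mul_left (h2 w')
  exact ((h3 _ _).add_left (h3 _ _)).add_left (h3 _ _)

/-- data of a letter: group element and three vectors -/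
abbrev DT (G V : Type) : Type := G × V × V × V

def Cd (K : PAlg G V Z E) (D : ℕ → DT G V) (i : ℕ) : Module.End Z (FS V Z) :=
  Cn K i (D i).1 (D i).2.1 (D i).2.2.1 (D i).2.2.2

def tD (K : PAlg G V Z E) (D : ℕ → DT G V) (i : ℕ) : Z :=
  K.tau (D i).2.1 (D i).2.2.1 (D i).2.2.2

/-- contraction against all letters of `S` -/
noncomputable def CnS (K : PAlg G V Z E) (D : ℕ → DT G V) (S : Finset ℕ) : Module.End Z (FS V Z) :=
  S.noncommProd (Cd K D) (fun _ _ _ _ hij => Cn_comm K hij _ _ _ _ _ _ _ _)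

theorem CnS_empty (K : PAlg G V Z E) (D : ℕ → DT G V) : CnS K D ∅ = 1 :=
  Finset.noncommProd_empty _ _

theorem CnS_insert (K : PAlg G V Z E) (D : ℕ → DT G V) {j : ℕ} {S : Finset ℕ} (hj : j ∉ S) :
    CnS K D (insert j S) = CnS K D S * Cd K D j :=
  Finset.noncommProd_insert_of_notMem' _ _ _ _ hj

theorem CnS_insert' (K : PAlg G V Z E) (D : ℕ → DT G V) {j : ℕ} {S : Finset ℕ} (hj : j ∉ S) :
    CnS K D (insert j S) = Cd K D j * CnS K D S :=
  Finset.noncommProd_insert_of_notMem _ _ _ _ hj

theorem CnS_congr (K : PAlg G V Z E) {D D' : ℕ → DT G V} {S : Finset ℕ} (h : ∀ i ∈ S, D i = D' i) :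
    CnS K D S = CnS K D' S := by
  unfold CnS
  apply Finset.noncommProd_congr rfl
  intro i hi
  unfold Cd
  rw [h i hi]

theorem CnS_comm (K : PAlg G V Z E) (D : ℕ → DT G V) (S : Finset ℕ) (y : Module.End Z (FS V Z))
    (h : ∀ i ∈ S, Commute y (Cd K D i)) : Commute y (CnS K D S) :=
  Finset.noncommProd_commute _ _ _ _ h

theorem CnS_Sb (K : PAlg G V Z E) (D : ℕ → DT G V) (S : Finset ℕ) (x : G) (F : FS V Z) :
    CnS K D S (Sb K x F) = Sb K x (CnS K D S F) := by
  have h := CnS_comm K D S (Sb K x) (fun i _ => (Cn_Sb K i _ _ _ _ x).symm)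
  exact (congrArg (fun f => f F) h).symm

theorem CnS_Sp (K : PAlg G V Z E) (D : ℕ → DT G V) (S : Finset ℕ) (j : ℕ) (F : FS V Z) :
    CnS K D S (Sp K (sC j) F) = Sp K (sC j) (CnS K D S F) := by
  have h := CnS_comm K D S (Sp K (sC j)) (fun i _ => (Cn_Sp K i _ _ _ _ j).symm)
  exact (congrArg (fun f => f F) h).symm

theorem CnS_Up (K : PAlg G V Z E) (D : ℕ → DT G V) (S : Finset ℕ) (c : ℕ) (v : V)
    (hc : ∀ i ∈ S, c ≠ sA i ∧ c ≠ sB i) (F : FS V Z) :
    CnS K D S (Up Z c v F) = Up Z c v (CnS K D S F) := by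
  have h := CnS_comm K D S (Up Z c v) (fun i hi => Up_Cn K c v i (hc i hi).1 (hc i hi).2 _ _ _ _)
  exact (congrArg (fun f => f F) h).symm

/-- the function of a monomial; the head of the list is the last letter of the monomial -/
noncomputable def phi (K : PAlg G V Z E) (Pl : Finset ℕ) (x : ℕ → G) : List ℕ → FS V Z
  | [] => fun p => K.k (p 0) (p 1)
  | j :: M => if j ∈ Pl then Sp K (sC j) (phi K Pl x M) else Sb K (x j) (phi K Pl x M)

/-- slots of a set of letters -/
def sl (Pl U : Finset ℕ) : Multiset ℕ :=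
  U.val.bind (fun i => if i ∈ Pl then sC i ::ₘ 0 else sA i ::ₘ sB i ::ₘ 0)

theorem sl_empty (Pl : Finset ℕ) : sl Pl ∅ = 0 := rfl

theorem sl_insP {Pl U : Finset ℕ} {j : ℕ} (hj : j ∉ U) (hP : j ∈ Pl) :
    sl Pl (insert j U) = sC j ::ₘ sl Pl U := by
  unfold sl
  rw [Finset.insert_val_of_notMem hj, Multiset.cons_bind, if_pos hP]
  simp only [Multiset.cons_add, zero_add]

theorem sl_insN {Pl U : Finset ℕ} {j : ℕ} (hj : j ∉ U) (hP : j ∉ Pl) :
    sl Pl (insert j U) = sA j ::ₘ sB j ::ₘ sl Pl U := by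
  unfold sl
  rw [Finset.insert_val_of_notMem hj, Multiset.cons_bind, if_neg hP]
  simp only [Multiset.cons_add, zero_add]

theorem mem_sl {Pl U : Finset ℕ} {s : ℕ} (h : s ∈ sl Pl U) :
    ∃ i ∈ U, (i ∈ Pl ∧ s = sC i) ∨ (i ∉ Pl ∧ (s = sA i ∨ s = sB i)) := by
  unfold sl at h
  rw [Multiset.mem_bind] at h
  obtain ⟨i, hi, hs⟩ := h
  refine ⟨i, hi, ?_⟩
  by_cases hP : i ∈ Pl
  · rw [if_pos hP] at hs
    simp only [Multiset.mem_cons, Multiset.notMem_zero, or_false] at hs
    exact Or.inl ⟨hP, hs⟩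
  · rw [if_neg hP] at hs
    simp only [Multiset.mem_cons, Multiset.notMem_zero, or_false] at hs
    exact Or.inr ⟨hP, hs⟩

theorem sl_nodup (Pl U : Finset ℕ) : (sl Pl U).Nodup := by
  induction U using Finset.induction_on with
  | empty => exact Multiset.nodup_zero
  | insert j U hj ih =>
    by_cases hP : j ∈ Pl
    · rw [sl_insP hj hP, Multiset.nodup_cons]
      refine ⟨fun h => ?_, ih⟩
      obtain ⟨i, hi, h | h⟩ := mem_sl h
      · have : i = j := by have := h.2; unfold sC at this; omega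
        exact hj (this ▸ hi)
      · have := h.2; unfold sC sA sB at this; have hne : i ≠ j := fun e => h.1 (e ▸ hP)
        omega
    · rw [sl_insN hj hP, Multiset.nodup_cons, Multiset.nodup_cons, Multiset.mem_cons, not_or]
      refine ⟨⟨by unfold sA sB; omega, fun h => ?_⟩, fun h => ?_, ih⟩
      · obtain ⟨i, hi, h | h⟩ := mem_sl h
        · have := h.2; unfold sC sA at this; omega
        · have : i = j := by have := h.2; unfold sA sB at this; omega
          exact hj (this ▸ hi)
      · obtain ⟨i, hi, h | h⟩ := mem_sl h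
        · have := h.2; unfold sC sB at this; omega
        · have : i = j := by have := h.2; unfold sA sB at this; omega
          exact hj (this ▸ hi)

theorem sl_nodup' (Pl U : Finset ℕ) : (0 ::ₘ 1 ::ₘ sl Pl U).Nodup := by
  rw [Multiset.nodup_cons, Multiset.nodup_cons, Multiset.mem_cons, not_or]
  refine ⟨⟨by omega, fun h => ?_⟩, fun h => ?_, sl_nodup Pl U⟩
  · obtain ⟨i, hi, h | h⟩ := mem_sl h
    · have := h.2; unfold sC at this; omega
    · have := h.2; unfold sA sB at this; omega
  · obtain ⟨i, hi, h | h⟩ := mem_sl h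
    · have := h.2; unfold sC at this; omega
    · have := h.2; unfold sA sB at this; omega

/-- **monomials as related pairs** -/
theorem mono (K : PAlg G V Z E) (Pl : Finset ℕ) (M : List ℕ) : (∀ i ∈ Pl, M.count i ≤ 1) →
    ∃ (f : FS V Z) (g : (ℕ → VM) → ZMod 2),
      RR K (M.countP (fun i => decide (i ∈ Pl))).bodd (0 ::ₘ 1 ::ₘ sl Pl M.toFinset) f g ∧
      (∀ D, CnS K D (M.toFinset \ Pl) f
        = (∏ i ∈ M.toFinset \ Pl, tD K D i) • phi K Pl (fun i => (D i).1) M) ∧
      ((∃ i ∈ Pl, i ∈ M) → g zA = 0) ∧ (M.Nodup → (∀ i ∈ M, i ∉ Pl) → g zA = 1) := by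
  induction M with
  | nil =>
    intro _
    have h0 := (SS.pr (K := K) 0 1 SS.one).rr
    have e0 : (0 ::ₘ 1 ::ₘ 0 : Multiset ℕ) = 0 ::ₘ 1 ::ₘ sl Pl (([] : List ℕ).toFinset) := by
      rw [List.toFinset_nil, sl_empty]
    have e00 : (List.countP (fun i => decide (i ∈ Pl)) []).bodd = false := by
      rw [List.countP_nil, Nat.bodd_zero]
    rw [e0, ← e00] at h0
    refine ⟨_, _, h0, ?_, ?_, ?_⟩
    · intro D
      simp only [List.toFinset_nil, Finset.empty_sdiff, CnS_empty, Finset.prod_empty, one_smul,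
        mul_one]
      rfl
    · rintro ⟨i, _, h⟩
      simp at h
    · intro _ _
      show kM zM zM * 1 = 1
      decide
  | cons j M ih =>
    intro hc
    have hc' : ∀ i ∈ Pl, M.count i ≤ 1 := by
      intro i hi
      have := hc i hi
      rw [List.count_cons] at this
      omega
    obtain ⟨f, g, h1, h2, h3, h4⟩ := ih hc'
    have hsw : 0 ::ₘ 1 ::ₘ sl Pl M.toFinset = 1 ::ₘ (0 ::ₘ sl Pl M.toFinset) :=
      Multiset.cons_swap _ _ _
    have hnd := sl_nodup' Pl M.toFinset
    by_cases hP : j ∈ Pl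
    · -- P-letter
      have hjM : j ∉ M := by
        intro h
        have h5 := hc j hP
        rw [List.count_cons_self] at h5
        have := List.count_pos_iff.2 h
        omega
      have hjU : j ∉ M.toFinset := fun h => hjM (List.mem_toFinset.1 h)
      rw [hsw] at h1 hnd
      obtain ⟨g', r1, r2⟩ := h1.newP (q := sC j) hnd
      refine ⟨Sp K (sC j) f, g', ?_, ?_, ?_, ?_⟩
      · rw [List.countP_cons_of_pos (by simpa using hP), Nat.bodd_succ, List.toFinset_cons,
          sl_insP hjU hP]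
        have e : 0 ::ₘ 1 ::ₘ sC j ::ₘ sl Pl M.toFinset = sC j ::ₘ 1 ::ₘ 0 ::ₘ sl Pl M.toFinset := by
          simp only [← Multiset.singleton_add]; abel
        rw [e]
        exact r1
      · intro D
        rw [List.toFinset_cons, Finset.insert_sdiff_of_mem _ hP]
        show CnS K D (M.toFinset \ Pl) (Sp K (sC j) f) = _
        rw [CnS_Sp K D _ j, h2, map_smul]
        show _ = _ • (if j ∈ Pl then _ else _)
        rw [if_pos hP]
      · intro _
        exact r2
      · intro _ h
        exact absurd hP (h j List.mem_cons_self)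
    have hcnt : (j :: M).countP (fun i => decide (i ∈ Pl)) = M.countP (fun i => decide (i ∈ Pl)) :=
      List.countP_cons_of_neg (by simpa using hP)
    by_cases hjM : j ∈ M
    · -- old letter
      have hjU : j ∈ M.toFinset := List.mem_toFinset.2 hjM
      obtain ⟨U, hU, hU'⟩ : ∃ U : Finset ℕ, j ∉ U ∧ insert j U = M.toFinset :=
        ⟨M.toFinset.erase j, Finset.notMem_erase _ _, Finset.insert_erase hjU⟩
      have e : 0 ::ₘ 1 ::ₘ sl Pl M.toFinset = sA j ::ₘ sB j ::ₘ 1 ::ₘ (0 ::ₘ sl Pl U) := by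
        rw [← hU', sl_insN hU hP]
        simp only [← Multiset.singleton_add]; abel
      have hnd2 := hnd
      rw [e] at h1 hnd2
      obtain ⟨f', g', r1, r2, r3⟩ := h1.oldL hnd2
      refine ⟨f', g', ?_, ?_, fun _ => r3, ?_⟩
      · rw [hcnt, List.toFinset_cons, Finset.insert_eq_of_mem hjU, e]
        exact r1
      · intro D
        rw [List.toFinset_cons, Finset.insert_eq_of_mem hjU]
        have e2 : M.toFinset \ Pl = insert j (U \ Pl) := by
          rw [← hU', Finset.insert_sdiff_of_notMem _ hP]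
        have hjS : j ∉ U \ Pl := fun h => hU (Finset.mem_sdiff.1 h).1
        have h5 := h2 D
        rw [e2, CnS_insert K D hjS, Module.End.mul_apply] at h5 ⊢
        have e3 : Cd K D j f' = Sb K (D j).1 (Cd K D j f) := by
          have hcm := Cn_Sb K j (D j).1 (D j).2.1 (D j).2.2.1 (D j).2.2.2 (D j).1
          have hcm2 : Cd K D j (Sb K (D j).1 f) = Sb K (D j).1 (Cd K D j f) :=
            congrArg (fun y => y f) hcm
          funext p
          exact r2 _ _ _ _ p
        rw [e3, CnS_Sb, h5, map_smul]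
        show _ = _ • (if j ∈ Pl then _ else _)
        rw [if_neg hP]
      · intro h
        exact absurd hjM (List.nodup_cons.1 h).1
    · -- new letter
      have hjU : j ∉ M.toFinset := fun h => hjM (List.mem_toFinset.1 h)
      have e : sA j ::ₘ sB j ::ₘ 1 ::ₘ (0 ::ₘ sl Pl M.toFinset)
          = 0 ::ₘ 1 ::ₘ sl Pl (insert j M.toFinset) := by
        rw [sl_insN hjU hP]
        simp only [← Multiset.singleton_add]; abel
      rw [hsw] at h1
      obtain ⟨f', g', r1, r2, r3⟩ := h1.newL (A := sA j) (B := sB j) (by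
        rw [e]; exact sl_nodup' _ _)
      rw [e] at r1
      refine ⟨f', g', ?_, ?_, ?_, ?_⟩
      · rw [hcnt, List.toFinset_cons]
        exact r1
      · intro D
        have hjS : j ∉ M.toFinset \ Pl := fun h => hjU (Finset.mem_sdiff.1 h).1
        rw [List.toFinset_cons, Finset.insert_sdiff_of_notMem _ hP, CnS_insert K D hjS,
          Module.End.mul_apply]
        have e3 : Cd K D j f' = tD K D j • Sb K (D j).1 f := by
          funext p
          exact r2 _ _ _ _ p
        rw [e3, map_smul, CnS_Sb, h2, map_smul, smul_smul, Finset.prod_insert hjS]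
        show _ = _ • (if j ∈ Pl then _ else _)
        rw [if_neg hP]
      · rintro ⟨i, hi, hiM⟩
        rw [r3]
        apply h3
        rcases List.mem_cons.1 hiM with h | h
        · exact absurd (h ▸ hi) hP
        · exact ⟨i, hi, h⟩
      · intro hnd3 h
        rw [r3]
        exact h4 (List.nodup_cons.1 hnd3).2 (fun i hi => h i (List.mem_cons_of_mem _ hi))

end P

end E4
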