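import Pool.Agent.Lib.MP_8a95e3_al.P.P27

/-!
# P28 : the natural function of a sum of monomials with two P-letters has parity zero
-/

namespace E4

namespace P

variable {G V Z E : Type} [Group G] [AddCommGroup V] [CommRing Z] [Module Z V] [Ring E]
    [Algebra Z E]

/-- linear in the slot `c` -/
def LA (c : ℕ) (F : FS V Z) : Prop :=
  (∀ u v, Up Z c (u + v) F = Up Z c u F + Up Z c v F) ∧ (∀ (z : Z) u, Up Z c (z • u) F = z • Up Z c u F)

theorem LA_CnS (K : PAlg G V Z E) (D : ℕ → DT G V) (S : Finset ℕ) (c : ℕ)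
    (hc : ∀ i ∈ S, c ≠ sA i ∧ c ≠ sB i) {F : FS V Z} (h : LA c F) : LA c (CnS K D S F) := by
  refine ⟨fun u v => ?_, fun z u => ?_⟩
  · rw [← CnS_Up K D S c _ hc, ← CnS_Up K D S c _ hc, ← CnS_Up K D S c _ hc, h.1, map_add]
  · rw [← CnS_Up K D S c _ hc, ← CnS_Up K D S c _ hc, h.2, map_smul]

theorem LA_RR {K : PAlg G V Z E} {t : Bool} {S : Multiset ℕ} {f : (ℕ → V) → Z}
    {g : (ℕ → VM) → ZMod 2} (h : RR K t S f g) (hn : S.Nodup) {j : ℕ} (hj : j ∈ S) : LA j f := by
  refine ⟨fun u v => ?_, fun z u => ?_⟩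
  · funext p
    exact (h.linV hn hj p).1 u v
  · funext p
    exact (h.linV hn hj p).2 z u

/-- extension from squares -/
theorem LA_ext (K : PAlg G V Z E) {c : ℕ} {F : FS V Z} (h : LA c F)
    (h0 : ∀ (g : G) p, Up Z c (K.t g) F p = 0) : F = 0 := by
  funext p
  have key : ∀ v : V, Up Z c v F p = 0 := by
    intro v
    have hv := K.span v
    induction hv using Submodule.span_induction with
    | mem v hv =>
      obtain ⟨g, rfl⟩ := hv
      exact h0 g p
    | zero =>
      have h1 := h.2 0 0
      rw [zero_smul, zero_smul] at h1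
      rw [h1]; rfl
    | add u v _ _ hu hv =>
      rw [h.1]
      show Up Z c u F p + Up Z c v F p = 0
      rw [hu, hv, add_zero]
    | smul z u _ hu =>
      rw [h.2]
      show z * Up Z c u F p = 0
      rw [hu, mul_zero]
  have h2 := key (p c)
  rw [Up_apply, Function.update_eq_self] at h2
  exact h2

/-- **functions on which all contractions vanish** -/
theorem strip (K : PAlg G V Z E) (S : Finset ℕ) : ∀ F : FS V Z,
    (∀ i ∈ S, LA (sA i) F ∧ LA (sB i) F) → (∀ D, CnS K D S F = 0) → F = 0 := by
  induction S using Finset.induction_on with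
  | empty =>
    intro F _ h
    have := h (fun _ => (1, 0, 0, 0))
    rw [CnS_empty] at this
    exact this
  | insert j S hj ih =>
    intro F hlin h
    apply ih F (fun i hi => hlin i (Finset.mem_insert_of_mem hi))
    intro D
    have hA : ∀ i ∈ S, sA j ≠ sA i ∧ sA j ≠ sB i := by
      intro i hi
      have : i ≠ j := by rintro rfl; exact hj hi
      unfold sA sB
      omega
    have hB : ∀ i ∈ S, sB j ≠ sA i ∧ sB j ≠ sB i := by
      intro i hi
      have : i ≠ j := by rintro rfl; exact hj hi
      unfold sA sB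
      omega
    have hjl := hlin j (Finset.mem_insert_self j S)
    have h1 := LA_CnS K D S (sA j) hA hjl.1
    have h2 := LA_CnS K D S (sB j) hB hjl.2
    have h3 : ∀ x a b c, Cn K j x a b c (CnS K D S F) = 0 := by
      intro x a b c
      have h4 := h (Function.update D j (x, a, b, c))
      rw [CnS_insert' K _ hj, Module.End.mul_apply] at h4
      have h5 : CnS K (Function.update D j (x, a, b, c)) S = CnS K D S := by
        apply CnS_congr
        intro i hi
        rw [Function.update_of_ne]
        rintro rfl; exact hj hi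
      rw [h5] at h4
      unfold Cd at h4
      simp only [Function.update_self] at h4
      exact h4
    generalize CnS K D S F = H at h1 h2 h3
    funext p
    have hne : sA j ≠ sB j := by unfold sA sB; omega
    have hupd : ∀ u v : V, Up Z (sA j) u (Up Z (sB j) v H) p = H (u2 p (sA j) u (sB j) v) :=
      fun _ _ => rfl
    let B : V →ₗ[Z] V →ₗ[Z] Z := LinearMap.mk₂ Z (fun u v => H (u2 p (sA j) u (sB j) v))
      (by
        intro u u' v
        have e : ∀ w : V, H (u2 p (sA j) w (sB j) v)
            = Up Z (sA j) w H (Function.update p (sB j) v) := by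
          intro w
          rw [Up_apply]
          unfold u2
          rw [Function.update_comm hne]
        rw [e, e, e, h1.1]; rfl)
      (by
        intro z u v
        have e : ∀ w : V, H (u2 p (sA j) w (sB j) v)
            = Up Z (sA j) w H (Function.update p (sB j) v) := by
          intro w
          rw [Up_apply]
          unfold u2
          rw [Function.update_comm hne]
        rw [e, e, h1.2]; rfl)
      (by
        intro u v v'
        have e : ∀ w : V, H (u2 p (sA j) u (sB j) w)
            = Up Z (sB j) w H (Function.update p (sA j) u) := fun _ => rfl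
        rw [e, e, e, h2.1]; rfl)
      (by
        intro z u v
        have e : ∀ w : V, H (u2 p (sA j) u (sB j) w)
            = Up Z (sB j) w H (Function.update p (sA j) u) := fun _ => rfl
        rw [e, e, h2.2]; rfl)
    have hBB : ∀ u v, B u v = H (u2 p (sA j) u (sB j) v) := fun _ _ => rfl
    have h6 := K.legit K.tf_Z B (by
      intro x a b c
      rw [hBB, hBB, hBB]
      exact congrArg (fun f => f p) (h3 x a b c)) (p (sA j)) (p (sB j))
    rw [hBB] at h6
    have h7 : u2 p (sA j) (p (sA j)) (sB j) (p (sB j)) = p := by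
      unfold u2
      rw [Function.update_eq_self, Function.update_eq_self]
    rw [h7] at h6
    exact h6

/-- multiplication by `k(p_a, p_b)` -/
def Mk (K : PAlg G V Z E) (a b : ℕ) : Module.End Z (FS V Z) where
  toFun F := fun p => K.k (p a) (p b) * F p
  map_add' F F' := by
    funext p
    exact mul_add _ _ _
  map_smul' z F := by
    funext p
    show K.k (p a) (p b) * (z * F p) = z * (K.k (p a) (p b) * F p)
    ring

theorem Up_Mk (K : PAlg G V Z E) {c a b : ℕ} (h : a ≠ c) (h' : b ≠ c) (v : V) :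
    Commute (Up Z c v) (Mk K a b) := by
  apply LinearMap.ext
  intro F
  funext p
  show K.k ((Function.update p c v) a) ((Function.update p c v) b) * F (Function.update p c v)
    = K.k (p a) (p b) * F (Function.update p c v)
  rw [Function.update_of_ne h, Function.update_of_ne h']

theorem CnS_Mk (K : PAlg G V Z E) (D : ℕ → DT G V) (S : Finset ℕ) (y q : ℕ) (F : FS V Z) :
    CnS K D S (Mk K (sC y) (sC q) F) = Mk K (sC y) (sC q) (CnS K D S F) := by
  have h := CnS_comm K D S (Mk K (sC y) (sC q)) (fun i _ => by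
    have h1 : ∀ v, Commute (Up Z (sA i) v) (Mk K (sC y) (sC q)) := fun v =>
      Up_Mk K (by unfold sA sC; omega) (by unfold sA sC; omega) v
    have h2 : ∀ v, Commute (Up Z (sB i) v) (Mk K (sC y) (sC q)) := fun v =>
      Up_Mk K (by unfold sB sC; omega) (by unfold sB sC; omega) v
    have h3 : ∀ w w', Commute (Up Z (sA i) w * Up Z (sB i) w') (Mk K (sC y) (sC q)) := fun w w' =>
      (h1 w).mul_left (h2 w')
    exact (((h3 _ _).add_left (h3 _ _)).add_left (h3 _ _)).symm)
  exact (congrArg (fun f => f F) h).symm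

theorem sdf {y q : ℕ} {L : Finset ℕ} (hy : y ∉ L) (hq : q ∉ L) :
    insert y (insert q L) \ {y, q} = L := by
  ext i
  simp only [Finset.mem_sdiff, Finset.mem_insert, Finset.mem_singleton, not_or]
  constructor
  · rintro ⟨h | h | h, h1, h2⟩
    · exact absurd h h1
    · exact absurd h h2
    · exact h
  · intro h
    exact ⟨Or.inr (Or.inr h), fun e => hy (e ▸ h), fun e => hq (e ▸ h)⟩

theorem cnt2 {y q : ℕ} (hyq : y ≠ q) (M : List ℕ) :
    M.countP (fun i => decide (i ∈ ({y, q} : Finset ℕ))) = M.count y + M.count q := by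
  induction M with
  | nil => rfl
  | cons j M ih =>
    rw [List.count_cons, List.count_cons, List.countP_cons, ih]
    by_cases h1 : j = y
    · subst h1
      simp [hyq]; omega
    · by_cases h2 : j = q
      · subst h2
        simp [h1]; omega
      · simp [h1, h2]

/-- sums of monomials with the same letters -/
theorem monoSum (K : PAlg G V Z E) (L : Finset ℕ) (y q : ℕ) (hy : y ∉ L) (hq : q ∉ L) (hyq : y ≠ q)
    (Ms : List (List ℕ)) (hM : ∀ M ∈ Ms, M.toFinset = insert y (insert q L) ∧ M.count y = 1 ∧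
      M.count q = 1) :
    ∃ (F : FS V Z) (g : (ℕ → VM) → ZMod 2),
      RR K false (0 ::ₘ 1 ::ₘ sl {y, q} (insert y (insert q L))) F g ∧
      (∀ D, CnS K D L F = (∏ i ∈ L, tD K D i) •
        (Ms.map (fun M => phi K {y, q} (fun i => (D i).1) M)).sum) ∧ g zA = 0 := by
  induction Ms with
  | nil =>
    refine ⟨_, _, RR.zero _ _, fun D => ?_, rfl⟩
    rw [List.map_nil, List.sum_nil, smul_zero]
    exact map_zero _
  | cons M Ms ih =>
    obtain ⟨F, g, h1, h2, h3⟩ := ih (fun M' hM' => hM M' (List.mem_cons_of_mem _ hM'))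
    obtain ⟨e1, e2, e3⟩ := hM M List.mem_cons_self
    obtain ⟨f, g', r1, r2, r3, _⟩ := mono K {y, q} M (by
      intro i hi
      rcases Finset.mem_insert.1 hi with h | h
      · rw [h, e2]
      · rw [Finset.mem_singleton.1 h, e3])
    rw [cnt2 hyq, e2, e3, e1] at r1
    refine ⟨f + F, fun m => g' m + g m, r1.addR h1, fun D => ?_, ?_⟩
    · have h5 := r2 D
      rw [e1, sdf hy hq] at h5
      rw [map_add, h5, h2, List.map_cons, List.sum_cons, smul_add]
    · beta_reduce
      rw [h3, r3 ⟨y, by simp, by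
        have : y ∈ M.toFinset := by rw [e1]; simp
        exact List.mem_toFinset.1 this⟩, add_zero]

/-- **core of (parB)** -/
theorem coreB [Nontrivial E] (K : PAlg G V Z E) (L : Finset ℕ) (m y q : ℕ) (hm : m ∈ L) (hy : y ∉ L)
    (hq : q ∉ L) (hyq : y ≠ q) (Ms : List (List ℕ))
    (hM : ∀ M ∈ Ms, M.toFinset = insert y (insert q L) ∧ M.count y = 1 ∧ M.count q = 1)
    (N : List ℕ) (hN : N.toFinset = L.erase m) (hNn : N.Nodup)
    (H : ∀ (x : ℕ → G) (p : ℕ → V), (∃ g, p (sC y) = K.t g) → (∃ g, p (sC q) = K.t g) →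
      ((Ms.map (fun M => phi K {y, q} x M)).sum) p
        + K.k (p (sC y)) (p (sC q)) * (K.th (x m) * phi K {y, q} x N p) = 0) : False := by
  obtain ⟨F, g, h1, h2, h3⟩ := monoSum K L y q hy hq hyq Ms hM
  have hNP : ∀ i ∈ N, i ∉ ({y, q} : Finset ℕ) := by
    intro i hi h
    have h5 : i ∈ L.erase m := by rw [← hN]; exact List.mem_toFinset.2 hi
    have h6 := Finset.mem_of_mem_erase h5
    rcases Finset.mem_insert.1 h with h | h
    · exact hy (h ▸ h6)
    · exact hq ((Finset.mem_singleton.1 h) ▸ h6)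
  obtain ⟨f, g', r1, r2, _, r4⟩ := mono K {y, q} N (by
    intro i hi
    rw [List.count_eq_zero_of_not_mem (fun h => hNP i h hi)]
    omega)
  have hc0 : N.countP (fun i => decide (i ∈ ({y, q} : Finset ℕ))) = 0 := by
    rw [cnt2 hyq, List.count_eq_zero_of_not_mem (fun h => hNP y h (by simp)),
      List.count_eq_zero_of_not_mem (fun h => hNP q h (by simp))]
  rw [hc0, hN] at r1
  have hyE : y ∉ L.erase m := fun h => hy (Finset.mem_of_mem_erase h)
  have hqE : q ∉ L.erase m := fun h => hq (Finset.mem_of_mem_erase h)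
  have hmy : m ≠ y := by rintro rfl; exact hy hm
  have hmq : m ≠ q := by rintro rfl; exact hq hm
  have hNs : N.toFinset \ {y, q} = L.erase m := by
    rw [hN]
    ext i
    simp only [Finset.mem_sdiff, Finset.mem_insert, Finset.mem_singleton, not_or]
    exact ⟨fun h => h.1, fun h => ⟨h, fun e => hyE (e ▸ h), fun e => hqE (e ▸ h)⟩⟩
  -- the right hand side
  have r5 := (r1.mulK (sA m) (sB m)).mulK (sC y) (sC q)
  have eL : L = insert m (L.erase m) := (Finset.insert_erase hm).symm
  have hmE : m ∉ L.erase m := Finset.notMem_erase m L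
  have eS : sC y ::ₘ sC q ::ₘ sA m ::ₘ sB m ::ₘ 0 ::ₘ 1 ::ₘ sl {y, q} (L.erase m)
      = 0 ::ₘ 1 ::ₘ sl {y, q} (insert y (insert q L)) := by
    rw [sl_insP (by simp [hyq, hy]) (by simp), sl_insP hq (by simp)]
    conv_rhs => rw [eL]
    rw [sl_insN hmE (by simp [hmy, hmq])]
    simp only [← Multiset.singleton_add]; abel
  rw [eS] at r5
  have rT := h1.addR r5
  have hnd := sl_nodup' {y, q} (insert y (insert q L))
  have hmemS : ∀ i, i ∈ sl {y, q} (insert y (insert q L)) →
      i ∈ 0 ::ₘ 1 ::ₘ sl {y, q} (insert y (insert q L)) := by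
    intro i hi; simp [hi]
  have hCy : sC y ∈ 0 ::ₘ 1 ::ₘ sl {y, q} (insert y (insert q L)) := by rw [← eS]; simp
  have hCq : sC q ∈ 0 ::ₘ 1 ::ₘ sl {y, q} (insert y (insert q L)) := by rw [← eS]; simp
  have hAB : ∀ i ∈ L, sA i ∈ 0 ::ₘ 1 ::ₘ sl {y, q} (insert y (insert q L)) ∧
      sB i ∈ 0 ::ₘ 1 ::ₘ sl {y, q} (insert y (insert q L)) := by
    intro i hi
    have e1 : L = insert i (L.erase i) := (Finset.insert_erase hi).symm
    have hiy : i ≠ y := by rintro rfl; exact hy hi
    have hiq : i ≠ q := by rintro rfl; exact hq hi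
    have : sl {y, q} (insert y (insert q L))
        = sC y ::ₘ sC q ::ₘ sA i ::ₘ sB i ::ₘ sl {y, q} (L.erase i) := by
      rw [sl_insP (by simp [hyq, hy]) (by simp), sl_insP hq (by simp)]
      conv_lhs => rw [e1]
      rw [sl_insN (Finset.notMem_erase i L) (by simp [hiy, hiq])]
    rw [this]
    simp
  obtain ⟨fR, hfR⟩ : ∃ fR : FS V Z, fR = fun p => K.k (p (sC y)) (p (sC q)) *
    (K.k (p (sA m)) (p (sB m)) * f p) := ⟨_, rfl⟩
  obtain ⟨GT, rT'⟩ : ∃ GT, RR K false (0 ::ₘ 1 ::ₘ sl {y, q} (insert y (insert q L))) (F + fR) GT :=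
    ⟨_, by rw [hfR]; exact rT⟩
  -- contraction of the right hand side
  have hR : ∀ D, CnS K D L fR = (∏ i ∈ L, tD K D i) • (K.th (D m).1 •
      Mk K (sC y) (sC q) (phi K {y, q} (fun i => (D i).1) N)) := by
    intro D
    have e1 : Cd K D m fR = (tD K D m * K.th (D m).1) • Mk K (sC y) (sC q) f := by
      rw [hfR]
      funext p
      have hl : ∀ α β : V, f (u2 p (sA m) α (sB m) β) = f p := by
        intro α β
        apply r1.loc
        intro i hi
        have hnd3 : (sA m ::ₘ sB m ::ₘ 0 ::ₘ 1 ::ₘ sl {y, q} (L.erase m)).Nodup := by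
          have h5 : (sC y ::ₘ sC q ::ₘ sA m ::ₘ sB m ::ₘ 0 ::ₘ 1 ::ₘ sl {y, q} (L.erase m)).Nodup := by
            rw [eS]; exact hnd
          rw [Multiset.nodup_cons, Multiset.nodup_cons] at h5
          exact h5.2.2
        rw [Multiset.nodup_cons, Multiset.nodup_cons] at hnd3
        apply u2_ne
        · rintro rfl
          exact hnd3.1 (Multiset.mem_cons_of_mem hi)
        · rintro rfl
          exact hnd3.2.1 hi
      have hne : sA m ≠ sB m := by unfold sA sB; omega
      have c1 : sC y ≠ sA m := by unfold sA sC; omega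
      have c2 : sC y ≠ sB m := by unfold sB sC; omega
      have c3 : sC q ≠ sA m := by unfold sA sC; omega
      have c4 : sC q ≠ sB m := by unfold sB sC; omega
      show (K.k ((u2 p (sA m) _ (sB m) _) (sC y)) ((u2 p (sA m) _ (sB m) _) (sC q)) *
        (K.k ((u2 p (sA m) _ (sB m) _) (sA m)) ((u2 p (sA m) _ (sB m) _) (sB m))
          * f (u2 p (sA m) _ (sB m) _))) +
        (K.k ((u2 p (sA m) _ (sB m) _) (sC y)) ((u2 p (sA m) _ (sB m) _) (sC q)) *
        (K.k ((u2 p (sA m) _ (sB m) _) (sA m)) ((u2 p (sA m) _ (sB m) _) (sB m))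
          * f (u2 p (sA m) _ (sB m) _))) +
        (K.k ((u2 p (sA m) _ (sB m) _) (sC y)) ((u2 p (sA m) _ (sB m) _) (sC q)) *
        (K.k ((u2 p (sA m) _ (sB m) _) (sA m)) ((u2 p (sA m) _ (sB m) _) (sB m))
          * f (u2 p (sA m) _ (sB m) _)))
        = (tD K D m * K.th (D m).1) * (K.k (p (sC y)) (p (sC q)) * f p)
      simp only [hl, u2_j hne, u2_x, u2_ne c1 c2, u2_ne c3 c4]
      have h5 := K.tr_X (D m).1 (D m).2.1 (D m).2.2.1 (D m).2.2.2
      unfold tD
      linear_combination (K.k (p (sC y)) (p (sC q)) * f p) * h5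
    have e2 : CnS K D L fR = CnS K D (L.erase m) (Cd K D m fR) := by
      conv_lhs => rw [eL]
      rw [CnS_insert K D hmE, Module.End.mul_apply]
    rw [e2, e1, map_smul, CnS_Mk]
    have h6 := r2 D
    rw [hNs] at h6
    rw [h6, map_smul, smul_smul, smul_smul]
    congr 1
    rw [← Finset.mul_prod_erase L (tD K D) hm]
    ring
  -- the total function
  have hT0 : ∀ D, CnS K D L (F + fR) = 0 := by
    intro D
    have hs : ∀ c : ℕ, (c = sC y ∨ c = sC q) → ∀ i ∈ L, c ≠ sA i ∧ c ≠ sB i := by
      intro c hc i _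
      rcases hc with h | h
      · rw [h]; unfold sA sB sC; omega
      · rw [h]; unfold sA sB sC; omega
    have l1 := LA_CnS K D L (sC y) (hs _ (Or.inl rfl)) (LA_RR rT' hnd hCy)
    have l2 := LA_CnS K D L (sC q) (hs _ (Or.inr rfl)) (LA_RR rT' hnd hCq)
    apply LA_ext K l1
    intro g1 p1
    -- second letter
    have hne : sC y ≠ sC q := by unfold sC; omega
    have h7 : Up Z (sC y) (K.t g1) (CnS K D L (F + fR)) = 0 := by
      apply LA_ext K (c := sC q)
      · refine ⟨fun u v => ?_, fun z u => ?_⟩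
        · have c1 := fun w => congrArg (fun f => f (CnS K D L (F + fR)))
            (Up_comm (Z := Z) (Ne.symm hne) w (K.t g1))
          have c2 : ∀ w, Up Z (sC q) w (Up Z (sC y) (K.t g1) (CnS K D L (F + fR)))
            = Up Z (sC y) (K.t g1) (Up Z (sC q) w (CnS K D L (F + fR))) := fun w => c1 w
          rw [c2, c2, c2, l2.1, map_add]
        · have c1 := fun w => congrArg (fun f => f (CnS K D L (F + fR)))
            (Up_comm (Z := Z) (Ne.symm hne) w (K.t g1))
          have c2 : ∀ w, Up Z (sC q) w (Up Z (sC y) (K.t g1) (CnS K D L (F + fR)))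
            = Up Z (sC y) (K.t g1) (Up Z (sC q) w (CnS K D L (F + fR))) := fun w => c1 w
          rw [c2, c2, l2.2, map_smul]
      · intro g2 p
        show CnS K D L (F + fR) (Function.update (Function.update p (sC q) (K.t g2)) (sC y) (K.t g1)) = 0
        rw [map_add, h2, hR, ← smul_add]
        show (∏ i ∈ L, tD K D i) * _ = 0
        have h8 := H (fun i => (D i).1) (Function.update (Function.update p (sC q) (K.t g2)) (sC y) (K.t g1))
          ⟨g1, by rw [Function.update_self]⟩
          ⟨g2, by rw [Function.update_of_ne (Ne.symm hne), Function.update_self]⟩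
        have h9 : ∀ p : ℕ → V, ((Ms.map (fun M => phi K {y, q} (fun i => (D i).1) M)).sum
            + K.th (D m).1 • Mk K (sC y) (sC q) (phi K {y, q} (fun i => (D i).1) N)) p
            = ((Ms.map (fun M => phi K {y, q} (fun i => (D i).1) M)).sum) p
              + K.k (p (sC y)) (p (sC q)) * (K.th (D m).1 * phi K {y, q} (fun i => (D i).1) N p) := by
          intro p
          show _ + K.th (D m).1 * (K.k (p (sC y)) (p (sC q)) * _) = _
          ring
        rw [h9, h8, mul_zero]
    exact congrArg (fun f => f p1) h7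
  have hF0 : F + fR = 0 := by
    apply strip K L _ _ hT0
    intro i hi
    exact ⟨LA_RR rT' hnd (hAB i hi).1, LA_RR rT' hnd (hAB i hi).2⟩
  have hlam := lam (K := K) _ _ _ _ _ rfl hnd rT (by
    intro p
    have := congrArg (fun f => f p) hF0
    rw [hfR] at this
    exact this) zA (by
      have : Multiset.filter (fun i => zA i ≠ zM) (0 ::ₘ 1 ::ₘ sl {y, q} (insert y (insert q L))) = 0 := by
        rw [Multiset.filter_eq_nil]
        intro i _ h
        exact h rfl
      rw [this]; simp)
  beta_reduce at hlam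
  rw [h3, r4 hNn hNP] at hlam
  revert hlam
  show ¬ ((0 : ZMod 2) + kM zM zM * (kM zM zM * 1) = 0)
  decide

end P

end E4
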