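import Pool.Agent.Lib.MP_8a95e3_al.P.P23
import Pool.Agent.Lib.MP_8a95e3_al.P.P28

/-!
# P29 : expansion of elements of the group ring into monomials in the `X_j`
-/

namespace E4

namespace P

open E4.X (FB eB C T Xl XP BB idl rp ret kls sqs sw)

variable {V Z E : Type} [AddCommGroup V] [CommRing Z] [Module Z V] [Ring E] [Algebra Z E]

/-- value of a monomial; the head of the list is the last letter -/
def vE (K : PAlg F V Z E) (w : ℕ → F) : List ℕ → E
  | [] => 1
  | j :: M => vE K w M * K.X (w j)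

theorem vE_append (K : PAlg F V Z E) (w : ℕ → F) (M N : List ℕ) :
    vE K w (M ++ N) = vE K w N * vE K w M := by
  induction M with
  | nil => simp [vE]
  | cons j M ih =>
    rw [List.cons_append]
    show vE K w (M ++ N) * K.X (w j) = vE K w N * (vE K w M * K.X (w j))
    rw [ih, mul_assoc]

theorem X_one (K : PAlg F V Z E) : K.X 1 = 0 := by
  unfold PAlg.X
  rw [map_one, K.ee]

theorem vE_congr (K : PAlg F V Z E) {w w' : ℕ → F} {M : List ℕ} (h : ∀ j ∈ M, w j = w' j) :
    vE K w M = vE K w' M := by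
  induction M with
  | nil => rfl
  | cons j M ih =>
    show vE K w M * K.X (w j) = vE K w' M * K.X (w' j)
    rw [ih (fun i hi => h i (List.mem_cons_of_mem _ hi)), h j List.mem_cons_self]

theorem vE_kill (K : PAlg F V Z E) {w : ℕ → F} {M : List ℕ} {j : ℕ} (hj : j ∈ M) (h : w j = 1) :
    vE K w M = 0 := by
  induction M with
  | nil => simp at hj
  | cons i M ih =>
    show vE K w M * K.X (w i) = 0
    rcases List.mem_cons.1 hj with h1 | h1
    · rw [← h1, h, X_one, mul_zero]
    · rw [ih h1, zero_mul]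

/-- group words as sums of monomials -/
theorem gmon (K : PAlg F V Z E) (a : F) : ∃ Ms : List (List ℕ), ∀ w : ℕ → F,
    K.ρ (FreeGroup.lift w a) = (Ms.map (vE K w)).sum := by
  induction a using FreeGroup.induction_on with
  | C1 => exact ⟨[[]], fun w => by simp [vE]⟩
  | of j =>
    refine ⟨[[], [j]], fun w => ?_⟩
    rw [FreeGroup.lift_apply_of, K.r_eq]
    simp [vE]
  | inv_of j _ =>
    refine ⟨[[], [j], [j, j]], fun w => ?_⟩
    rw [map_inv, FreeGroup.lift_apply_of, K.r_inv_eq, ← K.XX]
    simp only [List.map_cons, List.map_nil, List.sum_cons, List.sum_nil, vE, one_mul, add_zero]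
    abel
  | mul a b ha hb =>
    obtain ⟨Ma, hMa⟩ := ha
    obtain ⟨Mb, hMb⟩ := hb
    refine ⟨Ma.flatMap (fun A => Mb.map (fun B => B ++ A)), fun w => ?_⟩
    rw [map_mul, map_mul, hMa, hMb]
    clear hMa
    induction Ma with
    | nil => simp
    | cons A Ma ih =>
      rw [List.map_cons, List.sum_cons, add_mul, ih, List.flatMap_cons, List.map_append,
        List.sum_append]
      congr 1
      rw [List.map_map, ← List.sum_map_mul_left]
      congr 1
      apply List.map_congr_left
      intro B _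
      show _ = vE K w (B ++ A)
      rw [vE_append]

/-- `v ↦ l([v, t_h])` is a linear function of a P-letter -/
theorem lb_LinF (K : PAlg F V Z E) (h : F) : ∃ s ∈ LinF K, ∀ v : V, s v = K.l (K.b v (K.t h)) := by
  refine ⟨lab K 1 h + lab K 1 h⁻¹ + (lab K h 1 + lab K h⁻¹ 1),
    add_mem (add_mem (AddSubgroup.subset_closure ⟨_, _, rfl⟩) (AddSubgroup.subset_closure ⟨_, _, rfl⟩))
      (add_mem (AddSubgroup.subset_closure ⟨_, _, rfl⟩) (AddSubgroup.subset_closure ⟨_, _, rfl⟩)),
    fun v => ?_⟩
  simp only [LinearMap.add_apply, lab_apply, map_one, one_mul, mul_one]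
  rw [K.l_b, K.l_t]
  noncomm_ring

/-- two P-letters kill linear functions in front of their bracket -/
theorem kill_l (K : PAlg F V Z E) {r : V →ₗ[Z] E} (hr : r ∈ LinF K) (g h : F) :
    r (K.t g) * K.l (K.b (K.t g) (K.t h)) = 0 ∧ K.l (K.b (K.t g) (K.t h)) * r (K.t g) = 0 := by
  obtain ⟨s, hs, hs'⟩ := lb_LinF K h
  rw [← hs']
  exact ⟨LinF_sq K g hr hs, LinF_sq K g hs hr⟩

section

variable {K : PAlg F V Z E} {e : FB →+* E} {P0 : AddSubgroup FB} (M : Md K e P0)

include M

theorem Md.killy (w : ℕ → F) (y : ℕ) (g h : F) (hy : w y = g ^ 2) (a : F) :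
    K.ρ (FreeGroup.lift w a) * K.l (K.b (K.t g) (K.t h))
      = K.ρ (FreeGroup.lift (Function.update w y 1) a) * K.l (K.b (K.t g) (K.t h)) ∧
    K.l (K.b (K.t g) (K.t h)) * K.ρ (FreeGroup.lift w a)
      = K.l (K.b (K.t g) (K.t h)) * K.ρ (FreeGroup.lift (Function.update w y 1) a) := by
  obtain ⟨r, hr, hr'⟩ := M.lin w y (E4.X.o a)
  have h1 := hr' g
  rw [← hy, Function.update_eq_self, M.evx_o, M.evx_o] at h1
  obtain ⟨k1, k2⟩ := kill_l K hr g h
  rw [h1, add_mul, mul_add, k1, k2, add_zero, add_zero]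
  exact ⟨rfl, rfl⟩

theorem Md.killyz (w : ℕ → F) (y z : ℕ) (hyz : y ≠ z) (g h : F) (hy : w y = g ^ 2) (hz : w z = h ^ 2)
    (a : F) :
    K.ρ (FreeGroup.lift w a) * K.l (K.b (K.t g) (K.t h))
      = K.ρ (FreeGroup.lift (Function.update (Function.update w y 1) z 1) a)
        * K.l (K.b (K.t g) (K.t h)) ∧
    K.l (K.b (K.t g) (K.t h)) * K.ρ (FreeGroup.lift w a)
      = K.l (K.b (K.t g) (K.t h))
        * K.ρ (FreeGroup.lift (Function.update (Function.update w y 1) z 1) a) := by
  obtain ⟨k1, k2⟩ := M.killy w y g h hy a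
  obtain ⟨k3, k4⟩ := M.killy (Function.update w y 1) z h g (by
    rw [Function.update_of_ne (Ne.symm hyz), hz]) a
  rw [K.b_symm (K.t h)] at k3 k4
  exact ⟨k1.trans k3, k2.trans k4⟩

omit M in
/-- monomials without the letters `y`, `z` -/
theorem sum_kill (w : ℕ → F) (y z : ℕ) (Ms : List (List ℕ)) :
    (Ms.map (vE K (Function.update (Function.update w y 1) z 1))).sum
      = ((Ms.filter (fun A => decide (y ∉ A ∧ z ∉ A))).map (vE K w)).sum := by
  induction Ms with
  | nil => rfl
  | cons A Ms ih =>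
    rw [List.map_cons, List.sum_cons, ih]
    by_cases h : y ∉ A ∧ z ∉ A
    · rw [List.filter_cons_of_pos (by simpa using h), List.map_cons, List.sum_cons]
      congr 1
      apply vE_congr
      intro j hj
      rw [Function.update_of_ne (by rintro rfl; exact h.2 hj),
        Function.update_of_ne (by rintro rfl; exact h.1 hj)]
    · rw [List.filter_cons_of_neg (by simpa using h)]
      have : vE K (Function.update (Function.update w y 1) z 1) A = 0 := by
        by_cases hy : y ∈ A
        · apply vE_kill K hy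
          by_cases hyz : y = z
          · rw [hyz, Function.update_self]
          · rw [Function.update_of_ne hyz, Function.update_self]
        · have hz : z ∈ A := by
            by_contra hz; exact h ⟨hy, hz⟩
          apply vE_kill K hz
          rw [Function.update_self]
      rw [this, zero_add]

/-- **elements of the ideal of `YZ + ZY` as sums of monomials** -/
theorem Md.idlsum (y z : ℕ) (hyz : y ≠ z) (s : FB) (hs : s ∈ idl {Xl y * Xl z + Xl z * Xl y}) :
    ∃ Ms : List (List ℕ × List ℕ), (∀ A ∈ Ms, y ∉ A.1 ∧ z ∉ A.1 ∧ y ∉ A.2 ∧ z ∉ A.2) ∧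
      ∀ (w : ℕ → F) (g h : F), w y = g ^ 2 → w z = h ^ 2 →
        evx e w s = (Ms.map (fun A => vE K w A.1 * K.l (K.b (K.t g) (K.t h)) * vE K w A.2)).sum := by
  induction hs using AddSubgroup.closure_induction with
  | mem s hs =>
    obtain ⟨a, b, s', hs', rfl⟩ := hs
    rw [Set.mem_singleton_iff] at hs'
    subst hs'
    obtain ⟨Ma, hMa⟩ := gmon K a
    obtain ⟨Mb, hMb⟩ := gmon K b
    refine ⟨(Ma.filter (fun A => decide (y ∉ A ∧ z ∉ A))).flatMap
      (fun A => (Mb.filter (fun A => decide (y ∉ A ∧ z ∉ A))).map (fun B => (A, B))), ?_, ?_⟩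
    · intro A hA
      rw [List.mem_flatMap] at hA
      obtain ⟨A1, hA1, hA2⟩ := hA
      rw [List.mem_map] at hA2
      obtain ⟨A2, hA2, rfl⟩ := hA2
      rw [List.mem_filter] at hA1 hA2
      have h1 := hA1.2
      have h2 := hA2.2
      simp only [decide_eq_true_eq] at h1 h2
      exact ⟨h1.1, h1.2, h2.1, h2.2⟩
    · intro w g h hy hz
      rw [map_mul, map_mul, map_add, map_mul, map_mul, M.evx_o, M.evx_o, M.evx_Xl_sq w y hy,
        M.evx_Xl_sq w z hz, ← K.l_b]
      rw [(M.killyz w y z hyz g h hy hz a).1, mul_assoc, (M.killyz w y z hyz g h hy hz b).2, ← mul_assoc,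
        hMa, hMb, sum_kill, sum_kill]
      generalize Ma.filter (fun A => decide (y ∉ A ∧ z ∉ A)) = L1
      generalize Mb.filter (fun A => decide (y ∉ A ∧ z ∉ A)) = L2
      induction L1 with
      | nil => simp
      | cons A L1 ih =>
        rw [List.map_cons, List.sum_cons, add_mul, add_mul, ih, List.flatMap_cons, List.map_append,
          List.sum_append]
        congr 1
        rw [List.map_map, ← List.sum_map_mul_left]
        rfl
  | zero =>
    refine ⟨[], by simp, fun w g h _ _ => ?_⟩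
    rw [map_zero]; rfl
  | add a b _ _ ha hb =>
    obtain ⟨Ma, h1, h2⟩ := ha
    obtain ⟨Mb, h3, h4⟩ := hb
    refine ⟨Ma ++ Mb, ?_, ?_⟩
    · intro A hA
      rcases List.mem_append.1 hA with h | h
      · exact h1 A h
      · exact h3 A h
    · intro w g h hy hz
      rw [map_add, h2 w g h hy hz, h4 w g h hy hz, List.map_append, List.sum_append]
  | neg a _ ha =>
    obtain ⟨Ma, h1, h2⟩ := ha
    refine ⟨Ma, h1, fun w g h hy hz => ?_⟩
    rw [map_neg, K.neg_e, h2 w g h hy hz]

end

/-- value of `BB` -/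
theorem BBval (K : PAlg F V Z E) (x : F) (p r d : V) :
    K.l (K.t x) * K.l p * K.l r * K.l d * K.X x + K.l (K.t x) * K.l d * K.X x * K.l r * K.l p
      = (K.th x * K.tau p r d) • (1 : E) := by
  have hE := K.E1 d r p
  have hE2 := K.E1 d p r
  -- p r d = [p,d] r + k(p,r) d + τ
  have h1 : K.l p * K.l r * K.l d = K.l (K.b p d) * K.l r + K.k p r • K.l d
      + K.tau d p r • (1 : E) := by
    have e0 : K.tau d p r • (1 : E) = K.k (K.b d p) r • (1 : E) := rfl
    rw [e0, ← hE2, K.l_b]
    have e1 := K.ee (K.l p * K.l d * K.l r)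
    have e2 := K.ee (K.l d * K.l p * K.l r)
    have e3 := K.ee (K.k p r • K.l d)
    calc K.l p * K.l r * K.l d = K.l p * K.l r * K.l d + (K.l p * K.l d * K.l r + K.l p * K.l d * K.l r)
          + (K.l d * K.l p * K.l r + K.l d * K.l p * K.l r) + (K.k p r • K.l d + K.k p r • K.l d) := by
          rw [e1, e2, e3]; simp
      _ = _ := by
          have : (K.l p * K.l d + K.l d * K.l p) * K.l r = K.l p * K.l d * K.l r + K.l d * K.l p * K.l r := by
            noncomm_ring
          rw [this]
          abel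
  have h2 : K.l (K.t x) * K.l p * K.l r * K.l d * K.X x
      = K.l (K.t x) * (K.l p * K.l r * K.l d) * K.X x := by noncomm_ring
  have h3 : K.l (K.t x) * K.l d * K.X x * K.l r * K.l p = K.th x • (K.l d * K.l r * K.l p) := by
    rw [← K.th_TcX, smul_mul_assoc, smul_mul_assoc]
  rw [h3, h2, h1, mul_add, mul_add, add_mul, add_mul, ← mul_assoc (K.l (K.t x)) (K.l (K.b p d)), TpqX,
    mul_smul_comm, smul_mul_assoc, ← K.th_TcX, mul_smul_comm, mul_one, smul_mul_assoc, K.T_X, smul_zero,
    add_zero]
  rw [mul_smul]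
  have h4 : K.tau p r d • (1 : E) = K.k (K.b d r) p • (1 : E) := by
    have : K.tau p r d = K.tau d r p := by
      rw [K.tau_symm d r p, K.tau_cyc p r d, K.tau_cyc r d p]
    rw [this]; rfl
  rw [h4, ← hE, K.l_b, smul_comm (K.k p r), ← smul_add, ← smul_add, K.k_symm r p]
  congr 1
  noncomm_ring

end P

end E4
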