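import Pool.Agent.Lib.MP_8a95e3_al.P.P29

/-!
# P30 : the elements `BB` are independent of the ideal of `YZ + ZY`
-/

namespace E4

namespace P

open E4.X (FB eB C T Xl XP BB idl rp ret kls sqs sw)

variable {V Z E : Type} [AddCommGroup V] [CommRing Z] [Module Z V] [Ring E] [Algebra Z E]

theorem sum_van {α : Type} (P : α → Bool) (f : α → E) (Ms : List α)
    (h : ∀ M ∈ Ms, P M = false → f M = 0) : (Ms.map f).sum = ((Ms.filter P).map f).sum := by
  induction Ms with
  | nil => rfl
  | cons A Ms ih =>
    rw [List.map_cons, List.sum_cons, ih (fun M hM => h M (List.mem_cons_of_mem _ hM))]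
    by_cases hP : P A = true
    · rw [List.filter_cons_of_pos hP, List.map_cons, List.sum_cons]
    · rw [List.filter_cons_of_neg hP, h A List.mem_cons_self (by simpa using hP), zero_add]

theorem sum_fil {α : Type} (P : α → Bool) (f : α → E) (Ms : List α) :
    (Ms.map f).sum = ((Ms.filter P).map f).sum + ((Ms.filter (fun M => !P M)).map f).sum := by
  induction Ms with
  | nil => simp
  | cons A Ms ih =>
    rw [List.map_cons, List.sum_cons, ih]
    by_cases hP : P A = true
    · rw [List.filter_cons_of_pos hP, List.filter_cons_of_neg (by simpa using hP), List.map_cons,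
        List.sum_cons, add_assoc]
    · rw [List.filter_cons_of_neg hP, List.filter_cons_of_pos (by simpa using hP), List.map_cons,
        List.sum_cons]
      abel

/-- the identity for a list of monomials -/
def PI (K : PAlg F V Z E) (y q : ℕ) (R : (ℕ → F) → F → F → E) (Ms : List (List ℕ)) : Prop :=
  ∀ w g u, w y = g ^ 2 → w q = u ^ 2 → (Ms.map (vE K w)).sum + R w g u = 0

theorem PI_van {K : PAlg F V Z E} {y q : ℕ} {R : (ℕ → F) → F → F → E} {Ms : List (List ℕ)}
    (h : PI K y q R Ms) (P : List ℕ → Bool)
    (h0 : ∀ w g u, w y = g ^ 2 → w q = u ^ 2 → ∀ M ∈ Ms, P M = false → vE K w M = 0) :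
    PI K y q R (Ms.filter P) := by
  intro w g u hy hq
  rw [← sum_van P (vE K w) Ms (h0 w g u hy hq)]
  exact h w g u hy hq

theorem PI_fil {K : PAlg F V Z E} {y q : ℕ} {R : (ℕ → F) → F → F → E} {Ms : List (List ℕ)}
    (h : PI K y q R Ms) {j : ℕ} (hjy : j ≠ y)
    (hR : ∀ w g u, w y = g ^ 2 → w q = u ^ 2 → ∃ u', Function.update w j 1 q = u' ^ 2 ∧
      R (Function.update w j 1) g u' = 0) :
    PI K y q R (Ms.filter (fun M => decide (j ∈ M))) := by
  intro w g u hy hq
  obtain ⟨u', h1, h2⟩ := hR w g u hy hq
  have h3 := h (Function.update w j 1) g u' (by rw [Function.update_of_ne (Ne.symm hjy), hy]) h1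
  rw [h2, add_zero, sum_van (fun M => !decide (j ∈ M)) _ Ms (by
    intro M _ hM'
    apply vE_kill K (j := j) (by simpa using hM')
    rw [Function.update_self])] at h3
  have h4 : (Ms.filter (fun M => !decide (j ∈ M))).map (vE K (Function.update w j 1))
      = (Ms.filter (fun M => !decide (j ∈ M))).map (vE K w) := by
    apply List.map_congr_left
    intro M hM
    rw [List.mem_filter] at hM
    have hj : j ∉ M := by simpa using hM.2
    apply vE_congr
    intro i hi
    rw [Function.update_of_ne]
    rintro rfl; exact hj hi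
  rw [h4] at h3
  have h5 := h w g u hy hq
  rw [sum_fil (fun M => decide (j ∈ M)), h3, add_zero] at h5
  exact h5

theorem PI_D {K : PAlg F V Z E} {y q : ℕ} {R : (ℕ → F) → F → F → E} (D : Finset ℕ)
    (hD : ∀ j ∈ D, j ≠ y ∧ ∀ w g u, w y = g ^ 2 → w q = u ^ 2 → ∃ u', Function.update w j 1 q = u' ^ 2 ∧
      R (Function.update w j 1) g u' = 0) {Ms : List (List ℕ)} (h : PI K y q R Ms) :
    PI K y q R (Ms.filter (fun M => decide (D ⊆ M.toFinset))) := by
  induction D using Finset.induction_on with
  | empty =>
    have : Ms.filter (fun M => decide (∅ ⊆ M.toFinset)) = Ms := by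
      rw [List.filter_eq_self]
      intro M _
      simp
    rw [this]
    exact h
  | insert j D hj ih =>
    have h1 := ih (fun i hi => hD i (Finset.mem_insert_of_mem hi))
    have h2 := PI_fil h1 (hD j (Finset.mem_insert_self j D)).1 (hD j (Finset.mem_insert_self j D)).2
    rw [List.filter_filter] at h2
    have : Ms.filter (fun M => decide (insert j D ⊆ M.toFinset))
        = Ms.filter (fun M => decide (j ∈ M) && decide (D ⊆ M.toFinset)) := by
      apply List.filter_congr
      intro M _
      simp only [Finset.insert_subset_iff, List.mem_toFinset, Bool.decide_and]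
    rw [this]
    exact h2

/-! ### repeated P-letters -/

theorem mid' (K : PAlg F V Z E) (u h : F) : K.l (K.t u) * K.ρ h * K.l (K.t u) = 0 := K.mid u h

theorem X_sq' (K : PAlg F V Z E) (u : F) : K.X (u ^ 2) = K.l (K.t u) := by
  unfold PAlg.X
  rw [pow_two, map_mul, K.sq, add_comm (1 : E), add_assoc, K.ee, add_zero]

theorem vE_q1 (K : PAlg F V Z E) {w : ℕ → F} {q : ℕ} {u : F} (hq : w q = u ^ 2) (M : List ℕ) :
    q ∈ M → ∀ h : F, vE K w M * K.ρ h * K.l (K.t u) = 0 := by
  induction M with
  | nil => intro h; simp at h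
  | cons j M ih =>
    intro hj h
    show vE K w M * K.X (w j) * K.ρ h * K.l (K.t u) = 0
    by_cases hjq : q = j
    · rw [← hjq, hq, X_sq', mul_assoc (vE K w M), mul_assoc (vE K w M), mid', mul_zero]
    · have hM : q ∈ M := by
        rcases List.mem_cons.1 hj with h | h
        · exact absurd h hjq
        · exact h
      unfold PAlg.X
      have h1 := ih hM (w j * h)
      have h2 := ih hM h
      rw [map_mul] at h1
      calc vE K w M * (K.ρ (w j) + 1) * K.ρ h * K.l (K.t u)
          = vE K w M * (K.ρ (w j) * K.ρ h) * K.l (K.t u) + vE K w M * K.ρ h * K.l (K.t u) := by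
            noncomm_ring
        _ = 0 := by rw [h1, h2, add_zero]

theorem vE_q2 (K : PAlg F V Z E) {w : ℕ → F} {q : ℕ} {u : F} (hq : w q = u ^ 2) (M : List ℕ) :
    2 ≤ M.count q → vE K w M = 0 := by
  induction M with
  | nil => intro h; simp at h
  | cons j M ih =>
    intro hc
    show vE K w M * K.X (w j) = 0
    by_cases hjq : j = q
    · subst hjq
      rw [List.count_cons_self] at hc
      have hM : j ∈ M := List.count_pos_iff.1 (by omega)
      have := vE_q1 K hq M hM 1
      rw [map_one, mul_one] at this
      rw [hq, X_sq']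
      exact this
    · rw [List.count_cons_of_ne hjq] at hc
      rw [ih hc, zero_mul]

/-! ### vectors -/

/-- action of a monomial on vectors -/
noncomputable def vv (K : PAlg F V Z E) (w : ℕ → F) : List ℕ → (V →ₗ[Z] V)
  | [] => LinearMap.id
  | j :: M => vv K w M ∘ₗ (K.act (w j) + LinearMap.id)

theorem vv_Rep (K : PAlg F V Z E) (w : ℕ → F) (M : List ℕ) : ∃ f', K.Rep (vE K w M) (vv K w M) f' := by
  induction M with
  | nil => exact ⟨_, K.rep_one⟩
  | cons j M ih =>
    obtain ⟨f', h⟩ := ih
    exact ⟨_, K.rep_mul h (K.rep_X (w j))⟩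

theorem vvs_Rep (K : PAlg F V Z E) (w : ℕ → F) (Ms : List (List ℕ)) :
    ∃ f', K.Rep ((Ms.map (vE K w)).sum) ((Ms.map (vv K w)).sum) f' := by
  induction Ms with
  | nil => exact ⟨_, K.rep_zero⟩
  | cons M Ms ih =>
    obtain ⟨f', h⟩ := ih
    obtain ⟨f'', h'⟩ := vv_Rep K w M
    rw [List.map_cons, List.sum_cons, List.map_cons, List.sum_cons]
    exact ⟨_, K.rep_add h' h⟩

theorem phi_vv (K : PAlg F V Z E) (Pl : Finset ℕ) (x w : ℕ → F) (M : List ℕ) : ∀ p : ℕ → V,
    (∀ i ∈ Pl, ∃ g, w i = g ^ 2 ∧ p (sC i) = K.t g) → (∀ i, i ∉ Pl → w i = x i) →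
    phi K Pl x M p = K.k (p 0) (vv K w M (p 1)) := by
  induction M with
  | nil => intro p _ _; rfl
  | cons j M ih =>
    intro p h1 h2
    have hC : ∀ i (v : V), Function.update p 1 v (sC i) = p (sC i) := by
      intro i v
      rw [Function.update_of_ne (by unfold sC; omega)]
    have h0 : ∀ (v : V), Function.update p 1 v 0 = p 0 := by
      intro v
      rw [Function.update_of_ne (by omega)]
    have h3 : ∀ v : V, phi K Pl x M (Function.update p 1 v) = K.k (p 0) (vv K w M v) := by
      intro v
      rw [ih _ (fun i hi => by rw [hC]; exact h1 i hi) h2, h0, Function.update_self]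
    by_cases hj : j ∈ Pl
    · obtain ⟨g, e1, e2⟩ := h1 j hj
      have e3 : phi K Pl x (j :: M) p = phi K Pl x M (Function.update p 1 (K.b (p (sC j)) (p 1))) := by
        show (if j ∈ Pl then Sp K (sC j) (phi K Pl x M) else Sb K (x j) (phi K Pl x M)) p = _
        rw [if_pos hj]; rfl
      rw [e3, h3, e2]
      congr 1
      show _ = vv K w M ((K.act (w j) + LinearMap.id : V →ₗ[Z] V) (p 1))
      congr 1
      rw [LinearMap.add_apply, LinearMap.id_apply, e1, pow_two, K.act_sq, add_comm (p 1), add_assoc,
        K.vv, add_zero]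
    · have e3 : phi K Pl x (j :: M) p = phi K Pl x M (Function.update p 1 (K.act (x j) (p 1) + p 1)) := by
        show (if j ∈ Pl then Sp K (sC j) (phi K Pl x M) else Sb K (x j) (phi K Pl x M)) p = _
        rw [if_neg hj]; rfl
      rw [e3, h3, ← h2 j hj]
      rfl

omit [AddCommGroup V] [Module Z V] in
theorem sum_app {α : Type} (f : α → FS V Z) (Ms : List α) (p : ℕ → V) :
    ((Ms.map f).sum) p = (Ms.map (fun M => f M p)).sum := by
  induction Ms with
  | nil => rfl
  | cons A Ms ih =>
    rw [List.map_cons, List.sum_cons, List.map_cons, List.sum_cons, ← ih]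
    rfl

theorem sum_k (K : PAlg F V Z E) (w : ℕ → F) (Ms : List (List ℕ)) (u v : V) :
    (Ms.map (fun M => K.k u (vv K w M v))).sum = K.k u ((Ms.map (vv K w)).sum v) := by
  induction Ms with
  | nil => simp
  | cons A Ms ih =>
    rw [List.map_cons, List.sum_cons, List.map_cons, List.sum_cons, ih, LinearMap.add_apply, map_add]

theorem t_one (K : PAlg F V Z E) : K.t 1 = 0 := by
  apply K.l_inj
  rw [K.l_t, inv_one, K.ee]

theorem th_one (K : PAlg F V Z E) : K.th 1 = 0 := by
  apply K.faith
  intro s
  apply K.l_inj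
  rw [map_smul, K.th_TcX, X_one, mul_zero]

/-- independence, for lists of monomials -/
theorem indep [Nontrivial E] (K : PAlg F V Z E) (L : Finset ℕ) (m y q : ℕ) (hm : m ∈ L) (hy : y ∉ L)
    (hq : q ∉ L) (hyq : y ≠ q) (N : List ℕ) (hN : N.toFinset = L.erase m) (hNn : N.Nodup)
    (Ms : List (List ℕ)) (hc : ∀ M ∈ Ms, M.count y = 1)
    (h : PI K y q (fun w g u => (K.th (w m) * K.k (K.t g) (K.t u)) • vE K w N) Ms) : False := by
  have hmy : m ≠ y := by rintro rfl; exact hy hm
  have hmq : m ≠ q := by rintro rfl; exact hq hm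
  -- other letters
  have h1 : PI K y q (fun w g u => (K.th (w m) * K.k (K.t g) (K.t u)) • vE K w N)
      (Ms.filter (fun M => decide (M.toFinset ⊆ insert y (insert q L)))) := by
    intro w g u wy wq
    have h2 := h (fun i => if i ∈ insert y (insert q L) then w i else 1) g u (by simp [wy]) (by simp [wq])
    beta_reduce at h2
    have e1 : vE K (fun i => if i ∈ insert y (insert q L) then w i else 1) N = vE K w N := by
      apply vE_congr
      intro j hj
      have : j ∈ L.erase m := by rw [← hN]; exact List.mem_toFinset.2 hj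
      rw [if_pos]
      simp [Finset.mem_of_mem_erase this]
    rw [if_pos (show m ∈ insert y (insert q L) by simp [hm]), e1,
      sum_van (fun M => decide (M.toFinset ⊆ insert y (insert q L))) _ Ms (by
        intro M _ hM
        have hM' : ¬ M.toFinset ⊆ insert y (insert q L) := by simpa using hM
        rw [Finset.not_subset] at hM'
        obtain ⟨j, hj, hj'⟩ := hM'
        apply vE_kill K (List.mem_toFinset.1 hj)
        rw [if_neg hj'])] at h2
    rw [← h2]
    congr 2
    apply List.map_congr_left
    intro M hM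
    rw [List.mem_filter] at hM
    have hM' : M.toFinset ⊆ insert y (insert q L) := by simpa using hM.2
    apply vE_congr
    intro j hj
    rw [if_pos (hM' (List.mem_toFinset.2 hj))]
  -- all letters occur
  have h3 := PI_D (K := K) (insert q L) (by
    intro j hj
    have hjy : j ≠ y := by
      rcases Finset.mem_insert.1 hj with h0 | h0
      · rw [h0]; exact Ne.symm hyq
      · exact fun e0 => hy (e0 ▸ h0)
    refine ⟨hjy, fun w g u _ wq => ?_⟩
    by_cases hjq : j = q
    · refine ⟨1, by rw [hjq, Function.update_self]; simp, ?_⟩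
      rw [t_one, map_zero, mul_zero, zero_smul]
    · refine ⟨u, by rw [Function.update_of_ne (Ne.symm hjq), wq], ?_⟩
      by_cases hjm : j = m
      · rw [hjm, Function.update_self, th_one, zero_mul, zero_smul]
      · have hjL : j ∈ L := by
          rcases Finset.mem_insert.1 hj with h0 | h0
          · exact absurd h0 hjq
          · exact h0
        have hjN : j ∈ N := by
          rw [← List.mem_toFinset, hN]
          exact Finset.mem_erase.2 ⟨hjm, hjL⟩
        rw [vE_kill K hjN (Function.update_self _ _ _), smul_zero]) h1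
  -- the letter `q` occurs once
  have h4 := PI_van h3 (fun M => decide (M.count q = 1)) (by
    intro w g u _ wq M hM hc1
    rw [List.mem_filter] at hM
    have hq1 : insert q L ⊆ M.toFinset := by simpa using hM.2
    have hqM : q ∈ M := List.mem_toFinset.1 (hq1 (Finset.mem_insert_self q L))
    have := List.count_pos_iff.2 hqM
    have hc2 : M.count q ≠ 1 := by simpa using hc1
    apply vE_q2 K wq
    omega)
  -- the core
  refine coreB K L m y q hm hy hq hyq (((Ms.filter (fun M => decide
    (M.toFinset ⊆ insert y (insert q L)))).filter (fun M => decide (insert q L ⊆ M.toFinset))).filter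
      (fun M => decide (M.count q = 1))) ?_ N hN hNn ?_
  · intro M hM
    rw [List.mem_filter, List.mem_filter, List.mem_filter] at hM
    obtain ⟨⟨⟨hM1, hM2⟩, hM3⟩, hM4⟩ := hM
    have hM2' : M.toFinset ⊆ insert y (insert q L) := by simpa using hM2
    have hM3' : insert q L ⊆ M.toFinset := by simpa using hM3
    have hM4' : M.count q = 1 := by simpa using hM4
    have hy1 := hc M hM1
    refine ⟨?_, hy1, hM4'⟩
    apply Finset.Subset.antisymm hM2'
    rw [Finset.insert_subset_iff]
    exact ⟨List.mem_toFinset.2 (List.count_pos_iff.1 (by omega)), hM3'⟩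
  · intro x p hpy hpq
    obtain ⟨g, hg⟩ := hpy
    obtain ⟨u, hu⟩ := hpq
    have h5 := h4 (Function.update (Function.update x y (g ^ 2)) q (u ^ 2)) g u
      (by rw [Function.update_of_ne hyq, Function.update_self]) (by rw [Function.update_self])
    generalize ((Ms.filter (fun M => decide (M.toFinset ⊆ insert y (insert q L)))).filter
      (fun M => decide (insert q L ⊆ M.toFinset))).filter (fun M => decide (M.count q = 1)) = Ms4 at h5 ⊢
    beta_reduce at h5
    have hwm : Function.update (Function.update x y (g ^ 2)) q (u ^ 2) m = x m := by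
      rw [Function.update_of_ne hmq, Function.update_of_ne hmy]
    rw [hwm] at h5
    have hP : ∀ i ∈ ({y, q} : Finset ℕ), ∃ g', Function.update (Function.update x y (g ^ 2)) q (u ^ 2) i
        = g' ^ 2 ∧ p (sC i) = K.t g' := by
      intro i hi
      rcases Finset.mem_insert.1 hi with h | h
      · rw [h]
        exact ⟨g, by rw [Function.update_of_ne hyq, Function.update_self], hg⟩
      · rw [Finset.mem_singleton.1 h]
        exact ⟨u, by rw [Function.update_self], hu⟩
    have hN' : ∀ i, i ∉ ({y, q} : Finset ℕ) →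
        Function.update (Function.update x y (g ^ 2)) q (u ^ 2) i = x i := by
      intro i hi
      simp only [Finset.mem_insert, Finset.mem_singleton, not_or] at hi
      rw [Function.update_of_ne hi.2, Function.update_of_ne hi.1]
    generalize Function.update (Function.update x y (g ^ 2)) q (u ^ 2) = w at h5 hP hN'
    have e1 : ∀ M, phi K {y, q} x M p = K.k (p 0) (vv K w M (p 1)) := fun M =>
      phi_vv K {y, q} x w M p hP hN'
    rw [sum_app]
    simp only [e1, hg, hu]
    rw [sum_k]
    obtain ⟨f', hf'⟩ := vvs_Rep K w Ms4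
    obtain ⟨f'', hf''⟩ := vv_Rep K w N
    have r1 := K.rep_add hf' (K.rep_smul (K.th (x m) * K.k (K.t g) (K.t u)) hf'')
    rw [K.rep_zero_iff r1] at h5
    have h6 := congrArg (fun f => K.k (p 0) (f (p 1))) h5
    simp only [LinearMap.add_apply, LinearMap.smul_apply, map_add, map_smul, smul_eq_mul,
      LinearMap.zero_apply, map_zero] at h6
    rw [← h6]
    ring

end P

end E4
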