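import Pool.Agent.Lib.MP_8a95e3_al.P.P30

/-!
# P31 : the field `parB`, coefficient of `BB`
-/

namespace E4

namespace P

open E4.X (FB eB C T Xl XP BB idl rp ret kls sqs sw)

variable {V Z E : Type} [AddCommGroup V] [CommRing Z] [Module Z V] [Ring E] [Algebra Z E]

theorem vE_rev (K : PAlg F V Z E) (w : ℕ → F) (l : List ℕ) :
    vE K w l.reverse = (l.map (fun j => K.X (w j))).prod := by
  induction l with
  | nil => rfl
  | cons j l ih =>
    rw [List.reverse_cons, vE_append, ih, List.map_cons, List.prod_cons]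
    show (1 * K.X (w j)) * _ = _
    rw [one_mul]

/-- a sum of operators as a linear map -/
theorem sumlin (K : PAlg F V Z E) (w : ℕ → F) (Ms : List (List ℕ × List ℕ)) :
    ∃ r : V →ₗ[Z] E, ∀ v, r v = (Ms.map (fun A => vE K w A.1 * K.l v * vE K w A.2)).sum := by
  induction Ms with
  | nil => exact ⟨0, fun v => rfl⟩
  | cons A Ms ih =>
    obtain ⟨r, hr⟩ := ih
    refine ⟨(LinearMap.mulRight Z (vE K w A.2)) ∘ₗ (LinearMap.mulLeft Z (vE K w A.1)) ∘ₗ K.l + r,
      fun v => ?_⟩
    rw [LinearMap.add_apply, hr, List.map_cons, List.sum_cons]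
    rfl

section

variable {K : PAlg F V Z E} {e : FB →+* E} {P0 : AddSubgroup FB} (M : Md K e P0)

include M

theorem Md.evx_XP (w : ℕ → F) (H : Finset ℕ) :
    evx e w (XP H) = vE K w (H.sort (· ≤ ·)).reverse := by
  rw [vE_rev]
  show evx e w (((H.sort (· ≤ ·)).map Xl).prod) = _
  rw [map_list_prod, List.map_map]
  congr 1
  apply List.map_congr_left
  intro j _
  exact M.evx_Xl w j

theorem Md.evx_BB (w : ℕ → F) (m y z q : ℕ) {g h u : F} (hy : w y = g ^ 2) (hz : w z = h ^ 2)
    (hq : w q = u ^ 2) :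
    evx e w (BB m y z q) = (K.th (w m) * K.tau (K.t g) (K.t h) (K.t u)) • (1 : E) := by
  unfold E4.X.BB
  rw [map_add, map_mul, map_mul, map_mul, map_mul, map_mul, map_mul, map_mul, map_mul, M.evx_T, M.evx_C,
    lift_x, M.evx_Xl_sq w y hy, M.evx_Xl_sq w z hz, M.evx_Xl_sq w q hq, BBval]

/-- **the coefficient `β`** -/
theorem Md.beta [Nontrivial E] (L : Finset ℕ) (m y z q : ℕ) (hm : m ∈ L) (hyz : y ≠ z) (hyq : y ≠ q)
    (hzq : z ≠ q) (hy : y ∉ L) (hz : z ∉ L) (hq : q ∉ L) (s : FB)
    (hs : s ∈ idl {Xl y * Xl z + Xl z * Xl y})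
    (h : eB (sqs {y, z, q}) (s + XP (L.erase m) * BB m y z q) ∈ P0) : False := by
  rw [M.sq_iff] at h
  obtain ⟨Ms, hMs, hev⟩ := M.idlsum y z hyz s hs
  obtain ⟨N, hNd⟩ : ∃ N, N = ((L.erase m).sort (· ≤ ·)).reverse := ⟨_, rfl⟩
  have hN : N.toFinset = L.erase m := by
    rw [hNd, List.toFinset_reverse, Finset.sort_toFinset]
  have hNn : N.Nodup := by
    rw [hNd, List.nodup_reverse]
    exact Finset.sort_nodup _ _
  have hNL : ∀ j ∈ N, j ∈ L := by
    intro j hj
    have : j ∈ L.erase m := by rw [← hN]; exact List.mem_toFinset.2 hj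
    exact Finset.mem_of_mem_erase this
  have hmy : m ≠ y := fun e0 => hy (e0 ▸ hm)
  have hmz : m ≠ z := fun e0 => hz (e0 ▸ hm)
  -- the identity
  have key : ∀ (w : ℕ → F) (g h u : F), w y = g ^ 2 → w z = h ^ 2 → w q = u ^ 2 →
      (Ms.map (fun A => vE K w A.1 * K.l (K.b (K.t g) (K.t h)) * vE K w A.2)).sum
        + (K.th (w m) * K.tau (K.t g) (K.t h) (K.t u)) • vE K w N = 0 := by
    intro w g h' u wy wz wq
    have h1 := h w (by
      intro i hi
      simp only [Finset.mem_insert, Finset.mem_singleton] at hi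
      rcases hi with h | h | h
      · exact ⟨g, by rw [h, wy]⟩
      · exact ⟨h', by rw [h, wz]⟩
      · exact ⟨u, by rw [h, wq]⟩)
    rw [map_add, hev w g h' wy wz, map_mul, M.evx_BB w m y z q wy wz wq, M.evx_XP, ← hNd,
      mul_smul_comm, mul_one] at h1
    exact h1
  apply indep K L m y q hm hy hq hyq N hN hNn (Ms.map (fun A => A.2 ++ y :: A.1))
  · intro A' hA'
    rw [List.mem_map] at hA'
    obtain ⟨A, hA, rfl⟩ := hA'
    obtain ⟨h1, _, h3, _⟩ := hMs A hA
    rw [List.count_append, List.count_cons_self, List.count_eq_zero_of_not_mem h3,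
      List.count_eq_zero_of_not_mem h1]
  · intro w g u wy wq
    obtain ⟨r, hr⟩ := sumlin K w Ms
    let r' : V →ₗ[Z] E := r + ((LinearMap.toSpanSingleton Z E (vE K w N)) ∘ₗ
      (K.th (w m) • K.k.flip (K.t u)))
    have hr' : ∀ v, r' v = (Ms.map (fun A => vE K w A.1 * K.l v * vE K w A.2)).sum
        + (K.th (w m) * K.k v (K.t u)) • vE K w N := by
      intro v
      show r v + (K.th (w m) * K.k v (K.t u)) • vE K w N = _
      rw [hr]
    have hr0 : r' = 0 := by
      apply K.T1 K.tf_E
      intro a b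
      have hB : ∀ a b, (LinearMap.compr₂ K.b r') a b = r' (K.b a b) := fun _ _ => rfl
      rw [← hB]
      apply bil_zero (K := K)
      intro g' h'
      rw [hB, hr']
      have h2 := key (Function.update (Function.update w y (g' ^ 2)) z (h' ^ 2)) g' h' u
        (by rw [Function.update_of_ne hyz, Function.update_self]) (by rw [Function.update_self])
        (by rw [Function.update_of_ne (Ne.symm hzq), Function.update_of_ne (Ne.symm hyq), wq])
      have e1 : ∀ A : List ℕ, y ∉ A → z ∉ A →
          vE K (Function.update (Function.update w y (g' ^ 2)) z (h' ^ 2)) A = vE K w A := by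
        intro A h1 h3
        apply vE_congr
        intro j hj
        have n1 : j ≠ z := fun e0 => h3 (e0 ▸ hj)
        have n2 : j ≠ y := fun e0 => h1 (e0 ▸ hj)
        rw [Function.update_of_ne n1, Function.update_of_ne n2]
      have e2 : Ms.map (fun A => vE K (Function.update (Function.update w y (g' ^ 2)) z (h' ^ 2)) A.1
            * K.l (K.b (K.t g') (K.t h'))
            * vE K (Function.update (Function.update w y (g' ^ 2)) z (h' ^ 2)) A.2)
          = Ms.map (fun A => vE K w A.1 * K.l (K.b (K.t g') (K.t h')) * vE K w A.2) := by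
        apply List.map_congr_left
        intro A hA
        obtain ⟨h1, h3, h4, h5⟩ := hMs A hA
        rw [e1 _ h1 h3, e1 _ h4 h5]
      rw [e2, e1 N (fun h0 => hy (hNL y h0)) (fun h0 => hz (hNL z h0)),
        Function.update_of_ne hmz, Function.update_of_ne hmy] at h2
      exact h2
    have h3 := hr' (K.t g)
    rw [hr0, LinearMap.zero_apply] at h3
    rw [List.map_map]
    have e3 : Ms.map (vE K w ∘ fun A => A.2 ++ y :: A.1)
        = Ms.map (fun A => vE K w A.1 * K.l (K.t g) * vE K w A.2) := by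
      apply List.map_congr_left
      intro A _
      show vE K w (A.2 ++ y :: A.1) = _
      rw [vE_append]
      show (vE K w A.1 * K.X (w y)) * vE K w A.2 = _
      rw [wy, X_sq']
    rw [e3]
    exact h3.symm

end

end P

end E4
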