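import Pool.Agent.Lib.MP_8a95e3_al.P.P31
import Pool.Agent.Lib.MP_8a95e3_al.PX4c
import Pool.Agent.Lib.MP_8a95e3_al.PX6d
import Pool.Agent.Lib.MP_8a95e3_al.PX9b

/-!
# P32 : the field `parB` and the structure `A0F`
-/

namespace E4

namespace P

open E4.X (FB eB C T Xl XP BB idl rp ret kls sqs sw A0F)

variable {V Z E : Type} [AddCommGroup V] [CommRing Z] [Module Z V] [Ring E] [Algebra Z E]

theorem th_sq (K : PAlg F V Z E) (v : F) : K.th (v ^ 2) = 0 := by
  have h := K.th_mul_sq 1 v
  rw [one_mul, th_one, t_one, map_zero, LinearMap.zero_apply, add_zero] at h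
  rw [pow_two, h]

theorem two_cases (a : ZMod 2) : a = 0 ∨ a = 1 := by
  revert a; decide

section

variable {K : PAlg F V Z E} {e : FB →+* E} {P0 : AddSubgroup FB} (M : Md K e P0)

include M

/-- **the field `parB`** -/
theorem Md.parB [Nontrivial E] (L : Finset ℕ) (m y z q : ℕ) (hm : m ∈ L) (hyz : y ≠ z) (hyq : y ≠ q)
    (hzq : z ≠ q) (hy : y ∉ L) (hz : z ∉ L) (hq : q ∉ L) (s : FB)
    (hs : s ∈ idl {Xl y * Xl z + Xl z * Xl y}) (hk : ∀ j ∈ insert q L, eB (rp j 1) s = 0)
    (hr : eB (ret (insert y (insert z (insert q L)))) s = s) (ε β : ZMod 2)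
    (h : eB (sqs {y, z, q}) (s + ε • (Xl y * XP (insert q L) * Xl z + Xl z * XP (insert q L) * Xl y) +
      β • (XP (L.erase m) * BB m y z q)) ∈ P0) : ε = 0 ∧ β = 0 := by
  have hyH : y ∉ insert q L := by simp [hyq, hy]
  have hzH : z ∉ insert q L := by simp [hzq, hz]
  have hqm : q ≠ m := fun e0 => hq (e0 ▸ hm)
  have hQ : ({q, m} : Finset ℕ) ⊆ insert q L := by
    intro i hi
    simp only [Finset.mem_insert, Finset.mem_singleton] at hi ⊢
    rcases hi with h | h
    · exact Or.inl h
    · exact Or.inr (h ▸ hm)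
  have he : ε = 0 := by
    rcases two_cases ε with h0 | h0
    · exact h0
    exfalso
    rw [h0, one_smul] at h
    have h1 : eB (sqs (insert y (insert z ({q, m} : Finset ℕ))))
        (s + Xl y * XP (insert q L) * Xl z + Xl z * XP (insert q L) * Xl y) ∈ P0 := by
      rw [M.sq_iff] at h ⊢
      intro w hw
      obtain ⟨g, wy⟩ := hw y (by simp)
      obtain ⟨g', wz⟩ := hw z (by simp)
      obtain ⟨u, wq⟩ := hw q (by simp)
      obtain ⟨v, wm⟩ := hw m (by simp)
      have h2 := h w (by
        intro i hi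
        apply hw
        simp only [Finset.mem_insert, Finset.mem_singleton] at hi ⊢
        tauto)
      have h3 : evx e w (β • (XP (L.erase m) * BB m y z q)) = 0 := by
        rcases two_cases β with h4 | h4
        · rw [h4, zero_smul, map_zero]
        · rw [h4, one_smul, map_mul, M.evx_BB w m y z q wy wz wq, wm, th_sq, zero_mul, zero_smul,
            mul_zero]
      rw [map_add, h3, add_zero, ← add_assoc] at h2
      exact h2
    have hc2 : 2 ≤ (insert q L).card := by
      have h5 := Finset.card_le_card hQ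
      rw [Finset.card_pair hqm] at h5
      exact h5
    cases hb : (insert q L).card.bodd with
    | false => exact M.par_even (insert q L) {q, m} y z hyz hyH hzH hb hc2 s hs hk hr h1
    | true =>
      refine M.par (insert q L) {q, m} y z hyz hyH hzH hQ ?_ s hs hk hr h1
      intro e0
      rw [← e0, Finset.card_pair hqm] at hb
      revert hb
      decide
  refine ⟨he, ?_⟩
  rcases two_cases β with h0 | h0
  · exact h0
  exfalso
  rw [he, zero_smul, add_zero, h0, one_smul] at h
  exact M.beta L m y z q hm hyz hyq hzq hy hz hq s hs h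

/-- **the facts about the model** -/
theorem A0F_of [Nontrivial E] : A0F P0 where
  ti := M.ti
  t1 := fun y z t => M.t1 y z t
  par := fun H Q y z hyz hy hz hQ hne => M.par H Q y z hyz hy hz hQ hne
  parB := fun L m y z q h1 h2 h3 h4 h5 h6 h7 s hs hk hr ε β h =>
    M.parB L m y z q h1 h2 h3 h4 h5 h6 h7 s hs hk hr ε β h
  lam := M.lam
  tr := fun L y z h1 h2 h3 s hs w k h4 h5 h6 => M.tr L y z h1 h2 h3 s hs w k h4 h5 h6
  o3 := M.o3
  e0 := fun y z h g => M.e0 y z h g
  b1 := fun j => M.b1 j
  b2 := fun j q h => M.b2 j q h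

end

end P

end E4
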